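import Pool.Agent.Dom94.Ring

/-! Final assembly: an upper bound `20 γ ≤ 7 n + K` with `K < 20` gives the sharp bound. -/

namespace Pool.Agent.H94.Dom

theorem univ_dominating {V : Type*} [Fintype V] (G : SimpleGraph V) :
    IsDominating G Finset.univ := fun v => Or.inl (Finset.mem_univ v)

theorem domNum_le {V : Type*} (G : SimpleGraph V) (D : Finset V)
    (hD : IsDominating G D) : domNum G ≤ D.card := Nat.sInf_le ⟨D, hD, rfl⟩

theorem domNum_spec {V : Type*} [Fintype V] (G : SimpleGraph V) :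
    ∃ D : Finset V, IsDominating G D ∧ D.card = domNum G := by
  have h : {k | ∃ D : Finset V, IsDominating G D ∧ D.card = k}.Nonempty :=
    ⟨_, Finset.univ, univ_dominating G, rfl⟩
  exact Nat.sInf_mem h

theorem f_set_bdd (n : ℕ) :
    BddAbove {k | ∃ G : SimpleGraph (Fin n), G.Connected ∧ IsCubic G ∧ domNum G = k} := by
  refine ⟨n, ?_⟩
  rintro k ⟨G, -, -, rfl⟩
  have := domNum_le G Finset.univ (univ_dominating G)
  rwa [Finset.card_univ, Fintype.card_fin] at this

/-- The value `f n` is at most `B` as soon as every connected cubic graph has a dominating set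
of size at most `B`. -/
theorem f_le (n B : ℕ) (h : ∀ G : SimpleGraph (Fin n), G.Connected → IsCubic G →
    domNum G ≤ B) : f n ≤ B := by
  unfold f
  rcases Set.eq_empty_or_nonempty
    {k | ∃ G : SimpleGraph (Fin n), G.Connected ∧ IsCubic G ∧ domNum G = k} with he | hne
  · rw [he, csSup_empty]
    exact Nat.zero_le _
  · obtain ⟨G, hG, hc, hk⟩ := Nat.sSup_mem hne (f_set_bdd n)
    rw [← hk]
    exact h G hG hc

theorem le_f (n : ℕ) (G : SimpleGraph (Fin n)) (hG : G.Connected) (hc : IsCubic G) :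
    domNum G ≤ f n := le_csSup (f_set_bdd n) ⟨G, hG, hc, rfl⟩

/-- Lower bound: `7 (k+1) ≤ f ((k+1) * 20)`. -/
theorem lower_f (k : ℕ) : 7 * (k + 1) ≤ f ((k + 1) * 20) := by
  obtain ⟨G, hG, hc, hD⟩ := exists_ring k
  refine le_trans ?_ (le_f _ G hG hc)
  obtain ⟨D, h1, h2⟩ := domNum_spec G
  rw [← h2]
  exact hD D h1

/-- The sharp bound from an upper bound with an additive constant less than one. -/
theorem sharp (K : ℕ) (hK : K < 20)
    (hU : ∀ (n : ℕ) (G : SimpleGraph (Fin n)), G.Connected → IsCubic G →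
      ∃ D : Finset (Fin n), IsDominating G D ∧ 20 * D.card ≤ 7 * n + K) :
    (∀ n : ℕ, f n ≤ (7 * n + K) / 20) ∧
    (∀ k : ℕ, 1 ≤ k → f (20 * k) = (7 * (20 * k) + K) / 20 ∧ f (20 * k) = 7 * k) := by
  have h1 : ∀ n : ℕ, f n ≤ (7 * n + K) / 20 := by
    intro n
    refine f_le n _ ?_
    intro G hG hc
    obtain ⟨D, hD, hcard⟩ := hU n G hG hc
    have := domNum_le G D hD
    omega
  refine ⟨h1, ?_⟩
  intro k hk
  obtain ⟨m, rfl⟩ : ∃ m, k = m + 1 := ⟨k - 1, by omega⟩
  have h2 := lower_f m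
  have h3 := h1 (20 * (m + 1))
  rw [mul_comm (m + 1) 20] at h2
  constructor <;> omega

end Pool.Agent.H94.Dom
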