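import Mathlib

/-! Bit masks with kernel-friendly enumeration. -/

namespace Pool.Agent.H94.Dom

/-- Indices of the set bits, highest first. -/
def elems : ℕ → ℕ → List ℕ
  | 0, _ => []
  | k + 1, m => bif Nat.beq m 0 then [] else Nat.log2 m :: elems k (m ^^^ (1 <<< Nat.log2 m))

/-- Set bits as a finset. -/
def bits (m : ℕ) : Finset ℕ := (Finset.range 32).filter (fun i => m.testBit i = true)

theorem mem_bits {m i : ℕ} : i ∈ bits m ↔ i < 32 ∧ m.testBit i = true := by
  simp [bits]

theorem lt_of_testBit {m k i : ℕ} (h : m < 2 ^ k) (hi : m.testBit i = true) : i < k := by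
  by_contra hc
  push Not at hc
  have := Nat.testBit_lt_two_pow (i := i) (lt_of_lt_of_le h (Nat.pow_le_pow_right (by norm_num) hc))
  simp [this] at hi

theorem mem_bits_of_lt {m i : ℕ} (h : m < 2 ^ 32) : i ∈ bits m ↔ m.testBit i = true := by
  rw [mem_bits]
  exact ⟨fun h => h.2, fun h' => ⟨lt_of_testBit h h', h'⟩⟩

theorem testBit_log2 {m : ℕ} (h : m ≠ 0) : m.testBit (Nat.log2 m) = true := by
  have h1 : 2 ^ Nat.log2 m ≤ m := Nat.log2_self_le h
  have h2 : m < 2 ^ (Nat.log2 m + 1) := Nat.lt_log2_self
  rw [Nat.testBit_eq_decide_div_mod_eq]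
  have : m / 2 ^ Nat.log2 m = 1 := by
    apply Nat.div_eq_of_lt_le
    · simpa using h1
    · rw [pow_succ] at h2; linarith
  simp [this]

theorem testBit_clear {m : ℕ} (h : m ≠ 0) (i : ℕ) :
    (m ^^^ (1 <<< Nat.log2 m)).testBit i = (m.testBit i && decide (i ≠ Nat.log2 m)) := by
  rw [Nat.testBit_xor, Nat.one_shiftLeft, Nat.testBit_two_pow]
  by_cases hi : Nat.log2 m = i
  · subst hi
    simp [testBit_log2 h]
  · have : i ≠ Nat.log2 m := fun h => hi h.symm
    simp [hi, this]

theorem clear_lt {m k : ℕ} (h : m ≠ 0) (hm : m < 2 ^ (k + 1)) : m ^^^ (1 <<< Nat.log2 m) < 2 ^ k := by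
  apply Nat.lt_pow_two_of_testBit
  intro i hi
  rw [testBit_clear h]
  by_cases h1 : m.testBit i = true
  · have h2 : i < k + 1 := lt_of_testBit hm h1
    have h3 : i = k := by omega
    have h4 : Nat.log2 m < k + 1 := by
      apply lt_of_testBit hm (testBit_log2 h)
    have h5 : k ≤ Nat.log2 m := by
      subst h3
      have h6 := Nat.ge_two_pow_of_testBit h1
      exact (Nat.le_log2 h).2 h6
    have : i = Nat.log2 m := by omega
    simp [this]
  · simp [h1]

theorem mem_elems : ∀ {k m : ℕ}, m < 2 ^ k → ∀ i, (i ∈ elems k m ↔ m.testBit i = true)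
  | 0, m, h, i => by
    have : m = 0 := by simpa using h
    simp [elems, this]
  | k + 1, m, h, i => by
    unfold elems
    by_cases h0 : m = 0
    · subst h0; simp
    · have hb : Nat.beq m 0 = false := by
        rw [← Bool.not_eq_true]
        intro hh
        exact h0 (Nat.eq_of_beq_eq_true hh)
      rw [hb, cond_false, List.mem_cons, mem_elems (clear_lt h0 h), testBit_clear h0]
      by_cases hi : i = Nat.log2 m
      · simp [hi, testBit_log2 h0]
      · simp [hi]

theorem nodup_elems : ∀ {k m : ℕ}, m < 2 ^ k → (elems k m).Nodup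
  | 0, m, h => by simp [elems]
  | k + 1, m, h => by
    unfold elems
    by_cases h0 : m = 0
    · subst h0; simp
    · have hb : Nat.beq m 0 = false := by
        rw [← Bool.not_eq_true]
        intro hh
        exact h0 (Nat.eq_of_beq_eq_true hh)
      rw [hb, cond_false, List.nodup_cons]
      refine ⟨?_, nodup_elems (clear_lt h0 h)⟩
      rw [mem_elems (clear_lt h0 h), testBit_clear h0]
      simp

theorem toFinset_elems {m : ℕ} (h : m < 2 ^ 32) : (elems 32 m).toFinset = bits m := by
  ext i
  rw [List.mem_toFinset, mem_elems h, mem_bits_of_lt h]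

theorem sum_elems {M : Type*} [AddCommMonoid M] {m : ℕ} (h : m < 2 ^ 32) (f : ℕ → M) :
    ((elems 32 m).map f).sum = ∑ i ∈ bits m, f i := by
  rw [← toFinset_elems h, List.sum_toFinset f (nodup_elems h)]

/-- Number of set bits. -/
def pc (m : ℕ) : ℕ := (elems 32 m).length

theorem pc_eq {m : ℕ} (h : m < 2 ^ 32) : pc m = (bits m).card := by
  unfold pc
  rw [← toFinset_elems h, List.toFinset_card_of_nodup (nodup_elems h)]

/-- The full mask on `n` bits. -/
def ones (n : ℕ) : ℕ := 2 ^ n - 1

theorem testBit_ones (n i : ℕ) : (ones n).testBit i = decide (i < n) := by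
  unfold ones
  rw [Nat.testBit_two_pow_sub_one]

/-- `a` is a submask of `b`. -/
def subm (a b : ℕ) : Bool := Nat.beq (a &&& b) a

theorem subm_iff {a b : ℕ} (h : subm a b = true) (i : ℕ) (hi : a.testBit i = true) :
    b.testBit i = true := by
  have : a &&& b = a := Nat.eq_of_beq_eq_true h
  rw [← this, Nat.testBit_and] at hi
  simp at hi
  exact hi.2

theorem subm_of {a b : ℕ} (h : ∀ i, a.testBit i = true → b.testBit i = true) : subm a b = true := by
  unfold subm
  have : a &&& b = a := by
    apply Nat.eq_of_testBit_eq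
    intro i
    rw [Nat.testBit_and]
    by_cases hi : a.testBit i = true
    · simp [hi, h i hi]
    · simp [hi]
  rw [this]
  exact Nat.beq_refl a

/-- `a` and `b` have no common bit. -/
def disj (a b : ℕ) : Bool := Nat.beq (a &&& b) 0

theorem disj_iff {a b : ℕ} (h : disj a b = true) (i : ℕ) (hi : a.testBit i = true) :
    b.testBit i = false := by
  have h1 : a &&& b = 0 := Nat.eq_of_beq_eq_true h
  have : (a &&& b).testBit i = false := by rw [h1]; simp
  rw [Nat.testBit_and, hi] at this
  simpa using this

theorem disj_false {a b : ℕ} (h : disj a b = false) :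
    ∃ i, a.testBit i = true ∧ b.testBit i = true := by
  by_contra hc
  push Not at hc
  have h1 : a &&& b = 0 := by
    apply Nat.eq_of_testBit_eq
    intro i
    rw [Nat.testBit_and]
    by_cases hi : a.testBit i = true
    · have := hc i hi
      simp [hi, this]
    · simp [hi]
  unfold disj at h
  rw [h1] at h
  simp at h

end Pool.Agent.H94.Dom
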