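import Pool.Agent.Dom94.Lower

/-! Every dominating set meets every block in at least seven vertices. -/

namespace Pool.Agent.H94.Dom

theorem to_or (b : Fin 20 → Bool) (a : Fin 20) (l : List (Fin 20))
    (hl : ∀ c, blk a c = true → c ∈ l)
    (h : b a = true ∨ ∃ c, blk a c = true ∧ b c = true) : (b a || l.any b) = true := by
  rcases h with h | ⟨c, hc, hb⟩
  · rw [h, Bool.true_or]
  · rw [Bool.or_eq_true]
    right
    rw [List.any_eq_true]
    exact ⟨c, hl c hc, hb⟩

/-- Consequence of domination of the six inner vertices of a pole. -/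
theorem pole_two (b0 b1 b2 b3 b4 b5 b6 b7 : Bool)
    (h1 : (b1 || (b0 || (b3 || b4))) = true) (h3 : (b3 || (b1 || (b6 || b7))) = true)
    (h4 : (b4 || (b1 || (b6 || b7))) = true) (h5 : (b5 || (b0 || (b2 || b6))) = true)
    (h6 : (b6 || (b3 || (b4 || b5))) = true) (h7 : (b7 || (b2 || (b3 || b4))) = true) :
    2 ≤ poleCount b0 b1 b2 b3 b4 b5 b6 b7 ∧
      (3 ≤ poleCount b0 b1 b2 b3 b4 b5 b6 b7 ∨
        ((b0 || (b1 || b5)) = false ∧ (b2 || (b5 || b7)) = false)) := by
  have hin : poleInner b0 b1 b2 b3 b4 b5 b6 b7 = true := by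
    unfold poleInner
    rw [Bool.or_assoc, Bool.or_assoc] at *
    simp only [Bool.or_assoc, h1, h3, h4, h5, h6, h7, Bool.and_self]
  have h := poleCheck_all b0 b1 b2 b3 b4 b5 b6 b7
  unfold poleCheck at h
  rw [hin, Bool.not_true, Bool.false_or, Bool.and_eq_true, Bool.or_eq_true,
    decide_eq_true_eq, decide_eq_true_eq] at h
  refine ⟨h.1, ?_⟩
  rcases h.2 with h2 | h2
  · exact Or.inl h2
  · right
    unfold poleEnd at h2
    rw [Bool.not_eq_true', Bool.or_eq_false_iff, Bool.or_assoc, Bool.or_assoc] at h2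
    exact h2

theorem block_count (b : Fin 20 → Bool)
    (h : ∀ a : Fin 20, 2 ≤ a.val → b a = true ∨ ∃ c, blk a c = true ∧ b c = true) :
    7 ≤ ∑ a, (b a).toNat := by
  have e3 := to_or b 3 [0, 1, 2] (by decide) (h 3 (by decide))
  have e4 := to_or b 4 [5, 9, 0] (by decide) (h 4 (by decide))
  have e5 := to_or b 5 [4, 7, 8] (by decide) (h 5 (by decide))
  have e6 := to_or b 6 [9, 11, 2] (by decide) (h 6 (by decide))
  have e7 := to_or b 7 [5, 10, 11] (by decide) (h 7 (by decide))
  have e8 := to_or b 8 [5, 10, 11] (by decide) (h 8 (by decide))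
  have e9 := to_or b 9 [4, 6, 10] (by decide) (h 9 (by decide))
  have e10 := to_or b 10 [7, 8, 9] (by decide) (h 10 (by decide))
  have e11 := to_or b 11 [6, 7, 8] (by decide) (h 11 (by decide))
  have e12 := to_or b 12 [13, 17, 1] (by decide) (h 12 (by decide))
  have e13 := to_or b 13 [12, 15, 16] (by decide) (h 13 (by decide))
  have e14 := to_or b 14 [17, 19, 2] (by decide) (h 14 (by decide))
  have e15 := to_or b 15 [13, 18, 19] (by decide) (h 15 (by decide))
  have e16 := to_or b 16 [13, 18, 19] (by decide) (h 16 (by decide))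
  have e17 := to_or b 17 [12, 14, 18] (by decide) (h 17 (by decide))
  have e18 := to_or b 18 [15, 16, 17] (by decide) (h 18 (by decide))
  have e19 := to_or b 19 [14, 15, 16] (by decide) (h 19 (by decide))
  clear h
  simp only [List.any_cons, List.any_nil, Bool.or_false] at e3 e4 e5 e6 e7 e8 e9 e10 e11 e12 e13 e14 e15 e16 e17 e18 e19
  have p1 := pole_two (b 4) (b 5) (b 6) (b 7) (b 8) (b 9) (b 10) (b 11) e5 e7 e8 e9 e10 e11
  have p2 := pole_two (b 12) (b 13) (b 14) (b 15) (b 16) (b 17) (b 18) (b 19)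
    e13 e15 e16 e17 e18 e19
  have hsum : ∑ a, (b a).toNat = (b 0).toNat + (b 1).toNat + (b 2).toNat + (b 3).toNat +
      poleCount (b 4) (b 5) (b 6) (b 7) (b 8) (b 9) (b 10) (b 11) +
      poleCount (b 12) (b 13) (b 14) (b 15) (b 16) (b 17) (b 18) (b 19) := by
    unfold poleCount
    rw [Fin.sum_univ_castSucc, Fin.sum_univ_castSucc, Fin.sum_univ_castSucc,
      Fin.sum_univ_castSucc, Fin.sum_univ_castSucc, Fin.sum_univ_castSucc,
      Fin.sum_univ_castSucc, Fin.sum_univ_castSucc, Fin.sum_univ_castSucc,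
      Fin.sum_univ_castSucc, Fin.sum_univ_castSucc, Fin.sum_univ_castSucc,
      Fin.sum_univ_castSucc, Fin.sum_univ_castSucc, Fin.sum_univ_castSucc,
      Fin.sum_univ_castSucc, Fin.sum_univ_castSucc, Fin.sum_univ_castSucc,
      Fin.sum_univ_castSucc, Fin.sum_univ_castSucc, Fin.sum_univ_zero]
    simp only [add_assoc, zero_add]
    rfl
  rw [hsum]
  clear hsum
  have k3 : 1 ≤ (b 0).toNat + (b 1).toNat + (b 2).toNat + (b 3).toNat := by
    revert e3
    cases b 0 <;> cases b 1 <;> cases b 2 <;> cases b 3 <;> simp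
  have q1 : 3 ≤ poleCount (b 4) (b 5) (b 6) (b 7) (b 8) (b 9) (b 10) (b 11) ∨
      (1 ≤ (b 0).toNat ∧ 1 ≤ (b 2).toNat) := by
    rcases p1.2 with h | ⟨h0, h2⟩
    · exact Or.inl h
    · right
      simp only [Bool.or_eq_false_iff] at h0 h2
      rw [h0.1, h0.2.1, h0.2.2] at e4
      rw [h2.1, h2.2.1, h2.2.2] at e6
      simp only [Bool.false_or] at e4 e6
      rw [e4, e6]
      decide
  have q2 : 3 ≤ poleCount (b 12) (b 13) (b 14) (b 15) (b 16) (b 17) (b 18) (b 19) ∨
      (1 ≤ (b 1).toNat ∧ 1 ≤ (b 2).toNat) := by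
    rcases p2.2 with h | ⟨h0, h2⟩
    · exact Or.inl h
    · right
      simp only [Bool.or_eq_false_iff] at h0 h2
      rw [h0.1, h0.2.1, h0.2.2] at e12
      rw [h2.1, h2.2.1, h2.2.2] at e14
      simp only [Bool.false_or] at e12 e14
      rw [e12, e14]
      decide
  have r1 := p1.1
  have r2 := p2.1
  clear p1 p2 e3 e4 e5 e6 e7 e8 e9 e10 e11 e12 e13 e14 e15 e16 e17 e18 e19
  generalize poleCount (b 4) (b 5) (b 6) (b 7) (b 8) (b 9) (b 10) (b 11) = P1 at *
  generalize poleCount (b 12) (b 13) (b 14) (b 15) (b 16) (b 17) (b 18) (b 19) = P2 at *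
  omega

/-- Every dominating set of the ring has at least `7` vertices in each block. -/
theorem ring_block (k : ℕ) (D : Finset (Fin (k + 1) × Fin 20)) (hD : IsDominating (ring k) D)
    (i : Fin (k + 1)) : 7 ≤ ∑ a : Fin 20, (decide ((i, a) ∈ D)).toNat := by
  refine block_count (fun a => decide ((i, a) ∈ D)) ?_
  intro a ha
  rcases hD (i, a) with h | ⟨u, hu, hadj⟩
  · exact Or.inl (decide_eq_true h)
  · right
    rcases hadj with ⟨h1, h2⟩ | ⟨-, h2, -⟩ | ⟨-, h2, -⟩
    · refine ⟨u.2, h2, decide_eq_true ?_⟩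
      have : (i, u.2) = u := Prod.ext h1 rfl
      rw [this]
      exact hu
    · exfalso
      have : a = 0 := h2
      rw [this] at ha
      exact absurd ha (by decide)
    · exfalso
      have : a = 1 := h2
      rw [this] at ha
      exact absurd ha (by decide)

theorem ring_lower (k : ℕ) (D : Finset (Fin (k + 1) × Fin 20)) (hD : IsDominating (ring k) D) :
    7 * (k + 1) ≤ D.card := by
  have h1 : D.card = ∑ i : Fin (k + 1), ∑ a : Fin 20, (decide ((i, a) ∈ D)).toNat := by
    rw [← Fintype.sum_prod_type' (f := fun i a => (decide ((i, a) ∈ D)).toNat)]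
    rw [← Finset.sum_subset (Finset.subset_univ D)]
    · rw [Finset.card_eq_sum_ones]
      refine Finset.sum_congr rfl ?_
      intro p hp
      rw [decide_eq_true (show (p.1, p.2) ∈ D from hp)]
      rfl
    · intro p _ hp
      rw [decide_eq_false (show (p.1, p.2) ∉ D from hp)]
      rfl
  rw [h1]
  calc 7 * (k + 1) = ∑ _i : Fin (k + 1), 7 := by
        rw [Finset.sum_const, Finset.card_univ, Fintype.card_fin, smul_eq_mul, mul_comm]
    _ ≤ _ := Finset.sum_le_sum (fun i _ => ring_block k D hD i)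

end Pool.Agent.H94.Dom
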