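import Mathlib

/-! Potential, bounds and deletion moves for MP_3fbd8d_co. -/

set_option linter.unusedSectionVars false

namespace Pool.Agent.H94.Dom

open Finset

/-- The potential of a vertex of given degree (units of 1/20). -/
def phi : ℕ → ℤ
  | 0 => 20
  | 1 => 13
  | 2 => 9
  | _ => 7

section
variable {V : Type} [DecidableEq V]

open Classical in
/-- Neighbours of `v` inside `A`. -/
noncomputable def nb (H : SimpleGraph V) (A : Finset V) (v : V) : Finset V :=
  A.filter (fun u => H.Adj v u)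

/-- Degree of `v` inside `A`. -/
noncomputable def dg (H : SimpleGraph V) (A : Finset V) (v : V) : ℕ := (nb H A v).card

/-- Total potential of the graph induced on `A`. -/
noncomputable def Phi (H : SimpleGraph V) (A : Finset V) : ℤ := ∑ v ∈ A, phi (dg H A v)

/-- `D` dominates `A` except possibly the free vertices `F`. -/
def DomF (H : SimpleGraph V) (A F D : Finset V) : Prop :=
  D ⊆ A ∧ ∀ v ∈ A, v ∉ F → v ∈ D ∨ ∃ u ∈ D, H.Adj u v

/-- Twenty times the domination number is at most potential plus `t`. -/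
def Bd (H : SimpleGraph V) (A F : Finset V) (t : ℤ) : Prop :=
  ∃ D, DomF H A F D ∧ 20 * (D.card : ℤ) ≤ Phi H A + t

/-- Connectedness of the graph induced on `A`, in terms of cuts. -/
def Conn (H : SimpleGraph V) (A : Finset V) : Prop :=
  ∀ X, X ⊆ A → X.Nonempty → (A \ X).Nonempty → ∃ x ∈ X, ∃ y ∈ A \ X, H.Adj x y

/-- The class: maximum degree at most three and `3|X| - 2e(X) ≥ 3` for each nonempty `X`. -/
def E3 (H : SimpleGraph V) (A : Finset V) : Prop :=
  (∀ v ∈ A, dg H A v ≤ 3) ∧ ∀ X, X ⊆ A → X.Nonempty → 3 ≤ ∑ v ∈ X, (3 - (dg H X v : ℤ))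

/-- The three claims about a connected graph of the class. -/
structure Claims (H : SimpleGraph V) (A : Finset V) : Prop where
  full : Bd H A ∅ 5
  leaf : (∃ v ∈ A, dg H A v = 1) → Bd H A ∅ 2
  mark : ∀ v ∈ A, Bd H A {v} (-1)

theorem mem_nb {H : SimpleGraph V} {A : Finset V} {v u : V} : u ∈ nb H A v ↔ u ∈ A ∧ H.Adj v u := by
  simp [nb]

theorem dg_mono {H : SimpleGraph V} {A B : Finset V} (h : A ⊆ B) (v : V) :
    dg H A v ≤ dg H B v := by
  apply card_le_card
  intro u hu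
  rw [mem_nb] at hu ⊢
  exact ⟨h hu.1, hu.2⟩

theorem E3.mono {H : SimpleGraph V} {A B : Finset V} (h : E3 H B) (hs : A ⊆ B) : E3 H A :=
  ⟨fun v hv => (dg_mono hs v).trans (h.1 v (hs hv)), fun X hX hn => h.2 X (hX.trans hs) hn⟩

theorem Bd.mono {H : SimpleGraph V} {A F : Finset V} {t t' : ℤ} (h : Bd H A F t) (ht : t ≤ t') :
    Bd H A F t' := by
  obtain ⟨D, h1, h2⟩ := h
  exact ⟨D, h1, by linarith⟩

theorem Bd.monoF {H : SimpleGraph V} {A F F' : Finset V} {t : ℤ} (h : Bd H A F t)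
    (hF : ∀ v ∈ A, v ∈ F → v ∈ F') : Bd H A F' t := by
  obtain ⟨D, h1, h2⟩ := h
  exact ⟨D, ⟨h1.1, fun v hv hv' => h1.2 v hv (fun hh => hv' (hF v hv hh))⟩, h2⟩

/-- If no edge joins `A` and `B` then degrees in `A ∪ B` are those in the parts. -/
theorem dg_union_left {H : SimpleGraph V} {A B : Finset V}
    (hn : ∀ a ∈ A, ∀ b ∈ B, ¬ H.Adj a b) {v : V} (hv : v ∈ A) : dg H (A ∪ B) v = dg H A v := by
  unfold dg
  congr 1
  ext u
  simp only [mem_nb, mem_union]
  constructor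
  · rintro ⟨h1 | h1, h2⟩
    · exact ⟨h1, h2⟩
    · exact absurd h2 (hn v hv u h1)
  · rintro ⟨h1, h2⟩
    exact ⟨Or.inl h1, h2⟩

theorem Phi_union {H : SimpleGraph V} {A B : Finset V} (hd : Disjoint A B)
    (hn : ∀ a ∈ A, ∀ b ∈ B, ¬ H.Adj a b) : Phi H (A ∪ B) = Phi H A + Phi H B := by
  unfold Phi
  rw [sum_union hd]
  congr 1
  · exact sum_congr rfl (fun v hv => by rw [dg_union_left hn hv])
  · refine sum_congr rfl (fun v hv => ?_)
    rw [union_comm, dg_union_left (fun a ha b hb h => hn b hb a ha h.symm) hv]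

theorem Bd.union {H : SimpleGraph V} {A B F : Finset V} {s t : ℤ} (hd : Disjoint A B)
    (hn : ∀ a ∈ A, ∀ b ∈ B, ¬ H.Adj a b) (hA : Bd H A F s) (hB : Bd H B F t) :
    Bd H (A ∪ B) F (s + t) := by
  obtain ⟨D, h1, h2⟩ := hA
  obtain ⟨E, h3, h4⟩ := hB
  refine ⟨D ∪ E, ⟨union_subset_union h1.1 h3.1, ?_⟩, ?_⟩
  · intro v hv hvF
    rcases mem_union.1 hv with hv | hv
    · rcases h1.2 v hv hvF with h | ⟨u, hu, ha⟩
      · exact Or.inl (mem_union_left _ h)
      · exact Or.inr ⟨u, mem_union_left _ hu, ha⟩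
    · rcases h3.2 v hv hvF with h | ⟨u, hu, ha⟩
      · exact Or.inl (mem_union_right _ h)
      · exact Or.inr ⟨u, mem_union_right _ hu, ha⟩
  · rw [Phi_union hd hn]
    have := card_union_le D E
    push_cast [← Nat.cast_add] at *
    have h5 : ((D ∪ E).card : ℤ) ≤ D.card + E.card := by exact_mod_cast this
    linarith

theorem Bd.empty {H : SimpleGraph V} {F : Finset V} : Bd H ∅ F 0 :=
  ⟨∅, ⟨subset_rfl, by simp⟩, by simp [Phi]⟩

/-- The deletion move: choose `S`, delete the set `L` of vertices dominated by `S` or free, keep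
the dominated vertices `W` as free vertices. -/
theorem Bd.move {H : SimpleGraph V} {A F S L W : Finset V} {s t : ℤ} (hS : S ⊆ A)
    (hL : ∀ v ∈ L, v ∈ F ∨ v ∈ S ∨ ∃ u ∈ S, H.Adj u v) (hW : ∀ v ∈ W, v ∈ S ∨ ∃ u ∈ S, H.Adj u v)
    (hB : Bd H (A \ L) (F ∪ W) s)
    (he : 20 * (S.card : ℤ) + Phi H (A \ L) + s ≤ Phi H A + t) : Bd H A F t := by
  obtain ⟨D, h1, h2⟩ := hB
  refine ⟨S ∪ D, ⟨union_subset hS (h1.1.trans sdiff_subset), ?_⟩, ?_⟩
  · intro v hv hvF
    have key : (v ∈ S ∨ ∃ u ∈ S, H.Adj u v) → (v ∈ S ∪ D ∨ ∃ u ∈ S ∪ D, H.Adj u v) := by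
      rintro (h | ⟨u, hu, ha⟩)
      · exact Or.inl (mem_union_left _ h)
      · exact Or.inr ⟨u, mem_union_left _ hu, ha⟩
    by_cases hvL : v ∈ L
    · rcases hL v hvL with h | h
      · exact absurd h hvF
      · exact key h
    by_cases hvW : v ∈ W
    · exact key (hW v hvW)
    rcases h1.2 v (mem_sdiff.2 ⟨hv, hvL⟩) (by simp [hvF, hvW]) with h | ⟨u, hu, ha⟩
    · exact Or.inl (mem_union_right _ h)
    · exact Or.inr ⟨u, mem_union_right _ hu, ha⟩
  · have := card_union_le S D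
    have h5 : ((S ∪ D).card : ℤ) ≤ S.card + D.card := by exact_mod_cast this
    linarith

/-- Number of edges leaving `Y` inside `A`. -/
noncomputable def bdry (H : SimpleGraph V) (A Y : Finset V) : ℕ := ∑ v ∈ Y, dg H (A \ Y) v

theorem phi_pos (d : ℕ) : 7 ≤ phi d := by
  unfold phi; split <;> norm_num

end

end Pool.Agent.H94.Dom
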