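import Mathlib
import Pool.Agent.Dom94.Pot

/-! The demand model for MP_3fbd8d_co: a module with eight vertices is contracted to one vertex
of degree two which has to be chosen unless both its neighbours are chosen. -/

set_option linter.unusedSectionVars false

namespace Pool.Agent.H94.Dom

open Finset

/-- Edges of the graph `G7`: hubs 5, 6, rim 2, 3, 4, and the path 3 - 0 - 1 - 4. -/
def g7l : List (ℕ × ℕ) := [(0, 1), (0, 3), (1, 4), (2, 5), (2, 6), (3, 5), (3, 6), (4, 5), (4, 6)]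

/-- Edges of the graph `D10`: two copies of `K_{2,3}` (hubs 0, 1, rim 2, 3, 4; hubs 5, 6,
rim 7, 8, 9) joined by the edges 2 - 7 and 3 - 8. -/
def d10l : List (ℕ × ℕ) := [(0, 2), (0, 3), (0, 4), (1, 2), (1, 3), (1, 4), (5, 7), (5, 8), (5, 9),
  (6, 7), (6, 8), (6, 9), (2, 7), (3, 8)]

/-- Adjacency for an edge list. -/
def ladj (l : List (ℕ × ℕ)) (i j : ℕ) : Bool := l.contains (i, j) || l.contains (j, i)

section
variable {V : Type} [DecidableEq V]

/-- `w` is an induced copy of `G7`. -/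
def IsG7 (H : SimpleGraph V) (w : Fin 7 → V) : Prop :=
  Function.Injective w ∧ ∀ i j : Fin 7, H.Adj (w i) (w j) ↔ ladj g7l i j = true

/-- `w` is a (not necessarily induced) copy of `D10`. -/
def IsD10 (H : SimpleGraph V) (w : Fin 10 → V) : Prop :=
  Function.Injective w ∧ ∀ i j : Fin 10, ladj d10l i j = true → H.Adj (w i) (w j)

/-- Domination with demands: a vertex of `Q` needs all its neighbours in `A`, a vertex of `F`
needs nothing, every other vertex needs one neighbour. -/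
def DomQ (H : SimpleGraph V) (Q A F D : Finset V) : Prop :=
  D ⊆ A ∧ ∀ v ∈ A, v ∈ D ∨ v ∈ F ∨ (v ∉ Q ∧ ∃ u ∈ D, H.Adj u v) ∨ (v ∈ Q ∧ nb H A v ⊆ D)

/-- Potential in the demand model. -/
noncomputable def PhiQ (H : SimpleGraph V) (Q A : Finset V) : ℤ :=
  ∑ v ∈ A, if v ∈ Q then 16 else phi (dg H A v)

/-- The class of decorated graphs. -/
structure Dec (H : SimpleGraph V) (Q A : Finset V) : Prop where
  deg : ∀ v ∈ A, dg H A v ≤ 3
  /-- `Q`-vertices have degree two -/
  q2 : ∀ v ∈ A, v ∈ Q → dg H A v = 2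
  /-- no induced `G7` -/
  g7 : ∀ w : Fin 7 → V, (∀ i, w i ∈ A \ Q) → ¬ IsG7 H w
  /-- no `D10` -/
  d10 : ∀ w : Fin 10 → V, (∀ i, w i ∈ A \ Q) → ¬ IsD10 H w

/-- What the claims give when there is an ordinary leaf. -/
def DecLeaf (V : Type) [DecidableEq V] : Prop :=
  ∀ (H : SimpleGraph V) (Q A : Finset V), Dec H Q A → Conn H A → 2 ≤ A.card →
    (∃ v ∈ A, v ∉ Q ∧ dg H A v = 1) →
    (∀ v ∈ A, v ∉ Q → dg H A v = 2 → ∃ u ∈ nb H A v, dg H A u = 1) →
    ∃ D, DomQ H Q A ∅ D ∧ 20 * (D.card : ℤ) ≤ PhiQ H Q A + 2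

/-- What the claims give when all ordinary vertices have degree three. -/
def DecCubic (V : Type) [DecidableEq V] : Prop :=
  ∀ (H : SimpleGraph V) (Q A : Finset V), Dec H Q A → Conn H A → A.Nonempty →
    (∀ v ∈ A, v ∉ Q → dg H A v = 3) →
    ∃ D, DomQ H Q A ∅ D ∧ 20 * (D.card : ℤ) ≤ PhiQ H Q A + 16

end

end Pool.Agent.H94.Dom
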