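import Mathlib

/-! Definitions for MP_3fbd8d_co: domination number of connected cubic graphs. -/

namespace Pool.Agent.H94.Dom

/-- Every vertex has exactly three neighbours. -/
def IsCubic {V : Type*} (G : SimpleGraph V) : Prop := ∀ v, (G.neighborSet v).ncard = 3

/-- `D` is a dominating set: every vertex is in `D` or has a neighbour in `D`. -/
def IsDominating {V : Type*} (G : SimpleGraph V) (D : Finset V) : Prop :=
  ∀ v, v ∈ D ∨ ∃ u ∈ D, G.Adj v u

/-- The domination number: least size of a dominating set. -/
noncomputable def domNum {V : Type*} (G : SimpleGraph V) : ℕ :=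
  sInf {k | ∃ D : Finset V, IsDominating G D ∧ D.card = k}

/-- `f n`: the maximum of the domination number over connected cubic graphs on `n` vertices. -/
noncomputable def f (n : ℕ) : ℕ :=
  sSup {k | ∃ G : SimpleGraph (Fin n), G.Connected ∧ IsCubic G ∧ domNum G = k}

end Pool.Agent.H94.Dom
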