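import Mathlib
import Pool.Agent.Dom94.Pot

/-! Hand proofs for MP_3fbd8d_co, part A: the function `fb = 20 γ - Φ`, deletion and selection steps. -/

set_option linter.unusedSectionVars false

namespace Pool.Agent.H94.Dom

open Finset

section
variable {V : Type} [DecidableEq V] {H : SimpleGraph V} {A B F F' D X Y : Finset V}

/-- The domination number of `A`, the vertices of `F` need not be dominated. -/
noncomputable def dm (H : SimpleGraph V) (A F : Finset V) : ℕ :=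
  sInf {k | ∃ D, DomF H A F D ∧ D.card = k}

theorem DomF.self (H : SimpleGraph V) (A F : Finset V) : DomF H A F A :=
  ⟨Subset.rfl, fun _ hv _ => Or.inl hv⟩

theorem dm_spec (H : SimpleGraph V) (A F : Finset V) :
    ∃ D, DomF H A F D ∧ D.card = dm H A F := by
  have h : {k | ∃ D, DomF H A F D ∧ D.card = k}.Nonempty := ⟨_, A, DomF.self H A F, rfl⟩
  exact Nat.sInf_mem h

theorem dm_le (h : DomF H A F D) : dm H A F ≤ D.card := Nat.sInf_le ⟨D, h, rfl⟩

/-- `20 γ - Φ` -/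
noncomputable def fb (H : SimpleGraph V) (A F : Finset V) : ℤ := 20 * (dm H A F : ℤ) - Phi H A

theorem bd_iff {t : ℤ} : Bd H A F t ↔ fb H A F ≤ t := by
  unfold fb
  constructor
  · rintro ⟨D, h1, h2⟩
    have h3 : (dm H A F : ℤ) ≤ D.card := by exact_mod_cast dm_le h1
    linarith
  · intro h
    obtain ⟨D, h1, h2⟩ := dm_spec H A F
    exact ⟨D, h1, by rw [h2]; linarith⟩

theorem dm_mono (h : ∀ v ∈ A, v ∈ F → v ∈ F') : dm H A F' ≤ dm H A F := by
  obtain ⟨D, h1, h2⟩ := dm_spec H A F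
  rw [← h2]
  exact dm_le ⟨h1.1, fun v hv hv' => h1.2 v hv (fun hh => hv' (h v hv hh))⟩

theorem fb_mono (h : ∀ v ∈ A, v ∈ F → v ∈ F') : fb H A F' ≤ fb H A F := by
  unfold fb
  have := dm_mono (H := H) h
  have h3 : (dm H A F' : ℤ) ≤ dm H A F := by exact_mod_cast this
  linarith

theorem fb_congr (h : ∀ v ∈ A, (v ∈ F ↔ v ∈ F')) : fb H A F = fb H A F' :=
  le_antisymm (fb_mono fun v hv hv' => (h v hv).2 hv') (fb_mono fun v hv hv' => (h v hv).1 hv')

theorem fb_dich (h : ∀ v ∈ A, v ∈ F → v ∈ F') :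
    fb H A F' = fb H A F ∨ fb H A F' + 20 ≤ fb H A F := by
  unfold fb
  have := dm_mono (H := H) h
  omega

theorem dm_empty : dm H ∅ F = 0 := by
  have : DomF H ∅ F ∅ := ⟨Subset.rfl, by simp⟩
  have := dm_le this
  simpa using this

theorem fb_empty : fb H ∅ F = 0 := by
  unfold fb Phi
  rw [dm_empty]; simp

theorem dg_single (v : V) : dg H {v} v = 0 := by
  unfold dg
  rw [card_eq_zero, eq_empty_iff_forall_notMem]
  intro u hu
  rw [mem_nb, mem_singleton] at hu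
  obtain ⟨rfl, h⟩ := hu
  exact H.irrefl h

theorem Phi_single (v : V) : Phi H {v} = 20 := by
  unfold Phi
  rw [sum_singleton, dg_single]; rfl

theorem fb_single (v : V) : fb H {v} F ≤ 0 := by
  unfold fb
  rw [Phi_single]
  have := dm_le (DomF.self H {v} F)
  rw [card_singleton] at this
  omega

theorem fb_single' {v : V} (h : v ∈ F) : fb H {v} F = -20 := by
  unfold fb
  rw [Phi_single]
  have h1 : DomF H {v} F ∅ := ⟨by simp, by
    intro u hu hu'
    rw [mem_singleton] at hu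
    subst hu
    exact absurd h hu'⟩
  have := dm_le h1
  rw [card_empty] at this
  omega

/-- the change of the potential of a vertex of degree `d` which gets one more neighbour -/
def cc (d : ℕ) : ℤ := phi d - phi (d + 1)

theorem cc0 : cc 0 = 7 := rfl
theorem cc1 : cc 1 = 4 := rfl
theorem cc2 : cc 2 = 2 := rfl

theorem cc_le4 {d : ℕ} (h : 1 ≤ d) : cc d ≤ 4 := by
  rcases d with _ | _ | _ | d
  · omega
  · rw [cc1]
  · rw [cc2]; norm_num
  · have h1 : phi (d + 1 + 1 + 1) = 7 := rfl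
    have h2 : phi (d + 1 + 1 + 1 + 1) = 7 := rfl
    unfold cc
    rw [h1, h2]
    norm_num

theorem cc_le7 (d : ℕ) : cc d ≤ 7 := by
  rcases Nat.eq_zero_or_pos d with rfl | h
  · rw [cc0]
  · linarith [cc_le4 h]

theorem dg_erase_adj {p v : V} (hp : p ∈ A) (h : H.Adj v p) :
    dg H A v = dg H (A.erase p) v + 1 := by
  unfold dg
  have e : nb H (A.erase p) v = (nb H A v).erase p := by
    ext u
    simp only [mem_nb, mem_erase]
    tauto
  have hm : p ∈ nb H A v := mem_nb.2 ⟨hp, h⟩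
  rw [e, card_erase_add_one hm]

theorem dg_erase_nadj {p v : V} (h : ¬ H.Adj v p) : dg H (A.erase p) v = dg H A v := by
  unfold dg
  congr 1
  ext u
  simp only [mem_nb, mem_erase]
  constructor
  · rintro ⟨⟨h1, h2⟩, h3⟩
    exact ⟨h2, h3⟩
  · rintro ⟨h1, h2⟩
    refine ⟨⟨?_, h1⟩, h2⟩
    rintro rfl
    exact h h2

theorem Phi_erase {p : V} (hp : p ∈ A) :
    Phi H (A.erase p) = Phi H A - phi (dg H A p) + ∑ u ∈ nb H A p, cc (dg H (A.erase p) u) := by
  unfold Phi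
  rw [← add_sum_erase A _ hp]
  have h1 : nb H A p ⊆ A.erase p := by
    intro u hu
    rw [mem_nb] at hu
    rw [mem_erase]
    exact ⟨hu.2.ne', hu.1⟩
  have h2 : ∑ v ∈ A.erase p, phi (dg H (A.erase p) v) =
      ∑ v ∈ A.erase p, (phi (dg H A v) +
        if v ∈ nb H A p then cc (dg H (A.erase p) v) else 0) := by
    refine sum_congr rfl fun v hv => ?_
    have hvA := (mem_erase.1 hv).2
    by_cases h : v ∈ nb H A p
    · rw [if_pos h, dg_erase_adj hp (mem_nb.1 h).2.symm]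
      unfold cc
      ring
    · rw [if_neg h, dg_erase_nadj, add_zero]
      intro h'
      exact h (mem_nb.2 ⟨hvA, h'.symm⟩)
  rw [h2, sum_add_distrib, sum_ite_mem, inter_eq_right.2 h1]
  ring

/-- delete a free vertex -/
theorem fb_del {p : V} (hp : p ∈ A) (hF : p ∈ F) :
    fb H A F ≤ fb H (A.erase p) F - phi (dg H A p) + ∑ u ∈ nb H A p, cc (dg H (A.erase p) u) := by
  have h1 : dm H A F ≤ dm H (A.erase p) F := by
    obtain ⟨D, h1, h2⟩ := dm_spec H (A.erase p) F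
    rw [← h2]
    refine dm_le ⟨h1.1.trans (erase_subset _ _), fun v hv hv' => ?_⟩
    refine h1.2 v (mem_erase.2 ⟨?_, hv⟩) hv'
    rintro rfl
    exact hv' hF
  unfold fb
  rw [Phi_erase hp]
  have h2 : (dm H A F : ℤ) ≤ dm H (A.erase p) F := by exact_mod_cast h1
  linarith

/-- select a vertex -/
theorem fb_sel {p : V} (hp : p ∈ A) :
    fb H A F ≤ 20 + fb H (A.erase p) (F ∪ nb H A p) - phi (dg H A p) +
      ∑ u ∈ nb H A p, cc (dg H (A.erase p) u) := by
  have h1 : dm H A F ≤ dm H (A.erase p) (F ∪ nb H A p) + 1 := by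
    obtain ⟨D, h1, h2⟩ := dm_spec H (A.erase p) (F ∪ nb H A p)
    rw [← h2]
    refine (dm_le (D := insert p D) ⟨?_, fun v hv hv' => ?_⟩).trans (card_insert_le _ _)
    · intro v hv
      rcases mem_insert.1 hv with rfl | hv
      · exact hp
      · exact mem_of_mem_erase (h1.1 hv)
    · by_cases hvp : v = p
      · exact Or.inl (mem_insert.2 (Or.inl hvp))
      by_cases hn : H.Adj p v
      · exact Or.inr ⟨p, mem_insert_self _ _, hn⟩
      · rcases h1.2 v (mem_erase.2 ⟨hvp, hv⟩) (by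
          rw [mem_union, mem_nb]
          tauto) with h | ⟨u, hu, ha⟩
        · exact Or.inl (mem_insert_of_mem h)
        · exact Or.inr ⟨u, mem_insert_of_mem hu, ha⟩
  unfold fb
  rw [Phi_erase hp]
  have h2 : (dm H A F : ℤ) ≤ dm H (A.erase p) (F ∪ nb H A p) + 1 := by exact_mod_cast h1
  linarith

theorem dm_union : dm H (X ∪ Y) F ≤ dm H X F + dm H Y F := by
  obtain ⟨D, h1, h2⟩ := dm_spec H X F
  obtain ⟨E, h3, h4⟩ := dm_spec H Y F
  rw [← h2, ← h4]
  refine (dm_le (D := D ∪ E) ⟨union_subset_union h1.1 h3.1, ?_⟩).trans (card_union_le _ _)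
  intro v hv hvF
  rcases mem_union.1 hv with hv | hv
  · rcases h1.2 v hv hvF with h | ⟨u, hu, ha⟩
    · exact Or.inl (mem_union_left _ h)
    · exact Or.inr ⟨u, mem_union_left _ hu, ha⟩
  · rcases h3.2 v hv hvF with h | ⟨u, hu, ha⟩
    · exact Or.inl (mem_union_right _ h)
    · exact Or.inr ⟨u, mem_union_right _ hu, ha⟩

theorem fb_union (hd : Disjoint X Y) (hn : ∀ a ∈ X, ∀ b ∈ Y, ¬ H.Adj a b) :
    fb H (X ∪ Y) F ≤ fb H X F + fb H Y F := by
  unfold fb
  rw [Phi_union hd hn]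
  have h2 : (dm H (X ∪ Y) F : ℤ) ≤ dm H X F + dm H Y F := by exact_mod_cast dm_union
  linarith

/-! ### connectedness -/

theorem clo_meet (hC : Conn H A) (hB : B ⊆ A) (hne : (A \ B).Nonempty) (hX : X ⊆ B)
    (hXn : X.Nonempty) (hcl : ∀ x ∈ X, ∀ y ∈ B \ X, ¬ H.Adj x y) :
    ∃ x ∈ X, ∃ p ∈ A \ B, H.Adj x p := by
  obtain ⟨z, hz⟩ := hne
  rw [mem_sdiff] at hz
  obtain ⟨x, hx, y, hy, hxy⟩ := hC X (hX.trans hB) hXn
    ⟨z, mem_sdiff.2 ⟨hz.1, fun h => hz.2 (hX h)⟩⟩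
  rw [mem_sdiff] at hy
  refine ⟨x, hx, y, mem_sdiff.2 ⟨hy.1, fun h => ?_⟩, hxy⟩
  exact hcl x hx y (mem_sdiff.2 ⟨h, hy.2⟩) hxy

theorem conn_of_meet1 {a : V}
    (hm : ∀ X ⊆ B, X.Nonempty → (∀ x ∈ X, ∀ y ∈ B \ X, ¬ H.Adj x y) → a ∈ X) : Conn H B := by
  intro X hX hXn hXc
  by_contra hcon
  push Not at hcon
  have h1 := hm X hX hXn hcon
  have h2 := hm (B \ X) sdiff_subset hXc (by
    intro x hx y hy hxy
    rw [Finset.sdiff_sdiff_eq_self hX] at hy
    exact hcon y hy x hx hxy.symm)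
  exact (mem_sdiff.1 h2).2 h1

theorem split2 {a b : V}
    (hm : ∀ X ⊆ B, X.Nonempty → (∀ x ∈ X, ∀ y ∈ B \ X, ¬ H.Adj x y) → a ∈ X ∨ b ∈ X) :
    Conn H B ∨ ∃ X Y, Disjoint X Y ∧ X ∪ Y = B ∧ a ∈ X ∧ b ∈ Y ∧ Conn H X ∧ Conn H Y ∧
      ∀ x ∈ X, ∀ y ∈ Y, ¬ H.Adj x y := by
  by_cases hc : Conn H B
  · exact Or.inl hc
  right
  unfold Conn at hc
  push Not at hc
  obtain ⟨X, hX, hXn, hXc, hcl⟩ := hc
  have hcl' : ∀ x ∈ B \ X, ∀ y ∈ B \ (B \ X), ¬ H.Adj x y := by
    intro x hx y hy hxy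
    rw [Finset.sdiff_sdiff_eq_self hX] at hy
    exact hcl y hy x hx hxy.symm
  have key : ∀ X : Finset V, X ⊆ B → (∀ x ∈ X, ∀ y ∈ B \ X, ¬ H.Adj x y) → a ∈ X → b ∈ B \ X →
      ∃ X Y, Disjoint X Y ∧ X ∪ Y = B ∧ a ∈ X ∧ b ∈ Y ∧ Conn H X ∧ Conn H Y ∧
        ∀ x ∈ X, ∀ y ∈ Y, ¬ H.Adj x y := by
    intro X hX hcl ha hb
    have h1 : Conn H X := by
      apply conn_of_meet1 (a := a)
      intro Z hZ hZn hZc
      rcases hm Z (hZ.trans hX) hZn (by
        intro x hx y hy hxy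
        rw [mem_sdiff] at hy
        by_cases hyX : y ∈ X
        · exact hZc x hx y (mem_sdiff.2 ⟨hyX, hy.2⟩) hxy
        · exact hcl x (hZ hx) y (mem_sdiff.2 ⟨hy.1, hyX⟩) hxy) with h | h
      · exact h
      · exact absurd (hZ h) (mem_sdiff.1 hb).2
    have h2 : Conn H (B \ X) := by
      apply conn_of_meet1 (a := b)
      intro Z hZ hZn hZc
      rcases hm Z (hZ.trans sdiff_subset) hZn (by
        intro x hx y hy hxy
        rw [mem_sdiff] at hy
        by_cases hyX : y ∈ X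
        · exact hcl y hyX x (hZ hx) hxy.symm
        · exact hZc x hx y (mem_sdiff.2 ⟨mem_sdiff.2 ⟨hy.1, hyX⟩, hy.2⟩) hxy) with h | h
      · exact absurd ha (mem_sdiff.1 (hZ h)).2
      · exact h
    exact ⟨X, B \ X, disjoint_sdiff, union_sdiff_of_subset hX, ha, hb, h1, h2, hcl⟩
  rcases hm X hX hXn hcl with ha | hb
  · rcases hm (B \ X) sdiff_subset hXc hcl' with ha' | hb'
    · exact absurd ha (mem_sdiff.1 ha').2
    · exact key X hX hcl ha hb'
  · rcases hm (B \ X) sdiff_subset hXc hcl' with ha' | hb'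
    · refine key (B \ X) sdiff_subset hcl' ha' ?_
      rw [Finset.sdiff_sdiff_eq_self hX]
      exact hb
    · exact absurd hb (mem_sdiff.1 hb').2

theorem conn_zero (hC : Conn H A) {v : V} (hv : v ∈ A) (h : dg H A v = 0) : A = {v} := by
  by_contra hne
  obtain ⟨w, hw, hwv⟩ : ∃ w ∈ A, w ≠ v := by
    by_contra hcon
    push Not at hcon
    exact hne (eq_singleton_iff_unique_mem.2 ⟨hv, hcon⟩)
  obtain ⟨x, hx, y, hy, hxy⟩ := hC {v} (singleton_subset_iff.2 hv) (singleton_nonempty v)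
    ⟨w, mem_sdiff.2 ⟨hw, by simpa using hwv⟩⟩
  rw [mem_singleton] at hx
  subst hx
  have : y ∈ nb H A x := mem_nb.2 ⟨(mem_sdiff.1 hy).1, hxy⟩
  rw [dg, card_eq_zero] at h
  rw [h] at this
  simp at this

theorem dg_pos (hC : Conn H A) {v w : V} (hv : v ∈ A) (hw : w ∈ A) (hne : v ≠ w) :
    1 ≤ dg H A v := by
  by_contra hcon
  have := conn_zero hC hv (by omega)
  rw [this, mem_singleton] at hw
  exact hne hw.symm

/-- removing a vertex with one neighbour -/
theorem conn_erase_leaf (hC : Conn H A) {v u : V} (hv : v ∈ A) (hn : nb H A v = {u}) :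
    Conn H (A.erase v) := by
  apply conn_of_meet1 (a := u)
  intro X hX hXn hcl
  obtain ⟨x, hx, p, hp, hxp⟩ := clo_meet hC (erase_subset v A)
    ⟨v, mem_sdiff.2 ⟨hv, by simp⟩⟩ hX hXn hcl
  have hpv : p = v := by
    by_contra hne
    rw [mem_sdiff, mem_erase] at hp
    exact hp.2 ⟨hne, hp.1⟩
  subst hpv
  have h1 : x ∈ nb H A p := mem_nb.2 ⟨mem_of_mem_erase (hX hx), hxp.symm⟩
  rw [hn, mem_singleton] at h1
  subst h1
  exact hx

/-- removing a vertex with two neighbours -/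
theorem split_erase (hC : Conn H A) {p a b : V} (hp : p ∈ A) (hn : nb H A p = {a, b}) :
    Conn H (A.erase p) ∨ ∃ X Y, Disjoint X Y ∧ X ∪ Y = A.erase p ∧ a ∈ X ∧ b ∈ Y ∧ Conn H X ∧
      Conn H Y ∧ ∀ x ∈ X, ∀ y ∈ Y, ¬ H.Adj x y := by
  apply split2
  intro X hX hXn hcl
  obtain ⟨x, hx, q, hq, hxq⟩ := clo_meet hC (erase_subset p A)
    ⟨p, mem_sdiff.2 ⟨hp, by simp⟩⟩ hX hXn hcl
  have hqp : q = p := by
    by_contra hne
    rw [mem_sdiff, mem_erase] at hq
    exact hq.2 ⟨hne, hq.1⟩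
  subst hqp
  have h1 : x ∈ nb H A q := mem_nb.2 ⟨mem_of_mem_erase (hX hx), hxq.symm⟩
  rw [hn, mem_insert, mem_singleton] at h1
  rcases h1 with rfl | rfl
  · exact Or.inl hx
  · exact Or.inr hx

theorem nb_erase {p v : V} : nb H (A.erase p) v = (nb H A v).erase p := by
  ext u
  simp only [mem_nb, mem_erase]
  tauto

end

end Pool.Agent.H94.Dom
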