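import Mathlib
import Pool.Agent.Dom94.HandA

/-! Hand proofs for MP_3fbd8d_co, part B: the claims, elementary steps. -/

set_option linter.unusedSectionVars false

namespace Pool.Agent.H94.Dom

open Finset

section
variable {V : Type} [DecidableEq V] {H : SimpleGraph V} {A B F F' D X Y : Finset V}

/-- All claims about a connected graph of the class; marked vertices have degree at most two. -/
structure Cl (H : SimpleGraph V) (A : Finset V) : Prop where
  full : fb H A ∅ ≤ 5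
  leaf : ∀ v ∈ A, dg H A v = 1 → fb H A ∅ ≤ 2
  mark : ∀ v ∈ A, dg H A v ≤ 2 → fb H A {v} ≤ -1
  mark1 : ∀ v ∈ A, dg H A v ≤ 1 → fb H A {v} ≤ -6
  pair : ∀ v ∈ A, ∀ w ∈ A, v ≠ w → dg H A v ≤ 2 → dg H A w ≤ 2 → fb H A {v, w} ≤ -4
  pair1 : ∀ v ∈ A, ∀ w ∈ A, v ≠ w → dg H A v ≤ 1 → dg H A w ≤ 2 → fb H A {v, w} ≤ -10
  trip : ∀ v ∈ A, ∀ w ∈ A, ∀ z ∈ A, v ≠ w → v ≠ z → w ≠ z →
    dg H A v ≤ 2 → dg H A w ≤ 2 → dg H A z ≤ 2 → fb H A {v, w, z} ≤ -5
  trip1 : ∀ v ∈ A, ∀ w ∈ A, ∀ z ∈ A, v ≠ w → v ≠ z → w ≠ z →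
    dg H A v ≤ 1 → dg H A w ≤ 2 → dg H A z ≤ 2 → fb H A {v, w, z} ≤ -13

/-! ### combined bounds for a piece -/

theorem K1 (hC : Conn H B) (hc : Cl H B) {b : V} (hb : b ∈ B) (h2 : dg H B b ≤ 2) :
    fb H B ∅ + cc (dg H B b) ≤ 7 := by
  obtain h | h | h : dg H B b = 0 ∨ dg H B b = 1 ∨ dg H B b = 2 := by omega
  · rw [h, cc0, conn_zero hC hb h]
    linarith [fb_single (H := H) (F := ∅) b]
  · rw [h, cc1]; linarith [hc.leaf b hb h]
  · rw [h, cc2]; linarith [hc.full]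

theorem K2' (hC : Conn H B) (hc : Cl H B) {b : V} (hb : b ∈ B) (h2 : dg H B b ≤ 1) :
    fb H B {b} + cc (dg H B b) ≤ -2 := by
  obtain h | h : dg H B b = 0 ∨ dg H B b = 1 := by omega
  · rw [h, cc0, conn_zero hC hb h, fb_single' (by simp)]
    norm_num
  · rw [h, cc1]; linarith [hc.mark1 b hb h2]

theorem K2 (hC : Conn H B) (hc : Cl H B) {b : V} (hb : b ∈ B) (h2 : dg H B b ≤ 2) :
    fb H B {b} + cc (dg H B b) ≤ 1 := by
  obtain h | h : dg H B b ≤ 1 ∨ dg H B b = 2 := by omega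
  · linarith [K2' hC hc hb h]
  · rw [h, cc2]; linarith [hc.mark b hb h2]

theorem K3 (hC : Conn H B) (hc : Cl H B) {b q : V} (hb : b ∈ B) (h2 : dg H B b ≤ 2)
    (hq : q ∈ B) (h3 : dg H B q ≤ 2) (hne : b ≠ q) :
    fb H B {b, q} + cc (dg H B b) ≤ -2 := by
  have h0 := dg_pos hC hb hq hne
  obtain h | h : dg H B b = 1 ∨ dg H B b = 2 := by omega
  · rw [h, cc1]; linarith [hc.pair1 b hb q hq hne h.le h3]
  · rw [h, cc2]; linarith [hc.pair b hb q hq hne h2 h3]

theorem K9 (hC : Conn H B) (hc : Cl H B) {b q : V} (hb : b ∈ B) (h2 : dg H B b ≤ 1)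
    (hq : q ∈ B) (h3 : dg H B q ≤ 2) (hne : b ≠ q) :
    fb H B {b, q} + cc (dg H B b) + cc (dg H B q) ≤ -2 := by
  have h0 := cc_le4 (dg_pos hC hb hq hne)
  have h1 := cc_le4 (dg_pos hC hq hb hne.symm)
  linarith [hc.pair1 b hb q hq hne h2 h3]

theorem K4 (hC : Conn H B) (hc : Cl H B) {b q : V} (hb : b ∈ B) (h2 : dg H B b ≤ 2)
    (hq : q ∈ B) (h3 : dg H B q ≤ 2) (hne : b ≠ q) :
    fb H B {b, q} + cc (dg H B b) + cc (dg H B q) ≤ 0 := by
  obtain h | h : dg H B b ≤ 1 ∨ dg H B b = 2 := by omega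
  · linarith [K9 hC hc hb h hq h3 hne]
  obtain h' | h' : dg H B q ≤ 1 ∨ dg H B q = 2 := by omega
  · have := K9 hC hc hq h' hb h2 hne.symm
    rw [pair_comm] at this
    linarith
  · rw [h, h', cc2]; linarith [hc.pair b hb q hq hne h2 h3]

theorem K5 (hC : Conn H B) (hc : Cl H B) {b q z : V} (hb : b ∈ B) (h2 : dg H B b ≤ 2)
    (hq : q ∈ B) (h3 : dg H B q ≤ 2) (hz : z ∈ B) (h4 : dg H B z ≤ 2) (hne : b ≠ q)
    (hne' : b ≠ z) (hne'' : q ≠ z) :
    fb H B {b, q, z} + cc (dg H B b) ≤ -3 := by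
  have h0 := dg_pos hC hb hq hne
  obtain h | h : dg H B b = 1 ∨ dg H B b = 2 := by omega
  · rw [h, cc1]; linarith [hc.trip1 b hb q hq z hz hne hne' hne'' h.le h3 h4]
  · rw [h, cc2]; linarith [hc.trip b hb q hq z hz hne hne' hne'' h2 h3 h4]

theorem K6 (hC : Conn H B) (hc : Cl H B) {b q : V} (hb : b ∈ B)
    (hq : q ∈ B) (h3 : dg H B q ≤ 2) (hne : b ≠ q) :
    fb H B {q} + cc (dg H B b) ≤ 3 := by
  have h0 := cc_le4 (dg_pos hC hb hq hne)
  linarith [hc.mark q hq h3]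

theorem K7 (hC : Conn H B) (hc : Cl H B) {b q z : V} (hb : b ∈ B)
    (hq : q ∈ B) (h3 : dg H B q ≤ 2) (hz : z ∈ B) (h4 : dg H B z ≤ 2) (hne : b ≠ q)
    (hne'' : q ≠ z) :
    fb H B {q, z} + cc (dg H B b) ≤ 0 := by
  have h0 := cc_le4 (dg_pos hC hb hq hne)
  linarith [hc.pair q hq z hz hne'' h3 h4]

theorem K8 (hC : Conn H B) (hc : Cl H B) {b q z : V} (hb : b ∈ B) (h2 : dg H B b ≤ 2)
    (hq : q ∈ B) (h3 : dg H B q ≤ 2) (hz : z ∈ B) (h4 : dg H B z ≤ 2) (hne : b ≠ q)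
    (hne' : b ≠ z) (hne'' : q ≠ z) :
    fb H B {b, q, z} + cc (dg H B q) + cc (dg H B z) ≤ -1 := by
  have hq0 := dg_pos hC hq hb hne.symm
  have hz0 := dg_pos hC hz hb hne'.symm
  have hq4 := cc_le4 hq0
  have hz4 := cc_le4 hz0
  obtain h | h : dg H B q = 1 ∨ dg H B q = 2 := by omega
  · have := hc.trip1 q hq b hb z hz hne.symm hne'' hne' h.le h2 h4
    rw [insert_comm] at this
    linarith
  obtain h' | h' : dg H B z = 1 ∨ dg H B z = 2 := by omega
  · have := hc.trip1 z hz b hb q hq hne'.symm hne''.symm hne h'.le h2 h3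
    rw [insert_comm, pair_comm] at this
    linarith
  · rw [h, h', cc2]; linarith [hc.trip b hb q hq z hz hne hne' hne'' h2 h3 h4]

/-! ### steps -/

theorem dg_eq {p : V} {N : Finset V} (hn : nb H A p = N) : dg H A p = N.card := by
  unfold dg; rw [hn]

theorem phi1 : phi 1 = 13 := rfl
theorem phi2 : phi 2 = 9 := rfl
theorem phi3 : phi 3 = 7 := rfl
theorem phi0 : phi 0 = 20 := rfl

theorem del0 {p : V} (hp : p ∈ A) (hF : p ∈ F) (hn : nb H A p = ∅) :
    fb H A F ≤ fb H (A.erase p) F - 20 := by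
  have := fb_del (H := H) hp hF
  rw [dg_eq hn, hn, card_empty, phi0, sum_empty] at this
  linarith

theorem del1 {p u : V} (hp : p ∈ A) (hF : p ∈ F) (hn : nb H A p = {u}) :
    fb H A F ≤ fb H (A.erase p) F - 13 + cc (dg H (A.erase p) u) := by
  have := fb_del (H := H) hp hF
  rw [dg_eq hn, hn, card_singleton, phi1, sum_singleton] at this
  exact this

theorem del2 {p a b : V} (hp : p ∈ A) (hF : p ∈ F) (hn : nb H A p = {a, b}) (hab : a ≠ b) :
    fb H A F ≤ fb H (A.erase p) F - 9 + cc (dg H (A.erase p) a) + cc (dg H (A.erase p) b) := by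
  have := fb_del (H := H) hp hF
  rw [dg_eq hn, hn, card_pair hab, phi2, sum_pair hab] at this
  linarith

theorem sel2 {p a b : V} (hp : p ∈ A) (hn : nb H A p = {a, b}) (hab : a ≠ b) :
    fb H A F ≤ fb H (A.erase p) (F ∪ {a, b}) + 11 + cc (dg H (A.erase p) a) +
      cc (dg H (A.erase p) b) := by
  have := fb_sel (H := H) (F := F) hp
  rw [dg_eq hn, hn, card_pair hab, phi2, sum_pair hab] at this
  linarith

theorem mem_of_nb {p u : V} (h : u ∈ nb H A p) : u ∈ A := (mem_nb.1 h).1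

/-- select the neighbour `u` of the leaf `l` and delete `l` -/
theorem leafsel {l u : V} (hl : l ∈ A) (hn : nb H A l = {u}) :
    fb H A F ≤ fb H ((A.erase l).erase u) (F ∪ nb H A u) + 7 - phi (dg H A u) +
      ∑ w ∈ (nb H A u).erase l, cc (dg H ((A.erase l).erase u) w) := by
  have hlu : H.Adj l u := (mem_nb.1 (hn ▸ mem_singleton_self u : u ∈ nb H A l)).2
  have hu : u ∈ A := mem_of_nb (hn ▸ mem_singleton_self u : u ∈ nb H A l)
  have h1 := fb_sel (H := H) (F := F) hu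
  have hln : l ∈ nb H A u := mem_nb.2 ⟨hl, hlu.symm⟩
  have hle : l ∈ A.erase u := mem_erase.2 ⟨hlu.ne, hl⟩
  have hn0 : nb H (A.erase u) l = ∅ := by
    rw [nb_erase, hn]; simp
  have h2 := del0 (F := F ∪ nb H A u) hle (mem_union_right _ hln) hn0
  rw [← add_sum_erase _ _ hln, dg_eq hn0, card_empty, cc0] at h1
  have h3 : ∑ w ∈ (nb H A u).erase l, cc (dg H (A.erase u) w) =
      ∑ w ∈ (nb H A u).erase l, cc (dg H ((A.erase l).erase u) w) := by
    refine sum_congr rfl fun w hw => ?_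
    have e : dg H ((A.erase u).erase l) w = dg H (A.erase u) w := by
      apply dg_erase_nadj
      intro h
      have : w ∈ nb H A l := mem_nb.2 ⟨mem_of_nb (mem_of_mem_erase hw), h.symm⟩
      rw [hn, mem_singleton] at this
      subst this
      exact H.irrefl (mem_nb.1 (mem_of_mem_erase hw)).2
    rw [erase_right_comm, e]
  rw [h3] at h1
  rw [erase_right_comm] at h2
  linarith

theorem leafsel1 {l u : V} (hl : l ∈ A) (hn : nb H A l = {u}) (hu : nb H A u = {l}) :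
    fb H A F ≤ fb H ((A.erase l).erase u) F - 6 := by
  have h := leafsel (F := F) hl hn
  rw [dg_eq hu, hu, card_singleton, phi1] at h
  rw [show ({l} : Finset V).erase l = ∅ by simp, sum_empty] at h
  have e : fb H ((A.erase l).erase u) (F ∪ {l}) = fb H ((A.erase l).erase u) F := by
    apply fb_congr
    intro v hv
    rw [mem_union, mem_singleton]
    have : v ≠ l := by
      rintro rfl
      simp at hv
    tauto
  rw [e] at h
  linarith

theorem leafsel2 {l u w : V} (hl : l ∈ A) (hn : nb H A l = {u}) (hu : nb H A u = {l, w})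
    (hlw : l ≠ w) :
    fb H A F ≤ fb H ((A.erase l).erase u) (insert w F) - 2 +
      cc (dg H ((A.erase l).erase u) w) := by
  have h := leafsel (F := F) hl hn
  rw [dg_eq hu, hu, card_pair hlw, phi2] at h
  rw [show ({l, w} : Finset V).erase l = {w} by
    ext x; simp only [mem_erase, mem_insert, mem_singleton]
    constructor
    · rintro ⟨h1, h2 | h2⟩
      · exact absurd h2 h1
      · exact h2
    · rintro rfl
      exact ⟨hlw.symm, Or.inr rfl⟩, sum_singleton] at h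
  have e : fb H ((A.erase l).erase u) (F ∪ {l, w}) =
      fb H ((A.erase l).erase u) (insert w F) := by
    apply fb_congr
    intro v hv
    rw [mem_union, mem_insert, mem_insert, mem_singleton]
    have : v ≠ l := by
      rintro rfl
      simp at hv
    tauto
  rw [e] at h
  linarith

theorem leafsel3 {l u w z : V} (hl : l ∈ A) (hn : nb H A l = {u}) (hu : nb H A u = {l, w, z})
    (hlw : l ≠ w) (hlz : l ≠ z) (hwz : w ≠ z) :
    fb H A F ≤ fb H ((A.erase l).erase u) (insert w (insert z F)) +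
      cc (dg H ((A.erase l).erase u) w) + cc (dg H ((A.erase l).erase u) z) := by
  have h := leafsel (F := F) hl hn
  have hcard : ({l, w, z} : Finset V).card = 3 := by
    rw [card_insert_of_notMem (by simp [hlw, hlz]), card_pair hwz]
  rw [dg_eq hu, hu, hcard, phi3] at h
  rw [show ({l, w, z} : Finset V).erase l = {w, z} by
    ext x; simp only [mem_erase, mem_insert, mem_singleton]
    constructor
    · rintro ⟨h1, h2 | h2⟩
      · exact absurd h2 h1
      · exact h2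
    · rintro (rfl | rfl)
      · exact ⟨hlw.symm, Or.inr (Or.inl rfl)⟩
      · exact ⟨hlz.symm, Or.inr (Or.inr rfl)⟩, sum_pair hwz] at h
  have e : fb H ((A.erase l).erase u) (F ∪ {l, w, z}) =
      fb H ((A.erase l).erase u) (insert w (insert z F)) := by
    apply fb_congr
    intro v hv
    simp only [mem_union, mem_insert, mem_singleton]
    have : v ≠ l := by
      rintro rfl
      simp at hv
    tauto
  rw [e] at h
  linarith

/-- neighbours and degrees of a vertex of degree 1, 2, 3 -/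
theorem nb1 {p : V} (h : dg H A p = 1) : ∃ u, nb H A p = {u} := card_eq_one.1 h

theorem nb2 {p : V} (h : dg H A p = 2) : ∃ a b, a ≠ b ∧ nb H A p = {a, b} := card_eq_two.1 h

theorem nb2' {p a : V} (h : dg H A p = 2) (ha : a ∈ nb H A p) :
    ∃ b, a ≠ b ∧ nb H A p = {a, b} := by
  obtain ⟨x, y, hxy, hn⟩ := nb2 h
  rw [hn, mem_insert, mem_singleton] at ha
  rcases ha with rfl | rfl
  · exact ⟨y, hxy, hn⟩
  · exact ⟨x, hxy.symm, by rw [hn, pair_comm]⟩

theorem nb3' {p a : V} (h : dg H A p = 3) (ha : a ∈ nb H A p) :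
    ∃ b c, a ≠ b ∧ a ≠ c ∧ b ≠ c ∧ nb H A p = {a, b, c} := by
  obtain ⟨x, y, z, hxy, hxz, hyz, hn⟩ := card_eq_three.1 h
  rw [hn] at ha
  simp only [mem_insert, mem_singleton] at ha
  rcases ha with rfl | rfl | rfl
  · exact ⟨y, z, hxy, hxz, hyz, hn⟩
  · exact ⟨x, z, hxy.symm, hyz, hxz, by rw [hn, insert_comm]⟩
  · refine ⟨x, y, hxz.symm, hyz.symm, hxy, ?_⟩
    rw [hn]
    ext t
    simp only [mem_insert, mem_singleton]
    tauto

theorem nb3'' {p a b : V} (h : dg H A p = 3) (ha : a ∈ nb H A p) (hb : b ∈ nb H A p)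
    (hab : a ≠ b) : ∃ c, a ≠ c ∧ b ≠ c ∧ nb H A p = {a, b, c} := by
  obtain ⟨x, y, h1, h2, h3, hn⟩ := nb3' h ha
  rw [hn] at hb
  simp only [mem_insert, mem_singleton] at hb
  rcases hb with rfl | rfl | rfl
  · exact absurd rfl hab
  · exact ⟨y, h2, h3, hn⟩
  · refine ⟨x, h1, h3.symm, ?_⟩
    rw [hn]
    ext t
    simp only [mem_insert, mem_singleton]
    tauto

theorem mem_nb_comm {p q : V} (hp : p ∈ A) (h : q ∈ nb H A p) : p ∈ nb H A q :=
  mem_nb.2 ⟨hp, (mem_nb.1 h).2.symm⟩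

theorem dg_le_of_nb {p v : V} (hp : p ∈ A) (h : v ∈ nb H A p) (hd : dg H A v ≤ 3) :
    dg H (A.erase p) v ≤ 2 := by
  have := dg_erase_adj hp (mem_nb.1 h).2.symm
  omega

theorem ne_nb {p v : V} (h : v ∈ nb H A p) : v ≠ p := (mem_nb.1 h).2.ne'

theorem dg_erase_le {p v : V} : dg H (A.erase p) v ≤ dg H A v := dg_mono (erase_subset _ _) v

/-- degrees in a closed part -/
theorem dg_part (hXY : X ∪ Y = B) (hn : ∀ x ∈ X, ∀ y ∈ Y, ¬ H.Adj x y) {v : V} (hv : v ∈ X) :
    dg H B v = dg H X v := by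
  rw [← hXY, dg_union_left hn hv]

theorem dg_part' (hXY : X ∪ Y = B) (hn : ∀ x ∈ X, ∀ y ∈ Y, ¬ H.Adj x y) {v : V} (hv : v ∈ Y) :
    dg H B v = dg H Y v := by
  rw [← hXY, union_comm, dg_union_left (fun a ha b hb h => hn b hb a ha h.symm) hv]

end

end Pool.Agent.H94.Dom
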