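import Mathlib
import Pool.Agent.Dom94.HandB

/-! Hand proofs for MP_3fbd8d_co, part C: marked vertices, leaves. -/

set_option linter.unusedSectionVars false

namespace Pool.Agent.H94.Dom

open Finset

section
variable {V : Type} [DecidableEq V] {H : SimpleGraph V} {A B F F' D X Y : Finset V}

/-- induction hypothesis -/
def IHyp (H : SimpleGraph V) (A : Finset V) : Prop :=
  ∀ X, X ⊂ A → X.Nonempty → Conn H X → Cl H X

theorem fbm (h : F' ⊆ F) : fb H A F ≤ fb H A F' := fb_mono fun _ _ hv => h hv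

theorem mem1 {p u : V} (hn : nb H A p = {u}) : u ∈ nb H A p := hn ▸ mem_singleton_self u

theorem mem2a {p a b : V} (hn : nb H A p = {a, b}) : a ∈ nb H A p := by rw [hn]; simp
theorem mem2b {p a b : V} (hn : nb H A p = {a, b}) : b ∈ nb H A p := by rw [hn]; simp

theorem mem_erase_nb {p u : V} (h : u ∈ nb H A p) : u ∈ A.erase p :=
  mem_erase.2 ⟨ne_nb h, mem_of_nb h⟩

theorem T_mark1 (hC : Conn H A) (hd : ∀ v ∈ A, dg H A v ≤ 3) (IH : IHyp H A) {v : V} (hv : v ∈ A)
    (h : dg H A v ≤ 1) : fb H A {v} ≤ -6 := by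
  obtain h | h : dg H A v = 0 ∨ dg H A v = 1 := by omega
  · rw [conn_zero hC hv h, fb_single' (by simp)]; norm_num
  · obtain ⟨u, hu⟩ := nb1 h
    have hm := mem1 hu
    have h1 := del1 (F := {v}) hv (mem_singleton_self v) hu
    have hC1 := conn_erase_leaf hC hv hu
    have hc := IH _ (erase_ssubset hv) ⟨u, mem_erase_nb hm⟩ hC1
    have h2 := K1 hC1 hc (mem_erase_nb hm) (dg_le_of_nb hv hm (hd u (mem_of_nb hm)))
    have h3 : fb H (A.erase v) {v} ≤ fb H (A.erase v) ∅ := fbm (by simp)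
    linarith

theorem T_pair1 (hC : Conn H A) (hd : ∀ v ∈ A, dg H A v ≤ 3) (IH : IHyp H A) {v w : V}
    (hv : v ∈ A) (hw : w ∈ A) (hne : v ≠ w) (h : dg H A v ≤ 1) (h2 : dg H A w ≤ 2) :
    fb H A {v, w} ≤ -10 := by
  have h0 := dg_pos hC hv hw hne
  obtain ⟨u, hu⟩ := nb1 (p := v) (A := A) (H := H) (by omega)
  have hm := mem1 hu
  have h1 := del1 (F := {v, w}) hv (by simp) hu
  have hC1 := conn_erase_leaf hC hv hu
  have hc := IH _ (erase_ssubset hv) ⟨u, mem_erase_nb hm⟩ hC1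
  have h3 : fb H (A.erase v) {v, w} ≤ fb H (A.erase v) {w} := fbm (by simp)
  have hw1 : w ∈ A.erase v := mem_erase.2 ⟨hne.symm, hw⟩
  have hdw : dg H (A.erase v) w ≤ 2 := dg_erase_le.trans h2
  by_cases huw : u = w
  · subst huw
    linarith [K2 hC1 hc hw1 hdw]
  · linarith [K6 hC1 hc (mem_erase_nb hm) hw1 hdw huw]

theorem T_trip1 (hC : Conn H A) (hd : ∀ v ∈ A, dg H A v ≤ 3) (IH : IHyp H A) {v w z : V}
    (hv : v ∈ A) (hw : w ∈ A) (hz : z ∈ A) (hvw : v ≠ w) (hvz : v ≠ z) (hwz : w ≠ z)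
    (h : dg H A v ≤ 1) (h2 : dg H A w ≤ 2) (h3 : dg H A z ≤ 2) :
    fb H A {v, w, z} ≤ -13 := by
  have h0 := dg_pos hC hv hw hvw
  obtain ⟨u, hu⟩ := nb1 (p := v) (A := A) (H := H) (by omega)
  have hm := mem1 hu
  have h1 := del1 (F := {v, w, z}) hv (by simp) hu
  have hC1 := conn_erase_leaf hC hv hu
  have hc := IH _ (erase_ssubset hv) ⟨u, mem_erase_nb hm⟩ hC1
  have h4 : fb H (A.erase v) {v, w, z} ≤ fb H (A.erase v) {w, z} := fbm (by simp)
  have hw1 : w ∈ A.erase v := mem_erase.2 ⟨hvw.symm, hw⟩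
  have hz1 : z ∈ A.erase v := mem_erase.2 ⟨hvz.symm, hz⟩
  have hdw : dg H (A.erase v) w ≤ 2 := dg_erase_le.trans h2
  have hdz : dg H (A.erase v) z ≤ 2 := dg_erase_le.trans h3
  by_cases huw : u = w
  · subst huw
    linarith [K3 hC1 hc hw1 hdw hz1 hdz hwz]
  by_cases huz : u = z
  · subst huz
    have := K3 hC1 hc hz1 hdz hw1 hdw hwz.symm
    rw [pair_comm] at this
    linarith
  · linarith [K7 hC1 hc (mem_erase_nb hm) hw1 hdw hz1 hdz huw hwz]

/-- data of a cut vertex `p` of degree two -/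
structure CutD (H : SimpleGraph V) (A : Finset V) (p a b : V) (X Y : Finset V) : Prop where
  hp : p ∈ A
  hn : nb H A p = {a, b}
  hab : a ≠ b
  dis : Disjoint X Y
  un : X ∪ Y = A.erase p
  ha : a ∈ X
  hb : b ∈ Y
  cX : Conn H X
  cY : Conn H Y
  ne : ∀ x ∈ X, ∀ y ∈ Y, ¬ H.Adj x y

theorem CutD.symm {p a b : V} (h : CutD H A p a b X Y) : CutD H A p b a Y X :=
  ⟨h.hp, by rw [h.hn, pair_comm], h.hab.symm, h.dis.symm, by rw [union_comm, h.un], h.hb, h.ha,
    h.cY, h.cX, fun x hx y hy hxy => h.ne y hy x hx hxy.symm⟩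

theorem CutD.subX {p a b : V} (h : CutD H A p a b X Y) : X ⊆ A.erase p := by
  rw [← h.un]; exact subset_union_left

theorem CutD.ssX {p a b : V} (h : CutD H A p a b X Y) : X ⊂ A :=
  lt_of_le_of_lt h.subX (erase_ssubset h.hp)

theorem CutD.subY {p a b : V} (h : CutD H A p a b X Y) : Y ⊆ A.erase p := h.symm.subX
theorem CutD.ssY {p a b : V} (h : CutD H A p a b X Y) : Y ⊂ A := h.symm.ssX

theorem CutD.clX {p a b : V} (h : CutD H A p a b X Y) (IH : IHyp H A) : Cl H X :=
  IH _ h.ssX ⟨a, h.ha⟩ h.cX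
theorem CutD.clY {p a b : V} (h : CutD H A p a b X Y) (IH : IHyp H A) : Cl H Y :=
  IH _ h.ssY ⟨b, h.hb⟩ h.cY

theorem CutD.dga {p a b : V} (h : CutD H A p a b X Y) (hd : ∀ v ∈ A, dg H A v ≤ 3) :
    dg H X a ≤ 2 := by
  rw [← dg_part h.un h.ne h.ha]
  have hm : a ∈ nb H A p := mem2a h.hn
  exact dg_le_of_nb h.hp hm (hd a (mem_of_nb hm))

theorem CutD.dgb {p a b : V} (h : CutD H A p a b X Y) (hd : ∀ v ∈ A, dg H A v ≤ 3) :
    dg H Y b ≤ 2 := h.symm.dga hd

/-- delete the free cut vertex -/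
theorem CutD.del {p a b : V} (h : CutD H A p a b X Y) (hF : p ∈ F) :
    fb H A F ≤ (fb H X F + cc (dg H X a)) + (fb H Y F + cc (dg H Y b)) - 9 := by
  have h1 := del2 h.hp hF h.hn h.hab
  have h2 := fb_union (F := F) h.dis h.ne
  rw [h.un] at h2
  rw [dg_part h.un h.ne h.ha, dg_part' h.un h.ne h.hb] at h1
  linarith

/-- select the cut vertex -/
theorem CutD.sel {p a b : V} (h : CutD H A p a b X Y) :
    fb H A F ≤ (fb H X (insert a F) + cc (dg H X a)) + (fb H Y (insert b F) + cc (dg H Y b)) +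
      11 := by
  have h1 := sel2 (F := F) h.hp h.hn h.hab
  have h2 := fb_union (F := F ∪ {a, b}) h.dis h.ne
  rw [h.un] at h2
  rw [dg_part h.un h.ne h.ha, dg_part' h.un h.ne h.hb] at h1
  have h3 : fb H X (F ∪ {a, b}) ≤ fb H X (insert a F) := fbm (by
    intro x hx; simp only [mem_insert, mem_union, mem_singleton] at hx ⊢; tauto)
  have h4 : fb H Y (F ∪ {a, b}) ≤ fb H Y (insert b F) := fbm (by
    intro x hx; simp only [mem_insert, mem_union, mem_singleton] at hx ⊢; tauto)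
  linarith

theorem T_pairCut (hd : ∀ v ∈ A, dg H A v ≤ 3) (IH : IHyp H A) {p q a b : V}
    (h : CutD H A p a b X Y) (hq : q ∈ Y) (h2 : dg H A q ≤ 2) :
    fb H A {p, q} ≤ -4 := by
  have hcX := h.clX IH
  have hcY := h.clY IH
  have hda := h.dga hd
  have hdb := h.dgb hd
  have hdq : dg H Y q ≤ 2 := (dg_mono (h.subY.trans (erase_subset _ _)) q).trans h2
  have e1 := h.del (F := {p, q}) (by simp)
  have e2 := h.sel (F := {p, q})
  have x1 : fb H X {p, q} ≤ fb H X ∅ := fbm (by simp)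
  have x2 : fb H X (insert a {p, q}) ≤ fb H X {a} := fbm (by simp)
  have k1 := K1 h.cX hcX h.ha hda
  have k2 := K2 h.cX hcX h.ha hda
  have dich : fb H X {a} = fb H X ∅ ∨ fb H X {a} + 20 ≤ fb H X ∅ := fb_dich (by simp)
  have y1 : fb H Y {p, q} ≤ fb H Y {q} := fbm (by simp)
  by_cases hbq : b = q
  · subst hbq
    have y2 : fb H Y (insert b {p, b}) ≤ fb H Y {b} := fbm (by simp)
    have hdq1 : dg H Y b ≤ 1 := by
      have e := dg_part' h.un h.ne h.hb
      have e' := dg_erase_adj h.hp (mem_nb.1 (mem2b h.hn)).2.symm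
      omega
    have k3 := K2' h.cY hcY h.hb hdq1
    rcases dich with d | d <;> linarith
  · have y2 : fb H Y (insert b {p, q}) ≤ fb H Y {b, q} := fbm (by
      intro x hx; simp only [mem_insert, mem_singleton] at hx ⊢; tauto)
    have k3 := K3 h.cY hcY h.hb hdb hq hdq hbq
    have k6 := K6 h.cY hcY h.hb hq hdq hbq
    rcases dich with d | d <;> linarith

/-- the case of a thread `q - a - p - b` with free `p, q` -/
theorem T_pairThread (hd : ∀ v ∈ A, dg H A v ≤ 3) (IH : IHyp H A) {p q a b s : V}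
    (hp : p ∈ A) (hq : q ∈ A) (hn : nb H A p = {a, b}) (hab : a ≠ b) (hdq : dg H A q = 2)
    (hqa : q ≠ a) (hqb : q ≠ b) (hqp : q ≠ p)
    (hC1 : Conn H (A.erase p)) (ha : nb H (A.erase p) a = {q}) (hb : nb H (A.erase p) b = {s})
    (hda : dg H (A.erase p) a = 1) (hdb : dg H (A.erase p) b = 1) :
    fb H A {p, q} ≤ -4 := by
  have hma := mem_erase_nb (mem2a hn)
  have hmb := mem_erase_nb (mem2b hn)
  have hsa : s ≠ a := by
    rintro rfl
    have := mem_nb_comm hmb (mem1 hb)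
    rw [ha, mem_singleton] at this
    exact hqb this.symm
  have hC2 := conn_erase_leaf hC1 hma ha
  have hmb2 : b ∈ (A.erase p).erase a := mem_erase.2 ⟨hab.symm, hmb⟩
  have hb2 : nb H ((A.erase p).erase a) b = {s} := by
    rw [nb_erase, hb]
    ext x
    simp only [mem_erase, mem_singleton]
    constructor
    · exact fun h => h.2
    · rintro rfl; exact ⟨hsa, rfl⟩
  have hC3 := conn_erase_leaf hC2 hmb2 hb2
  have hq3 : q ∈ ((A.erase p).erase a).erase b := by simp [hqa, hqb, hqp, hq]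
  have hqpn : ¬ H.Adj q p := by
    intro h
    have : q ∈ nb H A p := mem_nb.2 ⟨hq, h.symm⟩
    rw [hn] at this
    simp [hqa, hqb] at this
  have hdq1 : dg H (A.erase p) q = 2 := by rw [dg_erase_nadj hqpn, hdq]
  have hqaadj : H.Adj q a := (mem_nb.1 (mem1 ha)).2.symm
  have hdq2 : dg H ((A.erase p).erase a) q = 1 := by
    have := dg_erase_adj hma hqaadj
    omega
  set F : Finset V := {p, q} ∪ {a, b} with hF
  have s1 := sel2 (F := {p, q}) hp hn hab
  rw [hda, hdb, cc1, ← hF] at s1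
  have s2 := del1 (F := F) hma (by simp [hF]) ha
  rw [hdq2, cc1] at s2
  have s3 := del1 (F := F) hmb2 (by simp [hF]) hb2
  by_cases hsq : s = q
  · subst hsq
    have hadj : H.Adj s b := (mem_nb.1 (mem1 hb)).2.symm
    have hd0 : dg H (((A.erase p).erase a).erase b) s = 0 := by
      have := dg_erase_adj hmb2 hadj
      omega
    have hA3 := conn_zero hC3 hq3 hd0
    rw [hd0, cc0, hA3, fb_single' (by simp [hF])] at s3
    linarith
  · obtain ⟨t, ht⟩ := nb1 hdq2
    have hsqn : ¬ H.Adj q b := by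
      intro h
      have : q ∈ nb H (A.erase p) b := mem_nb.2 ⟨mem_erase.2 ⟨hqp, hq⟩, h.symm⟩
      rw [hb, mem_singleton] at this
      exact hsq this.symm
    have ht3 : nb H (((A.erase p).erase a).erase b) q = {t} := by
      rw [nb_erase, ht]
      ext x
      simp only [mem_erase, mem_singleton]
      constructor
      · exact fun h => h.2
      · rintro rfl
        refine ⟨?_, rfl⟩
        rintro rfl
        exact hsqn (mem_nb.1 (mem1 ht)).2
    have s4 := del1 (F := F) hq3 (by simp [hF]) ht3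
    have hC4 := conn_erase_leaf hC3 hq3 ht3
    have htm := mem1 ht3
    have hss : (((A.erase p).erase a).erase b).erase q ⊂ A :=
      lt_of_lt_of_le (erase_ssubset hq3)
        ((erase_subset _ _).trans ((erase_subset _ _).trans (erase_subset _ _)))
    have hc4 := IH _ hss ⟨t, mem_erase_nb htm⟩ hC4
    have hdt : dg H (((A.erase p).erase a).erase b) t ≤ 3 := by
      refine (dg_mono ((erase_subset _ _).trans ((erase_subset _ _).trans (erase_subset _ _)))
        t).trans (hd t ?_)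
      have := mem_of_nb htm
      simp only [mem_erase] at this
      exact this.2.2.2
    have k1 := K1 hC4 hc4 (mem_erase_nb htm) (dg_le_of_nb hq3 htm hdt)
    have m4 : fb H ((((A.erase p).erase a).erase b).erase q) F ≤
        fb H ((((A.erase p).erase a).erase b).erase q) ∅ := fbm (by simp)
    have hs3 : s ∈ ((A.erase p).erase a).erase b := mem_erase_nb (mem1 hb2)
    have c3 := cc_le4 (dg_pos hC3 hs3 hq3 hsq)
    linarith

/-- leaf `a` with neighbour `r` of degree two, one free vertex `q` -/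
theorem T_leaf2q (hC : Conn H A) (hd : ∀ v ∈ A, dg H A v ≤ 3) (hA : A ⊂ B) (IH : IHyp H B)
    {a r q : V} (ha : a ∈ A) (hn : nb H A a = {r}) (hr : dg H A r = 2) (hq : q ∈ A)
    (hqa : q ≠ a) (hqr : q ≠ r) (hdq : dg H A q ≤ 2) : fb H A {q} ≤ -4 := by
  have hra := mem_nb_comm ha (mem1 hn)
  obtain ⟨w, haw, hnr⟩ := nb2' hr hra
  have hC2 := conn_erase_leaf hC ha hn
  have hr2 : r ∈ A.erase a := mem_erase_nb (mem1 hn)
  have hwr : w ∈ nb H A r := mem2b hnr
  have hn2 : nb H (A.erase a) r = {w} := by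
    rw [nb_erase, hnr]
    ext x
    simp only [mem_erase, mem_insert, mem_singleton]
    constructor
    · rintro ⟨h1, h2 | h2⟩
      · exact absurd h2 h1
      · exact h2
    · rintro rfl; exact ⟨haw.symm, Or.inr rfl⟩
  have hC3 := conn_erase_leaf hC2 hr2 hn2
  have hss : (A.erase a).erase r ⊂ B :=
    lt_of_le_of_lt ((erase_subset _ _).trans (erase_subset _ _)) hA
  have hw3 : w ∈ (A.erase a).erase r := mem_erase_nb (mem1 hn2)
  have hc := IH _ hss ⟨w, hw3⟩ hC3
  have s1 := leafsel2 (F := {q}) ha hn hnr haw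
  have hq3 : q ∈ (A.erase a).erase r := by simp [hq, hqa, hqr]
  have hdq3 : dg H ((A.erase a).erase r) q ≤ 2 :=
    (dg_mono ((erase_subset _ _).trans (erase_subset _ _)) q).trans hdq
  have hdw3 : dg H ((A.erase a).erase r) w ≤ 2 := by
    refine dg_le_of_nb hr2 (mem1 hn2) ?_
    exact dg_erase_le.trans (hd w (mem_of_nb hwr))
  by_cases hwq : w = q
  · subst hwq
    have hd1 : dg H ((A.erase a).erase r) w ≤ 1 := by
      have := dg_erase_adj hr2 (mem_nb.1 (mem1 hn2)).2.symm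
      have h2 : dg H (A.erase a) w ≤ dg H A w := dg_erase_le
      omega
    have k := K2' hC3 hc hw3 hd1
    have m : fb H ((A.erase a).erase r) (insert w {w}) ≤ fb H ((A.erase a).erase r) {w} :=
      fbm (by simp)
    linarith
  · have k := K3 hC3 hc hw3 hdw3 hq3 hdq3 hwq
    linarith

end

end Pool.Agent.H94.Dom
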