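import Mathlib
import Pool.Agent.Dom94.HandC

/-! Hand proofs for MP_3fbd8d_co, part D: pairs, triples, leaves. -/

set_option linter.unusedSectionVars false

namespace Pool.Agent.H94.Dom

open Finset

section
variable {V : Type} [DecidableEq V] {H : SimpleGraph V} {A B F F' D X Y : Finset V}

theorem er_ss {p q : V} (hp : p ∈ A) : (A.erase p).erase q ⊂ A :=
  lt_of_le_of_lt (erase_subset _ _) (erase_ssubset hp)

theorem er_ss3 {p q r : V} (hp : p ∈ A) : ((A.erase p).erase q).erase r ⊂ A :=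
  lt_of_le_of_lt (erase_subset _ _) (er_ss hp)

theorem T_pairConn (hd : ∀ v ∈ A, dg H A v ≤ 3) (IH : IHyp H A) {p q a b : V}
    (hp : p ∈ A) (hq : q ∈ A) (hne : p ≠ q) (hn : nb H A p = {a, b}) (hab : a ≠ b)
    (hdq : dg H A q = 2) (hC1 : Conn H (A.erase p)) :
    fb H A {p, q} ≤ -4 := by
  have hma := mem_erase_nb (mem2a hn)
  have hmb := mem_erase_nb (mem2b hn)
  have hq1 : q ∈ A.erase p := mem_erase.2 ⟨hne.symm, hq⟩
  have hdq1 : dg H (A.erase p) q ≤ 2 := dg_erase_le.trans hdq.le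
  have hc := IH _ (erase_ssubset hp) ⟨a, hma⟩ hC1
  have s1 := del2 (F := {p, q}) hp (by simp) hn hab
  have m1 : fb H (A.erase p) {p, q} ≤ fb H (A.erase p) {q} := fbm (by simp)
  have da := dg_pos hC1 hma hmb hab
  have db := dg_pos hC1 hmb hma hab.symm
  have da3 := dg_le_of_nb hp (mem2a hn) (hd a (mem_of_nb (mem2a hn)))
  have db3 := dg_le_of_nb hp (mem2b hn) (hd b (mem_of_nb (mem2b hn)))
  have ca := cc_le4 da
  have cb := cc_le4 db
  -- `q` adjacent to `p`
  by_cases hqn : q ∈ nb H A p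
  · have h1 : dg H (A.erase p) q ≤ 1 := by
      have := dg_erase_adj hp (mem_nb.1 hqn).2.symm
      omega
    have := hc.mark1 q hq1 h1
    linarith
  have hqa : q ≠ a := by rintro rfl; exact hqn (mem2a hn)
  have hqb : q ≠ b := by rintro rfl; exact hqn (mem2b hn)
  have mk := hc.mark q hq1 hdq1
  by_cases ha2 : dg H (A.erase p) a = 2
  · rw [ha2, cc2] at s1; linarith
  by_cases hb2 : dg H (A.erase p) b = 2
  · rw [hb2, cc2] at s1; linarith
  have ha1 : dg H (A.erase p) a = 1 := by omega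
  have hb1 : dg H (A.erase p) b = 1 := by omega
  obtain ⟨r, hr⟩ := nb1 ha1
  obtain ⟨s, hs⟩ := nb1 hb1
  by_cases hqr : r = q
  · subst hqr
    exact T_pairThread hd IH hp hq hn hab hdq hqa hqb hne.symm hC1 hr hs ha1 hb1
  by_cases hqs : s = q
  · subst hqs
    exact T_pairThread hd IH hp hq (by rw [hn, pair_comm]) hab.symm hdq hqb hqa hne.symm hC1 hs
      hr hb1 ha1
  rw [ha1, hb1, cc1] at s1
  have hd1 : ∀ v ∈ A.erase p, dg H (A.erase p) v ≤ 3 :=
    fun v hv => dg_erase_le.trans (hd v (mem_of_mem_erase hv))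
  -- degrees of `r`, `s`
  by_cases hr2 : dg H (A.erase p) r = 2
  · have := T_leaf2q hC1 hd1 (erase_ssubset hp) IH hma hr hr2 hq1 hqa (Ne.symm hqr) hdq1
    linarith
  by_cases hs2 : dg H (A.erase p) s = 2
  · have := T_leaf2q hC1 hd1 (erase_ssubset hp) IH hmb hs hs2 hq1 hqb (Ne.symm hqs) hdq1
    linarith
  have hr1 : r ∈ A.erase p := mem_of_nb (mem1 hr)
  have hs1 : s ∈ A.erase p := mem_of_nb (mem1 hs)
  have hC2 := conn_erase_leaf hC1 hma hr
  have hra := mem_nb_comm hma (mem1 hr)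
  have hsb := mem_nb_comm hmb (mem1 hs)
  have hr_ne : r ≠ a := ne_nb (mem1 hr)
  have hs_ne : s ≠ b := ne_nb (mem1 hs)
  -- `r ≠ b`
  have key : ∀ {a b r s : V}, a ∈ A.erase p → b ∈ A.erase p → a ≠ b → q ≠ a → q ≠ b → r ≠ q →
      dg H (A.erase p) a = 1 → nb H (A.erase p) a = {r} → dg H (A.erase p) r ≠ 1 := by
    intro a b r s hma hmb hab hqa hqb hrq ha1 hr h1
    have hC2 := conn_erase_leaf hC1 hma hr
    have hr2 : r ∈ (A.erase p).erase a := mem_erase_nb (mem1 hr)
    have h0 : dg H ((A.erase p).erase a) r = 0 := by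
      have := dg_erase_adj hma (mem_nb.1 (mem1 hr)).2.symm
      omega
    have := conn_zero hC2 hr2 h0
    have hq2 : q ∈ (A.erase p).erase a := mem_erase.2 ⟨hqa, hq1⟩
    rw [this, mem_singleton] at hq2
    exact hrq hq2.symm
  have hr1' := key (s := s) hma hmb hab hqa hqb hqr ha1 hr
  have hs1' := key (s := r) hmb hma hab.symm hqb hqa hqs hb1 hs
  have hr0 := dg_pos hC1 hr1 hma hr_ne
  have hs0 := dg_pos hC1 hs1 hmb hs_ne
  have hr3 : dg H (A.erase p) r = 3 := by have := hd1 r hr1; omega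
  have hs3 : dg H (A.erase p) s = 3 := by have := hd1 s hs1; omega
  have hrb : r ≠ b := by rintro rfl; omega
  have hsa : s ≠ a := by rintro rfl; omega
  have hmb2 : b ∈ (A.erase p).erase a := mem_erase.2 ⟨hab.symm, hmb⟩
  have hb2' : nb H ((A.erase p).erase a) b = {s} := by
    rw [nb_erase, hs]
    ext x
    simp only [mem_erase, mem_singleton]
    constructor
    · exact fun h => h.2
    · rintro rfl; exact ⟨hsa, rfl⟩
  have hC3 := conn_erase_leaf hC2 hmb2 hb2'
  have hq3 : q ∈ ((A.erase p).erase a).erase b := by simp [hqa, hqb, hne.symm, hq]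
  by_cases hrs : r = s
  · subst hrs
    obtain ⟨z, haz, hbz, hnr⟩ := nb3'' hr3 hra hsb hab
    have s2 := leafsel3 (F := {q}) hma hr hnr hab haz hbz
    set A5 := ((A.erase p).erase a).erase r with hA5
    have hb5 : b ∈ A5 := mem_erase.2 ⟨hs_ne.symm, hmb2⟩
    have hn5 : nb H A5 b = ∅ := by
      rw [hA5, nb_erase, hb2']; simp
    have hd5 : dg H A5 b = 0 := by rw [dg_eq hn5, card_empty]
    rw [hd5, cc0] at s2
    have s3 := del0 (F := insert b (insert z {q})) hb5 (by simp) hn5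
    have hzr : z ∈ nb H (A.erase p) r := by rw [hnr]; simp
    have hzp : z ∈ A.erase p := mem_of_nb hzr
    have hz_r : z ≠ r := ne_nb hzr
    set A6 := A5.erase b with hA6
    have hz6 : z ∈ A6 := by
      simp only [hA6, hA5, mem_erase]
      exact ⟨hbz.symm, hz_r, haz.symm, mem_erase.1 hzp⟩
    have hr3' : r ∈ ((A.erase p).erase a).erase b := by
      simp only [mem_erase]
      exact ⟨hrb, hr_ne, mem_erase.1 hr1⟩
    have hnr3 : nb H (((A.erase p).erase a).erase b) r = {z} := by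
      rw [nb_erase, nb_erase, hnr]
      ext x
      simp only [mem_erase, mem_insert, mem_singleton]
      constructor
      · tauto
      · rintro rfl
        exact ⟨hbz.symm, haz.symm, Or.inr (Or.inr rfl)⟩
    have hC6 : Conn H A6 := by
      have := conn_erase_leaf hC3 hr3' hnr3
      rw [hA6, hA5, erase_right_comm]
      exact this
    have hzb : ¬ H.Adj z b := by
      intro h
      have : z ∈ nb H (A.erase p) b := mem_nb.2 ⟨hzp, h.symm⟩
      rw [hs, mem_singleton] at this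
      exact hz_r this
    have hdz : dg H A6 z = dg H A5 z := dg_erase_nadj hzb
    have hdz2 : dg H A6 z ≤ 2 := by
      rw [hdz]
      refine dg_le_of_nb (p := r) (A := (A.erase p).erase a) (mem_erase_nb (mem1 hr)) ?_ ?_
      · rw [nb_erase]
        exact mem_erase.2 ⟨haz.symm, hzr⟩
      · exact dg_erase_le.trans (hd1 z hzp)
    have hq6 : q ∈ A6 := by
      simp only [hA6, hA5, mem_erase]
      exact ⟨hqb, Ne.symm hqr, hqa, hne.symm, hq⟩
    have hdq6 : dg H A6 q ≤ 2 :=
      (dg_erase_le.trans (dg_erase_le.trans (dg_erase_le.trans hdq1)))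
    have hss : A6 ⊂ A := by
      rw [hA6, hA5]
      exact lt_of_le_of_lt (erase_subset _ _) (er_ss3 hp)
    have hc6 := IH _ hss ⟨z, hz6⟩ hC6
    have m6 : fb H A6 (insert b (insert z {q})) ≤ fb H A6 {z, q} := fbm (by
      intro x hx; simp only [mem_insert, mem_singleton] at hx ⊢; tauto)
    rw [← hdz] at s2
    by_cases hzq : z = q
    · subst hzq
      have k := K2 hC6 hc6 hz6 hdz2
      have m7 : fb H A6 {z, z} ≤ fb H A6 {z} := fbm (by simp)
      linarith
    · have k := K3 hC6 hc6 hz6 hdz2 hq6 hdq6 hzq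
      linarith
  · -- `r ≠ s`
    set F : Finset V := {p, q} ∪ {a, b} with hF
    have t1 := sel2 (F := {p, q}) hp hn hab
    rw [ha1, hb1, cc1, ← hF] at t1
    have t2 := del1 (F := F) hma (by simp [hF]) hr
    have dr2 : dg H ((A.erase p).erase a) r = 2 := by
      have := dg_erase_adj hma (mem_nb.1 (mem1 hr)).2.symm
      omega
    rw [dr2, cc2] at t2
    have t3 := del1 (F := F) hmb2 (by simp [hF]) hb2'
    have ds2 : dg H (((A.erase p).erase a).erase b) s = 2 := by
      have h1 := dg_erase_adj hmb2 (mem_nb.1 (mem1 hb2')).2.symm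
      have h2 : dg H ((A.erase p).erase a) s = dg H (A.erase p) s := by
        apply dg_erase_nadj
        intro h
        have : s ∈ nb H (A.erase p) a := mem_nb.2 ⟨hs1, h.symm⟩
        rw [hr, mem_singleton] at this
        exact hrs this.symm
      omega
    rw [ds2, cc2] at t3
    have hc3 := IH _ (er_ss3 hp) ⟨q, hq3⟩ hC3
    have m3 : fb H (((A.erase p).erase a).erase b) F ≤
        fb H (((A.erase p).erase a).erase b) {q} := fbm (by simp [hF])
    have mk3 := hc3.mark q hq3 (dg_erase_le.trans (dg_erase_le.trans hdq1))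
    linarith

theorem T_pair (hC : Conn H A) (hd : ∀ v ∈ A, dg H A v ≤ 3) (IH : IHyp H A) {v w : V}
    (hv : v ∈ A) (hw : w ∈ A) (hne : v ≠ w) (h : dg H A v ≤ 2) (h2 : dg H A w ≤ 2) :
    fb H A {v, w} ≤ -4 := by
  by_cases h1 : dg H A v ≤ 1
  · linarith [T_pair1 hC hd IH hv hw hne h1 h2]
  by_cases h3 : dg H A w ≤ 1
  · have := T_pair1 hC hd IH hw hv hne.symm h3 h
    rw [pair_comm] at this
    linarith
  obtain ⟨a, b, hab, hn⟩ := nb2 (show dg H A v = 2 by omega)
  rcases split_erase hC hv hn with hC1 | ⟨X, Y, e1, e2, e3, e4, e5, e6, e7⟩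
  · exact T_pairConn hd IH hv hw hne hn hab (by omega) hC1
  · have hcut : CutD H A v a b X Y := ⟨hv, hn, hab, e1, e2, e3, e4, e5, e6, e7⟩
    have hw1 : w ∈ X ∪ Y := by rw [e2]; exact mem_erase.2 ⟨hne.symm, hw⟩
    rcases mem_union.1 hw1 with hwX | hwY
    · exact T_pairCut hd IH hcut.symm hwX h2
    · exact T_pairCut hd IH hcut hwY h2

/-- both other marks in `Y` -/
theorem T_tripCut1 (hd : ∀ v ∈ A, dg H A v ≤ 3) (IH : IHyp H A) {p q z a b : V}
    (h : CutD H A p a b X Y) (hq : q ∈ Y) (hz : z ∈ Y) (hqz : q ≠ z) (h2 : dg H A q ≤ 2)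
    (h3 : dg H A z ≤ 2) : fb H A {p, q, z} ≤ -5 := by
  have hcX := h.clX IH
  have hcY := h.clY IH
  have hda := h.dga hd
  have hdb := h.dgb hd
  have hdq : dg H Y q ≤ 2 := (dg_mono (h.subY.trans (erase_subset _ _)) q).trans h2
  have hdz : dg H Y z ≤ 2 := (dg_mono (h.subY.trans (erase_subset _ _)) z).trans h3
  have e1 := h.del (F := {p, q, z}) (by simp)
  have e2 := h.sel (F := {p, q, z})
  have x1 : fb H X {p, q, z} ≤ fb H X ∅ := fbm (by simp)
  have x2 : fb H X (insert a {p, q, z}) ≤ fb H X {a} := fbm (by simp)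
  have k1 := K1 h.cX hcX h.ha hda
  have k2 := K2 h.cX hcX h.ha hda
  have dich : fb H X {a} = fb H X ∅ ∨ fb H X {a} + 20 ≤ fb H X ∅ := fb_dich (by simp)
  have y1 : fb H Y {p, q, z} ≤ fb H Y {q, z} := fbm (by simp)
  have hb1 : ∀ {b' : V}, b' = b → dg H A b' ≤ 2 → dg H Y b ≤ 1 := by
    intro b' hb' hh
    subst hb'
    have e := dg_part' h.un h.ne h.hb
    have e' := dg_erase_adj h.hp (mem_nb.1 (mem2b h.hn)).2.symm
    omega
  by_cases hbq : q = b
  · have hd1 := hb1 hbq h2
    subst hbq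
    have y2 : fb H Y (insert q {p, q, z}) ≤ fb H Y {q, z} := fbm (by
      intro x hx; simp only [mem_insert, mem_singleton] at hx ⊢; tauto)
    have k3 := hcY.pair1 q hq z hz hqz hd1 hdz
    have k4 := cc_le4 (dg_pos h.cY hq hz hqz)
    rcases dich with d | d <;> linarith
  by_cases hbz : z = b
  · have hd1 := hb1 hbz h3
    subst hbz
    have y2 : fb H Y (insert z {p, q, z}) ≤ fb H Y {q, z} := fbm (by
      intro x hx; simp only [mem_insert, mem_singleton] at hx ⊢; tauto)
    have k3 := hcY.pair1 z hz q hq hqz.symm hd1 hdq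
    rw [pair_comm] at k3
    have k4 := cc_le4 (dg_pos h.cY hz hq hqz.symm)
    rcases dich with d | d <;> linarith
  · have y2 : fb H Y (insert b {p, q, z}) ≤ fb H Y {b, q, z} := fbm (by
      intro x hx; simp only [mem_insert, mem_singleton] at hx ⊢; tauto)
    have k3 := K5 h.cY hcY h.hb hdb hq hdq hz hdz (Ne.symm hbq) (Ne.symm hbz) hqz
    have k7 := K7 h.cY hcY h.hb hq hdq hz hdz (Ne.symm hbq) hqz
    rcases dich with d | d <;> linarith

/-- one other mark in each side -/
theorem T_tripCut2 (hd : ∀ v ∈ A, dg H A v ≤ 3) (IH : IHyp H A) {p q z a b : V}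
    (h : CutD H A p a b X Y) (hq : q ∈ X) (hz : z ∈ Y) (h2 : dg H A q ≤ 2)
    (h3 : dg H A z ≤ 2) : fb H A {p, q, z} ≤ -5 := by
  have e1 := h.del (F := {p, q, z}) (by simp)
  have e2 := h.sel (F := {p, q, z})
  have key : ∀ {X Y : Finset V} {a b q : V}, CutD H A p a b X Y → q ∈ X → dg H A q ≤ 2 →
      fb H X {q} + cc (dg H X a) ≤ 3 ∧ fb H X {a, q} + cc (dg H X a) ≤ -2 ∧
      (fb H X {a, q} = fb H X {q} ∨ fb H X {a, q} + 20 ≤ fb H X {q}) := by
    intro X Y a b q h hq h2
    have hcX := h.clX IH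
    have hda := h.dga hd
    have hdq : dg H X q ≤ 2 := (dg_mono (h.subX.trans (erase_subset _ _)) q).trans h2
    refine ⟨?_, ?_, fb_dich (by
      intro v _ hv; simp only [mem_insert, mem_singleton] at hv ⊢; exact Or.inr hv)⟩
    · by_cases haq : a = q
      · subst haq
        linarith [K2 h.cX hcX hq hdq]
      · exact K6 h.cX hcX h.ha hq hdq haq
    · by_cases haq : a = q
      · subst haq
        have hd1 : dg H X a ≤ 1 := by
          have e := dg_part h.un h.ne h.ha
          have e' := dg_erase_adj h.hp (mem_nb.1 (mem2a h.hn)).2.symm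
          omega
        have := K2' h.cX hcX hq hd1
        have m : fb H X {a, a} ≤ fb H X {a} := fbm (by simp)
        linarith
      · exact K3 h.cX hcX h.ha hda hq hdq haq
  obtain ⟨a1, a2, a3⟩ := key h hq h2
  obtain ⟨b1, b2, b3⟩ := key h.symm hz h3
  have x1 : fb H X {p, q, z} ≤ fb H X {q} := fbm (by simp)
  have y1 : fb H Y {p, q, z} ≤ fb H Y {z} := fbm (by simp)
  have x2 : fb H X (insert a {p, q, z}) ≤ fb H X {a, q} := fbm (by
    intro x hx; simp only [mem_insert, mem_singleton] at hx ⊢; tauto)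
  have y2 : fb H Y (insert b {p, q, z}) ≤ fb H Y {b, z} := fbm (by
    intro x hx; simp only [mem_insert, mem_singleton] at hx ⊢; tauto)
  rcases a3 with a3 | a3 <;> rcases b3 with b3 | b3 <;> linarith

theorem T_trip (hC : Conn H A) (hd : ∀ v ∈ A, dg H A v ≤ 3) (IH : IHyp H A) {v w z : V}
    (hv : v ∈ A) (hw : w ∈ A) (hz : z ∈ A) (hvw : v ≠ w) (hvz : v ≠ z) (hwz : w ≠ z)
    (h : dg H A v ≤ 2) (h2 : dg H A w ≤ 2) (h3 : dg H A z ≤ 2) :
    fb H A {v, w, z} ≤ -5 := by
  by_cases h1 : dg H A v ≤ 1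
  · linarith [T_trip1 hC hd IH hv hw hz hvw hvz hwz h1 h2 h3]
  obtain ⟨a, b, hab, hn⟩ := nb2 (show dg H A v = 2 by omega)
  have hw1 : w ∈ A.erase v := mem_erase.2 ⟨hvw.symm, hw⟩
  have hz1 : z ∈ A.erase v := mem_erase.2 ⟨hvz.symm, hz⟩
  rcases split_erase hC hv hn with hC1 | ⟨X, Y, e1, e2, e3, e4, e5, e6, e7⟩
  · have hma := mem_erase_nb (mem2a hn)
    have hmb := mem_erase_nb (mem2b hn)
    have hc := IH _ (erase_ssubset hv) ⟨a, hma⟩ hC1
    have s1 := del2 (F := {v, w, z}) hv (by simp) hn hab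
    have m1 : fb H (A.erase v) {v, w, z} ≤ fb H (A.erase v) {w, z} := fbm (by simp)
    have ca := cc_le4 (dg_pos hC1 hma hmb hab)
    have cb := cc_le4 (dg_pos hC1 hmb hma hab.symm)
    have k := hc.pair w hw1 z hz1 hwz (dg_erase_le.trans h2) (dg_erase_le.trans h3)
    linarith
  · have hcut : CutD H A v a b X Y := ⟨hv, hn, hab, e1, e2, e3, e4, e5, e6, e7⟩
    rw [← e2, mem_union] at hw1 hz1
    rcases hw1 with hwX | hwY <;> rcases hz1 with hzX | hzY
    · exact T_tripCut1 hd IH hcut.symm hwX hzX hwz h2 h3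
    · exact T_tripCut2 hd IH hcut hwX hzY h2 h3
    · exact T_tripCut2 hd IH hcut.symm hwY hzX h2 h3
    · exact T_tripCut1 hd IH hcut hwY hzY hwz h2 h3

/-- a graph with a leaf -/
theorem T_leaf (hC : Conn H A) (hd : ∀ v ∈ A, dg H A v ≤ 3) (IH : IHyp H A) {l : V}
    (hl : l ∈ A) (h : dg H A l = 1) : fb H A ∅ ≤ 2 := by
  obtain ⟨u, hu⟩ := nb1 h
  have hum := mem1 hu
  have huA := mem_of_nb hum
  have hlu := mem_nb_comm hl hum
  have hC1 := conn_erase_leaf hC hl hu
  have hu1 := mem_erase_nb hum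
  obtain h1 | h1 | h1 : dg H A u = 1 ∨ dg H A u = 2 ∨ dg H A u = 3 := by
    have := hd u huA
    have := dg_pos hC huA hl (ne_nb hum)
    omega
  · obtain ⟨l', hl'⟩ := nb1 h1
    rw [hl', mem_singleton] at hlu
    subst hlu
    have s := leafsel1 (F := ∅) hl hu hl'
    have h0 : dg H (A.erase l) u = 0 := by
      have := dg_erase_adj hl (mem_nb.1 hum).2.symm
      omega
    have := conn_zero hC1 hu1 h0
    rw [this] at s
    rw [show ({u} : Finset V).erase u = ∅ by simp, fb_empty] at s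
    linarith
  · obtain ⟨w, hlw, hnu⟩ := nb2' h1 hlu
    have s := leafsel2 (F := ∅) hl hu hnu hlw
    have hwm : w ∈ nb H (A.erase l) u := by
      rw [nb_erase]; exact mem_erase.2 ⟨hlw.symm, mem2b hnu⟩
    have hn1 : nb H (A.erase l) u = {w} := by
      rw [nb_erase, hnu]
      ext x
      simp only [mem_erase, mem_insert, mem_singleton]
      constructor
      · tauto
      · rintro rfl; exact ⟨hlw.symm, Or.inr rfl⟩
    have hC2 := conn_erase_leaf hC1 hu1 hn1
    have hw2 := mem_erase_nb hwm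
    have hc := IH _ (er_ss hl) ⟨w, hw2⟩ hC2
    have k := K2 hC2 hc hw2 (dg_le_of_nb hu1 hwm
      (dg_erase_le.trans (hd w (mem_of_mem_erase (mem_of_nb hwm)))))
    have m : fb H ((A.erase l).erase u) (insert w ∅) ≤ fb H ((A.erase l).erase u) {w} :=
      fbm (by simp)
    linarith
  · obtain ⟨w, z, hlw, hlz, hwz, hnu⟩ := nb3' h1 hlu
    have s := leafsel3 (F := ∅) hl hu hnu hlw hlz hwz
    have hn1 : nb H (A.erase l) u = {w, z} := by
      rw [nb_erase, hnu]
      ext x
      simp only [mem_erase, mem_insert, mem_singleton]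
      constructor
      · tauto
      · rintro (rfl | rfl)
        · exact ⟨hlw.symm, Or.inr (Or.inl rfl)⟩
        · exact ⟨hlz.symm, Or.inr (Or.inr rfl)⟩
    have hwm := mem2a hn1
    have hzm := mem2b hn1
    have hw2 := mem_erase_nb hwm
    have hz2 := mem_erase_nb hzm
    have hdw := dg_le_of_nb hu1 hwm (dg_erase_le.trans (hd w (mem_of_mem_erase (mem_of_nb hwm))))
    have hdz := dg_le_of_nb hu1 hzm (dg_erase_le.trans (hd z (mem_of_mem_erase (mem_of_nb hzm))))
    have m : ∀ C, fb H C (insert w (insert z ∅)) ≤ fb H C {w, z} := fun C => fbm (by simp)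
    rcases split_erase hC1 hu1 hn1 with hC2 | ⟨X, Y, e1, e2, e3, e4, e5, e6, e7⟩
    · have hc := IH _ (er_ss hl) ⟨w, hw2⟩ hC2
      have k := K4 hC2 hc hw2 hdw hz2 hdz hwz
      have := m ((A.erase l).erase u)
      linarith
    · have hX : X ⊂ A := lt_of_le_of_lt (by rw [← e2]; exact subset_union_left) (er_ss hl (q := u))
      have hY : Y ⊂ A := lt_of_le_of_lt (by rw [← e2]; exact subset_union_right) (er_ss hl (q := u))
      have hcX := IH X hX ⟨w, e3⟩ e5
      have hcY := IH Y hY ⟨z, e4⟩ e6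
      have u1 := fb_union (F := insert w (insert z ∅)) e1 e7
      rw [e2] at u1
      rw [dg_part e2 e7 e3] at hdw s
      rw [dg_part' e2 e7 e4] at hdz s
      have k1 := K2 e5 hcX e3 hdw
      have k2 := K2 e6 hcY e4 hdz
      have m1 : fb H X (insert w (insert z ∅)) ≤ fb H X {w} := fbm (by simp)
      have m2 : fb H Y (insert w (insert z ∅)) ≤ fb H Y {z} := fbm (by simp)
      linarith

end

end Pool.Agent.H94.Dom
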