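import Mathlib
import Pool.Agent.Dom94.HandD

/-! Hand proofs for MP_3fbd8d_co, part E: bridges, marked vertex in general, the induction. -/

set_option linter.unusedSectionVars false

namespace Pool.Agent.H94.Dom

open Finset

section
variable {V : Type} [DecidableEq V] {H : SimpleGraph V} {A B F F' D X Y : Finset V}

/-- a piece with attachment `w` and mark `v` -/
theorem Kmark (hC : Conn H B) (hc : Cl H B) {w v : V} (hw : w ∈ B) (h2 : dg H B w ≤ 2)
    (hv : v ∈ B) (h3 : dg H B v ≤ 2) (h1 : v = w → dg H B v ≤ 1) :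
    fb H B {w, v} + cc (dg H B w) ≤ -2 := by
  by_cases hwv : w = v
  · subst hwv
    have := K2' hC hc hw (h1 rfl)
    have m : fb H B {w, w} ≤ fb H B {w} := fbm (by simp)
    linarith
  · exact K3 hC hc hw h2 hv h3 hwv

/-- marked vertex and a leaf -/
theorem T_markLeaf (hC : Conn H A) (hd : ∀ v ∈ A, dg H A v ≤ 3) (IH : IHyp H A) {l v : V}
    (hl : l ∈ A) (hv : v ∈ A) (hne : l ≠ v) (h : dg H A l = 1) (h2 : dg H A v ≤ 2) :
    fb H A {v} ≤ -1 := by
  obtain ⟨u, hu⟩ := nb1 h
  have hum := mem1 hu
  have huA := mem_of_nb hum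
  have hlu := mem_nb_comm hl hum
  have hC1 := conn_erase_leaf hC hl hu
  have hu1 := mem_erase_nb hum
  have hv1 : v ∈ A.erase l := mem_erase.2 ⟨hne.symm, hv⟩
  obtain h1 | h1 | h1 : dg H A u = 1 ∨ dg H A u = 2 ∨ dg H A u = 3 := by
    have := hd u huA
    have := dg_pos hC huA hl (ne_nb hum)
    omega
  · have h0 : dg H (A.erase l) u = 0 := by
      have := dg_erase_adj hl (mem_nb.1 hum).2.symm
      omega
    have := conn_zero hC1 hu1 h0
    rw [this, mem_singleton] at hv1
    subst hv1
    linarith [T_mark1 hC hd IH hv h1.le]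
  · obtain ⟨w, hlw, hnu⟩ := nb2' h1 hlu
    have s := leafsel2 (F := {v}) hl hu hnu hlw
    have hwm : w ∈ nb H (A.erase l) u := by
      rw [nb_erase]; exact mem_erase.2 ⟨hlw.symm, mem2b hnu⟩
    have hn1 : nb H (A.erase l) u = {w} := by
      rw [nb_erase, hnu]
      ext x
      simp only [mem_erase, mem_insert, mem_singleton]
      constructor
      · tauto
      · rintro rfl; exact ⟨hlw.symm, Or.inr rfl⟩
    have hC2 := conn_erase_leaf hC1 hu1 hn1
    have hw2 := mem_erase_nb hwm
    have hc := IH _ (er_ss hl) ⟨w, hw2⟩ hC2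
    have hdw := dg_le_of_nb hu1 hwm
      (dg_erase_le.trans (hd w (mem_of_mem_erase (mem_of_nb hwm))))
    by_cases huv : u = v
    · have k := K2 hC2 hc hw2 hdw
      have m : fb H ((A.erase l).erase u) (insert w {v}) ≤ fb H ((A.erase l).erase u) {w} :=
        fbm (by simp)
      linarith
    · have hv2 : v ∈ (A.erase l).erase u := mem_erase.2 ⟨Ne.symm huv, hv1⟩
      have k := Kmark hC2 hc hw2 hdw hv2 (dg_erase_le.trans (dg_erase_le.trans h2)) (by
        rintro rfl
        have := dg_erase_adj hu1 (mem_nb.1 hwm).2.symm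
        have h4 : dg H (A.erase l) v ≤ dg H A v := dg_erase_le
        omega)
      linarith
  · have huv : u ≠ v := by
      rintro rfl
      omega
    obtain ⟨w, z, hlw, hlz, hwz, hnu⟩ := nb3' h1 hlu
    have s := leafsel3 (F := {v}) hl hu hnu hlw hlz hwz
    have hn1 : nb H (A.erase l) u = {w, z} := by
      rw [nb_erase, hnu]
      ext x
      simp only [mem_erase, mem_insert, mem_singleton]
      constructor
      · tauto
      · rintro (rfl | rfl)
        · exact ⟨hlw.symm, Or.inr (Or.inl rfl)⟩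
        · exact ⟨hlz.symm, Or.inr (Or.inr rfl)⟩
    have hwm := mem2a hn1
    have hzm := mem2b hn1
    have hw2 := mem_erase_nb hwm
    have hz2 := mem_erase_nb hzm
    have hv2 : v ∈ (A.erase l).erase u := mem_erase.2 ⟨Ne.symm huv, hv1⟩
    have hdw := dg_le_of_nb hu1 hwm (dg_erase_le.trans (hd w (mem_of_mem_erase (mem_of_nb hwm))))
    have hdz := dg_le_of_nb hu1 hzm (dg_erase_le.trans (hd z (mem_of_mem_erase (mem_of_nb hzm))))
    have hdv : dg H ((A.erase l).erase u) v ≤ 2 := dg_erase_le.trans (dg_erase_le.trans h2)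
    have hv1' : v ∈ nb H (A.erase l) u → dg H ((A.erase l).erase u) v ≤ 1 := by
      intro hm
      have := dg_erase_adj hu1 (mem_nb.1 hm).2.symm
      have h4 : dg H (A.erase l) v ≤ dg H A v := dg_erase_le
      omega
    rcases split_erase hC1 hu1 hn1 with hC2 | ⟨X, Y, e1, e2, e3, e4, e5, e6, e7⟩
    · have hc := IH _ (er_ss hl) ⟨w, hw2⟩ hC2
      by_cases hvw : v = w
      · subst hvw
        have k := K9 hC2 hc hw2 (hv1' hwm) hz2 hdz hwz
        have m : fb H ((A.erase l).erase u) (insert v (insert z {v})) ≤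
            fb H ((A.erase l).erase u) {v, z} := fbm (by
          intro x hx; simp only [mem_insert, mem_singleton] at hx ⊢; tauto)
        linarith
      by_cases hvz : v = z
      · subst hvz
        have k := K9 hC2 hc hz2 (hv1' hzm) hw2 hdw hwz.symm
        have m : fb H ((A.erase l).erase u) (insert w (insert v {v})) ≤
            fb H ((A.erase l).erase u) {v, w} := fbm (by
          intro x hx; simp only [mem_insert, mem_singleton] at hx ⊢; tauto)
        linarith
      · have k := K8 hC2 hc hv2 hdv hw2 hdw hz2 hdz hvw hvz hwz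
        have m : fb H ((A.erase l).erase u) (insert w (insert z {v})) ≤
            fb H ((A.erase l).erase u) {v, w, z} := fbm (by
          intro x hx; simp only [mem_insert, mem_singleton] at hx ⊢; tauto)
        linarith
    · have hX : X ⊂ A := lt_of_le_of_lt (by rw [← e2]; exact subset_union_left) (er_ss hl (q := u))
      have hY : Y ⊂ A := lt_of_le_of_lt (by rw [← e2]; exact subset_union_right) (er_ss hl (q := u))
      have hcX := IH X hX ⟨w, e3⟩ e5
      have hcY := IH Y hY ⟨z, e4⟩ e6
      have u1 := fb_union (F := insert w (insert z {v})) e1 e7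
      rw [e2] at u1
      rw [dg_part e2 e7 e3] at hdw s
      rw [dg_part' e2 e7 e4] at hdz s
      have k1 := K2 e5 hcX e3 hdw
      have k2 := K2 e6 hcY e4 hdz
      have m1 : fb H X (insert w (insert z {v})) ≤ fb H X {w, v} := fbm (by
        intro x hx; simp only [mem_insert, mem_singleton] at hx ⊢; tauto)
      have m2 : fb H Y (insert w (insert z {v})) ≤ fb H Y {z, v} := fbm (by
        intro x hx; simp only [mem_insert, mem_singleton] at hx ⊢; tauto)
      have m3 : fb H X {w, v} ≤ fb H X {w} := fbm (by simp)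
      have m4 : fb H Y {z, v} ≤ fb H Y {z} := fbm (by simp)
      have hv3 := hv2
      rw [← e2, mem_union] at hv3
      rcases hv3 with hvX | hvY
      · rw [dg_part e2 e7 hvX] at hdv hv1'
        have k := Kmark e5 hcX e3 hdw hvX hdv (by rintro rfl; exact hv1' hwm)
        linarith
      · rw [dg_part' e2 e7 hvY] at hdv hv1'
        have k := Kmark e6 hcY e4 hdz hvY hdv (by rintro rfl; exact hv1' hzm)
        linarith

/-! ### bridges -/

/-- `xy` is a bridge of `A` with sides `X`, `Y`. -/
structure Br (H : SimpleGraph V) (A : Finset V) (x y : V) (X Y : Finset V) : Prop where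
  dis : Disjoint X Y
  un : X ∪ Y = A
  hx : x ∈ X
  hy : y ∈ Y
  adj : H.Adj x y
  uniq : ∀ u ∈ X, ∀ w ∈ Y, H.Adj u w → u = x ∧ w = y

variable {x y : V}

theorem Br.symm (h : Br H A x y X Y) : Br H A y x Y X :=
  ⟨h.dis.symm, by rw [union_comm, h.un], h.hy, h.hx, h.adj.symm,
    fun u hu w hw huw => (h.uniq w hw u hu huw.symm).symm⟩

theorem Br.connX (h : Br H A x y X Y) (hC : Conn H A) : Conn H X := by
  apply conn_of_meet1 (a := x)
  intro Z hZ hZn hZc
  have hXA : X ⊆ A := by rw [← h.un]; exact subset_union_left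
  obtain ⟨z, hz, p, hp, hzp⟩ := clo_meet hC hXA ⟨y, by
    rw [mem_sdiff, ← h.un]
    exact ⟨mem_union_right _ h.hy, fun hyX => disjoint_left.1 h.dis hyX h.hy⟩⟩ hZ hZn hZc
  rw [mem_sdiff, ← h.un, mem_union] at hp
  have hpY : p ∈ Y := by tauto
  rw [← (h.uniq z (hZ hz) p hpY hzp).1]
  exact hz

theorem Br.dgx (h : Br H A x y X Y) : dg H A x = dg H X x + 1 := by
  unfold dg
  have e : nb H A x = insert y (nb H X x) := by
    ext u
    rw [mem_nb, mem_insert, mem_nb, ← h.un, mem_union]
    constructor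
    · rintro ⟨h1 | h1, h2⟩
      · exact Or.inr ⟨h1, h2⟩
      · exact Or.inl (h.uniq x h.hx u h1 h2).2
    · rintro (rfl | ⟨h1, h2⟩)
      · exact ⟨Or.inr h.hy, h.adj⟩
      · exact ⟨Or.inl h1, h2⟩
  rw [e, card_insert_of_notMem]
  intro hy
  exact disjoint_left.1 h.dis (mem_nb.1 hy).1 h.hy

theorem Br.dgo (h : Br H A x y X Y) {v : V} (hv : v ∈ X) (hvx : v ≠ x) : dg H A v = dg H X v := by
  unfold dg
  congr 1
  ext u
  rw [mem_nb, mem_nb, ← h.un, mem_union]
  constructor
  · rintro ⟨h1 | h1, h2⟩
    · exact ⟨h1, h2⟩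
    · exact absurd (h.uniq v hv u h1 h2).1 hvx
  · rintro ⟨h1, h2⟩
    exact ⟨Or.inl h1, h2⟩

theorem Br.Phi (h : Br H A x y X Y) :
    Phi H A = Phi H X + Phi H Y - cc (dg H X x) - cc (dg H Y y) := by
  have key : ∀ {x y : V} {X Y : Finset V}, Br H A x y X Y →
      ∑ v ∈ X, phi (dg H A v) = Dom.Phi H X - cc (dg H X x) := by
    intro x y X Y h
    unfold Dom.Phi
    rw [← add_sum_erase X _ h.hx, ← add_sum_erase X (fun v => phi (dg H X v)) h.hx, h.dgx]
    have : ∑ v ∈ X.erase x, phi (dg H A v) = ∑ v ∈ X.erase x, phi (dg H X v) :=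
      sum_congr rfl fun v hv => by rw [h.dgo (mem_of_mem_erase hv) (ne_of_mem_erase hv)]
    rw [this]
    unfold cc
    ring
  have h1 := key h
  have h2 := key h.symm
  have h3 : Dom.Phi H A = ∑ v ∈ X, phi (dg H A v) + ∑ v ∈ Y, phi (dg H A v) := by
    unfold Dom.Phi
    conv_lhs => rw [← h.un]
    rw [sum_union h.dis, h.un]
  rw [h3, h1, h2]
  ring

/-- smallest dominating set which contains `y` -/
noncomputable def dmS (H : SimpleGraph V) (A : Finset V) (y : V) : ℕ :=
  sInf {k | ∃ D, DomF H A ∅ D ∧ y ∈ D ∧ D.card = k}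

theorem dmS_spec (hy : y ∈ A) : ∃ D, DomF H A ∅ D ∧ y ∈ D ∧ D.card = dmS H A y := by
  have h : {k | ∃ D, DomF H A ∅ D ∧ y ∈ D ∧ D.card = k}.Nonempty :=
    ⟨_, A, DomF.self H A ∅, hy, rfl⟩
  exact Nat.sInf_mem h

theorem dmS_le (h : DomF H A ∅ D) (hy : y ∈ D) : dmS H A y ≤ D.card := Nat.sInf_le ⟨D, h, hy, rfl⟩

theorem dmS_le' (hy : y ∈ A) : dmS H A y ≤ dm H A {y} + 1 := by
  obtain ⟨D, h1, h2⟩ := dm_spec H A {y}
  rw [← h2]
  refine (dmS_le (D := insert y D) ⟨?_, fun v hv _ => ?_⟩ (mem_insert_self _ _)).trans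
    (card_insert_le _ _)
  · intro v hv
    rcases mem_insert.1 hv with rfl | hv
    · exact hy
    · exact h1.1 hv
  · by_cases hvy : v = y
    · exact Or.inl (mem_insert.2 (Or.inl hvy))
    · rcases h1.2 v hv (by simpa using hvy) with h | ⟨u, hu, ha⟩
      · exact Or.inl (mem_insert_of_mem h)
      · exact Or.inr ⟨u, mem_insert_of_mem hu, ha⟩

theorem dmS_ge (hy : y ∈ A) : dm H A ∅ ≤ dmS H A y := by
  obtain ⟨D, h1, _, h3⟩ := dmS_spec (H := H) hy
  rw [← h3]
  exact dm_le h1

/-- value of a side whose end is selected -/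
noncomputable def fs (H : SimpleGraph V) (A : Finset V) (y : V) : ℤ :=
  20 * (dmS H A y : ℤ) - Dom.Phi H A

theorem fs_dich (hy : y ∈ A) : fs H A y = fb H A {y} ∨ fs H A y = fb H A {y} + 20 := by
  unfold fs fb
  have h1 := dmS_le' (H := H) hy
  have h2 := dmS_ge (H := H) hy
  have h3 : dm H A {y} ≤ dm H A ∅ := dm_mono (by simp)
  omega

theorem Br.glue1 (h : Br H A x y X Y) :
    fb H A F ≤ (fb H X F + cc (dg H X x)) + (fb H Y F + cc (dg H Y y)) := by
  have h1 : dm H A F ≤ dm H X F + dm H Y F := by rw [← h.un]; exact dm_union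
  have h2 := h.Phi
  unfold fb
  have h3 : (dm H A F : ℤ) ≤ dm H X F + dm H Y F := by exact_mod_cast h1
  linarith

theorem Br.glue2 (h : Br H A x y X Y) :
    fb H A F ≤ (fb H X (insert x F) + cc (dg H X x)) + (fs H Y y + cc (dg H Y y)) := by
  have h1 : dm H A F ≤ dm H X (insert x F) + dmS H Y y := by
    obtain ⟨D, h1, h2⟩ := dm_spec H X (insert x F)
    obtain ⟨E, h3, h4, h5⟩ := dmS_spec (H := H) h.hy
    rw [← h2, ← h5]
    refine (dm_le (D := D ∪ E) ⟨?_, ?_⟩).trans (card_union_le _ _)
    · rw [← h.un]; exact union_subset_union h1.1 h3.1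
    · intro v hv hvF
      rw [← h.un, mem_union] at hv
      rcases hv with hv | hv
      · by_cases hvx : v = x
        · exact Or.inr ⟨y, mem_union_right _ h4, hvx ▸ h.adj.symm⟩
        · rcases h1.2 v hv (by simp [hvx, hvF]) with h | ⟨u, hu, ha⟩
          · exact Or.inl (mem_union_left _ h)
          · exact Or.inr ⟨u, mem_union_left _ hu, ha⟩
      · rcases h3.2 v hv (by simp) with h | ⟨u, hu, ha⟩
        · exact Or.inl (mem_union_right _ h)
        · exact Or.inr ⟨u, mem_union_right _ hu, ha⟩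
  have h2 := h.Phi
  unfold fb fs
  have h3 : (dm H A F : ℤ) ≤ dm H X (insert x F) + dmS H Y y := by exact_mod_cast h1
  linarith

/-- the side `X` together with the end `y` -/
theorem Br.sub (h : Br H A x y X Y) : Br H (insert y X) x y X {y} :=
  ⟨disjoint_left.2 (by
    intro a ha ha'
    rw [mem_singleton] at ha'
    subst ha'
    exact disjoint_left.1 h.dis ha h.hy), by rw [union_comm, ← insert_eq], h.hx,
    mem_singleton_self _, h.adj, fun u hu w hw huw => by
    rw [mem_singleton] at hw
    subst hw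
    exact h.uniq u hu w h.hy huw⟩

theorem Br.glue4 (h : Br H A x y X Y) :
    fb H A F ≤ fb H (insert y X) F + (fb H Y {y} + cc (dg H Y y)) + 13 := by
  have h1 : dm H A F ≤ dm H (insert y X) F + dm H Y {y} := by
    obtain ⟨D, h1, h2⟩ := dm_spec H (insert y X) F
    obtain ⟨E, h3, h4⟩ := dm_spec H Y {y}
    rw [← h2, ← h4]
    refine (dm_le (D := D ∪ E) ⟨?_, ?_⟩).trans (card_union_le _ _)
    · rw [← h.un]
      refine union_subset ?_ (h3.1.trans subset_union_right)
      refine h1.1.trans (insert_subset (mem_union_right _ h.hy) subset_union_left)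
    · intro v hv hvF
      rw [← h.un, mem_union] at hv
      by_cases hvX : v ∈ insert y X
      · rcases h1.2 v hvX hvF with h | ⟨u, hu, ha⟩
        · exact Or.inl (mem_union_left _ h)
        · exact Or.inr ⟨u, mem_union_left _ hu, ha⟩
      · rw [mem_insert] at hvX
        have hvY : v ∈ Y := by tauto
        rcases h3.2 v hvY (by rw [mem_singleton]; tauto) with h | ⟨u, hu, ha⟩
        · exact Or.inl (mem_union_right _ h)
        · exact Or.inr ⟨u, mem_union_right _ hu, ha⟩
  have h2 := h.Phi
  have h2' := h.sub.Phi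
  rw [Phi_single, dg_single, cc0] at h2'
  unfold fb
  have h3 : (dm H A F : ℤ) ≤ dm H (insert y X) F + dm H Y {y} := by exact_mod_cast h1
  linarith

/-- the leaf bound for `Y` with the leaf `x` -/
theorem Br.low (h : Br H A x y X Y) (hl : fb H (insert x Y) ∅ ≤ 2) :
    fs H Y y = fb H Y {y} ∨ fb H Y {y} + cc (dg H Y y) ≤ -5 := by
  have h1 : dmS H Y y ≤ dm H (insert x Y) ∅ ∨ dm H Y {y} + 1 ≤ dm H (insert x Y) ∅ := by
    obtain ⟨D, h1, h2⟩ := dm_spec H (insert x Y) ∅
    have hxY : x ∉ Y := fun hh => disjoint_left.1 h.dis h.hx hh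
    by_cases hyD : y ∈ D
    · left
      rw [← h2]
      refine (dmS_le (D := D.erase x) ⟨?_, ?_⟩ (mem_erase.2 ⟨?_, hyD⟩)).trans
        (card_le_card (erase_subset _ _))
      · intro v hv
        rw [mem_erase] at hv
        have := h1.1 hv.2
        rw [mem_insert] at this
        tauto
      · intro v hv _
        rcases h1.2 v (mem_insert_of_mem hv) (by simp) with h' | ⟨u, hu, ha⟩
        · exact Or.inl (mem_erase.2 ⟨by rintro rfl; exact hxY hv, h'⟩)
        · by_cases hux : u = x
          · subst hux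
            have := (h.uniq u h.hx v hv ha).2
            subst this
            exact Or.inl (mem_erase.2 ⟨by rintro rfl; exact hxY hv, hyD⟩)
          · exact Or.inr ⟨u, mem_erase.2 ⟨hux, hu⟩, ha⟩
      · rintro rfl; exact hxY h.hy
    · right
      have hxD : x ∈ D := by
        rcases h1.2 x (mem_insert_self _ _) (by simp) with h' | ⟨u, hu, ha⟩
        · exact h'
        · exfalso
          have := h1.1 hu
          rw [mem_insert] at this
          rcases this with rfl | huY
          · exact H.irrefl ha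
          · have := (h.uniq x h.hx u huY ha.symm).2
            subst this
            exact hyD hu
      have h3 : dm H Y {y} ≤ (D.erase x).card := by
        refine dm_le ⟨?_, ?_⟩
        · intro v hv
          rw [mem_erase] at hv
          have := h1.1 hv.2
          rw [mem_insert] at this
          tauto
        · intro v hv hvy
          rw [mem_singleton] at hvy
          rcases h1.2 v (mem_insert_of_mem hv) (by simp) with h' | ⟨u, hu, ha⟩
          · exact Or.inl (mem_erase.2 ⟨by rintro rfl; exact hxY hv, h'⟩)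
          · by_cases hux : u = x
            · subst hux
              exact absurd (h.uniq u h.hx v hv ha).2 hvy
            · exact Or.inr ⟨u, mem_erase.2 ⟨hux, hu⟩, ha⟩
      have h4 := card_erase_add_one hxD
      omega
  have h2 := h.symm.sub.Phi
  rw [Phi_single, dg_single, cc0] at h2
  have h3 := fs_dich (H := H) h.hy
  unfold fs fb at *
  omega

theorem conn_insert (hC : Conn H X) (hx : x ∈ X) (hxy : H.Adj x y) : Conn H (insert y X) := by
  intro Z hZ hZn hZc
  by_contra hcon
  push Not at hcon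
  by_cases h1 : (Z ∩ X).Nonempty
  · by_cases h2 : (X \ (Z ∩ X)).Nonempty
    · obtain ⟨u, hu, w, hw, huw⟩ := hC (Z ∩ X) inter_subset_right h1 h2
      rw [mem_sdiff, mem_inter] at hw
      exact hcon u (mem_inter.1 hu).1 w
        (mem_sdiff.2 ⟨mem_insert_of_mem hw.1, fun h => hw.2 ⟨h, hw.1⟩⟩) huw
    · have hXZ : X ⊆ Z := by
        intro u hu
        by_contra huZ
        exact h2 ⟨u, mem_sdiff.2 ⟨hu, fun h => huZ (mem_inter.1 h).1⟩⟩
      obtain ⟨w, hw⟩ := hZc
      rw [mem_sdiff, mem_insert] at hw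
      have hwy : w = y := by
        rcases hw.1 with h | h
        · exact h
        · exact absurd (hXZ h) hw.2
      subst hwy
      exact hcon x (hXZ hx) w (mem_sdiff.2 ⟨mem_insert_self _ _, hw.2⟩) hxy
  · have hxZ : x ∉ Z := fun h => h1 ⟨x, mem_inter.2 ⟨h, hx⟩⟩
    obtain ⟨w, hw⟩ := hZn
    have hwy : w = y := by
      rcases mem_insert.1 (hZ hw) with h | h
      · exact h
      · exact absurd ⟨w, mem_inter.2 ⟨hw, h⟩⟩ h1
    subst hwy
    exact hcon w hw x (mem_sdiff.2 ⟨mem_insert_of_mem hx, hxZ⟩) hxy.symm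

theorem Br.insert_ss (h : Br H A x y X Y) (hY : Y ≠ {y}) : insert y X ⊂ A := by
  obtain ⟨z, hz, hzy⟩ : ∃ z ∈ Y, z ≠ y := by
    by_contra hcon
    push Not at hcon
    exact hY (eq_singleton_iff_unique_mem.2 ⟨h.hy, hcon⟩)
  refine ⟨?_, fun hsub => ?_⟩
  · rw [← h.un]
    exact insert_subset (mem_union_right _ h.hy) subset_union_left
  · have : z ∈ insert y X := hsub (by rw [← h.un]; exact mem_union_right _ hz)
    rcases mem_insert.1 this with h1 | h1
    · exact hzy h1
    · exact disjoint_left.1 h.dis h1 hz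

theorem Br.ssX (h : Br H A x y X Y) : X ⊂ A := by
  refine ⟨by rw [← h.un]; exact subset_union_left, fun hsub => ?_⟩
  have : y ∈ X := hsub (by rw [← h.un]; exact mem_union_right _ h.hy)
  exact disjoint_left.1 h.dis this h.hy

theorem Br.side (h : Br H A x y X Y) (hC : Conn H A) (hd : ∀ v ∈ A, dg H A v ≤ 3)
    (IH : IHyp H A) : Conn H X ∧ Cl H X ∧ dg H X x ≤ 2 := by
  have h1 := h.connX hC
  refine ⟨h1, IH X h.ssX ⟨x, h.hx⟩ h1, ?_⟩
  have h2 := hd x (by rw [← h.un]; exact mem_union_left _ h.hx)
  have h3 := h.dgx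
  omega

/-- the leaf bound applies -/
theorem Br.low' (h : Br H A x y X Y) (hC : Conn H A) (IH : IHyp H A) (hX : X ≠ {x}) :
    fs H Y y = fb H Y {y} ∨ fb H Y {y} + cc (dg H Y y) ≤ -5 := by
  apply h.low
  have h1 := conn_insert (h.symm.connX hC) h.hy h.adj.symm
  have hc := IH _ (h.symm.insert_ss hX) ⟨x, mem_insert_self _ _⟩ h1
  apply hc.leaf x (mem_insert_self _ _)
  have := h.symm.sub.symm.dgx
  rw [dg_single] at this
  exact this

theorem Br.leafY (h : Br H A x y X Y) (hY : Y = {y}) : dg H A y = 1 := by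
  have := h.symm.dgx
  rw [hY, dg_single] at this
  exact this

theorem T_bridge (hC : Conn H A) (hd : ∀ v ∈ A, dg H A v ≤ 3) (IH : IHyp H A)
    (h : Br H A x y X Y) : fb H A ∅ ≤ 2 := by
  have hyA : y ∈ A := by rw [← h.un]; exact mem_union_right _ h.hy
  have hxA : x ∈ A := by rw [← h.un]; exact mem_union_left _ h.hx
  by_cases hY : Y = {y}
  · exact T_leaf hC hd IH hyA (h.leafY hY)
  by_cases hX : X = {x}
  · exact T_leaf hC hd IH hxA (h.symm.leafY hX)
  obtain ⟨cX, clX, dX⟩ := h.side hC hd IH
  obtain ⟨cY, clY, dY⟩ := h.symm.side hC hd IH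
  have a1 := K1 cX clX h.hx dX
  have a2 := K2 cX clX h.hx dX
  have a3 : fb H X {x} = fb H X ∅ ∨ fb H X {x} + 20 ≤ fb H X ∅ := fb_dich (by simp)
  have a4 := fs_dich (H := H) h.hx
  have a5 := h.symm.low' hC IH hY
  have b1 := K1 cY clY h.hy dY
  have b2 := K2 cY clY h.hy dY
  have b3 : fb H Y {y} = fb H Y ∅ ∨ fb H Y {y} + 20 ≤ fb H Y ∅ := fb_dich (by simp)
  have b4 := fs_dich (H := H) h.hy
  have b5 := h.low' hC IH hX
  have g1 := h.glue1 (F := ∅)
  have g2 := h.glue2 (F := ∅)
  have g3 := h.symm.glue2 (F := ∅)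
  rw [insert_empty_eq] at g2 g3
  rcases a3 with a3 | a3 <;> rcases b3 with b3 | b3 <;> rcases a5 with a5 | a5 <;>
    rcases b5 with b5 | b5 <;> rcases a4 with a4 | a4 <;> rcases b4 with b4 | b4 <;> linarith

theorem T_markBridge (hC : Conn H A) (hd : ∀ v ∈ A, dg H A v ≤ 3) (IH : IHyp H A)
    (h : Br H A x y X Y) {v : V} (hv : v ∈ X) (h2 : dg H A v ≤ 2) : fb H A {v} ≤ -1 := by
  have hyA : y ∈ A := by rw [← h.un]; exact mem_union_right _ h.hy
  have hvA : v ∈ A := by rw [← h.un]; exact mem_union_left _ hv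
  have hyv : y ≠ v := by rintro rfl; exact disjoint_left.1 h.dis hv h.hy
  by_cases hY : Y = {y}
  · exact T_markLeaf hC hd IH hyA hvA hyv (h.leafY hY) h2
  by_cases hX : X = {x}
  · have : v = x := by rw [hX, mem_singleton] at hv; exact hv
    subst this
    linarith [T_mark1 hC hd IH hvA (h.symm.leafY hX).le]
  obtain ⟨cX, clX, dX⟩ := h.side hC hd IH
  obtain ⟨cY, clY, dY⟩ := h.symm.side hC hd IH
  have b1 := K1 cY clY h.hy dY
  have b2 := K2 cY clY h.hy dY
  have b3 : fb H Y {y} = fb H Y ∅ ∨ fb H Y {y} + 20 ≤ fb H Y ∅ := fb_dich (by simp)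
  have b5 := h.low' hC IH hX
  have g1 := h.glue1 (F := {v})
  have g2 := h.glue2 (F := {v})
  have g4 := h.glue4 (F := {v})
  have m1 : fb H Y {v} ≤ fb H Y ∅ := fbm (by simp)
  have hdv : dg H X v ≤ 2 := (dg_mono h.ssX.1 v).trans h2
  have h1x : v = x → dg H X v ≤ 1 := by
    rintro rfl
    have := h.dgx
    omega
  have k := Kmark cX clX h.hx dX hv hdv h1x
  have k6 : fb H X {v} + cc (dg H X x) ≤ 3 := by
    by_cases hxv : x = v
    · subst hxv
      linarith [K2 cX clX h.hx dX]
    · exact K6 cX clX h.hx hv hdv hxv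
  have hci := IH _ (h.insert_ss hY) ⟨y, mem_insert_self _ _⟩ (conn_insert cX h.hx h.adj)
  have hm := hci.mark v (mem_insert_of_mem hv) ((dg_mono (h.insert_ss hY).1 v).trans h2)
  rcases b3 with b3 | b3 <;> rcases b5 with b5 | b5 <;> linarith

/-- no bridge -/
def Bl (H : SimpleGraph V) (A : Finset V) : Prop :=
  ∀ Y, Y ⊆ A → Y.Nonempty → (A \ Y).Nonempty → 2 ≤ bdry H A Y

theorem Bl.no (hB : Bl H A) (hX : X ⊆ A) (hXc : (A \ X).Nonempty) (hx : x ∈ X)
    (hu : ∀ u ∈ X, ∀ w ∈ A \ X, H.Adj u w → u = x ∧ w = y) : False := by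
  have h1 := hB X hX ⟨x, hx⟩ hXc
  unfold bdry at h1
  rw [← add_sum_erase X _ hx] at h1
  have h2 : ∑ v ∈ X.erase x, dg H (A \ X) v = 0 := by
    apply sum_eq_zero
    intro v hv
    unfold dg
    rw [card_eq_zero, eq_empty_iff_forall_notMem]
    intro w hw
    rw [mem_nb] at hw
    exact ne_of_mem_erase hv (hu v (mem_of_mem_erase hv) w hw.1 hw.2).1
  have h3 : dg H (A \ X) x ≤ 1 := by
    unfold dg
    have : nb H (A \ X) x ⊆ {y} := by
      intro w hw
      rw [mem_nb] at hw
      rw [mem_singleton]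
      exact (hu x hx w hw.1 hw.2).2
    exact (card_le_card this).trans (by simp)
  omega

theorem exists_bridge (hC : Conn H A) (hB : ¬ Bl H A) : ∃ X Y x y, Br H A x y X Y := by
  unfold Bl at hB
  push Not at hB
  obtain ⟨X, hX, hXn, hXc, hb⟩ := hB
  obtain ⟨x, hx, y, hy, hxy⟩ := hC X hX hXn hXc
  have hpos : ∀ u w, w ∈ A \ X → H.Adj u w → 1 ≤ dg H (A \ X) u := by
    intro u w hw huw
    unfold dg
    exact card_pos.2 ⟨w, mem_nb.2 ⟨hw, huw⟩⟩
  refine ⟨X, A \ X, x, y, disjoint_sdiff, union_sdiff_of_subset hX, hx, hy, hxy, ?_⟩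
  intro u hu w hw huw
  unfold bdry at hb
  have hux : u = x := by
    by_contra hne
    rw [← add_sum_erase X _ hx, ← add_sum_erase (X.erase x) _ (mem_erase.2 ⟨hne, hu⟩)] at hb
    have h1 := hpos x y hy hxy
    have h2 := hpos u w hw huw
    omega
  subst hux
  refine ⟨rfl, ?_⟩
  by_contra hne
  rw [← add_sum_erase X _ hx] at hb
  have : 2 ≤ dg H (A \ X) u := by
    unfold dg
    have hsub : ({w, y} : Finset V) ⊆ nb H (A \ X) u := by
      intro t ht
      rw [mem_insert, mem_singleton] at ht
      rcases ht with rfl | rfl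
      · exact mem_nb.2 ⟨hw, huw⟩
      · exact mem_nb.2 ⟨hy, hxy⟩
    rw [← card_pair hne]
    exact card_le_card hsub
  omega

theorem T_markBl (hC : Conn H A) (hd : ∀ v ∈ A, dg H A v ≤ 3) (IH : IHyp H A) (hB : Bl H A)
    {v : V} (hv : v ∈ A) (h2 : dg H A v ≤ 2)
    (h4 : dg H A v = 2 → Conn H (A.erase v) → (∀ u ∈ nb H A v, dg H A u = 3) →
      fb H (A.erase v) ∅ ≤ 4) : fb H A {v} ≤ -1 := by
  by_cases h1 : dg H A v ≤ 1
  · linarith [T_mark1 hC hd IH hv h1]
  have h2' : dg H A v = 2 := by omega
  obtain ⟨a, b, hab, hn⟩ := nb2 h2'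
  have ham := mem2a hn
  have hbm := mem2b hn
  rcases split_erase hC hv hn with hC1 | ⟨X, Y, e1, e2, e3, e4, e5, e6, e7⟩
  swap
  · exfalso
    have hXs : X ⊆ A.erase v := by rw [← e2]; exact subset_union_left
    refine hB.no (X := X) (x := a) (y := v) (hXs.trans (erase_subset _ _))
      ⟨v, mem_sdiff.2 ⟨hv, fun h => by simpa using hXs h⟩⟩ e3 ?_
    intro u hu w hw huw
    rw [mem_sdiff] at hw
    by_cases hwv : w = v
    · subst hwv
      have : u ∈ nb H A w := mem_nb.2 ⟨mem_of_mem_erase (hXs hu), huw.symm⟩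
      rw [hn, mem_insert, mem_singleton] at this
      rcases this with rfl | rfl
      · exact ⟨rfl, rfl⟩
      · exact absurd e4 (disjoint_left.1 e1 hu)
    · have : w ∈ X ∪ Y := by rw [e2]; exact mem_erase.2 ⟨hwv, hw.1⟩
      rcases mem_union.1 this with h | h
      · exact absurd h hw.2
      · exact absurd huw (e7 u hu w h)
  have ha1 := mem_erase_nb ham
  have hb1 := mem_erase_nb hbm
  have s1 := del2 (F := {v}) hv (by simp) hn hab
  have m1 : fb H (A.erase v) {v} ≤ fb H (A.erase v) ∅ := fbm (by simp)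
  have hc := IH _ (erase_ssubset hv) ⟨a, ha1⟩ hC1
  have da := dg_pos hC1 ha1 hb1 hab
  have db := dg_pos hC1 hb1 ha1 hab.symm
  have da3 := dg_le_of_nb hv ham (hd a (mem_of_nb ham))
  have db3 := dg_le_of_nb hv hbm (hd b (mem_of_nb hbm))
  obtain ha | ha : dg H (A.erase v) a = 1 ∨ dg H (A.erase v) a = 2 := by omega
  · obtain hb | hb : dg H (A.erase v) b = 1 ∨ dg H (A.erase v) b = 2 := by omega
    · -- both neighbours of degree two
      suffices hh : fb H (A.erase v) ∅ ≤ 0 by
        rw [ha, hb, cc1] at s1; linarith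
      obtain ⟨r, hr⟩ := nb1 ha
      have hrm := mem1 hr
      have hr1 := mem_of_nb hrm
      have har := mem_nb_comm ha1 hrm
      have hC2 := conn_erase_leaf hC1 ha1 hr
      have hr2 := mem_erase_nb hrm
      have hd1 : ∀ v' ∈ A.erase v, dg H (A.erase v) v' ≤ 3 :=
        fun v' hv' => dg_erase_le.trans (hd v' (mem_of_mem_erase hv'))
      obtain h1 | h1 | h1 : dg H (A.erase v) r = 1 ∨ dg H (A.erase v) r = 2 ∨
          dg H (A.erase v) r = 3 := by
        have := hd1 r hr1
        have := dg_pos hC1 hr1 ha1 (ne_nb hrm)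
        omega
      · obtain ⟨l', hl'⟩ := nb1 h1
        rw [hl', mem_singleton] at har
        subst har
        have s := leafsel1 (F := ∅) ha1 hr hl'
        have h0 : dg H ((A.erase v).erase a) r = 0 := by
          have := dg_erase_adj ha1 (mem_nb.1 hrm).2.symm
          omega
        have := conn_zero hC2 hr2 h0
        rw [this] at s
        rw [show ({r} : Finset V).erase r = ∅ by simp, fb_empty] at s
        linarith
      · obtain ⟨w, haw, hnr⟩ := nb2' h1 har
        have s := leafsel2 (F := ∅) ha1 hr hnr haw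
        have hwm : w ∈ nb H ((A.erase v).erase a) r := by
          rw [nb_erase]; exact mem_erase.2 ⟨haw.symm, mem2b hnr⟩
        have hn1 : nb H ((A.erase v).erase a) r = {w} := by
          rw [nb_erase, hnr]
          ext x
          simp only [mem_erase, mem_insert, mem_singleton]
          constructor
          · tauto
          · rintro rfl; exact ⟨haw.symm, Or.inr rfl⟩
        have hC3 := conn_erase_leaf hC2 hr2 hn1
        have hw2 := mem_erase_nb hwm
        have hc3 := IH _ (er_ss3 hv) ⟨w, hw2⟩ hC3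
        have k := K2 hC3 hc3 hw2 (dg_le_of_nb hr2 hwm
          (dg_erase_le.trans (hd1 w (mem_of_mem_erase (mem_of_nb hwm)))))
        have m : fb H (((A.erase v).erase a).erase r) (insert w ∅) ≤
            fb H (((A.erase v).erase a).erase r) {w} := fbm (by simp)
        linarith
      · obtain ⟨w, z, haw, haz, hwz, hnr⟩ := nb3' h1 har
        have s := leafsel3 (F := ∅) ha1 hr hnr haw haz hwz
        have hn1 : nb H ((A.erase v).erase a) r = {w, z} := by
          rw [nb_erase, hnr]
          ext x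
          simp only [mem_erase, mem_insert, mem_singleton]
          constructor
          · tauto
          · rintro (rfl | rfl)
            · exact ⟨haw.symm, Or.inr (Or.inl rfl)⟩
            · exact ⟨haz.symm, Or.inr (Or.inr rfl)⟩
        have hwm := mem2a hn1
        have hzm := mem2b hn1
        have hw2 := mem_erase_nb hwm
        have hz2 := mem_erase_nb hzm
        have hdw := dg_le_of_nb hr2 hwm
          (dg_erase_le.trans (hd1 w (mem_of_mem_erase (mem_of_nb hwm))))
        have hdz := dg_le_of_nb hr2 hzm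
          (dg_erase_le.trans (hd1 z (mem_of_mem_erase (mem_of_nb hzm))))
        rcases split_erase hC2 hr2 hn1 with hC3 | ⟨X, Y, e1, e2, e3, e4, e5, e6, e7⟩
        · have hc3 := IH _ (er_ss3 hv) ⟨w, hw2⟩ hC3
          have k := K4 hC3 hc3 hw2 hdw hz2 hdz hwz
          have m : fb H (((A.erase v).erase a).erase r) (insert w (insert z ∅)) ≤
              fb H (((A.erase v).erase a).erase r) {w, z} := fbm (by simp)
          linarith
        · exfalso
          have hbr : b ≠ r := by rintro rfl; omega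
          have hb3 : b ∈ ((A.erase v).erase a).erase r :=
            mem_erase.2 ⟨hbr, mem_erase.2 ⟨hab.symm, hb1⟩⟩
          have key : ∀ {X Y : Finset V} {w z : V}, X ∪ Y = ((A.erase v).erase a).erase r →
              Disjoint X Y → w ∈ X → z ∈ Y → (∀ x ∈ X, ∀ y ∈ Y, ¬ H.Adj x y) → b ∉ X →
              nb H ((A.erase v).erase a) r = {w, z} → False := by
            intro X Y w z e2 e1 e3 e4 e7 hbX hn1
            have hXs : X ⊆ ((A.erase v).erase a).erase r := by rw [← e2]; exact subset_union_left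
            refine hB.no (X := X) (x := w) (y := r)
              (hXs.trans ((erase_subset _ _).trans ((erase_subset _ _).trans (erase_subset _ _))))
              ⟨v, mem_sdiff.2 ⟨hv, fun h => by
                have := hXs h
                simp at this⟩⟩ e3 ?_
            intro u hu t ht hut
            rw [mem_sdiff] at ht
            have huX := hXs hu
            simp only [mem_erase] at huX
            by_cases htr : t = r
            · subst htr
              have : u ∈ nb H ((A.erase v).erase a) t := mem_nb.2 ⟨mem_of_mem_erase (hXs hu),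
                hut.symm⟩
              rw [hn1, mem_insert, mem_singleton] at this
              rcases this with rfl | rfl
              · exact ⟨rfl, rfl⟩
              · exact absurd e4 (disjoint_left.1 e1 hu)
            by_cases hta : t = a
            · subst hta
              have : u ∈ nb H (A.erase v) t := mem_nb.2 ⟨mem_erase.2 huX.2.2, hut.symm⟩
              rw [hr, mem_singleton] at this
              exact absurd this huX.1
            by_cases htv : t = v
            · subst htv
              have : u ∈ nb H A t := mem_nb.2 ⟨huX.2.2.2, hut.symm⟩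
              rw [hn, mem_insert, mem_singleton] at this
              rcases this with h | h
              · exact absurd h huX.2.1
              · subst h; exact absurd hu hbX
            · have : t ∈ X ∪ Y := by
                rw [e2]
                simp only [mem_erase]
                exact ⟨htr, hta, htv, ht.1⟩
              rcases mem_union.1 this with h | h
              · exact absurd h ht.2
              · exact absurd hut (e7 u hu t h)
          rw [← e2, mem_union] at hb3
          rcases hb3 with hbX | hbY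
          · refine key (X := Y) (Y := X) (w := z) (z := w) (by rw [union_comm, e2]) e1.symm e4 e3
              (fun x hx y hy hxy => e7 y hy x hx hxy.symm) (disjoint_left.1 e1 hbX)
              (by rw [hn1, pair_comm])
          · exact key e2 e1 e3 e4 e7 (fun h => disjoint_left.1 e1 h hbY) hn1
    · rw [ha, hb, cc1, cc2] at s1
      linarith [hc.leaf a ha1 ha]
  · obtain hb | hb : dg H (A.erase v) b = 1 ∨ dg H (A.erase v) b = 2 := by omega
    · rw [ha, hb, cc1, cc2] at s1
      linarith [hc.leaf b hb1 hb]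
    · have hfull := h4 h2' hC1 (by
        intro u hu
        have h5 := dg_erase_adj hv (mem_nb.1 hu).2.symm
        rw [hn, mem_insert, mem_singleton] at hu
        rcases hu with rfl | rfl
        · omega
        · omega)
      rw [ha, hb, cc2] at s1
      linarith

theorem T_mark (hC : Conn H A) (hd : ∀ v ∈ A, dg H A v ≤ 3) (IH : IHyp H A)
    {v : V} (hv : v ∈ A) (h2 : dg H A v ≤ 2)
    (h4 : Bl H A → dg H A v = 2 → Conn H (A.erase v) → (∀ u ∈ nb H A v, dg H A u = 3) →
      fb H (A.erase v) ∅ ≤ 4) : fb H A {v} ≤ -1 := by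
  by_cases hB : Bl H A
  · exact T_markBl hC hd IH hB hv h2 (h4 hB)
  · obtain ⟨X, Y, x, y, hb⟩ := exists_bridge hC hB
    rw [← hb.un, mem_union] at hv
    rcases hv with hv | hv
    · exact T_markBridge hC hd IH hb hv h2
    · exact T_markBridge hC hd IH hb.symm hv h2

/-- All claims from the claims for smaller sets and the bound for graphs without bridges. -/
theorem Cl_of (hC : Conn H A) (hd : ∀ v ∈ A, dg H A v ≤ 3) (IH : IHyp H A)
    (hF : Bl H A → fb H A ∅ ≤ 5)
    (h4 : Bl H A → ∀ v ∈ A, dg H A v = 2 → Conn H (A.erase v) →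
      (∀ u ∈ nb H A v, dg H A u = 3) → fb H (A.erase v) ∅ ≤ 4) : Cl H A where
  full := by
    by_cases hB : Bl H A
    · exact hF hB
    · obtain ⟨X, Y, x, y, hb⟩ := exists_bridge hC hB
      linarith [T_bridge hC hd IH hb]
  leaf v hv h := T_leaf hC hd IH hv h
  mark v hv h := T_mark hC hd IH hv h (fun hB => h4 hB v hv)
  mark1 v hv h := T_mark1 hC hd IH hv h
  pair v hv w hw hne h h2 := T_pair hC hd IH hv hw hne h h2
  pair1 v hv w hw hne h h2 := T_pair1 hC hd IH hv hw hne h h2
  trip v hv w hw z hz h1 h2 h3 h4 h5 h6 := T_trip hC hd IH hv hw hz h1 h2 h3 h4 h5 h6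
  trip1 v hv w hw z hz h1 h2 h3 h4 h5 h6 := T_trip1 hC hd IH hv hw hz h1 h2 h3 h4 h5 h6

end

end Pool.Agent.H94.Dom
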