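import Mathlib
import Pool.Agent.Dom94.HandE

/-! Hand proofs for MP_3fbd8d_co, part F: the induction in the class `E3`. -/

set_option linter.unusedSectionVars false

namespace Pool.Agent.H94.Dom

open Finset

section
variable {V : Type} [DecidableEq V] {H : SimpleGraph V} {A B F F' D X Y : Finset V}

/-- deficiency -/
noncomputable def df (H : SimpleGraph V) (A : Finset V) : ℤ := ∑ v ∈ A, (3 - (dg H A v : ℤ))

theorem df_erase {p : V} (hp : p ∈ A) :
    df H (A.erase p) = df H A - 3 + 2 * (dg H A p : ℤ) := by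
  unfold df
  rw [← add_sum_erase A _ hp]
  have h1 : nb H A p ⊆ A.erase p := by
    intro u hu
    rw [mem_nb] at hu
    rw [mem_erase]
    exact ⟨hu.2.ne', hu.1⟩
  have h2 : ∑ v ∈ A.erase p, (3 - (dg H (A.erase p) v : ℤ)) =
      ∑ v ∈ A.erase p, ((3 - (dg H A v : ℤ)) + if v ∈ nb H A p then 1 else 0) := by
    refine sum_congr rfl fun v hv => ?_
    have hvA := (mem_erase.1 hv).2
    by_cases h : v ∈ nb H A p
    · rw [if_pos h, dg_erase_adj hp (mem_nb.1 h).2.symm]
      push_cast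
      ring
    · rw [if_neg h, dg_erase_nadj, add_zero]
      intro h'
      exact h (mem_nb.2 ⟨hvA, h'.symm⟩)
  rw [h2, sum_add_distrib, sum_ite_mem, inter_eq_right.2 h1]
  have : ∑ i ∈ nb H A p, (1 : ℤ) = dg H A p := by
    rw [sum_const, nsmul_eq_mul, mul_one]; rfl
  rw [this]
  ring

/-- The claims in the class `E3`. -/
structure ClE (H : SimpleGraph V) (A : Finset V) : Prop where
  cl : Cl H A
  full4 : 4 ≤ df H A → fb H A ∅ ≤ 4

theorem ClE_of (hA : A.Nonempty) (hE : E3 H A) (hC : Conn H A)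
    (IH : ∀ X, X ⊂ A → X.Nonempty → Conn H X → ClE H X)
    (hF : Bl H A → fb H A ∅ ≤ 5 ∧ (4 ≤ df H A → fb H A ∅ ≤ 4)) : ClE H A := by
  have IH' : IHyp H A := fun X h1 h2 h3 => (IH X h1 h2 h3).cl
  have hdf : 3 ≤ df H A := hE.2 A Subset.rfl hA
  refine ⟨Cl_of hC hE.1 IH' (fun hB => (hF hB).1) ?_, ?_⟩
  · intro _ v hv h2 hC1 _
    obtain ⟨a, b, _, hn⟩ := nb2 h2
    refine (IH _ (erase_ssubset hv) ⟨a, mem_erase_nb (mem2a hn)⟩ hC1).full4 ?_
    rw [df_erase hv, h2]
    push_cast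
    linarith
  · intro h4
    by_cases hB : Bl H A
    · exact (hF hB).2 h4
    · obtain ⟨X, Y, x, y, hb⟩ := exists_bridge hC hB
      linarith [T_bridge hC hE.1 IH' hb]

/-- Induction: it is enough to bound `fb H A ∅` for graphs without bridges. -/
theorem claims_E3
    (hexp : ∀ A : Finset V, A.Nonempty → E3 H A → Conn H A → Bl H A →
      (∀ X, X ⊂ A → X.Nonempty → Conn H X → ClE H X) →
      fb H A ∅ ≤ 5 ∧ (4 ≤ df H A → fb H A ∅ ≤ 4))
    (A : Finset V) (hA : A.Nonempty) (hE : E3 H A) (hC : Conn H A) : ClE H A := by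
  induction A using Finset.strongInduction with
  | H A ih =>
    have IH : ∀ X, X ⊂ A → X.Nonempty → Conn H X → ClE H X :=
      fun X h1 h2 h3 => ih X h1 h2 (hE.mono h1.1) h3
    exact ClE_of hA hE hC IH (fun hB => hexp A hA hE hC hB IH)

/-- Without bridges all degrees are at least two. -/
theorem Bl.dg2 (hB : Bl H A) {v w : V} (hv : v ∈ A) (hw : w ∈ A) (hne : v ≠ w) :
    2 ≤ dg H A v := by
  by_contra hcon
  have hc : (A \ {v}).Nonempty := ⟨w, mem_sdiff.2 ⟨hw, by simpa using hne.symm⟩⟩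
  have h1 := hB {v} (by simpa using hv) (singleton_nonempty v) hc
  unfold bdry at h1
  rw [sum_singleton] at h1
  have h2 : dg H (A \ {v}) v ≤ dg H A v := dg_mono sdiff_subset v
  omega

end

end Pool.Agent.H94.Dom
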