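import Mathlib
import Pool.Agent.Dom94.HandF

/-! Hand proofs for MP_3fbd8d_co: the induction in an arbitrary hereditary class of graphs
of maximum degree three, graphs which are not cubic. -/

set_option linter.unusedSectionVars false

namespace Pool.Agent.H94.Dom

open Finset

section
variable {V : Type} [DecidableEq V] {H : SimpleGraph V} {A B F F' D X Y : Finset V}

/-- The claims in a class where `fb ≤ 4` for all graphs which are not cubic. -/
structure ClP (H : SimpleGraph V) (A : Finset V) : Prop where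
  cl : Cl H A
  full4 : fb H A ∅ ≤ 4

/-- a proper connected subset of a connected set is not cubic -/
theorem noncubic_of_ss (hC : Conn H A) (hd : ∀ v ∈ A, dg H A v ≤ 3) (hX : X ⊂ A)
    (hXn : X.Nonempty) : ∃ v ∈ X, dg H X v ≤ 2 := by
  obtain ⟨z, hz, hzX⟩ := exists_of_ssubset hX
  obtain ⟨x, hx, y, hy, hxy⟩ := hC X hX.1 hXn ⟨z, mem_sdiff.2 ⟨hz, hzX⟩⟩
  rw [mem_sdiff] at hy
  refine ⟨x, hx, ?_⟩
  have h1 := hd x (hX.1 hx)
  have h2 : dg H X x < dg H A x := by
    apply card_lt_card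
    refine ⟨fun u hu => ?_, fun hsub => ?_⟩
    · rw [mem_nb] at hu ⊢
      exact ⟨hX.1 hu.1, hu.2⟩
    · exact hy.2 (mem_nb.1 (hsub (mem_nb.2 ⟨hy.1, hxy⟩))).1
  omega

theorem ClP_of (hd : ∀ v ∈ A, dg H A v ≤ 3) (hC : Conn H A)
    (IH : ∀ X, X ⊂ A → X.Nonempty → Conn H X → ClP H X)
    (hF : Bl H A → fb H A ∅ ≤ 4) : ClP H A := by
  have IH' : IHyp H A := fun X h1 h2 h3 => (IH X h1 h2 h3).cl
  refine ⟨Cl_of hC hd IH' (fun hB => by linarith [hF hB]) ?_, ?_⟩
  · intro _ v hv h2 hC1 _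
    obtain ⟨a, b, _, hn⟩ := nb2 h2
    exact (IH _ (erase_ssubset hv) ⟨a, mem_erase_nb (mem2a hn)⟩ hC1).full4
  · by_cases hB : Bl H A
    · exact hF hB
    · obtain ⟨X, Y, x, y, hb⟩ := exists_bridge hC hB
      linarith [T_bridge hC hd IH' hb]

/-- Induction in a hereditary class: it is enough to bound `fb H A ∅` for graphs without bridges
which are not cubic. -/
theorem claims_P (P : Finset V → Prop) (hmono : ∀ A X, P A → X ⊆ A → P X)
    (hdeg : ∀ A, P A → ∀ v ∈ A, dg H A v ≤ 3)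
    (hexp : ∀ A : Finset V, A.Nonempty → P A → (∃ v ∈ A, dg H A v ≤ 2) → Conn H A → Bl H A →
      (∀ X, X ⊂ A → X.Nonempty → Conn H X → ClP H X) → fb H A ∅ ≤ 4)
    (A : Finset V) (hA : A.Nonempty) (hP : P A) (hn : ∃ v ∈ A, dg H A v ≤ 2)
    (hC : Conn H A) : ClP H A := by
  induction A using Finset.strongInduction with
  | H A ih =>
    have IH : ∀ X, X ⊂ A → X.Nonempty → Conn H X → ClP H X :=
      fun X h1 h2 h3 => ih X h1 h2 (hmono A X hP h1.1) (noncubic_of_ss hC (hdeg A hP) h1 h2) h3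
    exact ClP_of (hdeg A hP) hC IH (fun hB => hexp A hA hP hn hC hB IH)

end

end Pool.Agent.H94.Dom
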