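import Mathlib
import Pool.Agent.Dom94.HandP
import Pool.Agent.Dom94.Dec

/-! Decorated claims for MP_3fbd8d_co, part 1: domination number, weights, the move lemma. -/

set_option linter.unusedSectionVars false

namespace Pool.Agent.H94.Dom

open Finset

section
variable {V : Type} [DecidableEq V] {H : SimpleGraph V} {Q Q' A B F F' D R S X Y Z : Finset V}

/-- domination number in the demand model -/
noncomputable def dmq (H : SimpleGraph V) (Q A F : Finset V) : ℕ :=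
  sInf {k | ∃ D, DomQ H Q A F D ∧ D.card = k}

theorem DomQ.self (H : SimpleGraph V) (Q A F : Finset V) : DomQ H Q A F A :=
  ⟨Subset.rfl, fun _ hv => Or.inl hv⟩

theorem dmq_spec (H : SimpleGraph V) (Q A F : Finset V) :
    ∃ D, DomQ H Q A F D ∧ D.card = dmq H Q A F := by
  have h : {k | ∃ D, DomQ H Q A F D ∧ D.card = k}.Nonempty := ⟨_, A, DomQ.self H Q A F, rfl⟩
  exact Nat.sInf_mem h

theorem dmq_le (h : DomQ H Q A F D) : dmq H Q A F ≤ D.card := Nat.sInf_le ⟨D, h, rfl⟩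

/-- weight of a marked vertex -/
def mu : ℕ → ℤ
  | 0 => 0
  | 1 => 5
  | 2 => 6
  | _ => 7

/-- a vertex of degree two with the same neighbours as a `Q`-vertex -/
def IsT (H : SimpleGraph V) (Q A : Finset V) (v : V) : Prop :=
  dg H A v = 2 ∧ ∃ e ∈ A, e ∈ Q ∧ nb H A e = nb H A v

open Classical in
/-- the correction for `IsT` -/
noncomputable def tc (H : SimpleGraph V) (Q A : Finset V) (v : V) : ℤ :=
  if IsT H Q A v then 1 else 0

/-- weight in the demand model -/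
noncomputable def wt (H : SimpleGraph V) (Q A F : Finset V) (v : V) : ℤ :=
  if v ∈ Q then 16 else if v ∈ F then mu (dg H A v) else phi (dg H A v) + tc H Q A v

/-- twenty times the domination number minus the potential -/
noncomputable def gq (H : SimpleGraph V) (Q A F : Finset V) : ℤ :=
  20 * (dmq H Q A F : ℤ) - ∑ v ∈ A, wt H Q A F v

theorem tc_nonneg {v : V} : 0 ≤ tc H Q A v := by
  unfold tc; split <;> norm_num

theorem tc_le {v : V} : tc H Q A v ≤ 1 := by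
  unfold tc; split <;> norm_num

theorem tc_of_not {v : V} (h : ¬ IsT H Q A v) : tc H Q A v = 0 := by
  unfold tc; rw [if_neg h]

theorem tc_of {v : V} (h : IsT H Q A v) : tc H Q A v = 1 := by
  unfold tc; rw [if_pos h]

theorem tc_ne2 {v : V} (h : dg H A v ≠ 2) : tc H Q A v = 0 := tc_of_not fun hh => h hh.1

theorem wtQ {v : V} (h : v ∈ Q) : wt H Q A F v = 16 := by
  unfold wt; rw [if_pos h]

theorem wtM {v : V} (h : v ∉ Q) (h2 : v ∈ F) : wt H Q A F v = mu (dg H A v) := by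
  unfold wt; rw [if_neg h, if_pos h2]

theorem wtU {v : V} (h : v ∉ Q) (h2 : v ∉ F) :
    wt H Q A F v = phi (dg H A v) + tc H Q A v := by
  unfold wt; rw [if_neg h, if_neg h2]

theorem mu0 : mu 0 = 0 := rfl
theorem mu1 : mu 1 = 5 := rfl
theorem mu2 : mu 2 = 6 := rfl

/-- the set of vertices with a neighbour in `S` -/
def AdjS (H : SimpleGraph V) (S : Finset V) (v : V) : Prop := ∃ s ∈ S, H.Adj s v

open Classical in
/-- the `Q`-vertices after the selection of `S` -/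
noncomputable def nQ (H : SimpleGraph V) (Q S : Finset V) : Finset V :=
  Q.filter (fun v => ¬ AdjS H S v)

open Classical in
/-- the marks after the selection of `S` -/
noncomputable def nF (H : SimpleGraph V) (Q A F S : Finset V) : Finset V :=
  F ∪ A.filter (fun v => (v ∉ Q ∧ AdjS H S v) ∨ (v ∈ Q ∧ nb H A v ⊆ S))

theorem mem_nQ {v : V} : v ∈ nQ H Q S ↔ v ∈ Q ∧ ¬ AdjS H S v := by
  classical
  unfold nQ; simp only [mem_filter]

theorem mem_nF {v : V} :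
    v ∈ nF H Q A F S ↔ v ∈ F ∨ (v ∈ A ∧ ((v ∉ Q ∧ AdjS H S v) ∨ (v ∈ Q ∧ nb H A v ⊆ S))) := by
  classical
  unfold nF; simp only [mem_union, mem_filter]

/-- well formed decorated graphs -/
structure WFQ (H : SimpleGraph V) (Q A F : Finset V) : Prop where
  deg : ∀ v ∈ A, dg H A v ≤ 3
  q2 : ∀ v ∈ A, v ∈ Q → dg H A v = 2
  qf : ∀ v ∈ A, v ∈ Q → v ∉ F
  f2 : ∀ v ∈ A, v ∈ F → dg H A v ≤ 2
  inp : ∀ Z, Z ⊆ A → 2 ≤ Z.card → (∀ z ∈ Z, z ∉ Q) → Conn H Z → Bl H Z →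
    (∃ v ∈ Z, dg H Z v ≤ 2) → fb H Z ∅ ≤ 4

/-- the removed set `R` and the selected set `S` -/
structure Rem (H : SimpleGraph V) (Q A R S : Finset V) : Prop where
  RA : R ⊆ A
  SR : S ⊆ R
  q : ∀ e ∈ A, e ∉ R → e ∈ Q → ∀ r ∈ R, H.Adj e r → r ∈ S

/-! ### degrees -/

theorem nb_sdiff_subset {v : V} : nb H (A \ R) v ⊆ nb H A v := by
  intro u hu
  rw [mem_nb, mem_sdiff] at hu
  exact mem_nb.2 ⟨hu.1.1, hu.2⟩

theorem dg_split (hR : R ⊆ A) (v : V) : dg H A v = dg H R v + dg H (A \ R) v := by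
  unfold dg
  have e : nb H A v = nb H R v ∪ nb H (A \ R) v := by
    ext u
    rw [mem_union, mem_nb, mem_nb, mem_nb, mem_sdiff]
    constructor
    · rintro ⟨h1, h2⟩
      by_cases h : u ∈ R
      · exact Or.inl ⟨h, h2⟩
      · exact Or.inr ⟨⟨h1, h⟩, h2⟩
    · rintro (⟨h1, h2⟩ | ⟨h1, h2⟩)
      · exact ⟨hR h1, h2⟩
      · exact ⟨h1.1, h2⟩
  rw [e, card_union_of_disjoint]
  rw [disjoint_left]
  intro u h1 h2
  rw [mem_nb] at h1 h2
  exact (mem_sdiff.1 h2.1).2 h1.1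

theorem dg_eq_zero {v : V} (h : ∀ r ∈ R, ¬ H.Adj v r) : dg H R v = 0 := by
  unfold dg
  rw [card_eq_zero, eq_empty_iff_forall_notMem]
  intro u hu
  rw [mem_nb] at hu
  exact h u hu.1 hu.2

theorem dg_pos' {v r : V} (h : r ∈ R) (h2 : H.Adj v r) : 1 ≤ dg H R v :=
  card_pos.2 ⟨r, mem_nb.2 ⟨h, h2⟩⟩

theorem nb_sdiff_eq {v : V} (h : ∀ r ∈ R, ¬ H.Adj v r) : nb H (A \ R) v = nb H A v := by
  ext u
  rw [mem_nb, mem_nb, mem_sdiff]
  constructor
  · rintro ⟨h1, h2⟩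
    exact ⟨h1.1, h2⟩
  · rintro ⟨h1, h2⟩
    exact ⟨⟨h1, fun h3 => h u h3 h2⟩, h2⟩

theorem bdry_comm (X Y : Finset V) : ∑ v ∈ X, dg H Y v = ∑ v ∈ Y, dg H X v := by
  classical
  have h := Finset.sum_card_bipartiteAbove_eq_sum_card_bipartiteBelow (s := X) (t := Y) H.Adj
  unfold Finset.bipartiteAbove Finset.bipartiteBelow at h
  unfold dg nb
  convert h using 3
  ext u
  simp only [mem_filter]
  rw [H.adj_comm]

/-! ### the move lemma for the domination number -/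

theorem dmq_move (hW : WFQ H Q A F) (hR : Rem H Q A R S)
    (hdom : ∀ r ∈ R, r ∈ S ∨ r ∈ F ∨ (r ∉ Q ∧ AdjS H S r) ∨ (r ∈ Q ∧ nb H A r ⊆ S)) :
    dmq H Q A F ≤ S.card + dmq H (nQ H Q S) (A \ R) (nF H Q A F S) := by
  obtain ⟨D, h1, h2⟩ := dmq_spec H (nQ H Q S) (A \ R) (nF H Q A F S)
  rw [← h2]
  refine (dmq_le (D := S ∪ D) ⟨union_subset (hR.SR.trans hR.RA) (h1.1.trans sdiff_subset), ?_⟩).trans
    (card_union_le _ _)
  intro v hv
  by_cases hvR : v ∈ R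
  · rcases hdom v hvR with h | h | ⟨h, s, hs, hsv⟩ | ⟨h, h'⟩
    · exact Or.inl (mem_union_left _ h)
    · exact Or.inr (Or.inl h)
    · exact Or.inr (Or.inr (Or.inl ⟨h, s, mem_union_left _ hs, hsv⟩))
    · exact Or.inr (Or.inr (Or.inr ⟨h, h'.trans subset_union_left⟩))
  · rcases h1.2 v (mem_sdiff.2 ⟨hv, hvR⟩) with h | h | ⟨h, u, hu, huv⟩ | ⟨h, h'⟩
    · exact Or.inl (mem_union_right _ h)
    · rw [mem_nF] at h
      rcases h with h | ⟨_, ⟨h, s, hs, hsv⟩ | ⟨h, h'⟩⟩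
      · exact Or.inr (Or.inl h)
      · exact Or.inr (Or.inr (Or.inl ⟨h, s, mem_union_left _ hs, hsv⟩))
      · exact Or.inr (Or.inr (Or.inr ⟨h, h'.trans subset_union_left⟩))
    · by_cases hvQ : v ∈ Q
      · rw [mem_nQ] at h
        push Not at h
        obtain ⟨s, hs, hsv⟩ := h hvQ
        refine Or.inr (Or.inr (Or.inr ⟨hvQ, ?_⟩))
        have hd := hW.q2 v hv hvQ
        have hsu : s ≠ u := by
          rintro rfl
          exact (mem_sdiff.1 (h1.1 hu)).2 (hR.SR hs)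
        have hsub : ({s, u} : Finset V) ⊆ nb H A v := by
          intro t ht
          rw [mem_insert, mem_singleton] at ht
          rcases ht with rfl | rfl
          · exact mem_nb.2 ⟨hR.RA (hR.SR hs), hsv.symm⟩
          · exact mem_nb.2 ⟨(mem_sdiff.1 (h1.1 hu)).1, huv.symm⟩
        have heq : ({s, u} : Finset V) = nb H A v := by
          apply eq_of_subset_of_card_le hsub
          rw [card_pair hsu]
          exact hd.le
        rw [← heq]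
        intro t ht
        rw [mem_insert, mem_singleton] at ht
        rcases ht with rfl | rfl
        · exact mem_union_left _ hs
        · exact mem_union_right _ hu
      · exact Or.inr (Or.inr (Or.inl ⟨hvQ, u, mem_union_right _ hu, huv⟩))
    · rw [mem_nQ] at h
      refine Or.inr (Or.inr (Or.inr ⟨h.1, ?_⟩))
      intro u hu
      rw [mem_nb] at hu
      by_cases huR : u ∈ R
      · exact absurd ⟨u, hR.q v hv hvR h.1 u huR hu.2, hu.2.symm⟩ h.2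
      · exact mem_union_right _ (h' (mem_nb.2 ⟨mem_sdiff.2 ⟨hu.1, huR⟩, hu.2⟩))

/-! ### change of weights -/

theorem mu_mono1 {a k : ℕ} (h : a + k ≤ 2) : mu a + k ≤ mu (a + k) := by
  obtain ⟨rfl, rfl⟩ | ⟨rfl, rfl⟩ | ⟨rfl, rfl⟩ | ⟨rfl, rfl⟩ | ⟨rfl, rfl⟩ | ⟨rfl, rfl⟩ :
      (a = 0 ∧ k = 0) ∨ (a = 0 ∧ k = 1) ∨ (a = 0 ∧ k = 2) ∨ (a = 1 ∧ k = 0) ∨ (a = 1 ∧ k = 1) ∨
      (a = 2 ∧ k = 0) := by omega
  all_goals simp [mu]

theorem mu_phi {a k : ℕ} (h : a + k ≤ 3) (hk : 1 ≤ k) : mu a + k ≤ phi (a + k) := by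
  obtain ⟨rfl, rfl⟩ | ⟨rfl, rfl⟩ | ⟨rfl, rfl⟩ | ⟨rfl, rfl⟩ | ⟨rfl, rfl⟩ | ⟨rfl, rfl⟩ :
      (a = 0 ∧ k = 1) ∨ (a = 0 ∧ k = 2) ∨ (a = 0 ∧ k = 3) ∨ (a = 1 ∧ k = 1) ∨ (a = 1 ∧ k = 2) ∨
      (a = 2 ∧ k = 1) := by omega
  all_goals simp [mu, phi]

theorem IsT_of (hR : Rem H Q A R S) {v : V} (hv : ∀ r ∈ R, ¬ H.Adj v r)
    (h : IsT H (nQ H Q S) (A \ R) v) : IsT H Q A v := by
  obtain ⟨h1, e, heA, heQ, hn⟩ := h
  rw [mem_sdiff] at heA
  rw [mem_nQ] at heQ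
  have he : ∀ r ∈ R, ¬ H.Adj e r := fun r hr hra =>
    heQ.2 ⟨r, hR.q e heA.1 heA.2 heQ.1 r hr hra, hra.symm⟩
  rw [nb_sdiff_eq he, nb_sdiff_eq hv] at hn
  refine ⟨?_, e, heA.1, heQ.1, hn⟩
  rw [← h1]
  unfold dg
  rw [nb_sdiff_eq hv]

/-- good vertices lose at least one unit for each lost neighbour -/
theorem wt_good (hW : WFQ H Q A F) (hR : Rem H Q A R S) {v : V} (hv : v ∈ A) (hvR : v ∉ R)
    (h : v ∈ Q ∨ v ∈ F ∨ AdjS H S v ∨ ∀ r ∈ R, ¬ H.Adj v r) :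
    wt H (nQ H Q S) (A \ R) (nF H Q A F S) v + dg H R v ≤ wt H Q A F v := by
  have hsp := dg_split (H := H) hR.RA v
  by_cases hvQ : v ∈ Q
  · rw [wtQ hvQ]
    have h2 := hW.q2 v hv hvQ
    by_cases hs : AdjS H S v
    · have hnQ : v ∉ nQ H Q S := fun hh => (mem_nQ.1 hh).2 hs
      obtain ⟨s, hs, hsv⟩ := hs
      have hk := dg_pos' (H := H) (hR.SR hs) hsv.symm
      by_cases hk2 : dg H (A \ R) v = 0
      · have hsub : nb H A v ⊆ S := by
          intro u hu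
          rw [mem_nb] at hu
          have huR : u ∈ R := by
            by_contra huR
            have := dg_pos' (H := H) (R := A \ R) (mem_sdiff.2 ⟨hu.1, huR⟩) hu.2
            omega
          exact hR.q v hv hvR hvQ u huR hu.2
        rw [wtM hnQ (mem_nF.2 (Or.inr ⟨hv, Or.inr ⟨hvQ, hsub⟩⟩)), hk2, mu0]
        omega
      · have hk3 : dg H (A \ R) v = 1 := by omega
        have hk4 : dg H R v = 1 := by omega
        by_cases hF : v ∈ nF H Q A F S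
        · rw [wtM hnQ hF, hk3, mu1, hk4]; norm_num
        · rw [wtU hnQ hF, hk3, phi1, hk4, tc_ne2 (by omega)]; norm_num
    · have hnR : ∀ r ∈ R, ¬ H.Adj v r := fun r hr hra =>
        hs ⟨r, hR.q v hv hvR hvQ r hr hra, hra.symm⟩
      rw [wtQ (mem_nQ.2 ⟨hvQ, hs⟩), dg_eq_zero hnR]
      norm_num
  have hnQ : v ∉ nQ H Q S := fun hh => hvQ (mem_nQ.1 hh).1
  have h3 := hW.deg v hv
  by_cases hvF : v ∈ F
  · rw [wtM hvQ hvF, wtM hnQ (mem_nF.2 (Or.inl hvF)), hsp, add_comm (dg H R v)]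
    apply mu_mono1
    have := hW.f2 v hv hvF
    omega
  by_cases hs : AdjS H S v
  · rw [wtU hvQ hvF, wtM hnQ (mem_nF.2 (Or.inr ⟨hv, Or.inl ⟨hvQ, hs⟩⟩))]
    have h4 := tc_nonneg (H := H) (Q := Q) (A := A) (v := v)
    obtain ⟨s, hs, hsv⟩ := hs
    have hk := dg_pos' (H := H) (hR.SR hs) hsv.symm
    have := mu_phi (a := dg H (A \ R) v) (k := dg H R v) (by omega) hk
    rw [hsp, add_comm (dg H R v)]
    linarith
  · have hnR : ∀ r ∈ R, ¬ H.Adj v r := by tauto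
    have hnF : v ∉ nF H Q A F S := by
      rw [mem_nF]; tauto
    rw [wtU hvQ hvF, wtU hnQ hnF, dg_eq_zero hnR]
    have e : dg H (A \ R) v = dg H A v := by unfold dg; rw [nb_sdiff_eq hnR]
    rw [e]
    have : tc H (nQ H Q S) (A \ R) v ≤ tc H Q A v := by
      by_cases hT : IsT H (nQ H Q S) (A \ R) v
      · rw [tc_of (IsT_of hR hnR hT)]; exact tc_le
      · rw [tc_of_not hT]; exact tc_nonneg
    push_cast
    linarith

/-- bad vertices -/
theorem wt_bad (hR : Rem H Q A R S) {v : V} (hv : v ∈ A)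
    (hvQ : v ∉ Q) (hvF : v ∉ F) (hs : ¬ AdjS H S v) :
    wt H (nQ H Q S) (A \ R) (nF H Q A F S) v =
      phi (dg H (A \ R) v) + tc H (nQ H Q S) (A \ R) v := by
  have hnQ : v ∉ nQ H Q S := fun hh => hvQ (mem_nQ.1 hh).1
  have hnF : v ∉ nF H Q A F S := by
    rw [mem_nF]; tauto
  exact wtU hnQ hnF

theorem wt_bad3 (hR : Rem H Q A R S) {v : V} (hv : v ∈ A)
    (hvQ : v ∉ Q) (hvF : v ∉ F) (hs : ¬ AdjS H S v) (hk : dg H R v = 1) (hd : dg H A v = 3) :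
    wt H (nQ H Q S) (A \ R) (nF H Q A F S) v + dg H R v =
      wt H Q A F v + (3 + tc H (nQ H Q S) (A \ R) v) := by
  have hsp := dg_split (H := H) hR.RA v
  rw [wt_bad hR hv hvQ hvF hs, wtU hvQ hvF, hd, hk, show dg H (A \ R) v = 2 by omega, phi2, phi3,
    tc_ne2 (Q := Q) (A := A) (by omega)]
  push_cast
  ring

theorem wt_bad2 (hR : Rem H Q A R S) {v : V} (hv : v ∈ A)
    (hvQ : v ∉ Q) (hvF : v ∉ F) (hs : ¬ AdjS H S v) (hk : dg H R v = 1) (hd : dg H A v = 2) :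
    wt H (nQ H Q S) (A \ R) (nF H Q A F S) v + dg H R v ≤ wt H Q A F v + 5 := by
  have hsp := dg_split (H := H) hR.RA v
  have := tc_nonneg (H := H) (Q := Q) (A := A) (v := v)
  rw [wt_bad hR hv hvQ hvF hs, wtU hvQ hvF, hd, hk, show dg H (A \ R) v = 1 by omega, phi2, phi1,
    tc_ne2 (Q := nQ H Q S) (A := A \ R) (by omega)]
  push_cast
  linarith

theorem wt_bad1 (hR : Rem H Q A R S) {v : V} (hv : v ∈ A)
    (hvQ : v ∉ Q) (hvF : v ∉ F) (hs : ¬ AdjS H S v) (hk : dg H R v = 1) (hd : dg H A v = 1) :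
    wt H (nQ H Q S) (A \ R) (nF H Q A F S) v + dg H R v ≤ wt H Q A F v + 8 := by
  have hsp := dg_split (H := H) hR.RA v
  have := tc_nonneg (H := H) (Q := Q) (A := A) (v := v)
  rw [wt_bad hR hv hvQ hvF hs, wtU hvQ hvF, hd, hk, show dg H (A \ R) v = 0 by omega, phi1, phi0,
    tc_ne2 (Q := nQ H Q S) (A := A \ R) (by omega)]
  push_cast
  linarith

/-- a `Q`-vertex next to a selected vertex loses three units -/
theorem wt_goodQ (hW : WFQ H Q A F) (hR : Rem H Q A R S) {v : V} (hv : v ∈ A) (hvR : v ∉ R)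
    (hvQ : v ∈ Q) (hs : AdjS H S v) :
    wt H (nQ H Q S) (A \ R) (nF H Q A F S) v + dg H R v ≤ wt H Q A F v - 2 := by
  have hsp := dg_split (H := H) hR.RA v
  rw [wtQ hvQ]
  have h2 := hW.q2 v hv hvQ
  have hnQ : v ∉ nQ H Q S := fun hh => (mem_nQ.1 hh).2 hs
  obtain ⟨s, hs, hsv⟩ := hs
  have hk := dg_pos' (H := H) (hR.SR hs) hsv.symm
  by_cases hk2 : dg H (A \ R) v = 0
  · have hsub : nb H A v ⊆ S := by
      intro u hu
      rw [mem_nb] at hu
      have huR : u ∈ R := by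
        by_contra huR
        have := dg_pos' (H := H) (R := A \ R) (mem_sdiff.2 ⟨hu.1, huR⟩) hu.2
        omega
      exact hR.q v hv hvR hvQ u huR hu.2
    rw [wtM hnQ (mem_nF.2 (Or.inr ⟨hv, Or.inr ⟨hvQ, hsub⟩⟩)), hk2, mu0]
    omega
  · have hk3 : dg H (A \ R) v = 1 := by omega
    have hk4 : dg H R v = 1 := by omega
    by_cases hF : v ∈ nF H Q A F S
    · rw [wtM hnQ hF, hk3, mu1, hk4]; norm_num
    · rw [wtU hnQ hF, hk3, phi1, hk4, tc_ne2 (by omega)]; norm_num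

/-- the move lemma -/
theorem gq_move (hW : WFQ H Q A F) (hR : Rem H Q A R S)
    (hdom : ∀ r ∈ R, r ∈ S ∨ r ∈ F ∨ (r ∉ Q ∧ AdjS H S r) ∨ (r ∈ Q ∧ nb H A r ⊆ S))
    (Bd : Finset V) (b : V → ℤ) (hBd : Bd ⊆ A \ R)
    (hgood : ∀ v ∈ A, v ∉ R → v ∉ Bd → v ∈ Q ∨ v ∈ F ∨ AdjS H S v ∨ ∀ r ∈ R, ¬ H.Adj v r)
    (hbad : ∀ v ∈ Bd, wt H (nQ H Q S) (A \ R) (nF H Q A F S) v + dg H R v ≤
      wt H Q A F v + b v) :
    gq H Q A F ≤ 20 * (S.card : ℤ) - ∑ r ∈ R, wt H Q A F r - bdry H A R + ∑ v ∈ Bd, b v +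
      gq H (nQ H Q S) (A \ R) (nF H Q A F S) := by
  have h1 := dmq_move hW hR hdom
  have h2 : (dmq H Q A F : ℤ) ≤ S.card + dmq H (nQ H Q S) (A \ R) (nF H Q A F S) := by
    exact_mod_cast h1
  have h3 : ∑ v ∈ A, wt H Q A F v = ∑ r ∈ R, wt H Q A F r + ∑ v ∈ A \ R, wt H Q A F v := by
    rw [add_comm]; exact (sum_sdiff hR.RA).symm
  have h4 : ∑ v ∈ A \ R, (wt H (nQ H Q S) (A \ R) (nF H Q A F S) v + dg H R v) ≤
      ∑ v ∈ A \ R, (wt H Q A F v + if v ∈ Bd then b v else 0) := by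
    refine sum_le_sum fun v hv => ?_
    rw [mem_sdiff] at hv
    by_cases hB : v ∈ Bd
    · rw [if_pos hB]; exact hbad v hB
    · rw [if_neg hB, add_zero]; exact wt_good hW hR hv.1 hv.2 (hgood v hv.1 hv.2 hB)
  rw [sum_add_distrib, sum_add_distrib, sum_ite_mem, inter_eq_right.2 hBd] at h4
  have h5 : ∑ v ∈ A \ R, (dg H R v : ℤ) = bdry H A R := by
    unfold bdry
    rw [bdry_comm R (A \ R)]
    push_cast
    rfl
  rw [h5] at h4
  unfold gq
  linarith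

end

end Pool.Agent.H94.Dom
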