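import Mathlib
import Pool.Agent.Dom94.Dq1

/-! Decorated claims for MP_3fbd8d_co, part 2: claims, parts, connectedness. -/

set_option linter.unusedSectionVars false

namespace Pool.Agent.H94.Dom

open Finset

section
variable {V : Type} [DecidableEq V] {H : SimpleGraph V} {Q Q' A B F F' D R S X Y Z : Finset V}

/-- the claims about connected decorated graphs -/
structure Cq (H : SimpleGraph V) (Q A F : Finset V) : Prop where
  c1 : (∃ v ∈ A, dg H A v ≤ 2) → gq H Q A F ≤ 4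
  c2 : ((∃ v ∈ A, v ∈ F) ∨ (∃ v ∈ A, v ∉ Q ∧ dg H A v ≤ 1) ∨ ¬ Bl H A) → gq H Q A F ≤ 2
  c3 : (∃ v ∈ A, v ∉ Q ∧ v ∉ F ∧ dg H A v ≤ 2 ∧ ∃ e ∈ A, e ∈ Q ∧ H.Adj v e) → gq H Q A F ≤ -1

/-- induction hypothesis -/
def IHq (H : SimpleGraph V) (A : Finset V) : Prop :=
  ∀ X, X ⊂ A → ∀ Q F, WFQ H Q X F → Conn H X → X.Nonempty → Cq H Q X F

/-- `X` is closed in `B` -/
def Clo (H : SimpleGraph V) (B X : Finset V) : Prop := ∀ x ∈ X, ∀ y ∈ B, y ∉ X → ¬ H.Adj x y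

theorem Clo.self : Clo H B B := fun _ _ _ hy h => absurd hy h

theorem Clo.nb (h : Clo H B X) (hX : X ⊆ B) {v : V} (hv : v ∈ X) : nb H B v = nb H X v := by
  ext u
  rw [mem_nb, mem_nb]
  constructor
  · rintro ⟨h1, h2⟩
    exact ⟨by by_contra h3; exact h v hv u h1 h3 h2, h2⟩
  · rintro ⟨h1, h2⟩
    exact ⟨hX h1, h2⟩

theorem Clo.dg (h : Clo H B X) (hX : X ⊆ B) {v : V} (hv : v ∈ X) : dg H B v = dg H X v := by
  unfold Dom.dg; rw [h.nb hX hv]

theorem Clo.compl (h : Clo H B X) : Clo H B (B \ X) := by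
  intro x hx y hy hyX hxy
  rw [mem_sdiff] at hx hyX
  have hyX' : y ∈ X := by tauto
  exact h y hyX' x hx.1 hx.2 hxy.symm

theorem Clo.trans (h : Clo H B X) (hX : X ⊆ B) (h2 : Clo H X Y) (hY : Y ⊆ X) : Clo H B Y := by
  intro x hx y hy hyY hxy
  by_cases hyX : y ∈ X
  · exact h2 x hx y hyX hyY hxy
  · exact h x (hY hx) y hy hyX hxy

/-! ### unions -/

theorem dmq_union (hX : Clo H (X ∪ Y) X) (hY : Clo H (X ∪ Y) Y) :
    dmq H Q (X ∪ Y) F ≤ dmq H Q X F + dmq H Q Y F := by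
  obtain ⟨D, h1, h2⟩ := dmq_spec H Q X F
  obtain ⟨E, h3, h4⟩ := dmq_spec H Q Y F
  rw [← h2, ← h4]
  refine (dmq_le (D := D ∪ E) ⟨union_subset_union h1.1 h3.1, ?_⟩).trans (card_union_le _ _)
  intro v hv
  rcases mem_union.1 hv with hv | hv
  · rcases h1.2 v hv with h | h | ⟨h, u, hu, ha⟩ | ⟨h, h'⟩
    · exact Or.inl (mem_union_left _ h)
    · exact Or.inr (Or.inl h)
    · exact Or.inr (Or.inr (Or.inl ⟨h, u, mem_union_left _ hu, ha⟩))
    · refine Or.inr (Or.inr (Or.inr ⟨h, ?_⟩))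
      rw [hX.nb subset_union_left hv]
      exact h'.trans subset_union_left
  · rcases h3.2 v hv with h | h | ⟨h, u, hu, ha⟩ | ⟨h, h'⟩
    · exact Or.inl (mem_union_right _ h)
    · exact Or.inr (Or.inl h)
    · exact Or.inr (Or.inr (Or.inl ⟨h, u, mem_union_right _ hu, ha⟩))
    · refine Or.inr (Or.inr (Or.inr ⟨h, ?_⟩))
      rw [hY.nb subset_union_right hv]
      exact h'.trans subset_union_right

theorem wt_part (hX : X ⊆ B) (h : Clo H B X) {v : V} (hv : v ∈ X) :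
    wt H Q X F v ≤ wt H Q B F v := by
  by_cases hQ : v ∈ Q
  · rw [wtQ hQ, wtQ hQ]
  by_cases hF : v ∈ F
  · rw [wtM hQ hF, wtM hQ hF, h.dg hX hv]
  rw [wtU hQ hF, wtU hQ hF, h.dg hX hv]
  have : tc H Q X v ≤ tc H Q B v := by
    by_cases hT : IsT H Q X v
    · obtain ⟨h1, e, he, heQ, hn⟩ := hT
      have : IsT H Q B v := by
        refine ⟨by rw [h.dg hX hv]; exact h1, e, hX he, heQ, ?_⟩
        rw [h.nb hX he, h.nb hX hv, hn]
      rw [tc_of this]; exact tc_le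
    · rw [tc_of_not hT]; exact tc_nonneg
  linarith

theorem gq_union (hd : Disjoint X Y) (hX : Clo H (X ∪ Y) X) (hY : Clo H (X ∪ Y) Y) :
    gq H Q (X ∪ Y) F ≤ gq H Q X F + gq H Q Y F := by
  have h1 := dmq_union (Q := Q) (F := F) hX hY
  have h2 : (dmq H Q (X ∪ Y) F : ℤ) ≤ dmq H Q X F + dmq H Q Y F := by exact_mod_cast h1
  have h3 : ∑ v ∈ X, wt H Q X F v + ∑ v ∈ Y, wt H Q Y F v ≤ ∑ v ∈ X ∪ Y, wt H Q (X ∪ Y) F v := by
    rw [sum_union hd]
    exact add_le_add (sum_le_sum fun v hv => wt_part subset_union_left hX hv)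
      (sum_le_sum fun v hv => wt_part subset_union_right hY hv)
  unfold gq
  linarith

theorem gq_empty : gq H Q ∅ F = 0 := by
  have h1 : dmq H Q ∅ F = 0 := by
    have : DomQ H Q ∅ F ∅ := ⟨Subset.rfl, by simp⟩
    have := dmq_le this
    simpa using this
  unfold gq
  rw [h1, sum_empty]; norm_num

/-- direct bound -/
theorem gq_dom (h : DomQ H Q A F D) : gq H Q A F ≤ 20 * (D.card : ℤ) - ∑ v ∈ A, wt H Q A F v := by
  have h1 := dmq_le h
  have h2 : (dmq H Q A F : ℤ) ≤ D.card := by exact_mod_cast h1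
  unfold gq
  linarith

/-! ### boundaries -/

theorem bdry_clo (hR : R ⊆ A) (hX : X ⊆ A \ R) (h : Clo H (A \ R) X) :
    bdry H A X = ∑ v ∈ X, dg H R v := by
  unfold bdry
  refine sum_congr rfl fun v hv => ?_
  unfold dg
  congr 1
  ext u
  rw [mem_nb, mem_nb, mem_sdiff]
  constructor
  · rintro ⟨⟨h1, h2⟩, h3⟩
    refine ⟨?_, h3⟩
    by_contra hu
    exact h v hv u (mem_sdiff.2 ⟨h1, hu⟩) h2 h3
  · rintro ⟨h1, h2⟩
    exact ⟨⟨hR h1, fun h3 => (mem_sdiff.1 (hX h3)).2 h1⟩, h2⟩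

theorem bdry_eq : bdry H A R = ∑ v ∈ A \ R, dg H R v := bdry_comm _ _

theorem conn_cut (hB : Bl H A) (hR : R ⊆ A) (hRn : R.Nonempty) (hc : bdry H A R ≤ 3) :
    Conn H (A \ R) := by
  intro X hX hXn hXc
  by_contra hcon
  push Not at hcon
  have hclo : Clo H (A \ R) X := fun x hx y hy hyX => hcon x hx y (mem_sdiff.2 ⟨hy, hyX⟩)
  have h1 := hB X (hX.trans sdiff_subset) hXn (by
    obtain ⟨y, hy⟩ := hXc
    rw [mem_sdiff, mem_sdiff] at hy
    exact ⟨y, mem_sdiff.2 ⟨hy.1.1, hy.2⟩⟩)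
  have h2 := hB ((A \ R) \ X) (sdiff_subset.trans sdiff_subset) hXc (by
    obtain ⟨y, hy⟩ := hRn
    exact ⟨y, mem_sdiff.2 ⟨hR hy, fun h => (mem_sdiff.1 (mem_sdiff.1 h).1).2 hy⟩⟩)
  rw [bdry_clo hR hX hclo] at h1
  rw [bdry_clo hR sdiff_subset hclo.compl] at h2
  rw [bdry_eq, ← sum_sdiff hX] at hc
  omega

theorem Bl.bdry2 (hB : Bl H A) (hR : R ⊆ A) (hRn : R.Nonempty) (hc : (A \ R).Nonempty) :
    2 ≤ bdry H A R := hB R hR hRn hc

/-- upper bound for the boundary -/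
theorem dg_out (hR : R ⊆ A) {r : V} {T : Finset V} (hT : T ⊆ R) (hTn : T ⊆ nb H A r) :
    dg H (A \ R) r + T.card ≤ dg H A r := by
  rw [dg_split (H := H) hR r, add_comm]
  refine Nat.add_le_add_right (card_le_card ?_) _
  intro u hu
  exact mem_nb.2 ⟨hT hu, (mem_nb.1 (hTn hu)).2⟩

/-! ### states of parts -/

theorem WFQ.sub (hW : WFQ H Q A F) (hR : Rem H Q A R S) (hX : X ⊆ A \ R) (h : Clo H (A \ R) X) :
    WFQ H (nQ H Q S) X (nF H Q A F S) := by
  have hXA : X ⊆ A := hX.trans sdiff_subset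
  have hq : ∀ v ∈ X, v ∈ nQ H Q S → nb H X v = nb H A v := by
    intro v hv hvQ
    rw [← h.nb hX hv]
    apply nb_sdiff_eq
    intro r hr hvr
    rw [mem_nQ] at hvQ
    have hvA := mem_sdiff.1 (hX hv)
    exact hvQ.2 ⟨r, hR.q v hvA.1 hvA.2 hvQ.1 r hr hvr, hvr.symm⟩
  refine ⟨fun v hv => (dg_mono hXA v).trans (hW.deg v (hXA hv)), ?_, ?_, ?_, ?_⟩
  · intro v hv hvQ
    unfold dg
    rw [hq v hv hvQ]
    exact hW.q2 v (hXA hv) (mem_nQ.1 hvQ).1
  · intro v hv hvQ hvF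
    have h1 := hW.q2 v (hXA hv) (mem_nQ.1 hvQ).1
    rw [mem_nQ] at hvQ
    rw [mem_nF] at hvF
    rcases hvF with h2 | ⟨_, ⟨h2, _⟩ | ⟨_, h2⟩⟩
    · exact hW.qf v (hXA hv) hvQ.1 h2
    · exact h2 hvQ.1
    · obtain ⟨a, b, _, hn⟩ := nb2 h1
      have ha := mem2a hn
      exact hvQ.2 ⟨a, h2 ha, (mem_nb.1 ha).2.symm⟩
  · intro v hv hvF
    rw [mem_nF] at hvF
    rcases hvF with h2 | ⟨_, ⟨h2, s, hs, hsv⟩ | ⟨h2, _⟩⟩
    · exact (dg_mono hXA v).trans (hW.f2 v (hXA hv) h2)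
    · have h3 := dg_split (H := H) hR.RA v
      have h4 := dg_pos' (H := H) (hR.SR hs) hsv.symm
      have h5 := dg_mono (H := H) hX v
      have h6 := hW.deg v (hXA hv)
      omega
    · exact (dg_mono hXA v).trans (hW.q2 v (hXA hv) h2).le
  · intro Z hZ hZ2 hZQ hZc hZb hZd
    refine hW.inp Z (hZ.trans hXA) hZ2 ?_ hZc hZb hZd
    intro z hz hzQ
    have h1 := hZQ z hz
    rw [mem_nQ] at h1
    push Not at h1
    obtain ⟨s, hs, hsz⟩ := h1 hzQ
    have h3 := dg_split (H := H) hR.RA z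
    have h4 := dg_pos' (H := H) (hR.SR hs) hsz.symm
    have h5 := dg_mono (H := H) (hZ.trans hX) z
    have h6 := hW.q2 z (hXA (hZ hz)) hzQ
    obtain ⟨w, hw, hne⟩ := exists_mem_ne (show 1 < Z.card by omega) z
    have h7 := hZb.dg2 hz hw hne.symm
    omega

theorem sub_ss (hR : R ⊆ A) (hRn : R.Nonempty) (hX : X ⊆ A \ R) : X ⊂ A := by
  refine ⟨hX.trans sdiff_subset, fun hsub => ?_⟩
  obtain ⟨r, hr⟩ := hRn
  exact (mem_sdiff.1 (hX (hsub (hR hr)))).2 hr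

/-- claims for a connected part -/
theorem IHq.sub (IH : IHq H A) (hW : WFQ H Q A F) (hR : Rem H Q A R S) (hRn : R.Nonempty)
    (hX : X ⊆ A \ R) (h : Clo H (A \ R) X) (hC : Conn H X) (hXn : X.Nonempty) :
    Cq H (nQ H Q S) X (nF H Q A F S) :=
  IH X (sub_ss hR.RA hRn hX) _ _ (hW.sub hR hX h) hC hXn

/-- a good vertex at the boundary gives the bound two -/
theorem c2_good (hW : WFQ H Q A F) (hR : Rem H Q A R S)
    (hX : X ⊆ A \ R) (hc : Cq H (nQ H Q S) X (nF H Q A F S))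
    {v : V} (hv : v ∈ X)
    (hg : (v ∈ Q ∧ ∃ r ∈ R, H.Adj v r) ∨ v ∈ F ∨ AdjS H S v) :
    gq H (nQ H Q S) X (nF H Q A F S) ≤ 2 := by
  have hvA := mem_sdiff.1 (hX hv)
  apply hc.c2
  by_cases hvQ : v ∈ Q
  · have hs : AdjS H S v := by
      rcases hg with ⟨_, r, hr, hvr⟩ | h | h
      · exact ⟨r, hR.q v hvA.1 hvA.2 hvQ r hr hvr, hvr.symm⟩
      · exact absurd h (hW.qf v hvA.1 hvQ)
      · exact h
    right; left
    refine ⟨v, hv, fun h => (mem_nQ.1 h).2 hs, ?_⟩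
    obtain ⟨s, hs, hsv⟩ := hs
    have h3 := dg_split (H := H) hR.RA v
    have h4 := dg_pos' (H := H) (hR.SR hs) hsv.symm
    have h5 := dg_mono (H := H) hX v
    have h6 := hW.q2 v hvA.1 hvQ
    omega
  · left
    refine ⟨v, hv, ?_⟩
    rw [mem_nF]
    tauto

/-- the sum over the components -/
theorem comps (hC : Conn H A) (hR : R ⊆ A) (hRn : R.Nonempty)
    (hcl : ∀ X, X ⊆ A \ R → X.Nonempty → Conn H X → Clo H (A \ R) X → gq H Q' X F' ≤ 2) :
    ∀ Z, Z ⊆ A \ R → Clo H (A \ R) Z → gq H Q' Z F' ≤ 2 * (∑ v ∈ Z, dg H R v : ℕ) := by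
  intro Z
  induction Z using Finset.strongInduction with
  | H Z ih =>
    intro hZ hclo
    by_cases hZn : Z.Nonempty
    · by_cases hZC : Conn H Z
      · have h1 := hcl Z hZ hZn hZC hclo
        have h2 : 1 ≤ ∑ v ∈ Z, dg H R v := by
          obtain ⟨x, hx, y, hy, hxy⟩ := hC Z (hZ.trans sdiff_subset) hZn (by
            obtain ⟨r, hr⟩ := hRn
            exact ⟨r, mem_sdiff.2 ⟨hR hr, fun h => (mem_sdiff.1 (hZ h)).2 hr⟩⟩)
          rw [mem_sdiff] at hy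
          have hyR : y ∈ R := by
            by_contra hyR
            exact hclo x hx y (mem_sdiff.2 ⟨hy.1, hyR⟩) hy.2 hxy
          exact (dg_pos' hyR hxy).trans
            (single_le_sum (f := fun v => dg H R v) (fun _ _ => Nat.zero_le _) hx)
        have h3 : (1 : ℤ) ≤ ((∑ v ∈ Z, dg H R v : ℕ) : ℤ) := by exact_mod_cast h2
        linarith
      · unfold Conn at hZC
        push Not at hZC
        obtain ⟨X, hX, hXn, hXc, hno⟩ := hZC
        have hcX : Clo H Z X := fun x hx y hy hyX => hno x hx y (mem_sdiff.2 ⟨hy, hyX⟩)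
        have hcY : Clo H Z (Z \ X) := hcX.compl
        have hun : X ∪ (Z \ X) = Z := union_sdiff_of_subset hX
        have h1 := ih X ⟨hX, fun h => by
          obtain ⟨y, hy⟩ := hXc
          exact (mem_sdiff.1 hy).2 (h (mem_sdiff.1 hy).1)⟩ (hX.trans hZ) (hclo.trans hZ hcX hX)
        have h2 := ih (Z \ X) ⟨sdiff_subset, fun h => by
          obtain ⟨y, hy⟩ := hXn
          exact (mem_sdiff.1 (h (hX hy))).2 hy⟩ (sdiff_subset.trans hZ)
          (hclo.trans hZ hcY sdiff_subset)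
        have h3 := gq_union (H := H) (Q := Q') (F := F') (X := X) (Y := Z \ X) disjoint_sdiff
          (by rw [hun]; exact hcX) (by rw [hun]; exact hcY)
        rw [hun] at h3
        have h4 : ∑ v ∈ Z, dg H R v = ∑ v ∈ X, dg H R v + ∑ v ∈ Z \ X, dg H R v := by
          rw [add_comm]; exact (sum_sdiff hX).symm
        rw [h4]
        push_cast at *
        linarith
    · rw [not_nonempty_iff_eq_empty.1 hZn, gq_empty]
      simp

end

end Pool.Agent.H94.Dom
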