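import Mathlib
import Pool.Agent.Dom94.Dq2

/-! Decorated claims for MP_3fbd8d_co, part 3: special vertices, leaves. -/

set_option linter.unusedSectionVars false
set_option linter.unusedVariables false

namespace Pool.Agent.H94.Dom

open Finset

section
variable {V : Type} [DecidableEq V] {H : SimpleGraph V} {Q Q' A B F F' D R S X Y Z : Finset V}

/-- adjacent to a `Q`-vertex -/
def Spc (H : SimpleGraph V) (Q A : Finset V) (v : V) : Prop := ∃ e ∈ A, e ∈ Q ∧ H.Adj v e

theorem dmq_special (hW : WFQ H Q A F)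
    (h : ∀ v ∈ A, v ∈ F' → v ∈ F ∨ (v ∉ Q ∧ Spc H Q A v)) : dmq H Q A F ≤ dmq H Q A F' := by
  obtain ⟨D, h1, h2⟩ := dmq_spec H Q A F'
  rw [← h2]
  refine dmq_le ⟨h1.1, fun v hv => ?_⟩
  rcases h1.2 v hv with h3 | h3 | h3 | h3
  · exact Or.inl h3
  · rcases h v hv h3 with h4 | ⟨h4, e, he, heQ, hve⟩
    · exact Or.inr (Or.inl h4)
    · rcases h1.2 e he with h5 | h5 | h5 | h5
      · exact Or.inr (Or.inr (Or.inl ⟨h4, e, h5, hve.symm⟩))
      · rcases h e he h5 with h6 | h6
        · exact absurd h6 (hW.qf e he heQ)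
        · exact absurd heQ h6.1
      · exact absurd heQ h5.1
      · exact Or.inl (h5.2 (mem_nb.2 ⟨hv, hve.symm⟩))
  · exact Or.inr (Or.inr (Or.inl h3))
  · exact Or.inr (Or.inr (Or.inr h3))

theorem mu_le_phi (d : ℕ) : mu d ≤ phi d := by
  rcases d with _ | _ | _ | d <;> simp [mu, phi]

theorem gq_special (hW : WFQ H Q A F) (hFF : ∀ v ∈ A, v ∈ F → v ∈ F')
    (h : ∀ v ∈ A, v ∈ F' → v ∈ F ∨ (v ∉ Q ∧ Spc H Q A v)) : gq H Q A F ≤ gq H Q A F' := by
  have h1 := dmq_special hW h
  have h2 : (dmq H Q A F : ℤ) ≤ dmq H Q A F' := by exact_mod_cast h1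
  have h3 : ∑ v ∈ A, wt H Q A F' v ≤ ∑ v ∈ A, wt H Q A F v := by
    refine sum_le_sum fun v hv => ?_
    by_cases hQ : v ∈ Q
    · rw [wtQ hQ, wtQ hQ]
    by_cases hF : v ∈ F
    · rw [wtM hQ hF, wtM hQ (hFF v hv hF)]
    rw [wtU hQ hF]
    have := tc_nonneg (H := H) (Q := Q) (A := A) (v := v)
    by_cases hF' : v ∈ F'
    · rw [wtM hQ hF']
      linarith [mu_le_phi (dg H A v)]
    · rw [wtU hQ hF']
  unfold gq
  linarith

theorem WFQ.special (hW : WFQ H Q A F)
    (h : ∀ v ∈ A, v ∈ F' → v ∈ F ∨ (v ∉ Q ∧ dg H A v ≤ 2)) : WFQ H Q A F' :=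
  ⟨hW.deg, hW.q2, fun v hv hQ hF => by
    rcases h v hv hF with h | h
    · exact hW.qf v hv hQ h
    · exact h.1 hQ, fun v hv hF => by
    rcases h v hv hF with h | h
    · exact hW.f2 v hv h
    · exact h.2, hW.inp⟩

/-- marking one special vertex gains three units -/
theorem gq_special1 (hW : WFQ H Q A F) {v : V} (hv : v ∈ A) (hQ : v ∉ Q) (hF : v ∉ F)
    (hd : dg H A v ≤ 2) (hs : Spc H Q A v) : gq H Q A F + 3 ≤ gq H Q A (insert v F) := by
  have h1 := dmq_special (F' := insert v F) hW (fun u hu huF => by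
    rcases mem_insert.1 huF with rfl | h
    · exact Or.inr ⟨hQ, hs⟩
    · exact Or.inl h)
  have h2 : (dmq H Q A F : ℤ) ≤ dmq H Q A (insert v F) := by exact_mod_cast h1
  have h3 : ∑ u ∈ A, (wt H Q A (insert v F) u + if u = v then 3 else 0) ≤
      ∑ u ∈ A, wt H Q A F u := by
    refine sum_le_sum fun u hu => ?_
    by_cases huv : u = v
    · subst huv
      rw [if_pos rfl, wtM hQ (mem_insert_self _ _), wtU hQ hF]
      have := tc_nonneg (H := H) (Q := Q) (A := A) (v := u)
      obtain ⟨e, he, _, hue⟩ := hs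
      have h0 := dg_pos' he hue
      obtain h | h : dg H A u = 1 ∨ dg H A u = 2 := by omega
      · rw [h, mu1, phi1]; linarith
      · rw [h, mu2, phi2]; linarith
    · rw [if_neg huv, add_zero]
      have : u ∈ insert v F ↔ u ∈ F := by rw [mem_insert]; tauto
      unfold wt
      simp only [this]
      exact le_rfl
  rw [sum_add_distrib, sum_ite_eq' A v, if_pos hv] at h3
  unfold gq
  linarith

/-- lower bound for weights -/
theorem WFQ.wt_lb (hW : WFQ H Q A F) {v : V} (hv : v ∈ A) (hd : 1 ≤ dg H A v) :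
    (4 : ℤ) + dg H A v ≤ wt H Q A F v := by
  have h3 := hW.deg v hv
  by_cases hQ : v ∈ Q
  · rw [wtQ hQ, hW.q2 v hv hQ]; norm_num
  by_cases hF : v ∈ F
  · have h2 := hW.f2 v hv hF
    rw [wtM hQ hF]
    obtain h | h : dg H A v = 1 ∨ dg H A v = 2 := by omega
    · rw [h, mu1]; norm_num
    · rw [h, mu2]; norm_num
  · rw [wtU hQ hF]
    have := tc_nonneg (H := H) (Q := Q) (A := A) (v := v)
    obtain h | h | h : dg H A v = 1 ∨ dg H A v = 2 ∨ dg H A v = 3 := by omega
    · rw [h, phi1]; push_cast; linarith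
    · rw [h, phi2]; push_cast; linarith
    · rw [h, phi3]; push_cast; linarith

theorem wtU1 {v : V} (h : v ∉ Q) (h2 : v ∉ F) (hd : dg H A v = 1) : wt H Q A F v = 13 := by
  rw [wtU h h2, hd, phi1, tc_ne2 (by omega)]; norm_num

theorem wtU2 {v : V} (h : v ∉ Q) (h2 : v ∉ F) (hd : dg H A v = 2) : 9 ≤ wt H Q A F v := by
  rw [wtU h h2, hd, phi2]
  linarith [tc_nonneg (H := H) (Q := Q) (A := A) (v := v)]

theorem wtU3 {v : V} (h : v ∉ Q) (h2 : v ∉ F) (hd : dg H A v = 3) : wt H Q A F v = 7 := by
  rw [wtU h h2, hd, phi3, tc_ne2 (by omega)]; norm_num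

theorem wtM1 {v : V} (h : v ∉ Q) (h2 : v ∈ F) (hd : dg H A v = 1) : wt H Q A F v = 5 := by
  rw [wtM h h2, hd, mu1]

theorem wtM2 {v : V} (h : v ∉ Q) (h2 : v ∈ F) (hd : dg H A v = 2) : wt H Q A F v = 6 := by
  rw [wtM h h2, hd, mu2]

/-- isolated vertices -/
theorem q_iso (hW : WFQ H Q A F) (hC : Conn H A) {v : V} (hv : v ∈ A) (hd : dg H A v = 0) :
    gq H Q A F ≤ 0 := by
  have hA := conn_zero hC hv hd
  have hQ : v ∉ Q := fun h => by have := hW.q2 v hv h; omega
  by_cases hF : v ∈ F
  · have h1 : DomQ H Q A F ∅ := ⟨by simp, fun u hu => by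
      rw [hA, mem_singleton] at hu
      subst hu
      exact Or.inr (Or.inl hF)⟩
    have h2 := gq_dom h1
    rw [card_empty] at h2
    have h3 : ∑ u ∈ A, wt H Q A F u = 0 := by
      rw [hA, sum_singleton, wtM hQ hF, ← hA, hd, mu0]
    rw [h3] at h2
    norm_num at h2
    exact h2
  · have h1 : DomQ H Q A F {v} := ⟨by simpa using hv, fun u hu => by
      rw [hA, mem_singleton] at hu
      subst hu
      exact Or.inl (by simp)⟩
    have h2 := gq_dom h1
    rw [card_singleton] at h2
    have h3 : (20 : ℤ) ≤ ∑ u ∈ A, wt H Q A F u := by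
      rw [hA, sum_singleton, wtU hQ hF, ← hA, hd, phi0]
      linarith [tc_nonneg (H := H) (Q := Q) (A := A) (v := v)]
    push_cast at h2
    linarith

/-- an unmarked ordinary leaf -/
theorem q_leaf (IH : IHq H A) (hW : WFQ H Q A F) (hC : Conn H A) {l : V} (hl : l ∈ A)
    (hQ : l ∉ Q) (hF : l ∉ F) (hd : dg H A l = 1) : gq H Q A F ≤ 2 := by
  obtain ⟨u, hu⟩ := nb1 hd
  have hum := mem1 hu
  have huA := mem_of_nb hum
  have hlu : H.Adj l u := (mem_nb.1 hum).2
  have hne : l ≠ u := hlu.ne
  have hRA : ({l, u} : Finset V) ⊆ A := by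
    intro x hx
    rcases mem_insert.1 hx with rfl | hx
    · exact hl
    · rw [mem_singleton.1 hx]; exact huA
  have hnl : ∀ x ∈ A, H.Adj x l → x = u := by
    intro x hx hxl
    have : x ∈ nb H A l := mem_nb.2 ⟨hx, hxl.symm⟩
    rw [hu, mem_singleton] at this
    exact this
  have hR : Rem H Q A {l, u} {u} := by
    refine ⟨hRA, by simp, ?_⟩
    intro e he heR heQ r hr her
    rcases mem_insert.1 hr with rfl | hr
    · exact absurd (hnl e he her) (by rintro rfl; simp at heR)
    · exact hr
  have hm := gq_move (F := F) hW hR (by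
    intro r hr
    rcases mem_insert.1 hr with rfl | hr
    · exact Or.inr (Or.inr (Or.inl ⟨hQ, u, by simp, hlu.symm⟩))
    · exact Or.inl hr) ∅ (fun _ => 0) (by simp) (by
    intro v hv hvR _
    by_cases hs : AdjS H {u} v
    · exact Or.inr (Or.inr (Or.inl hs))
    · refine Or.inr (Or.inr (Or.inr ?_))
      intro r hr hvr
      rcases mem_insert.1 hr with rfl | hr
      · exact absurd (hnl v hv hvr) (by rintro rfl; simp at hvR)
      · rw [mem_singleton] at hr
        subst hr
        exact hs ⟨r, by simp, hvr.symm⟩) (by simp)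
  have hc := comps (Q' := nQ H Q {u}) (F' := nF H Q A F {u}) hC hRA ⟨l, by simp⟩ (by
    intro X hX hXn hXC hclo
    obtain ⟨x, hx, y, hy, hxy⟩ := hC X (hX.trans sdiff_subset) hXn
      ⟨l, mem_sdiff.2 ⟨hl, fun h => by simpa using (mem_sdiff.1 (hX h)).2⟩⟩
    rw [mem_sdiff] at hy
    have hxA := mem_sdiff.1 (hX hx)
    have hyR : y ∈ ({l, u} : Finset V) := by
      by_contra hyR
      exact hclo x hx y (mem_sdiff.2 ⟨hy.1, hyR⟩) hy.2 hxy
    refine c2_good hW hR hX (IH.sub hW hR ⟨l, by simp⟩ hX hclo hXC hXn) hx (Or.inr (Or.inr ?_))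
    rcases mem_insert.1 hyR with rfl | hyR
    · exact absurd (hnl x hxA.1 hxy) (by rintro rfl; simp at hxA)
    · rw [mem_singleton] at hyR
      subst hyR
      exact ⟨y, by simp, hxy.symm⟩) (A \ {l, u}) Subset.rfl Clo.self
  rw [← bdry_eq] at hc
  have hb : bdry H A {l, u} + 1 ≤ dg H A u := by
    unfold bdry
    rw [sum_pair hne]
    have h1 := dg_out (H := H) hRA (r := l) (T := {u}) (by simp) (by rw [hu])
    have h2 := dg_out (H := H) hRA (r := u) (T := {l}) (by simp) (by
      rw [singleton_subset_iff]; exact mem_nb_comm hl hum)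
    rw [card_singleton] at h1 h2
    omega
  have hw := hW.wt_lb huA (dg_pos' hl hlu.symm)
  rw [sum_pair hne, wtU1 hQ hF hd, card_singleton, sum_empty] at hm
  have hb' : (bdry H A {l, u} : ℤ) + 1 ≤ dg H A u := by exact_mod_cast hb
  push_cast at hm
  linarith

/-- a marked leaf -/
theorem q_mleaf (IH : IHq H A) (hW : WFQ H Q A F) (hC : Conn H A) {v : V} (hv : v ∈ A)
    (hQ : v ∉ Q) (hF : v ∈ F) (hd : dg H A v = 1) : gq H Q A F ≤ 2 := by
  obtain ⟨u, hu⟩ := nb1 hd
  have hum := mem1 hu
  have huA := mem_of_nb hum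
  have hvu : H.Adj v u := (mem_nb.1 hum).2
  have hne : v ≠ u := hvu.ne
  have hnl : ∀ x ∈ A, H.Adj x v → x = u := by
    intro x hx hxl
    have : x ∈ nb H A v := mem_nb.2 ⟨hx, hxl.symm⟩
    rw [hu, mem_singleton] at this
    exact this
  by_cases huQ : u ∈ Q
  · have hRA : ({v, u} : Finset V) ⊆ A := by
      intro x hx
      rcases mem_insert.1 hx with rfl | hx
      · exact hv
      · rw [mem_singleton.1 hx]; exact huA
    have hR : Rem H Q A {v, u} {u} := by
      refine ⟨hRA, by simp, ?_⟩
      intro e he heR heQ r hr her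
      rcases mem_insert.1 hr with rfl | hr
      · exact absurd (hnl e he her) (by rintro rfl; simp at heR)
      · exact hr
    have hm := gq_move (F := F) hW hR (by
      intro r hr
      rcases mem_insert.1 hr with rfl | hr
      · exact Or.inr (Or.inl hF)
      · exact Or.inl hr) ∅ (fun _ => 0) (by simp) (by
      intro w hw hwR _
      by_cases hs : AdjS H {u} w
      · exact Or.inr (Or.inr (Or.inl hs))
      · refine Or.inr (Or.inr (Or.inr ?_))
        intro r hr hwr
        rcases mem_insert.1 hr with rfl | hr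
        · exact absurd (hnl w hw hwr) (by rintro rfl; simp at hwR)
        · rw [mem_singleton] at hr
          subst hr
          exact hs ⟨r, by simp, hwr.symm⟩) (by simp)
    have hc := comps (Q' := nQ H Q {u}) (F' := nF H Q A F {u}) hC hRA ⟨v, by simp⟩ (by
      intro X hX hXn hXC hclo
      obtain ⟨x, hx, y, hy, hxy⟩ := hC X (hX.trans sdiff_subset) hXn
        ⟨v, mem_sdiff.2 ⟨hv, fun h => by simpa using (mem_sdiff.1 (hX h)).2⟩⟩
      rw [mem_sdiff] at hy
      have hxA := mem_sdiff.1 (hX hx)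
      have hyR : y ∈ ({v, u} : Finset V) := by
        by_contra hyR
        exact hclo x hx y (mem_sdiff.2 ⟨hy.1, hyR⟩) hy.2 hxy
      refine c2_good hW hR hX (IH.sub hW hR ⟨v, by simp⟩ hX hclo hXC hXn) hx
        (Or.inr (Or.inr ?_))
      rcases mem_insert.1 hyR with rfl | hyR
      · exact absurd (hnl x hxA.1 hxy) (by rintro rfl; simp at hxA)
      · rw [mem_singleton] at hyR
        subst hyR
        exact ⟨y, by simp, hxy.symm⟩) (A \ {v, u}) Subset.rfl Clo.self
    rw [← bdry_eq] at hc
    have hb : bdry H A {v, u} + 1 ≤ dg H A u := by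
      unfold bdry
      rw [sum_pair hne]
      have h1 := dg_out (H := H) hRA (r := v) (T := {u}) (by simp) (by rw [hu])
      have h2 := dg_out (H := H) hRA (r := u) (T := {v}) (by simp) (by
        rw [singleton_subset_iff]; exact mem_nb_comm hv hum)
      rw [card_singleton] at h1 h2
      omega
    have h2 := hW.q2 u huA huQ
    rw [sum_pair hne, wtM1 hQ hF hd, wtQ huQ, card_singleton, sum_empty] at hm
    have hb' : (bdry H A {v, u} : ℤ) ≤ 1 := by
      have : bdry H A {v, u} ≤ 1 := by omega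
      exact_mod_cast this
    push_cast at hm
    linarith
  · have hRA : ({v} : Finset V) ⊆ A := by simpa using hv
    have hR : Rem H Q A {v} ∅ := by
      refine ⟨hRA, by simp, ?_⟩
      intro e he heR heQ r hr her
      rw [mem_singleton] at hr
      subst hr
      rw [hnl e he her] at heQ
      exact absurd heQ huQ
    have hC1 : Conn H (A \ {v}) := by
      rw [sdiff_singleton_eq_erase]
      exact conn_erase_leaf hC hv hu
    have hu1 : u ∈ A \ {v} := mem_sdiff.2 ⟨huA, by simpa using hne.symm⟩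
    have hcl := IH.sub hW hR ⟨v, by simp⟩ Subset.rfl Clo.self hC1 ⟨u, hu1⟩
    have hb : bdry H A {v} = 1 := by
      unfold bdry
      rw [sum_singleton]
      have h3 := dg_split (H := H) hRA v
      have h4 : dg H {v} v = 0 := dg_single v
      omega
    have hk : dg H {v} u = 1 := by
      have h3 : dg H {v} u ≤ 1 := by
        have : nb H {v} u ⊆ {v} := fun w hw => (mem_nb.1 hw).1
        exact (card_le_card this).trans (by simp)
      have h4 := dg_pos' (H := H) (R := {v}) (v := u) (r := v) (by simp) hvu.symm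
      omega
    have hsp := dg_split (H := H) hRA u
    have hdom : ∀ r ∈ ({v} : Finset V), r ∈ (∅ : Finset V) ∨ r ∈ F ∨ (r ∉ Q ∧ AdjS H ∅ r) ∨
        (r ∈ Q ∧ nb H A r ⊆ ∅) := by
      intro r hr
      rw [mem_singleton] at hr
      subst hr
      exact Or.inr (Or.inl hF)
    by_cases huF : u ∈ F
    · have hm := gq_move (F := F) hW hR hdom ∅ (fun _ => 0) (by simp) (by
        intro w hw hwR _
        by_cases hwu : w = u
        · subst hwu; exact Or.inr (Or.inl huF)
        · refine Or.inr (Or.inr (Or.inr ?_))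
          intro r hr hwr
          rw [mem_singleton] at hr
          subst hr
          exact hwu (hnl w hw hwr)) (by simp)
      have h2 := c2_good hW hR Subset.rfl hcl hu1 (Or.inr (Or.inl huF))
      rw [sum_singleton, wtM1 hQ hF hd, card_empty, sum_empty, hb] at hm
      push_cast at hm
      linarith
    · have hs : ¬ AdjS H ∅ u := by rintro ⟨s, hs, _⟩; simp at hs
      have hgood : ∀ w ∈ A, w ∉ ({v} : Finset V) → w ∉ ({u} : Finset V) →
          w ∈ Q ∨ w ∈ F ∨ AdjS H ∅ w ∨ ∀ r ∈ ({v} : Finset V), ¬ H.Adj w r := by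
        intro w hw hwR hwu
        refine Or.inr (Or.inr (Or.inr ?_))
        intro r hr hwr
        rw [mem_singleton] at hr
        subst hr
        exact hwu (by rw [mem_singleton]; exact hnl w hw hwr)
      have hd3 := hW.deg u huA
      have hd1 := dg_pos' hv hvu.symm
      obtain h | h | h : dg H A u = 1 ∨ dg H A u = 2 ∨ dg H A u = 3 := by omega
      · -- `A = {v, u}`
        have h0 : dg H (A \ {v}) u = 0 := by omega
        have hA := conn_zero hC1 hu1 h0
        have hA' : A = {v, u} := by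
          rw [← union_sdiff_of_subset hRA, hA]; rfl
        have hD : DomQ H Q A F {u} := by
          refine ⟨by simpa using huA, fun w hw => ?_⟩
          rw [hA', mem_insert, mem_singleton] at hw
          rcases hw with rfl | rfl
          · exact Or.inr (Or.inl hF)
          · exact Or.inl (by simp)
        have h2 := gq_dom hD
        have h3 : ∑ w ∈ A, wt H Q A F w = 18 := by
          have : ∑ w ∈ A, wt H Q A F w = wt H Q A F v + wt H Q A F u := by
            conv_lhs => rw [hA']
            rw [sum_pair hne, ← hA']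
          rw [this, wtM1 hQ hF hd, wtU1 huQ huF h]; norm_num
        rw [h3, card_singleton] at h2
        push_cast at h2
        linarith
      · have hm := gq_move (F := F) hW hR hdom {u} (fun _ => 5) (by simpa using hu1) hgood (by
          intro w hw
          rw [mem_singleton] at hw
          subst hw
          exact wt_bad2 hR huA huQ huF hs hk h)
        have h2 := hcl.c2 (Or.inr (Or.inl ⟨u, hu1, fun hh => huQ (mem_nQ.1 hh).1, by omega⟩))
        rw [sum_singleton, wtM1 hQ hF hd, card_empty, sum_singleton, hb] at hm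
        push_cast at hm
        linarith
      · have hm := gq_move (F := F) hW hR hdom {u} (fun _ => 4) (by simpa using hu1) hgood (by
          intro w hw
          rw [mem_singleton] at hw
          subst hw
          rw [wt_bad3 hR huA huQ huF hs hk h]
          linarith [tc_le (H := H) (Q := nQ H Q ∅) (A := A \ {v}) (v := w)])
        have h2 := hcl.c1 ⟨u, hu1, by omega⟩
        rw [sum_singleton, wtM1 hQ hF hd, card_empty, sum_singleton, hb] at hm
        push_cast at hm
        linarith

end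

end Pool.Agent.H94.Dom
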