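import Mathlib
import Pool.Agent.Dom94.Dq3

/-! Decorated claims for MP_3fbd8d_co, part 4: bridges. -/

set_option linter.unusedSectionVars false
set_option linter.unusedVariables false

namespace Pool.Agent.H94.Dom

open Finset

section
variable {V : Type} [DecidableEq V] {H : SimpleGraph V} {Q Q' A B F F' D R S X Y Z : Finset V}
variable {x y : V}

theorem Br.subX (h : Br H A x y X Y) : X ⊆ A := by rw [← h.un]; exact subset_union_left
theorem Br.subY (h : Br H A x y X Y) : Y ⊆ A := by rw [← h.un]; exact subset_union_right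

theorem Br.sdX (h : Br H A x y X Y) : A \ X = Y := by
  ext v
  rw [mem_sdiff, ← h.un, mem_union]
  constructor
  · tauto
  · exact fun hv => ⟨Or.inr hv, fun hX => disjoint_left.1 h.dis hX hv⟩

/-- the neighbours of a vertex of `Y` lie in `Y` or it is `y` with the neighbour `x` -/
theorem Br.nbY (h : Br H A x y X Y) {v : V} (hv : v ∈ Y) (hvy : v ≠ y) : nb H A v = nb H Y v := by
  ext u
  rw [mem_nb, mem_nb, ← h.un, mem_union]
  constructor
  · rintro ⟨h1 | h1, h2⟩
    · exact absurd (h.uniq u h1 v hv h2.symm).2 hvy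
    · exact ⟨h1, h2⟩
  · rintro ⟨h1, h2⟩
    exact ⟨Or.inr h1, h2⟩

theorem Br.remX (h : Br H A x y X Y) (Q : Finset V) : Rem H Q A X {x} := by
  refine ⟨h.subX, by simpa using h.hx, ?_⟩
  intro e he heX _ r hr her
  rw [← h.un, mem_union] at he
  have heY : e ∈ Y := by tauto
  rw [mem_singleton]
  exact (h.uniq r hr e heY her.symm).1

theorem Br.adjy (h : Br H A x y X Y) {v : V} (hv : v ∈ Y) (hs : AdjS H {x} v) : v = y := by
  obtain ⟨s, hs, hsv⟩ := hs
  rw [mem_singleton] at hs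
  subst hs
  exact (h.uniq s h.hx v hv hsv).2

theorem Br.bd (h : Br H A x y X Y) : bdry H A X = 1 := by
  rw [bdry_eq, h.sdX]
  rw [← add_sum_erase Y _ h.hy]
  have h1 : ∑ v ∈ Y.erase y, dg H X v = 0 := by
    apply sum_eq_zero
    intro v hv
    apply dg_eq_zero
    intro r hr hvr
    exact ne_of_mem_erase hv (h.uniq r hr v (mem_of_mem_erase hv) hvr.symm).2
  have h2 : dg H X y = 1 := by
    have hle : nb H X y ⊆ {x} := by
      intro u hu
      rw [mem_nb] at hu
      rw [mem_singleton]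
      exact (h.uniq u hu.1 y h.hy hu.2.symm).1
    have := dg_pos' (H := H) h.hx h.adj.symm
    have h3 : dg H X y ≤ 1 := (card_le_card hle).trans (by simp)
    omega
  rw [h1, h2]

/-- value of `Y` if `x` is selected -/
noncomputable def bN (H : SimpleGraph V) (Q A F : Finset V) (x : V) (Y : Finset V) : ℤ :=
  20 * (dmq H (nQ H Q {x}) Y (nF H Q A F {x}) : ℤ) - ∑ v ∈ Y, wt H Q A F v

/-- least size of a dominating set of `Y` which contains `y` -/
noncomputable def dSq (H : SimpleGraph V) (Q Y F : Finset V) (y : V) : ℕ :=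
  sInf {k | ∃ D, DomQ H Q Y F D ∧ y ∈ D ∧ D.card = k}

theorem dSq_spec (hy : y ∈ Y) : ∃ D, DomQ H Q Y F D ∧ y ∈ D ∧ D.card = dSq H Q Y F y := by
  have h : {k | ∃ D, DomQ H Q Y F D ∧ y ∈ D ∧ D.card = k}.Nonempty :=
    ⟨_, Y, DomQ.self H Q Y F, hy, rfl⟩
  exact Nat.sInf_mem h

theorem dSq_le (h : DomQ H Q Y F D) (hy : y ∈ D) : dSq H Q Y F y ≤ D.card :=
  Nat.sInf_le ⟨D, h, hy, rfl⟩

/-- value of `Y` if `y` is selected -/
noncomputable def bS (H : SimpleGraph V) (Q A F : Finset V) (y : V) (Y : Finset V) : ℤ :=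
  20 * (dSq H Q Y F y : ℤ) - ∑ v ∈ Y, wt H Q A F v

/-- value of `Y` alone -/
noncomputable def bF (H : SimpleGraph V) (Q A F : Finset V) (Y : Finset V) : ℤ :=
  20 * (dmq H Q Y F : ℤ) - ∑ v ∈ Y, wt H Q A F v

theorem Br.N_le_F (h : Br H A x y X Y) (hy : y ∉ Q) :
    dmq H (nQ H Q {x}) Y (nF H Q A F {x}) ≤ dmq H Q Y F := by
  obtain ⟨D, h1, h2⟩ := dmq_spec H Q Y F
  rw [← h2]
  refine dmq_le ⟨h1.1, fun v hv => ?_⟩
  rcases h1.2 v hv with h3 | h3 | h3 | h3
  · exact Or.inl h3
  · exact Or.inr (Or.inl (mem_nF.2 (Or.inl h3)))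
  · exact Or.inr (Or.inr (Or.inl ⟨fun hh => h3.1 (mem_nQ.1 hh).1, h3.2⟩))
  · refine Or.inr (Or.inr (Or.inr ⟨mem_nQ.2 ⟨h3.1, fun hs => ?_⟩, h3.2⟩))
    rw [h.adjy hv hs] at h3
    exact hy h3.1

theorem Br.N_le_S (h : Br H A x y X Y) :
    dmq H (nQ H Q {x}) Y (nF H Q A F {x}) ≤ dSq H Q Y F y := by
  obtain ⟨D, h1, h4, h2⟩ := dSq_spec (H := H) (Q := Q) (F := F) h.hy
  rw [← h2]
  refine dmq_le ⟨h1.1, fun v hv => ?_⟩
  rcases h1.2 v hv with h3 | h3 | h3 | h3
  · exact Or.inl h3
  · exact Or.inr (Or.inl (mem_nF.2 (Or.inl h3)))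
  · exact Or.inr (Or.inr (Or.inl ⟨fun hh => h3.1 (mem_nQ.1 hh).1, h3.2⟩))
  · by_cases hs : AdjS H {x} v
    · rw [h.adjy hv hs]; exact Or.inl h4
    · exact Or.inr (Or.inr (Or.inr ⟨mem_nQ.2 ⟨h3.1, hs⟩, h3.2⟩))

theorem Br.F_le_S (h : Br H A x y X Y) : dmq H Q Y F ≤ dSq H Q Y F y := by
  obtain ⟨D, h1, h4, h2⟩ := dSq_spec (H := H) (Q := Q) (F := F) h.hy
  rw [← h2]
  exact dmq_le h1

theorem Br.S_le_N (h : Br H A x y X Y) (hW : WFQ H Q A F) :
    dSq H Q Y F y ≤ dmq H (nQ H Q {x}) Y (nF H Q A F {x}) + 1 := by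
  obtain ⟨D, h1, h2⟩ := dmq_spec H (nQ H Q {x}) Y (nF H Q A F {x})
  rw [← h2]
  refine (dSq_le (D := insert y D) ⟨?_, fun v hv => ?_⟩ (mem_insert_self _ _)).trans
    (card_insert_le _ _)
  · exact insert_subset h.hy h1.1
  · by_cases hvy : v = y
    · exact Or.inl (mem_insert.2 (Or.inl hvy))
    have hs : ¬ AdjS H {x} v := fun hs => hvy (h.adjy hv hs)
    rcases h1.2 v hv with h3 | h3 | ⟨h3, u, hu, huv⟩ | h3
    · exact Or.inl (mem_insert_of_mem h3)
    · rw [mem_nF] at h3
      rcases h3 with h3 | ⟨_, ⟨h3, h4⟩ | ⟨h3, h4⟩⟩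
      · exact Or.inr (Or.inl h3)
      · exact absurd h4 hs
      · exfalso
        have h5 := hW.q2 v (h.subY hv) h3
        have h6 : dg H A v ≤ 1 := (card_le_card h4).trans (by simp)
        omega
    · have hvQ : v ∉ Q := fun hh => h3 (mem_nQ.2 ⟨hh, hs⟩)
      exact Or.inr (Or.inr (Or.inl ⟨hvQ, u, mem_insert_of_mem hu, huv⟩))
    · exact Or.inr (Or.inr (Or.inr ⟨(mem_nQ.1 h3.1).1, h3.2.trans (subset_insert _ _)⟩))

theorem Br.gl1 (h : Br H A x y X Y) (hx : x ∉ Q) (hy : y ∉ Q) :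
    dmq H Q A F ≤ dmq H Q X F + dmq H Q Y F := by
  obtain ⟨D, h1, h2⟩ := dmq_spec H Q X F
  obtain ⟨E, h3, h4⟩ := dmq_spec H Q Y F
  rw [← h2, ← h4]
  refine (dmq_le (D := D ∪ E) ⟨?_, ?_⟩).trans (card_union_le _ _)
  · rw [← h.un]; exact union_subset_union h1.1 h3.1
  intro v hv
  rw [← h.un] at hv
  rcases mem_union.1 hv with hv | hv
  · rcases h1.2 v hv with h5 | h5 | ⟨h5, u, hu, ha⟩ | ⟨h5, h'⟩
    · exact Or.inl (mem_union_left _ h5)
    · exact Or.inr (Or.inl h5)
    · exact Or.inr (Or.inr (Or.inl ⟨h5, u, mem_union_left _ hu, ha⟩))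
    · refine Or.inr (Or.inr (Or.inr ⟨h5, ?_⟩))
      rw [h.symm.nbY hv (fun e => hx (e ▸ h5))]
      exact h'.trans subset_union_left
  · rcases h3.2 v hv with h5 | h5 | ⟨h5, u, hu, ha⟩ | ⟨h5, h'⟩
    · exact Or.inl (mem_union_right _ h5)
    · exact Or.inr (Or.inl h5)
    · exact Or.inr (Or.inr (Or.inl ⟨h5, u, mem_union_right _ hu, ha⟩))
    · refine Or.inr (Or.inr (Or.inr ⟨h5, ?_⟩))
      rw [h.nbY hv (fun e => hy (e ▸ h5))]
      exact h'.trans subset_union_right

/-- `x` selected in `X` -/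
theorem Br.gl2 (h : Br H A x y X Y) (hW : WFQ H Q A F) :
    dmq H Q A F ≤ dSq H Q X F x + dmq H (nQ H Q {x}) Y (nF H Q A F {x}) := by
  obtain ⟨D, h1, h6, h2⟩ := dSq_spec (H := H) (Q := Q) (F := F) h.hx
  obtain ⟨E, h3, h4⟩ := dmq_spec H (nQ H Q {x}) Y (nF H Q A F {x})
  rw [← h2, ← h4]
  refine (dmq_le (D := D ∪ E) ⟨?_, ?_⟩).trans (card_union_le _ _)
  · rw [← h.un]; exact union_subset_union h1.1 h3.1
  intro v hv
  rw [← h.un] at hv
  rcases mem_union.1 hv with hv | hv
  · rcases h1.2 v hv with h5 | h5 | ⟨h5, u, hu, ha⟩ | ⟨h5, h'⟩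
    · exact Or.inl (mem_union_left _ h5)
    · exact Or.inr (Or.inl h5)
    · exact Or.inr (Or.inr (Or.inl ⟨h5, u, mem_union_left _ hu, ha⟩))
    · by_cases hvx : v = x
      · subst hvx; exact Or.inl (mem_union_left _ h6)
      refine Or.inr (Or.inr (Or.inr ⟨h5, ?_⟩))
      rw [h.symm.nbY hv hvx]
      exact h'.trans subset_union_left
  · have hvA := h.subY hv
    by_cases hs : AdjS H {x} v
    · have hvy := h.adjy hv hs
      by_cases hvQ : v ∈ Q
      · rcases h3.2 v hv with h5 | h5 | ⟨h5, u, hu, ha⟩ | ⟨h5, h'⟩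
        · exact Or.inl (mem_union_right _ h5)
        · rw [mem_nF] at h5
          rcases h5 with h5 | ⟨_, ⟨h5, _⟩ | ⟨_, h5⟩⟩
          · exact Or.inr (Or.inl h5)
          · exact absurd hvQ h5
          · exfalso
            have h7 := hW.q2 v hvA hvQ
            have h8 : dg H A v ≤ 1 := (card_le_card h5).trans (by simp)
            omega
        · refine Or.inr (Or.inr (Or.inr ⟨hvQ, ?_⟩))
          have hd := hW.q2 v hvA hvQ
          have hxu : x ≠ u := by
            rintro rfl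
            exact disjoint_left.1 h.dis h.hx (h3.1 hu)
          have hsub : ({x, u} : Finset V) ⊆ nb H A v := by
            intro t ht
            rw [mem_insert, mem_singleton] at ht
            rcases ht with rfl | rfl
            · exact mem_nb.2 ⟨h.subX h.hx, hvy ▸ h.adj.symm⟩
            · exact mem_nb.2 ⟨h.subY (h3.1 hu), ha.symm⟩
          have heq : ({x, u} : Finset V) = nb H A v := by
            apply eq_of_subset_of_card_le hsub
            rw [card_pair hxu]
            exact hd.le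
          rw [← heq]
          intro t ht
          rw [mem_insert, mem_singleton] at ht
          rcases ht with rfl | rfl
          · exact mem_union_left _ h6
          · exact mem_union_right _ hu
        · exact absurd hs (mem_nQ.1 h5).2
      · refine Or.inr (Or.inr (Or.inl ⟨hvQ, x, mem_union_left _ h6, ?_⟩))
        rw [hvy]; exact h.adj
    · have hvy : v ≠ y := by
        rintro rfl
        exact hs ⟨x, by simp, h.adj⟩
      rcases h3.2 v hv with h5 | h5 | ⟨h5, u, hu, ha⟩ | ⟨h5, h'⟩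
      · exact Or.inl (mem_union_right _ h5)
      · rw [mem_nF] at h5
        rcases h5 with h5 | ⟨_, ⟨_, h5⟩ | ⟨h7, h5⟩⟩
        · exact Or.inr (Or.inl h5)
        · exact absurd h5 hs
        · exfalso
          have h7 := hW.q2 v hvA h7
          have h8 : dg H A v ≤ 1 := (card_le_card h5).trans (by simp)
          omega
      · exact Or.inr (Or.inr (Or.inl ⟨fun hh => h5 (mem_nQ.2 ⟨hh, hs⟩), u,
          mem_union_right _ hu, ha⟩))
      · refine Or.inr (Or.inr (Or.inr ⟨(mem_nQ.1 h5).1, ?_⟩))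
        rw [h.nbY hv hvy]
        exact h'.trans subset_union_right

theorem Br.sumwt (h : Br H A x y X Y) :
    ∑ v ∈ A, wt H Q A F v = ∑ v ∈ X, wt H Q A F v + ∑ v ∈ Y, wt H Q A F v := by
  conv_lhs => rw [← h.un]
  rw [sum_union h.dis, h.un]

/-- weights with `x` selected -/
theorem Br.wtN (h : Br H A x y X Y) (hW : WFQ H Q A F) :
    ∑ v ∈ Y, wt H (nQ H Q {x}) Y (nF H Q A F {x}) v + 1 ≤ ∑ v ∈ Y, wt H Q A F v := by
  have h1 : ∑ v ∈ Y, (wt H (nQ H Q {x}) Y (nF H Q A F {x}) v + dg H X v) ≤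
      ∑ v ∈ Y, wt H Q A F v := by
    refine sum_le_sum fun v hv => ?_
    have hvX : v ∉ X := fun hh => disjoint_left.1 h.dis hh hv
    have := wt_good hW (h.remX Q) (h.subY hv) hvX (by
      by_cases hvy : v = y
      · exact Or.inr (Or.inr (Or.inl ⟨x, by simp, hvy ▸ h.adj⟩))
      · refine Or.inr (Or.inr (Or.inr ?_))
        intro r hr hvr
        exact hvy (h.uniq r hr v hv hvr.symm).2)
    rw [h.sdX] at this
    exact this
  rw [sum_add_distrib] at h1
  have h2 : ∑ v ∈ Y, (dg H X v : ℤ) = 1 := by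
    have := h.bd
    rw [bdry_eq, h.sdX] at this
    exact_mod_cast this
  rw [h2] at h1
  exact h1

theorem Br.cloY (h : Br H A x y X Y) : Clo H (A \ X) Y := by
  rw [h.sdX]; exact Clo.self

theorem Br.N_le (h : Br H A x y X Y) (IH : IHq H A) (hW : WFQ H Q A F) (hC : Conn H A) :
    bN H Q A F x Y ≤ 1 := by
  have h1 := h.wtN hW
  have hY : Y ⊆ A \ X := by rw [h.sdX]
  have h2 := IH.sub hW (h.remX Q) ⟨x, h.hx⟩ hY h.cloY (h.symm.connX hC) ⟨y, h.hy⟩
  have h3 := c2_good hW (h.remX Q) hY h2 h.hy (Or.inr (Or.inr ⟨x, by simp, h.adj⟩))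
  unfold gq at h3
  unfold bN
  linarith

/-- the leaf bound for `Y` together with `x` -/
theorem Br.lowq (h : Br H A x y X Y) (IH : IHq H A) (hW : WFQ H Q A F) (hC : Conn H A)
    (hX : X ≠ {x}) : dSq H Q Y F y = dmq H (nQ H Q {x}) Y (nF H Q A F {x}) ∨
      bN H Q A F x Y ≤ -5 := by
  have hxY : x ∉ Y := fun hh => disjoint_left.1 h.dis h.hx hh
  have hss : insert x Y ⊂ A := h.symm.insert_ss hX
  have hCL := conn_insert (h.symm.connX hC) h.hy h.adj.symm
  have hdx : dg H (insert x Y) x = 1 := by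
    have := h.symm.sub.symm.dgx
    rw [dg_single] at this
    exact this
  have hnb : ∀ v ∈ Y, nb H (insert x Y) v = nb H A v := by
    intro v hv
    ext u
    rw [mem_nb, mem_nb, mem_insert, ← h.un, mem_union]
    constructor
    · rintro ⟨rfl | h1, h2⟩
      · exact ⟨Or.inl h.hx, h2⟩
      · exact ⟨Or.inr h1, h2⟩
    · rintro ⟨h1 | h1, h2⟩
      · exact ⟨Or.inl (h.uniq u h1 v hv h2.symm).1, h2⟩
      · exact ⟨Or.inr h1, h2⟩
  have hWL : WFQ H (Q.erase x) (insert x Y) (F.erase x) := by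
    refine ⟨fun v hv => (dg_mono hss.1 v).trans (hW.deg v (hss.1 hv)), ?_, ?_, ?_, ?_⟩
    · intro v hv hvQ
      rw [mem_erase] at hvQ
      have hvY : v ∈ Y := by
        rcases mem_insert.1 hv with rfl | hv
        · exact absurd rfl hvQ.1
        · exact hv
      unfold dg
      rw [hnb v hvY]
      exact hW.q2 v (h.subY hvY) hvQ.2
    · intro v hv hvQ hvF
      exact hW.qf v (hss.1 hv) (mem_of_mem_erase hvQ) (mem_of_mem_erase hvF)
    · intro v hv hvF
      exact (dg_mono hss.1 v).trans (hW.f2 v (hss.1 hv) (mem_of_mem_erase hvF))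
    · intro Z hZ hZ2 hZQ hZc hZb hZd
      refine hW.inp Z (hZ.trans hss.1) hZ2 ?_ hZc hZb hZd
      intro z hz hzQ
      have hzx : z = x := by
        by_contra hne
        exact hZQ z hz (mem_erase.2 ⟨hne, hzQ⟩)
      subst hzx
      obtain ⟨w, hw, hne⟩ := exists_mem_ne (show 1 < Z.card by omega) z
      have h7 := hZb.dg2 hz hw hne.symm
      have h8 := dg_mono (H := H) hZ z
      omega
  have hc := (IH _ hss _ _ hWL hCL ⟨x, mem_insert_self _ _⟩).c2 (Or.inr (Or.inl
    ⟨x, mem_insert_self _ _, by simp, hdx.le⟩))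
  -- weights
  have hw : ∑ v ∈ insert x Y, wt H (Q.erase x) (insert x Y) (F.erase x) v ≤
      13 + ∑ v ∈ Y, wt H Q A F v := by
    rw [sum_insert hxY, wtU1 (by simp) (by simp) hdx]
    refine add_le_add le_rfl (sum_le_sum fun v hv => ?_)
    have hvx : v ≠ x := by rintro rfl; exact hxY hv
    have hdv : dg H (insert x Y) v = dg H A v := by unfold dg; rw [hnb v hv]
    by_cases hvQ : v ∈ Q
    · rw [wtQ hvQ, wtQ (mem_erase.2 ⟨hvx, hvQ⟩)]
    have hvQ' : v ∉ Q.erase x := fun hh => hvQ (mem_of_mem_erase hh)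
    by_cases hvF : v ∈ F
    · rw [wtM hvQ hvF, wtM hvQ' (mem_erase.2 ⟨hvx, hvF⟩), hdv]
    have hvF' : v ∉ F.erase x := fun hh => hvF (mem_of_mem_erase hh)
    rw [wtU hvQ hvF, wtU hvQ' hvF', hdv]
    have : tc H (Q.erase x) (insert x Y) v ≤ tc H Q A v := by
      by_cases hT : IsT H (Q.erase x) (insert x Y) v
      · obtain ⟨t1, e, he, heQ, hn⟩ := hT
        rw [mem_erase] at heQ
        have heY : e ∈ Y := by
          rcases mem_insert.1 he with h1 | h1
          · exact absurd h1 heQ.1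
          · exact h1
        have : IsT H Q A v :=
          ⟨by rw [← hdv]; exact t1, e, h.subY heY, heQ.2, by rw [← hnb e heY, ← hnb v hv, hn]⟩
        rw [tc_of this]; exact tc_le
      · rw [tc_of_not hT]; exact tc_nonneg
    linarith
  have hN := h.N_le_S (Q := Q) (F := F)
  have hS := h.S_le_N hW
  have key : dSq H Q Y F y ≤ dmq H (Q.erase x) (insert x Y) (F.erase x) ∨
      dmq H (nQ H Q {x}) Y (nF H Q A F {x}) + 1 ≤
        dmq H (Q.erase x) (insert x Y) (F.erase x) := by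
    obtain ⟨D, h1, h2⟩ := dmq_spec H (Q.erase x) (insert x Y) (F.erase x)
    by_cases hyD : y ∈ D
    · left
      rw [← h2]
      refine (dSq_le (D := D.erase x) ⟨?_, ?_⟩ (mem_erase.2 ⟨fun e => hxY (e ▸ h.hy), hyD⟩)).trans
        (card_le_card (erase_subset _ _))
      · intro v hv
        rw [mem_erase] at hv
        have := h1.1 hv.2
        rw [mem_insert] at this
        tauto
      · intro v hv
        have hvx : v ≠ x := by rintro rfl; exact hxY hv
        by_cases hvy : v = y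
        · left; rw [hvy]; exact mem_erase.2 ⟨fun e => hxY (e ▸ h.hy), hyD⟩
        have hnx : ∀ u, H.Adj u v → u ≠ x := by
          rintro u huv rfl
          exact hvy (h.uniq u h.hx v hv huv).2
        rcases h1.2 v (mem_insert_of_mem hv) with h3 | h3 | ⟨h3, u, hu, huv⟩ | ⟨h3, h4⟩
        · exact Or.inl (mem_erase.2 ⟨hvx, h3⟩)
        · exact Or.inr (Or.inl (mem_of_mem_erase h3))
        · exact Or.inr (Or.inr (Or.inl ⟨fun hh => h3 (mem_erase.2 ⟨hvx, hh⟩), u,
            mem_erase.2 ⟨hnx u huv, hu⟩, huv⟩))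
        · refine Or.inr (Or.inr (Or.inr ⟨mem_of_mem_erase h3, ?_⟩))
          intro u hu
          rw [mem_nb] at hu
          exact mem_erase.2 ⟨hnx u hu.2.symm, h4 (mem_nb.2 ⟨mem_insert_of_mem hu.1, hu.2⟩)⟩
    · right
      have hxD : x ∈ D := by
        rcases h1.2 x (mem_insert_self _ _) with h3 | h3 | ⟨h3, u, hu, hux⟩ | ⟨h3, h4⟩
        · exact h3
        · simp at h3
        · exfalso
          have := h1.1 hu
          rw [mem_insert] at this
          rcases this with rfl | huY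
          · exact H.irrefl hux
          · have := (h.uniq x h.hx u huY hux.symm).2
            subst this
            exact hyD hu
        · simp at h3
      have h3 : dmq H (nQ H Q {x}) Y (nF H Q A F {x}) ≤ (D.erase x).card := by
        refine dmq_le ⟨?_, ?_⟩
        · intro v hv
          rw [mem_erase] at hv
          have := h1.1 hv.2
          rw [mem_insert] at this
          tauto
        · intro v hv
          have hvx : v ≠ x := by rintro rfl; exact hxY hv
          by_cases hvy : v = y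
          · by_cases hyQ : y ∈ Q
            · rcases h1.2 y (mem_insert_of_mem h.hy) with h4 | h4 | ⟨h4, _⟩ | ⟨h4, h5⟩
              · exact absurd h4 hyD
              · exact absurd (mem_of_mem_erase h4) (hW.qf y (h.subY h.hy) hyQ)
              · exact absurd (mem_erase.2 ⟨by rintro rfl; exact hxY h.hy, hyQ⟩) h4
              · rw [hnb y h.hy] at h5
                have hxn : x ∈ nb H A y := mem_nb.2 ⟨h.subX h.hx, h.adj.symm⟩
                obtain ⟨q, hxq, hq⟩ := nb2' (hW.q2 y (h.subY h.hy) hyQ) hxn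
                have hqn : q ∈ nb H A y := mem2b hq
                subst hvy
                refine Or.inr (Or.inr (Or.inl ⟨fun hh => (mem_nQ.1 hh).2 ⟨x, by simp, h.adj⟩, q,
                  mem_erase.2 ⟨hxq.symm, h5 hqn⟩, (mem_nb.1 hqn).2.symm⟩))
            · subst hvy
              exact Or.inr (Or.inl (mem_nF.2 (Or.inr ⟨h.subY hv, Or.inl ⟨hyQ, x, by simp,
                h.adj⟩⟩)))
          have hnx : ∀ u, H.Adj u v → u ≠ x := by
            rintro u huv rfl
            exact hvy (h.uniq u h.hx v hv huv).2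
          have hns : ¬ AdjS H {x} v := fun hs => hvy (h.adjy hv hs)
          rcases h1.2 v (mem_insert_of_mem hv) with h3 | h3 | ⟨h3, u, hu, huv⟩ | ⟨h3, h4⟩
          · exact Or.inl (mem_erase.2 ⟨hvx, h3⟩)
          · exact Or.inr (Or.inl (mem_nF.2 (Or.inl (mem_of_mem_erase h3))))
          · exact Or.inr (Or.inr (Or.inl ⟨fun hh => h3 (mem_erase.2 ⟨hvx, (mem_nQ.1 hh).1⟩), u,
              mem_erase.2 ⟨hnx u huv, hu⟩, huv⟩))
          · refine Or.inr (Or.inr (Or.inr ⟨mem_nQ.2 ⟨mem_of_mem_erase h3, hns⟩, ?_⟩))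
            intro u hu
            rw [mem_nb] at hu
            exact mem_erase.2 ⟨hnx u hu.2.symm, h4 (mem_nb.2 ⟨mem_insert_of_mem hu.1, hu.2⟩)⟩
      have h4 := card_erase_add_one hxD
      omega
  unfold gq at hc
  unfold bN
  omega

/-- `x` in `Q`: the side of `x` if `x` is selected -/
theorem Br.S_leQ (h : Br H A x y X Y) (IH : IHq H A) (hW : WFQ H Q A F) (hC : Conn H A)
    (hx : x ∈ Q) : bS H Q A F x X ≤ 5 := by
  have hxA := h.subX h.hx
  have hyn : y ∈ nb H A x := mem_nb.2 ⟨h.subY h.hy, h.adj⟩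
  obtain ⟨q, hyq, hq⟩ := nb2' (hW.q2 x hxA hx) hyn
  have hqn : q ∈ nb H A x := mem2b hq
  have hxY : x ∉ Y := fun hh => disjoint_left.1 h.dis h.hx hh
  have hqX : q ∈ X := by
    have h1 := mem_of_nb hqn
    rw [← h.un, mem_union] at h1
    rcases h1 with h1 | h1
    · exact h1
    · exact absurd (h.uniq x h.hx q h1 (mem_nb.1 hqn).2).2 hyq.symm
  have hnX : nb H X x = {q} := by
    ext u
    rw [mem_nb, mem_singleton]
    constructor
    · rintro ⟨h1, h2⟩
      have h3 : u ∈ nb H A x := mem_nb.2 ⟨h.subX h1, h2⟩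
      rw [hq, mem_insert, mem_singleton] at h3
      rcases h3 with rfl | h3
      · exact absurd h.hy (disjoint_left.1 h.dis h1)
      · exact h3
    · rintro rfl
      exact ⟨hqX, (mem_nb.1 hqn).2⟩
  have hCB := conn_erase_leaf (h.connX hC) h.hx hnX
  set R : Finset V := insert x Y with hRdef
  have hRA : R ⊆ A := insert_subset hxA h.subY
  have hBeq : A \ R = X.erase x := by
    ext v
    rw [mem_sdiff, hRdef, mem_insert, mem_erase, ← h.un, mem_union]
    constructor
    · tauto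
    · rintro ⟨h1, h2⟩
      exact ⟨Or.inl h2, fun h3 => by
        rcases h3 with h3 | h3
        · exact h1 h3
        · exact disjoint_left.1 h.dis h2 h3⟩
  have hR : Rem H Q A R {x} := by
    refine ⟨hRA, by simp [hRdef], ?_⟩
    intro e he heR heQ r hr her
    have he' : e ∈ X.erase x := by rw [← hBeq]; exact mem_sdiff.2 ⟨he, heR⟩
    rcases mem_insert.1 hr with rfl | hr
    · simp
    · exact absurd (h.uniq e (mem_of_mem_erase he') r hr her).1 (ne_of_mem_erase he')
  have hcl := IH.sub hW hR ⟨x, mem_insert_self _ _⟩ (X := X.erase x) (by rw [hBeq])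
    (by rw [hBeq]; exact Clo.self) hCB ⟨q, mem_erase.2 ⟨(mem_nb.1 hqn).2.ne', hqX⟩⟩
  have h2 := c2_good hW hR (X := X.erase x) (by rw [hBeq]) hcl
    (v := q) (mem_erase.2 ⟨(mem_nb.1 hqn).2.ne', hqX⟩)
    (Or.inr (Or.inr ⟨x, by simp, (mem_nb.1 hqn).2⟩))
  -- weights
  have hw : ∑ v ∈ X.erase x, (wt H (nQ H Q {x}) (X.erase x) (nF H Q A F {x}) v + dg H R v) ≤
      ∑ v ∈ X.erase x, wt H Q A F v := by
    refine sum_le_sum fun v hv => ?_
    have hv' : v ∈ A \ R := by rw [hBeq]; exact hv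
    have := wt_good (F := F) hW hR (mem_sdiff.1 hv').1 (mem_sdiff.1 hv').2 (by
      by_cases hs : AdjS H {x} v
      · exact Or.inr (Or.inr (Or.inl hs))
      · refine Or.inr (Or.inr (Or.inr ?_))
        intro r hr hvr
        rcases mem_insert.1 hr with rfl | hr
        · exact hs ⟨r, by simp, hvr.symm⟩
        · exact absurd (h.uniq v (mem_of_mem_erase hv) r hr hvr).1 (ne_of_mem_erase hv))
    rw [hBeq] at this
    exact this
  rw [sum_add_distrib] at hw
  have hq1 : (1 : ℤ) ≤ ∑ v ∈ X.erase x, (dg H R v : ℤ) := by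
    have h3 : (dg H R q : ℤ) ≤ ∑ v ∈ X.erase x, (dg H R v : ℤ) :=
      single_le_sum (f := fun v => (dg H R v : ℤ)) (fun _ _ => by positivity)
        (mem_erase.2 ⟨(mem_nb.1 hqn).2.ne', hqX⟩)
    have h4 : 1 ≤ dg H R q := dg_pos' (mem_insert_self _ _) (mem_nb.1 hqn).2.symm
    have h5 : (1 : ℤ) ≤ dg H R q := by exact_mod_cast h4
    linarith
  have hd : dSq H Q X F x ≤ 1 + dmq H (nQ H Q {x}) (X.erase x) (nF H Q A F {x}) := by
    obtain ⟨D, h1, h3⟩ := dmq_spec H (nQ H Q {x}) (X.erase x) (nF H Q A F {x})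
    rw [← h3, add_comm]
    refine (dSq_le (D := insert x D) ⟨?_, fun v hv => ?_⟩ (mem_insert_self _ _)).trans
      (card_insert_le _ _)
    · exact insert_subset h.hx (h1.1.trans (erase_subset _ _))
    · by_cases hvx : v = x
      · exact Or.inl (mem_insert.2 (Or.inl hvx))
      have hvA := h.subX hv
      rcases h1.2 v (mem_erase.2 ⟨hvx, hv⟩) with h5 | h5 | ⟨h5, u, hu, huv⟩ | ⟨h5, h6⟩
      · exact Or.inl (mem_insert_of_mem h5)
      · rw [mem_nF] at h5
        rcases h5 with h5 | ⟨_, ⟨h5, s, hs, hsv⟩ | ⟨h5, h6⟩⟩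
        · exact Or.inr (Or.inl h5)
        · rw [mem_singleton] at hs
          subst hs
          exact Or.inr (Or.inr (Or.inl ⟨h5, s, mem_insert_self _ _, hsv⟩))
        · exfalso
          have h7 := hW.q2 v hvA h5
          have h8 : dg H A v ≤ 1 := (card_le_card h6).trans (by simp)
          omega
      · by_cases hvQ : v ∈ Q
        · have hs : AdjS H {x} v := by
            by_contra hs
            exact h5 (mem_nQ.2 ⟨hvQ, hs⟩)
          obtain ⟨s, hs, hsv⟩ := hs
          rw [mem_singleton] at hs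
          subst hs
          refine Or.inr (Or.inr (Or.inr ⟨hvQ, ?_⟩))
          have hd := hW.q2 v hvA hvQ
          have hxu : s ≠ u := by
            rintro rfl
            exact absurd (h1.1 hu) (by simp)
          have hsub : ({s, u} : Finset V) ⊆ nb H A v := by
            intro t ht
            rw [mem_insert, mem_singleton] at ht
            rcases ht with rfl | rfl
            · exact mem_nb.2 ⟨hxA, hsv.symm⟩
            · exact mem_nb.2 ⟨h.subX (mem_of_mem_erase (h1.1 hu)), huv.symm⟩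
          have heq : ({s, u} : Finset V) = nb H A v := by
            apply eq_of_subset_of_card_le hsub
            rw [card_pair hxu]
            exact hd.le
          intro t ht
          have ht' : t ∈ nb H A v := mem_nb.2 ⟨h.subX (mem_nb.1 ht).1, (mem_nb.1 ht).2⟩
          rw [← heq, mem_insert, mem_singleton] at ht'
          rcases ht' with rfl | rfl
          · exact mem_insert_self _ _
          · exact mem_insert_of_mem hu
        · exact Or.inr (Or.inr (Or.inl ⟨hvQ, u, mem_insert_of_mem hu, huv⟩))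
      · refine Or.inr (Or.inr (Or.inr ⟨(mem_nQ.1 h5).1, ?_⟩))
        intro t ht
        rw [mem_nb] at ht
        by_cases htx : t = x
        · exact mem_insert.2 (Or.inl htx)
        · exact mem_insert_of_mem (h6 (mem_nb.2 ⟨mem_erase.2 ⟨htx, ht.1⟩, ht.2⟩))
  have hd' : (dSq H Q X F x : ℤ) ≤ 1 + dmq H (nQ H Q {x}) (X.erase x) (nF H Q A F {x}) := by
    exact_mod_cast hd
  have hsum : ∑ v ∈ X, wt H Q A F v = 16 + ∑ v ∈ X.erase x, wt H Q A F v := by
    rw [← add_sum_erase X _ h.hx, wtQ hx]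
  unfold gq at h2
  unfold bS
  rw [hsum]
  linarith

end

end Pool.Agent.H94.Dom
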