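import Mathlib
import Pool.Agent.Dom94.Dq4

/-! Decorated claims for MP_3fbd8d_co, part 5: the bound for graphs with a bridge. -/

set_option linter.unusedSectionVars false
set_option linter.unusedVariables false

namespace Pool.Agent.H94.Dom

open Finset

section
variable {V : Type} [DecidableEq V] {H : SimpleGraph V} {Q Q' A B F F' D R S X Y Z : Finset V}
variable {x y : V}

theorem nQ_empty : nQ H Q ∅ = Q := by
  ext v
  rw [mem_nQ]
  constructor
  · exact fun h => h.1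
  · exact fun h => ⟨h, by rintro ⟨s, hs, _⟩; simp at hs⟩

theorem nF_empty (hW : WFQ H Q A F) {v : V} (hv : v ∈ A) : v ∈ nF H Q A F ∅ ↔ v ∈ F := by
  rw [mem_nF]
  constructor
  · rintro (h | ⟨_, ⟨_, s, hs, _⟩ | ⟨h, h'⟩⟩)
    · exact h
    · simp at hs
    · exfalso
      have h1 := hW.q2 v hv h
      have h2 : dg H A v ≤ 0 := (card_le_card h').trans (by simp)
      omega
  · exact fun h => Or.inl h

theorem dmq_mono (h : ∀ v ∈ A, v ∈ F → v ∈ F') : dmq H Q A F' ≤ dmq H Q A F := by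
  obtain ⟨D, h1, h2⟩ := dmq_spec H Q A F
  rw [← h2]
  refine dmq_le ⟨h1.1, fun v hv => ?_⟩
  rcases h1.2 v hv with h3 | h3 | h3 | h3
  · exact Or.inl h3
  · exact Or.inr (Or.inl (h v hv h3))
  · exact Or.inr (Or.inr (Or.inl h3))
  · exact Or.inr (Or.inr (Or.inr h3))

theorem Br.remX0 (h : Br H A x y X Y) (hy : y ∉ Q) : Rem H Q A X ∅ := by
  refine ⟨h.subX, by simp, ?_⟩
  intro e he heX heQ r hr her
  rw [← h.un, mem_union] at he
  have heY : e ∈ Y := by tauto
  exact absurd ((h.uniq r hr e heY her.symm).2 ▸ heQ) hy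

theorem Br.dgXy (h : Br H A x y X Y) : dg H X y = 1 := by
  have hle : nb H X y ⊆ {x} := by
    intro u hu
    rw [mem_nb] at hu
    rw [mem_singleton]
    exact (h.uniq u hu.1 y h.hy hu.2.symm).1
  have := dg_pos' (H := H) h.hx h.adj.symm
  have h3 : dg H X y ≤ 1 := (card_le_card hle).trans (by simp)
  omega

theorem Br.F_le7 (h : Br H A x y X Y) (IH : IHq H A) (hW : WFQ H Q A F) (hC : Conn H A)
    (hy : y ∉ Q) (hY : Y ≠ {y}) : bF H Q A F Y ≤ 7 := by
  have hR := h.remX0 (Q := Q) hy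
  have hYs : Y ⊆ A \ X := by rw [h.sdX]
  have hCY := h.symm.connX hC
  have hcl := IH.sub hW hR ⟨x, h.hx⟩ hYs h.cloY hCY ⟨y, h.hy⟩
  have hyA := h.subY h.hy
  have hyX : y ∉ X := fun hh => disjoint_left.1 h.dis hh h.hy
  have hd : dmq H Q Y F ≤ dmq H (nQ H Q ∅) Y (nF H Q A F ∅) := by
    rw [nQ_empty]
    exact dmq_mono fun v hv hvF => (nF_empty hW (h.subY hv)).1 hvF
  have hd' : (dmq H Q Y F : ℤ) ≤ dmq H (nQ H Q ∅) Y (nF H Q A F ∅) := by exact_mod_cast hd
  -- weights away from `y`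
  have hw : ∑ v ∈ Y.erase y, wt H (nQ H Q ∅) Y (nF H Q A F ∅) v ≤
      ∑ v ∈ Y.erase y, wt H Q A F v := by
    refine sum_le_sum fun v hv => ?_
    have hvY := mem_of_mem_erase hv
    have hvX : v ∉ X := fun hh => disjoint_left.1 h.dis hh hvY
    have hno : ∀ r ∈ X, ¬ H.Adj v r := fun r hr hvr =>
      ne_of_mem_erase hv (h.uniq r hr v hvY hvr.symm).2
    have := wt_good (F := F) hW hR (h.subY hvY) hvX (Or.inr (Or.inr (Or.inr hno)))
    rw [h.sdX, dg_eq_zero hno] at this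
    push_cast at this
    linarith
  have e1 : ∑ v ∈ Y, wt H (nQ H Q ∅) Y (nF H Q A F ∅) v =
      wt H (nQ H Q ∅) Y (nF H Q A F ∅) y +
        ∑ v ∈ Y.erase y, wt H (nQ H Q ∅) Y (nF H Q A F ∅) v := (add_sum_erase Y _ h.hy).symm
  have e2 : ∑ v ∈ Y, wt H Q A F v = wt H Q A F y + ∑ v ∈ Y.erase y, wt H Q A F v :=
    (add_sum_erase Y _ h.hy).symm
  have hk := h.dgXy
  have hsp := dg_split (H := H) h.subX y
  rw [h.sdX] at hsp
  obtain ⟨z, hz, hzy⟩ : ∃ z ∈ Y, z ≠ y := by
    by_contra hcon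
    push Not at hcon
    exact hY (eq_singleton_iff_unique_mem.2 ⟨h.hy, hcon⟩)
  have hpos := dg_pos hCY h.hy hz hzy.symm
  have h3 := hW.deg y hyA
  have hs : ¬ AdjS H ∅ y := by rintro ⟨s, hs, _⟩; simp at hs
  by_cases hyF : y ∈ F
  · have hg := wt_good hW hR hyA hyX (Or.inr (Or.inl hyF))
    rw [h.sdX, hk] at hg
    have h2 := c2_good hW hR hYs hcl h.hy (Or.inr (Or.inl hyF))
    unfold gq at h2
    unfold bF
    rw [e2]
    rw [e1] at h2
    push_cast at hg
    linarith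
  · obtain hd | hd : dg H A y = 2 ∨ dg H A y = 3 := by omega
    · have hg := wt_bad2 hR hyA hy hyF hs hk hd
      rw [h.sdX, hk] at hg
      have h2 := hcl.c2 (Or.inr (Or.inl ⟨y, h.hy, fun hh => hy (mem_nQ.1 hh).1, by omega⟩))
      unfold gq at h2
      unfold bF
      rw [e2]
      rw [e1] at h2
      push_cast at hg
      linarith
    · have hg := wt_bad3 hR hyA hy hyF hs hk hd
      rw [h.sdX, hk] at hg
      have ht := tc_le (H := H) (Q := nQ H Q ∅) (A := Y) (v := y)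
      have h2 := hcl.c1 ⟨y, h.hy, by omega⟩
      unfold gq at h2
      unfold bF
      rw [e2]
      rw [e1] at h2
      push_cast at hg
      linarith

/-- a graph with a leaf, marked or not -/
theorem q_leaf' (IH : IHq H A) (hW : WFQ H Q A F) (hC : Conn H A) {l : V} (hl : l ∈ A)
    (hd : dg H A l = 1) : gq H Q A F ≤ 2 := by
  have hQ : l ∉ Q := fun h => by have := hW.q2 l hl h; omega
  by_cases hF : l ∈ F
  · exact q_mleaf IH hW hC hl hQ hF hd
  · exact q_leaf IH hW hC hl hQ hF hd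

theorem q_bridge' (IH : IHq H A) (hW : WFQ H Q A F) (hC : Conn H A) (h : Br H A x y X Y) :
    gq H Q A F ≤ 2 := by
  by_cases hY : Y = {y}
  · exact q_leaf' IH hW hC (h.subY h.hy) (h.leafY hY)
  by_cases hX : X = {x}
  · exact q_leaf' IH hW hC (h.subX h.hx) (h.symm.leafY hX)
  have n1 := h.symm.N_le IH hW hC
  have n2 := h.N_le IH hW hC
  have l2 := h.lowq IH hW hC hX
  have l1 := h.symm.lowq IH hW hC hY
  have g2 := h.gl2 hW
  have g3 := h.symm.gl2 hW
  have a1 := h.symm.N_le_S (Q := Q) (F := F)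
  have a2 := h.N_le_S (Q := Q) (F := F)
  have b1 := h.symm.S_le_N hW
  have b2 := h.S_le_N hW
  have c1 := h.symm.F_le_S (Q := Q) (F := F)
  have c2 := h.F_le_S (Q := Q) (F := F)
  have hs := h.sumwt (Q := Q) (F := F)
  by_cases hx : x ∈ Q
  · have s1 := h.S_leQ IH hW hC hx
    unfold gq
    unfold bN at *
    unfold bS at *
    omega
  by_cases hy : y ∈ Q
  · have s1 := h.symm.S_leQ IH hW hC hy
    unfold gq
    unfold bN at *
    unfold bS at *
    omega
  have g1 := h.gl1 (F := F) hx hy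
  have d1 := h.symm.N_le_F (F := F) hx
  have d2 := h.N_le_F (F := F) hy
  have f1 := h.symm.F_le7 IH hW hC hx hX
  have f2 := h.F_le7 IH hW hC hy hY
  unfold gq
  unfold bN at *
  unfold bF at *
  omega

theorem q_bridge (IH : IHq H A) (hW : WFQ H Q A F) (hC : Conn H A) (hB : ¬ Bl H A) :
    gq H Q A F ≤ 2 := by
  obtain ⟨X, Y, x, y, hb⟩ := exists_bridge hC hB
  exact q_bridge' IH hW hC hb

end

end Pool.Agent.H94.Dom
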