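import Mathlib
import Pool.Agent.Dom94.Dq5

/-! Decorated claims for MP_3fbd8d_co, part 6: moves in graphs without bridges,
a marked vertex next to a `Q`-vertex. -/

set_option linter.unusedSectionVars false
set_option linter.unusedVariables false

namespace Pool.Agent.H94.Dom

open Finset

section
variable {V : Type} [DecidableEq V] {H : SimpleGraph V} {Q Q' A B F F' D R S X Y Z Bd : Finset V}

/-- data of a move -/
structure MV (H : SimpleGraph V) (Q A F R S Bd : Finset V) : Prop where
  RA : R ⊆ A
  SR : S ⊆ R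
  ne : R.Nonempty
  cov : ∀ w ∈ A, w ∉ R → ∀ r ∈ R, H.Adj w r →
    r ∈ S ∨ (w ∉ Q ∧ (w ∈ F ∨ AdjS H S w)) ∨ (w ∉ Q ∧ w ∈ Bd)
  dom : ∀ r ∈ R, r ∈ S ∨ r ∈ F ∨ (r ∉ Q ∧ AdjS H S r) ∨ (r ∈ Q ∧ nb H A r ⊆ S)

theorem MV.rem (h : MV H Q A F R S Bd) : Rem H Q A R S := by
  refine ⟨h.RA, h.SR, ?_⟩
  intro e he heR heQ r hr her
  rcases h.cov e he heR r hr her with h1 | h1 | h1
  · exact h1
  · exact absurd heQ h1.1
  · exact absurd heQ h1.1

theorem MV.move (h : MV H Q A F R S Bd) (hW : WFQ H Q A F) (b : V → ℤ) (hBd : Bd ⊆ A \ R)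
    (hbad : ∀ v ∈ Bd, wt H (nQ H Q S) (A \ R) (nF H Q A F S) v + dg H R v ≤
      wt H Q A F v + b v) :
    gq H Q A F ≤ 20 * (S.card : ℤ) - ∑ r ∈ R, wt H Q A F r - bdry H A R + ∑ v ∈ Bd, b v +
      gq H (nQ H Q S) (A \ R) (nF H Q A F S) := by
  refine gq_move hW h.rem h.dom Bd b hBd ?_ hbad
  intro v hv hvR hvB
  by_cases hno : ∀ r ∈ R, ¬ H.Adj v r
  · exact Or.inr (Or.inr (Or.inr hno))
  push Not at hno
  obtain ⟨r, hr, hvr⟩ := hno
  rcases h.cov v hv hvR r hr hvr with h1 | h1 | h1
  · exact Or.inr (Or.inr (Or.inl ⟨r, h1, hvr.symm⟩))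
  · rcases h1.2 with h2 | h2
    · exact Or.inr (Or.inl h2)
    · exact Or.inr (Or.inr (Or.inl h2))
  · exact absurd h1.2 hvB

theorem MV.cq (h : MV H Q A F R S Bd) (IH : IHq H A) (hW : WFQ H Q A F) (hB : Bl H A)
    (h3 : bdry H A R ≤ 3) (hne : (A \ R).Nonempty) :
    Cq H (nQ H Q S) (A \ R) (nF H Q A F S) :=
  IH.sub hW h.rem h.ne Subset.rfl Clo.self (conn_cut hB h.RA h.ne h3) hne

/-- no bad vertices -/
theorem MV.zero (h : MV H Q A F R S ∅) (IH : IHq H A) (hW : WFQ H Q A F) (hC : Conn H A)
    (hB : Bl H A) (h3 : bdry H A R ≤ 3) :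
    gq H Q A F ≤ 20 * (S.card : ℤ) - ∑ r ∈ R, wt H Q A F r ∧
    ((A \ R).Nonempty → gq H Q A F ≤ 20 * (S.card : ℤ) - ∑ r ∈ R, wt H Q A F r -
      bdry H A R + 2) := by
  have hm := h.move hW (fun _ => 0) (by simp) (by simp)
  rw [sum_empty] at hm
  by_cases hne : (A \ R).Nonempty
  · have hc := h.cq IH hW hB h3 hne
    have h2 := hB R h.RA h.ne hne
    obtain ⟨r, hr, w, hw, hrw⟩ := hC R h.RA h.ne hne
    have hw' := mem_sdiff.1 hw
    have hg : gq H (nQ H Q S) (A \ R) (nF H Q A F S) ≤ 2 := by
      refine c2_good hW h.rem Subset.rfl hc hw ?_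
      rcases h.cov w hw'.1 hw'.2 r hr hrw.symm with h1 | h1 | h1
      · exact Or.inr (Or.inr ⟨r, h1, hrw⟩)
      · rcases h1.2 with h2 | h2
        · exact Or.inr (Or.inl h2)
        · exact Or.inr (Or.inr h2)
      · simp at h1
    have h2' : (2 : ℤ) ≤ bdry H A R := by exact_mod_cast h2
    exact ⟨by linarith, fun _ => by linarith⟩
  · have hAR : A \ R = ∅ := not_nonempty_iff_eq_empty.1 hne
    rw [hAR, gq_empty] at hm
    have : (0 : ℤ) ≤ bdry H A R := by positivity
    exact ⟨by linarith, fun h => absurd h hne⟩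

/-- one or more bad vertices, but a good one too -/
theorem MV.one (h : MV H Q A F R S Bd) (IH : IHq H A) (hW : WFQ H Q A F)
    (hB : Bl H A) (h3 : bdry H A R ≤ 3) (b : V → ℤ) (hBd : Bd ⊆ A \ R)
    (hbad : ∀ v ∈ Bd, wt H (nQ H Q S) (A \ R) (nF H Q A F S) v + dg H R v ≤
      wt H Q A F v + b v) {w : V} (hw : w ∈ A) (hwR : w ∉ R)
    (hg : (w ∈ Q ∧ ∃ r ∈ R, H.Adj w r) ∨ w ∈ F ∨ AdjS H S w) :
    gq H Q A F ≤ 20 * (S.card : ℤ) - ∑ r ∈ R, wt H Q A F r - bdry H A R + ∑ v ∈ Bd, b v + 2 ∧
      2 ≤ bdry H A R := by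
  have hm := h.move hW b hBd hbad
  have hw' : w ∈ A \ R := mem_sdiff.2 ⟨hw, hwR⟩
  have hc := h.cq IH hW hB h3 ⟨w, hw'⟩
  have h2 := hB R h.RA h.ne ⟨w, hw'⟩
  have := c2_good hW h.rem Subset.rfl hc hw' hg
  exact ⟨by linarith, h2⟩

/-! ### bounds for bad vertices -/

theorem wt_b5 (hW : WFQ H Q A F) (hR : Rem H Q A R S) {w r0 : V} (hw : w ∈ A) (hwR : w ∉ R)
    (hQ : w ∉ Q) (h0 : ∀ r ∈ R, H.Adj w r → r ∈ S ∨ r = r0) (hd : 2 ≤ dg H A w) :
    wt H (nQ H Q S) (A \ R) (nF H Q A F S) w + dg H R w ≤ wt H Q A F w + 5 := by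
  by_cases hg : w ∈ F ∨ AdjS H S w ∨ ∀ r ∈ R, ¬ H.Adj w r
  · have := wt_good hW hR hw hwR (Or.inr hg)
    linarith
  push Not at hg
  obtain ⟨g1, g2, r, hr, hwr⟩ := hg
  have hsub : nb H R w ⊆ {r0} := by
    intro u hu
    rw [mem_nb] at hu
    rw [mem_singleton]
    rcases h0 u hu.1 hu.2 with h | h
    · exact absurd ⟨u, h, hu.2.symm⟩ g2
    · exact h
  have hk : dg H R w = 1 := by
    have h1 : dg H R w ≤ 1 := (card_le_card hsub).trans (by simp)
    have h2 := dg_pos' hr hwr
    omega
  have h3 := hW.deg w hw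
  obtain h | h : dg H A w = 2 ∨ dg H A w = 3 := by omega
  · exact wt_bad2 hR hw hQ g1 g2 hk h
  · rw [wt_bad3 hR hw hQ g1 g2 hk h]
    linarith [tc_le (H := H) (Q := nQ H Q S) (A := A \ R) (v := w)]

theorem wt_b4 (hW : WFQ H Q A F) (hR : Rem H Q A R S) {w r0 : V} (hw : w ∈ A) (hwR : w ∉ R)
    (hQ : w ∉ Q) (h0 : ∀ r ∈ R, H.Adj w r → r ∈ S ∨ r = r0) (hd : dg H A w = 3) :
    wt H (nQ H Q S) (A \ R) (nF H Q A F S) w + dg H R w ≤ wt H Q A F w + 4 := by
  by_cases hg : w ∈ F ∨ AdjS H S w ∨ ∀ r ∈ R, ¬ H.Adj w r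
  · have := wt_good hW hR hw hwR (Or.inr hg)
    linarith
  push Not at hg
  obtain ⟨g1, g2, r, hr, hwr⟩ := hg
  have hsub : nb H R w ⊆ {r0} := by
    intro u hu
    rw [mem_nb] at hu
    rw [mem_singleton]
    rcases h0 u hu.1 hu.2 with h | h
    · exact absurd ⟨u, h, hu.2.symm⟩ g2
    · exact h
  have hk : dg H R w = 1 := by
    have h1 : dg H R w ≤ 1 := (card_le_card hsub).trans (by simp)
    have h2 := dg_pos' hr hwr
    omega
  rw [wt_bad3 hR hw hQ g1 g2 hk hd]
  linarith [tc_le (H := H) (Q := nQ H Q S) (A := A \ R) (v := w)]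

theorem wt_b3 (hW : WFQ H Q A F) (hR : Rem H Q A R S) {w r0 : V} (hw : w ∈ A) (hwR : w ∉ R)
    (hQ : w ∉ Q) (h0 : ∀ r ∈ R, H.Adj w r → r ∈ S ∨ r = r0) (hd : dg H A w = 3)
    (hT : ¬ IsT H (nQ H Q S) (A \ R) w) :
    wt H (nQ H Q S) (A \ R) (nF H Q A F S) w + dg H R w ≤ wt H Q A F w + 3 := by
  by_cases hg : w ∈ F ∨ AdjS H S w ∨ ∀ r ∈ R, ¬ H.Adj w r
  · have := wt_good hW hR hw hwR (Or.inr hg)
    linarith
  push Not at hg
  obtain ⟨g1, g2, r, hr, hwr⟩ := hg
  have hsub : nb H R w ⊆ {r0} := by
    intro u hu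
    rw [mem_nb] at hu
    rw [mem_singleton]
    rcases h0 u hu.1 hu.2 with h | h
    · exact absurd ⟨u, h, hu.2.symm⟩ g2
    · exact h
  have hk : dg H R w = 1 := by
    have h1 : dg H R w ≤ 1 := (card_le_card hsub).trans (by simp)
    have h2 := dg_pos' hr hwr
    omega
  rw [wt_bad3 hR hw hQ g1 g2 hk hd, tc_of_not hT]
  norm_num

/-! ### helpers for neighbourhoods -/

theorem adj_of {p q : V} (h : q ∈ nb H A p) : H.Adj p q := (mem_nb.1 h).2

theorem nbr2 {p a b w : V} (hn : nb H A p = {a, b}) (hw : w ∈ A) (h : H.Adj w p) :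
    w = a ∨ w = b := by
  have : w ∈ nb H A p := mem_nb.2 ⟨hw, h.symm⟩
  rw [hn, mem_insert, mem_singleton] at this
  exact this

theorem out2 {p a b w : V} (hn : nb H A p = {a, b}) (hw : w ∈ A) (h : H.Adj w p)
    (hwR : w ∉ R) (ha : a ∈ R) (hb : b ∈ R) : False := by
  rcases nbr2 hn hw h with rfl | rfl
  · exact hwR ha
  · exact hwR hb

theorem nbr3 {p a b c w : V} (hn : nb H A p = {a, b, c}) (hw : w ∈ A) (h : H.Adj w p) :
    w = a ∨ w = b ∨ w = c := by
  have : w ∈ nb H A p := mem_nb.2 ⟨hw, h.symm⟩
  rw [hn, mem_insert, mem_insert, mem_singleton] at this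
  exact this

theorem wt7 {v : V} (h : v ∉ Q) (h2 : v ∉ F) : 7 ≤ wt H Q A F v := by
  rw [wtU h h2]
  linarith [tc_nonneg (H := H) (Q := Q) (A := A) (v := v), phi_pos (dg H A v)]

/-- the hypothesis that special vertices of degree at most two are marked -/
def SPM (H : SimpleGraph V) (Q A F : Finset V) : Prop :=
  ∀ u ∈ A, u ∉ Q → Spc H Q A u → dg H A u ≤ 2 → u ∈ F

/-- both neighbours in `Q` -/
theorem q_IIa (IH : IHq H A) (hW : WFQ H Q A F) (hC : Conn H A) (hB : Bl H A) {v e1 e2 : V}
    (hv : v ∈ A) (hvQ : v ∉ Q) (hvF : v ∈ F) (hn : nb H A v = {e1, e2}) (hne : e1 ≠ e2)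
    (h1 : e1 ∈ Q) (h2 : e2 ∈ Q) : gq H Q A F ≤ 2 := by
  have m1 := mem2a hn
  have m2 := mem2b hn
  have a1 := mem_of_nb m1
  have a2 := mem_of_nb m2
  have n1 : v ≠ e1 := by rintro rfl; exact hvQ h1
  have n2 : v ≠ e2 := by rintro rfl; exact hvQ h2
  have d1 := hW.q2 e1 a1 h1
  have d2 := hW.q2 e2 a2 h2
  have d0 : dg H A v = 2 := by rw [dg_eq hn, card_pair hne]
  have hRA : ({v, e1, e2} : Finset V) ⊆ A := by
    intro x hx
    simp only [mem_insert, mem_singleton] at hx
    rcases hx with rfl | rfl | rfl <;> assumption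
  have hM : MV H Q A F {v, e1, e2} {e1, e2} ∅ := by
    refine ⟨hRA, by simp, ⟨v, by simp⟩, ?_, ?_⟩
    · intro w hw hwR r hr hwr
      simp only [mem_insert, mem_singleton] at hr ⊢
      rcases hr with rfl | hr
      · exact (out2 hn hw hwr hwR (by simp) (by simp)).elim
      · exact Or.inl hr
    · intro r hr
      simp only [mem_insert, mem_singleton] at hr ⊢
      rcases hr with rfl | hr
      · exact Or.inr (Or.inl hvF)
      · exact Or.inl hr
  have hb : bdry H A {v, e1, e2} ≤ 3 := by
    unfold bdry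
    rw [sum_insert (by simp [n1, n2]), sum_pair hne]
    have b0 := dg_out (H := H) hRA (r := v) (T := {e1, e2}) (by simp) (by rw [hn])
    have b1 := dg_out (H := H) hRA (r := e1) (T := {v}) (by simp) (by
      rw [singleton_subset_iff]; exact mem_nb_comm hv m1)
    have b2 := dg_out (H := H) hRA (r := e2) (T := {v}) (by simp) (by
      rw [singleton_subset_iff]; exact mem_nb_comm hv m2)
    rw [card_pair hne] at b0
    rw [card_singleton] at b1 b2
    omega
  have := (hM.zero IH hW hC hB hb).1
  rw [sum_insert (by simp [n1, n2]), sum_pair hne, wtM2 hvQ hvF d0, wtQ h1, wtQ h2,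
    card_pair hne] at this
  push_cast at this
  linarith

/-- one neighbour in `Q` -/
theorem q_IIb (IH : IHq H A) (hW : WFQ H Q A F) (hC : Conn H A) (hB : Bl H A)
    (hS : SPM H Q A F) {v e p : V}
    (hv : v ∈ A) (hvQ : v ∉ Q) (hvF : v ∈ F) (hn : nb H A v = {e, p}) (hep : e ≠ p)
    (he : e ∈ Q) (hp : p ∉ Q) : gq H Q A F ≤ 2 := by
  have me := mem2a hn
  have mp := mem2b hn
  have ae := mem_of_nb me
  have ap := mem_of_nb mp
  have nve : v ≠ e := (adj_of me).ne
  have nvp : v ≠ p := (adj_of mp).ne
  have dv : dg H A v = 2 := by rw [dg_eq hn, card_pair hep]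
  have de := hW.q2 e ae he
  obtain ⟨y, hvy, hne⟩ := nb2' de (mem_nb_comm hv me)
  have my : y ∈ nb H A e := mem2b hne
  have ay := mem_of_nb my
  have ney : e ≠ y := (adj_of my).ne
  have ddeg : ∀ u ∈ A, 2 ≤ dg H A u := by
    intro u hu
    by_cases huv : u = v
    · rw [huv, dv]
    · exact hB.dg2 hu hv huv
  -- the set `{v, e}`
  have hRA2 : ({v, e} : Finset V) ⊆ A := by
    intro x hx
    simp only [mem_insert, mem_singleton] at hx
    rcases hx with rfl | rfl <;> assumption
  have hb2 : bdry H A {v, e} ≤ 3 := by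
    unfold bdry
    rw [sum_pair nve]
    have b0 := dg_out (H := H) hRA2 (r := v) (T := {e}) (by simp) (by
      rw [singleton_subset_iff]; exact me)
    have b1 := dg_out (H := H) hRA2 (r := e) (T := {v}) (by simp) (by
      rw [singleton_subset_iff]; exact mem_nb_comm hv me)
    rw [card_singleton] at b0 b1
    omega
  by_cases hA : p ∈ F ∨ p = y
  · have hM : MV H Q A F {v, e} {e} ∅ := by
      refine ⟨hRA2, by simp, ⟨v, by simp⟩, ?_, ?_⟩
      · intro w hw hwR r hr hwr
        simp only [mem_insert, mem_singleton] at hr ⊢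
        rcases hr with rfl | hr
        · have hwp : w = p := (nbr2 hn hw hwr).resolve_left (by rintro rfl; exact hwR (by simp))
          rw [hwp]
          refine Or.inr (Or.inl ⟨hp, ?_⟩)
          rcases hA with h | h
          · exact Or.inl h
          · exact Or.inr ⟨e, by simp, h ▸ adj_of my⟩
        · exact Or.inl hr
      · intro r hr
        simp only [mem_insert, mem_singleton] at hr ⊢
        rcases hr with rfl | hr
        · exact Or.inr (Or.inl hvF)
        · exact Or.inl hr
    have := (hM.zero IH hW hC hB hb2).1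
    rw [sum_pair nve, wtM2 hvQ hvF dv, wtQ he, card_singleton] at this
    push_cast at this
    linarith
  push Not at hA
  obtain ⟨hpF, hpy⟩ := hA
  have hMp : MV H Q A F {v, e} {e} {p} := by
    refine ⟨hRA2, by simp, ⟨v, by simp⟩, ?_, ?_⟩
    · intro w hw hwR r hr hwr
      simp only [mem_insert, mem_singleton] at hr ⊢
      rcases hr with rfl | hr
      · have hwp : w = p := (nbr2 hn hw hwr).resolve_left (by rintro rfl; exact hwR (by simp))
        rw [hwp]
        exact Or.inr (Or.inr ⟨hp, rfl⟩)
      · exact Or.inl hr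
    · intro r hr
      simp only [mem_insert, mem_singleton] at hr ⊢
      rcases hr with rfl | hr
      · exact Or.inr (Or.inl hvF)
      · exact Or.inl hr
  have hyR : y ∉ ({v, e} : Finset V) := by
    simp only [mem_insert, mem_singleton]
    push Not
    exact ⟨hvy.symm, ney.symm⟩
  have hpR : p ∉ ({v, e} : Finset V) := by
    simp only [mem_insert, mem_singleton]
    push Not
    exact ⟨nvp.symm, hep.symm⟩
  have h0p : ∀ r ∈ ({v, e} : Finset V), H.Adj p r → r ∈ ({e} : Finset V) ∨ r = v := by
    intro r hr _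
    simp only [mem_insert, mem_singleton] at hr ⊢
    tauto
  by_cases hd3 : dg H A p = 3
  · have h1 := hMp.one IH hW hB hb2 (fun _ => 4) (by
      intro x hx; rw [mem_singleton] at hx; rw [hx]; exact mem_sdiff.2 ⟨ap, hpR⟩) (by
      intro x hx
      rw [mem_singleton] at hx
      rw [hx]
      exact wt_b4 hW hMp.rem ap hpR hp h0p hd3) ay hyR (Or.inr (Or.inr ⟨e, by simp, adj_of my⟩))
    obtain ⟨h1, h2⟩ := h1
    rw [sum_pair nve, wtM2 hvQ hvF dv, wtQ he, card_singleton, sum_singleton] at h1
    have h2' : (2 : ℤ) ≤ bdry H A {v, e} := by exact_mod_cast h2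
    push_cast at h1
    linarith
  have dp : dg H A p = 2 := by
    have := hW.deg p ap
    have := ddeg p ap
    omega
  by_cases hyQ : y ∈ Q
  · have hMpy : MV H Q A F {v, e} {e} {p, y} := by
      refine ⟨hRA2, by simp, ⟨v, by simp⟩, ?_, hMp.dom⟩
      intro w hw hwR r hr hwr
      rcases hMp.cov w hw hwR r hr hwr with h | h | h
      · exact Or.inl h
      · exact Or.inr (Or.inl h)
      · refine Or.inr (Or.inr ⟨h.1, ?_⟩)
        rw [mem_insert]; exact Or.inl (mem_singleton.1 h.2)
    have h1 := hMpy.one IH hW hB hb2 (fun x => if x = p then 5 else -2) (by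
      intro x hx
      simp only [mem_insert, mem_singleton] at hx
      rcases hx with rfl | rfl
      · exact mem_sdiff.2 ⟨ap, hpR⟩
      · exact mem_sdiff.2 ⟨ay, hyR⟩) (by
      intro x hx
      simp only [mem_insert, mem_singleton] at hx
      rcases hx with rfl | rfl
      · rw [if_pos rfl]
        exact wt_b5 hW hMpy.rem ap hpR hp h0p dp.ge
      · rw [if_neg (Ne.symm hpy)]
        have := wt_goodQ (F := F) hW hMpy.rem ay hyR hyQ ⟨e, by simp, adj_of my⟩
        linarith) ay hyR (Or.inr (Or.inr ⟨e, by simp, adj_of my⟩))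
    obtain ⟨h1, h2⟩ := h1
    rw [sum_pair nve, wtM2 hvQ hvF dv, wtQ he, card_singleton, sum_pair hpy, if_pos rfl,
      if_neg (Ne.symm hpy)] at h1
    have h2' : (2 : ℤ) ≤ bdry H A {v, e} := by exact_mod_cast h2
    push_cast at h1
    linarith
  -- `p` is unmarked of degree two, `y` ordinary
  have hpS : ¬ Spc H Q A p := fun h => hpF (hS p ap hp h dp.le)
  obtain ⟨s, hvs, hnp⟩ := nb2' dp (mem_nb_comm hv mp)
  have ms : s ∈ nb H A p := mem2b hnp
  have as : s ∈ A := mem_of_nb ms
  have nps : p ≠ s := (adj_of ms).ne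
  have hsQ : s ∉ Q := fun h => hpS ⟨s, as, h, adj_of ms⟩
  have nes : e ≠ s := by rintro rfl; exact hsQ he
  have hyS : Spc H Q A y := ⟨e, ae, he, (adj_of my).symm⟩
  have wp := wtU2 (H := H) (A := A) hp hpF dp
  by_cases hsy : s = y
  · -- the closed graph `{v, e, p, y}`
    subst hsy
    have hRA : ({v, e, p, s} : Finset V) ⊆ A := by
      intro x hx
      simp only [mem_insert, mem_singleton] at hx
      rcases hx with rfl | rfl | rfl | rfl <;> assumption
    have i1 : v ∉ ({e, p, s} : Finset V) := by simp [nve, nvp, hvs]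
    have i2 : e ∉ ({p, s} : Finset V) := by simp [hep, nes]
    have hb : bdry H A {v, e, p, s} ≤ 1 := by
      unfold bdry
      rw [sum_insert i1, sum_insert i2, sum_pair nps]
      have b0 := dg_out (H := H) hRA (r := v) (T := {e, p}) (by simp [insert_subset_iff]) (by rw [hn])
      have b1 := dg_out (H := H) hRA (r := e) (T := {v, s}) (by simp [insert_subset_iff]) (by rw [hne])
      have b2 := dg_out (H := H) hRA (r := p) (T := {v, s}) (by simp [insert_subset_iff]) (by rw [hnp])
      have b3 := dg_out (H := H) hRA (r := s) (T := {e, p}) (by simp [insert_subset_iff]) (by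
        intro x hx
        simp only [mem_insert, mem_singleton] at hx
        rcases hx with rfl | rfl
        · exact mem_nb_comm ae my
        · exact mem_nb_comm ap ms)
      rw [card_pair hep] at b0 b3
      rw [card_pair hvs] at b1 b2
      have := hW.deg s as
      omega
    have hcl : A ⊆ {v, e, p, s} := by
      intro x hx
      by_contra hcon
      have := hB {v, e, p, s} hRA ⟨v, by simp⟩ ⟨x, mem_sdiff.2 ⟨hx, hcon⟩⟩
      omega
    have hns : nb H A s ⊆ {e, p} := by
      intro x hx
      have hxs := adj_of hx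
      have hxA := hcl (mem_of_nb hx)
      simp only [mem_insert, mem_singleton] at hxA ⊢
      rcases hxA with rfl | rfl | rfl | rfl
      · rcases nbr2 hn as hxs with h | h
        · exact absurd h.symm nes
        · exact absurd h.symm nps
      · exact Or.inl rfl
      · exact Or.inr rfl
      · exact absurd hxs H.irrefl
    have ds : dg H A s = 2 := by
      have h1 : dg H A s ≤ 2 := (card_le_card hns).trans (by rw [card_pair hep])
      have h2 := ddeg s as
      omega
    have hsF : s ∈ F := hS s as hsQ hyS ds.le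
    have hT : IsT H Q A p := ⟨dp, e, ae, he, by rw [hne, hnp]⟩
    have wp' : wt H Q A F p = 10 := by
      rw [wtU hp hpF, dp, phi2, tc_of hT]; norm_num
    have hM : MV H Q A F {v, e, p, s} {e, v} ∅ := by
      refine ⟨hRA, ?_, ⟨v, by simp⟩, ?_, ?_⟩
      · simp [insert_subset_iff]
      · intro w hw hwR
        exact absurd (hcl hw) hwR
      · intro r hr
        simp only [mem_insert, mem_singleton] at hr ⊢
        rcases hr with rfl | rfl | rfl | rfl
        · exact Or.inl (Or.inr rfl)
        · exact Or.inl (Or.inl rfl)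
        · exact Or.inr (Or.inr (Or.inl ⟨hp, v, by simp, adj_of mp⟩))
        · exact Or.inr (Or.inl hsF)
    have := (hM.zero IH hW hC hB (by omega)).1
    rw [sum_insert i1, sum_insert i2, sum_pair nps, wtM2 hvQ hvF dv, wtQ he, wp',
      wtM2 hsQ hsF ds, card_pair nve.symm] at this
    push_cast at this
    linarith
  by_cases hsF : s ∈ F
  swap
  · -- select `e`, `s`
    have hRA : ({v, e, p, s} : Finset V) ⊆ A := by
      intro x hx
      simp only [mem_insert, mem_singleton] at hx
      rcases hx with rfl | rfl | rfl | rfl <;> assumption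
    have i1 : v ∉ ({e, p, s} : Finset V) := by simp [nve, nvp, hvs]
    have i2 : e ∉ ({p, s} : Finset V) := by simp [hep, nes]
    have hb : bdry H A {v, e, p, s} ≤ 3 := by
      unfold bdry
      rw [sum_insert i1, sum_insert i2, sum_pair nps]
      have b0 := dg_out (H := H) hRA (r := v) (T := {e, p}) (by simp [insert_subset_iff]) (by rw [hn])
      have b1 := dg_out (H := H) hRA (r := e) (T := {v}) (by simp) (by
        rw [singleton_subset_iff]; exact mem_nb_comm hv me)
      have b2 := dg_out (H := H) hRA (r := p) (T := {v, s}) (by simp [insert_subset_iff]) (by rw [hnp])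
      have b3 := dg_out (H := H) hRA (r := s) (T := {p}) (by simp) (by
        rw [singleton_subset_iff]; exact mem_nb_comm ap ms)
      rw [card_pair hep] at b0
      rw [card_pair hvs] at b2
      rw [card_singleton] at b1 b3
      have := hW.deg s as
      omega
    have hM : MV H Q A F {v, e, p, s} {e, s} ∅ := by
      refine ⟨hRA, ?_, ⟨v, by simp⟩, ?_, ?_⟩
      · simp [insert_subset_iff]
      · intro w hw hwR r hr hwr
        simp only [mem_insert, mem_singleton] at hr ⊢
        rcases hr with rfl | rfl | rfl | rfl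
        · exact (out2 hn hw hwr hwR (by simp) (by simp)).elim
        · exact Or.inl (Or.inl rfl)
        · exact (out2 hnp hw hwr hwR (by simp) (by simp)).elim
        · exact Or.inl (Or.inr rfl)
      · intro r hr
        simp only [mem_insert, mem_singleton] at hr ⊢
        rcases hr with rfl | rfl | rfl | rfl
        · exact Or.inr (Or.inl hvF)
        · exact Or.inl (Or.inl rfl)
        · exact Or.inr (Or.inr (Or.inl ⟨hp, s, by simp, (adj_of ms).symm⟩))
        · exact Or.inl (Or.inr rfl)
    have := (hM.zero IH hW hC hB hb).1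
    have ws := wt7 (H := H) (A := A) hsQ hsF
    rw [sum_insert i1, sum_insert i2, sum_pair nps, wtM2 hvQ hvF dv, wtQ he,
      card_pair nes] at this
    push_cast at this
    linarith
  by_cases hyF : y ∈ F
  swap
  · -- select `v`, `y`
    have dy : dg H A y = 3 := by
      have h1 := hW.deg y ay
      by_contra hcon
      exact hyF (hS y ay hyQ hyS (by omega))
    have hRA : ({v, y, e, p} : Finset V) ⊆ A := by
      intro x hx
      simp only [mem_insert, mem_singleton] at hx
      rcases hx with rfl | rfl | rfl | rfl <;> assumption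
    have i1 : v ∉ ({y, e, p} : Finset V) := by simp [nve, nvp, hvy]
    have i2 : y ∉ ({e, p} : Finset V) := by simp [Ne.symm hpy, ney.symm]
    have hb : bdry H A {v, y, e, p} ≤ 3 := by
      unfold bdry
      rw [sum_insert i1, sum_insert i2, sum_pair hep]
      have b0 := dg_out (H := H) hRA (r := v) (T := {e, p}) (by simp [insert_subset_iff]) (by rw [hn])
      have b1 := dg_out (H := H) hRA (r := e) (T := {v, y}) (by simp [insert_subset_iff]) (by rw [hne])
      have b2 := dg_out (H := H) hRA (r := p) (T := {v}) (by simp) (by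
        rw [singleton_subset_iff]; exact mem_nb_comm hv mp)
      have b3 := dg_out (H := H) hRA (r := y) (T := {e}) (by simp) (by
        rw [singleton_subset_iff]; exact mem_nb_comm ae my)
      rw [card_pair hep] at b0
      rw [card_pair hvy] at b1
      rw [card_singleton] at b2 b3
      omega
    have hM : MV H Q A F {v, y, e, p} {v, y} ∅ := by
      refine ⟨hRA, ?_, ⟨v, by simp⟩, ?_, ?_⟩
      · simp [insert_subset_iff]
      · intro w hw hwR r hr hwr
        simp only [mem_insert, mem_singleton] at hr ⊢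
        rcases hr with rfl | rfl | rfl | rfl
        · exact Or.inl (Or.inl rfl)
        · exact Or.inl (Or.inr rfl)
        · exact (out2 hne hw hwr hwR (by simp) (by simp)).elim
        · have hws : w = s := (nbr2 hnp hw hwr).resolve_left (by rintro rfl; exact hwR (by simp))
          rw [hws]
          exact Or.inr (Or.inl ⟨hsQ, Or.inl hsF⟩)
      · intro r hr
        simp only [mem_insert, mem_singleton] at hr ⊢
        rcases hr with rfl | rfl | rfl | rfl
        · exact Or.inl (Or.inl rfl)
        · exact Or.inl (Or.inr rfl)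
        · exact Or.inr (Or.inr (Or.inr ⟨he, by rw [hne]⟩))
        · exact Or.inr (Or.inr (Or.inl ⟨hp, v, by simp, adj_of mp⟩))
    have := (hM.zero IH hW hC hB hb).1
    rw [sum_insert i1, sum_insert i2, sum_pair hep, wtM2 hvQ hvF dv, wtQ he,
      wtU3 hyQ hyF dy, card_pair hvy] at this
    push_cast at this
    linarith
  -- `s` and `y` marked
  have dy : dg H A y = 2 := by
    have := hW.f2 y ay hyF
    have := ddeg y ay
    omega
  have ds : dg H A s = 2 := by
    have := hW.f2 s as hsF
    have := ddeg s as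
    omega
  obtain ⟨y', hey', hny⟩ := nb2' dy (mem_nb_comm ae my)
  obtain ⟨t, hpt, hns⟩ := nb2' ds (mem_nb_comm ap ms)
  have my' : y' ∈ nb H A y := mem2b hny
  have mt : t ∈ nb H A s := mem2b hns
  have ay' := mem_of_nb my'
  have at' := mem_of_nb mt
  have nyy' : y ≠ y' := (adj_of my').ne
  have nst : s ≠ t := (adj_of mt).ne
  -- `t` is none of `v`, `e`
  have ntv : t ≠ v := by
    rintro rfl
    rcases nbr2 hn as (adj_of mt) with h | h
    · exact nes h.symm
    · exact nps h.symm
  have nte : t ≠ e := by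
    rintro rfl
    rcases nbr2 hne as (adj_of mt) with h | h
    · exact hvs h.symm
    · exact hsy h
  have nys : y ≠ s := Ne.symm hsy
  by_cases htQ : t ∈ Q
  · have nty : t ≠ y := by rintro rfl; exact hyQ htQ
    have hRA : ({y, e, v, p, s, t} : Finset V) ⊆ A := by
      intro x hx
      simp only [mem_insert, mem_singleton] at hx
      rcases hx with rfl | rfl | rfl | rfl | rfl | rfl <;> assumption
    have i1 : y ∉ ({e, v, p, s, t} : Finset V) := by
      simp [ney.symm, hvy.symm, Ne.symm hpy, nys, nty.symm]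
    have i2 : e ∉ ({v, p, s, t} : Finset V) := by simp [nve.symm, hep, nes, nte.symm]
    have i3 : v ∉ ({p, s, t} : Finset V) := by simp [nvp, hvs, ntv.symm]
    have i4 : p ∉ ({s, t} : Finset V) := by simp [nps, hpt]
    have hb : bdry H A {y, e, v, p, s, t} ≤ 3 := by
      unfold bdry
      rw [sum_insert i1, sum_insert i2, sum_insert i3, sum_insert i4, sum_pair nst]
      have b0 := dg_out (H := H) hRA (r := v) (T := {e, p}) (by simp [insert_subset_iff]) (by rw [hn])
      have b1 := dg_out (H := H) hRA (r := e) (T := {v, y}) (by simp [insert_subset_iff]) (by rw [hne])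
      have b2 := dg_out (H := H) hRA (r := p) (T := {v, s}) (by simp [insert_subset_iff]) (by rw [hnp])
      have b3 := dg_out (H := H) hRA (r := y) (T := {e}) (by simp) (by
        rw [singleton_subset_iff]; exact mem_nb_comm ae my)
      have b4 := dg_out (H := H) hRA (r := s) (T := {p, t}) (by simp [insert_subset_iff]) (by rw [hns])
      have b5 := dg_out (H := H) hRA (r := t) (T := {s}) (by simp) (by
        rw [singleton_subset_iff]; exact mem_nb_comm as mt)
      rw [card_pair hep] at b0
      rw [card_pair hvy] at b1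
      rw [card_pair hvs] at b2
      rw [card_pair hpt] at b4
      rw [card_singleton] at b3 b5
      have := hW.q2 t at' htQ
      omega
    have hM : MV H Q A F {y, e, v, p, s, t} {v, y, t} ∅ := by
      refine ⟨hRA, ?_, ⟨v, by simp⟩, ?_, ?_⟩
      · simp [insert_subset_iff]
      · intro w hw hwR r hr hwr
        simp only [mem_insert, mem_singleton] at hr ⊢
        rcases hr with rfl | rfl | rfl | rfl | rfl | rfl
        · exact Or.inl (Or.inr (Or.inl rfl))
        · exact (out2 hne hw hwr hwR (by simp) (by simp)).elim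
        · exact Or.inl (Or.inl rfl)
        · exact (out2 hnp hw hwr hwR (by simp) (by simp)).elim
        · exact (out2 hns hw hwr hwR (by simp) (by simp)).elim
        · exact Or.inl (Or.inr (Or.inr rfl))
      · intro r hr
        simp only [mem_insert, mem_singleton] at hr ⊢
        rcases hr with rfl | rfl | rfl | rfl | rfl | rfl
        · exact Or.inl (Or.inr (Or.inl rfl))
        · refine Or.inr (Or.inr (Or.inr ⟨he, ?_⟩))
          rw [hne]
          simp [insert_subset_iff]
        · exact Or.inl (Or.inl rfl)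
        · exact Or.inr (Or.inr (Or.inl ⟨hp, v, by simp, adj_of mp⟩))
        · exact Or.inr (Or.inl hsF)
        · exact Or.inl (Or.inr (Or.inr rfl))
    have := (hM.zero IH hW hC hB hb).1
    have hcard : ({v, y, t} : Finset V).card = 3 := by
      rw [card_insert_of_notMem (by simp [hvy, ntv.symm]), card_pair nty.symm]
    rw [sum_insert i1, sum_insert i2, sum_insert i3, sum_insert i4, sum_pair nst,
      wtM2 hvQ hvF dv, wtQ he, wtM2 hyQ hyF dy, wtM2 hsQ hsF ds, wtQ htQ, hcard] at this
    push_cast at this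
    linarith
  · have hRA : ({y, e, v, p, s} : Finset V) ⊆ A := by
      intro x hx
      simp only [mem_insert, mem_singleton] at hx
      rcases hx with rfl | rfl | rfl | rfl | rfl <;> assumption
    have i1 : y ∉ ({e, v, p, s} : Finset V) := by
      simp [ney.symm, hvy.symm, Ne.symm hpy, nys]
    have i2 : e ∉ ({v, p, s} : Finset V) := by simp [nve.symm, hep, nes]
    have i3 : v ∉ ({p, s} : Finset V) := by simp [nvp, hvs]
    have hb : bdry H A {y, e, v, p, s} ≤ 3 := by
      unfold bdry
      rw [sum_insert i1, sum_insert i2, sum_insert i3, sum_pair nps]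
      have b0 := dg_out (H := H) hRA (r := v) (T := {e, p}) (by simp [insert_subset_iff]) (by rw [hn])
      have b1 := dg_out (H := H) hRA (r := e) (T := {v, y}) (by simp [insert_subset_iff]) (by rw [hne])
      have b2 := dg_out (H := H) hRA (r := p) (T := {v, s}) (by simp [insert_subset_iff]) (by rw [hnp])
      have b3 := dg_out (H := H) hRA (r := y) (T := {e}) (by simp) (by
        rw [singleton_subset_iff]; exact mem_nb_comm ae my)
      have b4 := dg_out (H := H) hRA (r := s) (T := {p}) (by simp) (by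
        rw [singleton_subset_iff]; exact mem_nb_comm ap ms)
      rw [card_pair hep] at b0
      rw [card_pair hvy] at b1
      rw [card_pair hvs] at b2
      rw [card_singleton] at b3 b4
      omega
    have hdom : ∀ r ∈ ({y, e, v, p, s} : Finset V), r ∈ ({v, y} : Finset V) ∨ r ∈ F ∨
        (r ∉ Q ∧ AdjS H {v, y} r) ∨ (r ∈ Q ∧ nb H A r ⊆ {v, y}) := by
      intro r hr
      simp only [mem_insert, mem_singleton] at hr ⊢
      rcases hr with rfl | rfl | rfl | rfl | rfl
      · exact Or.inl (Or.inr rfl)
      · exact Or.inr (Or.inr (Or.inr ⟨he, by rw [hne]⟩))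
      · exact Or.inl (Or.inl rfl)
      · exact Or.inr (Or.inr (Or.inl ⟨hp, v, by simp, adj_of mp⟩))
      · exact Or.inr (Or.inl hsF)
    by_cases hty : t = y
    · subst hty
      have hM : MV H Q A F {t, e, v, p, s} {v, t} ∅ := by
        refine ⟨hRA, ?_, ⟨v, by simp⟩, ?_, hdom⟩
        · simp [insert_subset_iff]
        · intro w hw hwR r hr hwr
          simp only [mem_insert, mem_singleton] at hr ⊢
          rcases hr with rfl | rfl | rfl | rfl | rfl
          · exact Or.inl (Or.inr rfl)
          · exact (out2 hne hw hwr hwR (by simp) (by simp)).elim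
          · exact Or.inl (Or.inl rfl)
          · exact (out2 hnp hw hwr hwR (by simp) (by simp)).elim
          · exact (out2 hns hw hwr hwR (by simp) (by simp)).elim
      have := (hM.zero IH hW hC hB hb).1
      rw [sum_insert i1, sum_insert i2, sum_insert i3, sum_pair nps,
        wtM2 hvQ hvF dv, wtQ he, wtM2 hyQ hyF dy, wtM2 hsQ hsF ds, card_pair hvy] at this
      push_cast at this
      linarith
    · have htR : t ∉ ({y, e, v, p, s} : Finset V) := by
        simp only [mem_insert, mem_singleton]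
        push Not
        exact ⟨hty, nte, ntv, hpt.symm, nst.symm⟩
      have hM : MV H Q A F {y, e, v, p, s} {v, y} {t} := by
        refine ⟨hRA, ?_, ⟨v, by simp⟩, ?_, hdom⟩
        · simp [insert_subset_iff]
        · intro w hw hwR r hr hwr
          simp only [mem_insert, mem_singleton] at hr ⊢
          rcases hr with rfl | rfl | rfl | rfl | rfl
          · exact Or.inl (Or.inr rfl)
          · exact (out2 hne hw hwr hwR (by simp) (by simp)).elim
          · exact Or.inl (Or.inl rfl)
          · exact (out2 hnp hw hwr hwR (by simp) (by simp)).elim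
          · have hwt : w = t := (nbr2 hns hw hwr).resolve_left (by rintro rfl; exact hwR (by simp))
            rw [hwt]
            exact Or.inr (Or.inr ⟨htQ, rfl⟩)
      have hy'R : y' ∉ ({y, e, v, p, s} : Finset V) := by
        simp only [mem_insert, mem_singleton]
        push Not
        refine ⟨nyy'.symm, hey'.symm, ?_, ?_, ?_⟩
        · rintro rfl
          rcases nbr2 hn ay (adj_of my') with h | h
          · exact ney h.symm
          · exact hpy h.symm
        · rintro rfl
          rcases nbr2 hnp ay (adj_of my') with h | h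
          · exact hvy h.symm
          · exact nys h
        · rintro rfl
          rcases nbr2 hns ay (adj_of my') with h | h
          · exact hpy h.symm
          · exact hty h.symm
      have h1 := hM.one IH hW hB hb (fun _ => 5) (by
        intro x hx; rw [mem_singleton] at hx; rw [hx]; exact mem_sdiff.2 ⟨at', htR⟩) (by
        intro x hx
        rw [mem_singleton] at hx
        rw [hx]
        refine wt_b5 (r0 := s) hW hM.rem at' htR htQ ?_ (ddeg t at')
        intro r hr htr
        simp only [mem_insert, mem_singleton] at hr ⊢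
        rcases hr with rfl | rfl | rfl | rfl | rfl
        · exact Or.inl (Or.inr rfl)
        · exact (out2 hne at' htr htR (by simp) (by simp)).elim
        · exact Or.inl (Or.inl rfl)
        · rcases nbr2 hnp at' htr with h | h
          · exact absurd h ntv
          · exact absurd h.symm nst
        · exact Or.inr rfl) ay' hy'R (Or.inr (Or.inr ⟨y, by simp, adj_of my'⟩))
      obtain ⟨h1, h2⟩ := h1
      rw [sum_insert i1, sum_insert i2, sum_insert i3, sum_pair nps,
        wtM2 hvQ hvF dv, wtQ he, wtM2 hyQ hyF dy, wtM2 hsQ hsF ds, card_pair hvy,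
        sum_singleton] at h1
      have h2' : (2 : ℤ) ≤ bdry H A {y, e, v, p, s} := by exact_mod_cast h2
      push_cast at h1
      linarith

end

end Pool.Agent.H94.Dom
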