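import Mathlib
import Pool.Agent.Dom94.Dq6

/-! Decorated claims for MP_3fbd8d_co, part 7: a marked vertex which is not next to a
`Q`-vertex. -/

set_option linter.unusedSectionVars false
set_option linter.unusedVariables false

namespace Pool.Agent.H94.Dom

open Finset

section
variable {V : Type} [DecidableEq V] {H : SimpleGraph V} {Q Q' A B F F' D R S X Y Z Bd : Finset V}

/-- data for case 0: the marked vertex `v` has two ordinary neighbours, marked vertices are not
adjacent to `Q`-vertices -/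
structure C0 (H : SimpleGraph V) (Q A F : Finset V) (v a b : V) : Prop where
  hS : SPM H Q A F
  hN : ∀ u ∈ A, u ∈ F → ¬ Spc H Q A u
  hv : v ∈ A
  hvF : v ∈ F
  hn : nb H A v = {a, b}
  hab : a ≠ b
  haQ : a ∉ Q
  hbQ : b ∉ Q

variable {v a b : V}

theorem C0.symm (h : C0 H Q A F v a b) : C0 H Q A F v b a :=
  ⟨h.hS, h.hN, h.hv, h.hvF, by rw [h.hn, pair_comm], h.hab.symm, h.hbQ, h.haQ⟩

theorem C0.hvQ (h : C0 H Q A F v a b) (hW : WFQ H Q A F) : v ∉ Q :=
  fun hh => hW.qf v h.hv hh h.hvF

theorem C0.ma (h : C0 H Q A F v a b) : a ∈ nb H A v := mem2a h.hn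
theorem C0.mb (h : C0 H Q A F v a b) : b ∈ nb H A v := mem2b h.hn
theorem C0.aA (h : C0 H Q A F v a b) : a ∈ A := mem_of_nb h.ma
theorem C0.bA (h : C0 H Q A F v a b) : b ∈ A := mem_of_nb h.mb
theorem C0.nva (h : C0 H Q A F v a b) : v ≠ a := (adj_of h.ma).ne
theorem C0.nvb (h : C0 H Q A F v a b) : v ≠ b := (adj_of h.mb).ne
theorem C0.dv (h : C0 H Q A F v a b) : dg H A v = 2 := by rw [dg_eq h.hn, card_pair h.hab]

theorem C0.deg2 (h : C0 H Q A F v a b) (hB : Bl H A) : ∀ u ∈ A, 2 ≤ dg H A u := by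
  intro u hu
  by_cases huv : u = v
  · rw [huv, h.dv]
  · exact hB.dg2 hu h.hv huv

/-- special vertices have degree three and are unmarked -/
theorem C0.spc (h : C0 H Q A F v a b) (hW : WFQ H Q A F) {u : V} (hu : u ∈ A) (huQ : u ∉ Q)
    (hs : Spc H Q A u) : dg H A u = 3 ∧ u ∉ F := by
  have h1 : u ∉ F := fun hh => h.hN u hu hh hs
  refine ⟨?_, h1⟩
  have h2 := hW.deg u hu
  by_contra hcon
  exact h1 (h.hS u hu huQ hs (by omega))

theorem C0.RA (h : C0 H Q A F v a b) : ({v} : Finset V) ⊆ A := by simpa using h.hv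

theorem C0.bd (h : C0 H Q A F v a b) : bdry H A {v} = 2 := by
  unfold bdry
  rw [sum_singleton]
  have h3 := dg_split (H := H) h.RA v
  have h4 : dg H {v} v = 0 := dg_single v
  have := h.dv
  omega

theorem C0.mv (h : C0 H Q A F v a b) : MV H Q A F {v} ∅ {a, b} := by
  refine ⟨h.RA, by simp, ⟨v, by simp⟩, ?_, ?_⟩
  · intro w hw hwR r hr hwr
    rw [mem_singleton] at hr
    subst hr
    rcases nbr2 h.hn hw hwr with rfl | rfl
    · exact Or.inr (Or.inr ⟨h.haQ, by simp⟩)
    · exact Or.inr (Or.inr ⟨h.hbQ, by simp⟩)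
  · intro r hr
    rw [mem_singleton] at hr
    subst hr
    exact Or.inr (Or.inl h.hvF)

theorem C0.aR (h : C0 H Q A F v a b) : a ∉ ({v} : Finset V) := by
  rw [mem_singleton]; exact h.nva.symm

/-- the basic inequality for the deletion of `v` -/
theorem C0.base (h : C0 H Q A F v a b) (IH : IHq H A) (hW : WFQ H Q A F) (hB : Bl H A)
    {ba bb : ℤ}
    (h1 : wt H (nQ H Q ∅) (A \ {v}) (nF H Q A F ∅) a + dg H {v} a ≤ wt H Q A F a + ba)
    (h2 : wt H (nQ H Q ∅) (A \ {v}) (nF H Q A F ∅) b + dg H {v} b ≤ wt H Q A F b + bb) :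
    gq H Q A F ≤ -8 + ba + bb + gq H (nQ H Q ∅) (A \ {v}) (nF H Q A F ∅) ∧
      Cq H (nQ H Q ∅) (A \ {v}) (nF H Q A F ∅) := by
  have hM := h.mv
  have hm := hM.move hW (fun x => if x = a then ba else bb) (by
    intro x hx
    simp only [mem_insert, mem_singleton] at hx
    rcases hx with rfl | rfl
    · exact mem_sdiff.2 ⟨h.aA, h.aR⟩
    · exact mem_sdiff.2 ⟨h.bA, h.symm.aR⟩) (by
    intro x hx
    simp only [mem_insert, mem_singleton] at hx
    rcases hx with rfl | rfl
    · rw [if_pos rfl]; exact h1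
    · rw [if_neg h.hab.symm]; exact h2)
  rw [sum_singleton, wtM2 (h.hvQ hW) h.hvF h.dv, card_empty, sum_pair h.hab, if_pos rfl,
    if_neg h.hab.symm, h.bd] at hm
  refine ⟨?_, hM.cq IH hW hB (by rw [h.bd]; norm_num) ⟨a, mem_sdiff.2 ⟨h.aA, h.aR⟩⟩⟩
  push_cast at hm
  linarith

theorem C0.b5 (h : C0 H Q A F v a b) (hW : WFQ H Q A F) (hB : Bl H A) :
    wt H (nQ H Q ∅) (A \ {v}) (nF H Q A F ∅) a + dg H {v} a ≤ wt H Q A F a + 5 :=
  wt_b5 (r0 := v) hW h.mv.rem h.aA h.aR h.haQ (fun r hr _ => Or.inr (mem_singleton.1 hr))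
    (h.deg2 hB a h.aA)

theorem C0.b4 (h : C0 H Q A F v a b) (hW : WFQ H Q A F) (hd : dg H A a = 3) :
    wt H (nQ H Q ∅) (A \ {v}) (nF H Q A F ∅) a + dg H {v} a ≤ wt H Q A F a + 4 :=
  wt_b4 (r0 := v) hW h.mv.rem h.aA h.aR h.haQ (fun r hr _ => Or.inr (mem_singleton.1 hr)) hd

theorem C0.b3 (h : C0 H Q A F v a b) (hW : WFQ H Q A F) (hd : dg H A a = 3)
    (hT : ¬ IsT H (nQ H Q ∅) (A \ {v}) a) :
    wt H (nQ H Q ∅) (A \ {v}) (nF H Q A F ∅) a + dg H {v} a ≤ wt H Q A F a + 3 :=
  wt_b3 (r0 := v) hW h.mv.rem h.aA h.aR h.haQ (fun r hr _ => Or.inr (mem_singleton.1 hr)) hd hT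

theorem C0.da (h : C0 H Q A F v a b) : dg H A a = dg H (A \ {v}) a + 1 := by
  rw [sdiff_singleton_eq_erase]
  exact dg_erase_adj h.hv (adj_of h.ma).symm

theorem not_nQ {u : V} (h : u ∉ Q) : u ∉ nQ H Q S := fun hh => h (mem_nQ.1 hh).1

/-- case 0.1 -/
theorem C0.c01 (h : C0 H Q A F v a b) (IH : IHq H A) (hW : WFQ H Q A F) (hB : Bl H A)
    (hs : Spc H Q A a) : gq H Q A F ≤ 2 := by
  obtain ⟨d3, haF⟩ := h.spc hW h.aA h.haQ hs
  obtain ⟨h1, h2⟩ := h.base IH hW hB (h.b4 hW d3) (h.symm.b5 hW hB)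
  have := h.da
  obtain ⟨e, he, heQ, hae⟩ := hs
  have h3 := h2.c3 ⟨a, mem_sdiff.2 ⟨h.aA, h.aR⟩, not_nQ h.haQ,
    fun hh => haF ((nF_empty hW h.aA).1 hh), by omega, e, mem_sdiff.2 ⟨he, by
      rw [mem_singleton]; rintro rfl; exact h.hvQ hW heQ⟩, by rw [nQ_empty]; exact heQ, hae⟩
  linarith

/-- case 0.2 -/
theorem C0.c02 (h : C0 H Q A F v a b) (IH : IHq H A) (hW : WFQ H Q A F) (hC : Conn H A)
    (hB : Bl H A) (haF : a ∉ F) (hs : ¬ Spc H Q A a)
    (hT : IsT H (nQ H Q ∅) (A \ {v}) a) : gq H Q A F ≤ 2 := by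
  obtain ⟨t1, e, he, heQ, hne⟩ := hT
  rw [nQ_empty] at heQ
  rw [mem_sdiff, mem_singleton] at he
  have hda := h.da
  obtain ⟨x, y, hvx, hvy, hxy, hna⟩ := nb3' (p := a) (a := v) (by omega : dg H A a = 3)
    (mem_nb_comm h.hv h.ma)
  have hna' : nb H (A \ {v}) a = {x, y} := by
    rw [sdiff_singleton_eq_erase, nb_erase, hna]
    ext z
    simp only [mem_erase, mem_insert, mem_singleton]
    constructor
    · rintro ⟨z1, z2 | z2⟩
      · exact absurd z2 z1
      · exact z2
    · rintro (rfl | rfl)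
      · exact ⟨hvx.symm, Or.inr (Or.inl rfl)⟩
      · exact ⟨hvy.symm, Or.inr (Or.inr rfl)⟩
  have hev : ¬ H.Adj e v := fun hh => h.hN v h.hv h.hvF ⟨e, he.1, heQ, hh.symm⟩
  have hnE : nb H A e = {x, y} := by
    rw [← hna', ← hne]
    rw [nb_sdiff_eq]
    intro r hr her
    rw [mem_singleton] at hr
    subst hr
    exact hev her
  have mx : x ∈ nb H A a := by rw [hna]; simp
  have my : y ∈ nb H A a := by rw [hna]; simp
  have ax := mem_of_nb mx
  have ay := mem_of_nb my
  have mex : x ∈ nb H A e := mem2a hnE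
  have mey : y ∈ nb H A e := mem2b hnE
  have xQ : x ∉ Q := fun hh => hs ⟨x, ax, hh, adj_of mx⟩
  have yQ : y ∉ Q := fun hh => hs ⟨y, ay, hh, adj_of my⟩
  obtain ⟨dx, xF⟩ := h.spc hW ax xQ ⟨e, he.1, heQ, (adj_of mex).symm⟩
  obtain ⟨dy, yF⟩ := h.spc hW ay yQ ⟨e, he.1, heQ, (adj_of mey).symm⟩
  have nxe : x ≠ e := (adj_of mex).ne'
  have nye : y ≠ e := (adj_of mey).ne'
  have nxa : x ≠ a := (adj_of mx).ne'
  have nya : y ≠ a := (adj_of my).ne'
  have nea : e ≠ a := by rintro rfl; exact h.haQ heQ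
  have i1 : x ∉ ({y, e, a} : Finset V) := by simp [hxy, nxe, nxa]
  have i2 : y ∉ ({e, a} : Finset V) := by simp [nye, nya]
  have hRA : ({x, y, e, a} : Finset V) ⊆ A := by
    intro z hz
    simp only [mem_insert, mem_singleton] at hz
    rcases hz with rfl | rfl | rfl | rfl
    · exact ax
    · exact ay
    · exact he.1
    · exact h.aA
  have hvR : v ∉ ({x, y, e, a} : Finset V) := by
    simp [hvx, hvy, Ne.symm he.2, h.nva]
  have da3 : dg H A a = 3 := by omega
  have hM : MV H Q A F {x, y, e, a} {x, y} ∅ := by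
    refine ⟨hRA, by simp [insert_subset_iff], ⟨x, by simp⟩, ?_, ?_⟩
    · intro w hw hwR r hr hwr
      simp only [mem_insert, mem_singleton] at hr ⊢
      rcases hr with rfl | rfl | rfl | rfl
      · exact Or.inl (Or.inl rfl)
      · exact Or.inl (Or.inr rfl)
      · exact (out2 hnE hw hwr hwR (by simp) (by simp)).elim
      · rcases nbr3 hna hw hwr with rfl | rfl | rfl
        · exact Or.inr (Or.inl ⟨h.hvQ hW, Or.inl h.hvF⟩)
        · exact absurd (by simp) hwR
        · exact absurd (by simp) hwR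
    · intro r hr
      simp only [mem_insert, mem_singleton] at hr ⊢
      rcases hr with rfl | rfl | rfl | rfl
      · exact Or.inl (Or.inl rfl)
      · exact Or.inl (Or.inr rfl)
      · exact Or.inr (Or.inr (Or.inr ⟨heQ, by rw [hnE]⟩))
      · exact Or.inr (Or.inr (Or.inl ⟨h.haQ, x, by simp, (adj_of mx).symm⟩))
  have nex : ({e, a} : Finset V) ⊆ nb H A x := by
    intro z hz
    simp only [mem_insert, mem_singleton] at hz
    rcases hz with rfl | rfl
    · exact mem_nb_comm he.1 mex
    · exact mem_nb_comm h.aA mx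
  have ney : ({e, a} : Finset V) ⊆ nb H A y := by
    intro z hz
    simp only [mem_insert, mem_singleton] at hz
    rcases hz with rfl | rfl
    · exact mem_nb_comm he.1 mey
    · exact mem_nb_comm h.aA my
  have b1 := dg_out (H := H) hRA (r := x) (T := {e, a}) (by simp [insert_subset_iff]) nex
  have b2 := dg_out (H := H) hRA (r := y) (T := {e, a}) (by simp [insert_subset_iff]) ney
  have b3 := dg_out (H := H) hRA (r := e) (T := {x, y}) (by simp [insert_subset_iff])
    (by rw [hnE])
  have b4 := dg_out (H := H) hRA (r := a) (T := {x, y}) (by simp [insert_subset_iff]) (by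
    rw [hna]; simp [insert_subset_iff])
  rw [card_pair nea] at b1 b2
  rw [card_pair hxy] at b3 b4
  have de := hW.q2 e he.1 heQ
  have hbeq : bdry H A {x, y, e, a} = dg H (A \ {x, y, e, a}) x +
      (dg H (A \ {x, y, e, a}) y + (dg H (A \ {x, y, e, a}) e + dg H (A \ {x, y, e, a}) a)) := by
    unfold bdry
    rw [sum_insert i1, sum_insert i2, sum_pair nea]
  have hb : bdry H A {x, y, e, a} ≤ 3 := by omega
  have hva : 1 ≤ dg H (A \ {x, y, e, a}) a :=
    dg_pos' (mem_sdiff.2 ⟨h.hv, hvR⟩) (adj_of h.ma).symm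
  have h2 := hB _ hRA ⟨x, by simp⟩ ⟨v, mem_sdiff.2 ⟨h.hv, hvR⟩⟩
  have hb3 : 3 ≤ bdry H A {x, y, e, a} := by
    have sx := dg_split (H := H) hRA x
    have sy := dg_split (H := H) hRA y
    by_cases hadj : H.Adj x y
    · exfalso
      have c1 : 3 ≤ dg H {x, y, e, a} x := by
        have : ({y, e, a} : Finset V) ⊆ nb H {x, y, e, a} x := by
          intro z hz
          simp only [mem_insert, mem_singleton] at hz
          rcases hz with rfl | rfl | rfl
          · exact mem_nb.2 ⟨by simp, hadj⟩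
          · exact mem_nb.2 ⟨by simp, (adj_of mex).symm⟩
          · exact mem_nb.2 ⟨by simp, (adj_of mx).symm⟩
        have := card_le_card this
        rw [card_insert_of_notMem i2, card_pair nea] at this
        exact this
      have c2 : 3 ≤ dg H {x, y, e, a} y := by
        have : ({x, e, a} : Finset V) ⊆ nb H {x, y, e, a} y := by
          intro z hz
          simp only [mem_insert, mem_singleton] at hz
          rcases hz with rfl | rfl | rfl
          · exact mem_nb.2 ⟨by simp, hadj.symm⟩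
          · exact mem_nb.2 ⟨by simp, (adj_of mey).symm⟩
          · exact mem_nb.2 ⟨by simp, (adj_of my).symm⟩
        have := card_le_card this
        rw [card_insert_of_notMem (by simp [nxe, nxa]), card_pair nea] at this
        exact this
      omega
    · have c1 : dg H {x, y, e, a} x ≤ 2 := by
        have : nb H {x, y, e, a} x ⊆ ({e, a} : Finset V) := by
          intro z hz
          rw [mem_nb] at hz
          obtain ⟨z1, z2⟩ := hz
          simp only [mem_insert, mem_singleton] at z1 ⊢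
          rcases z1 with rfl | rfl | rfl | rfl
          · exact absurd z2 H.irrefl
          · exact absurd z2 hadj
          · exact Or.inl rfl
          · exact Or.inr rfl
        have := card_le_card this
        rw [card_pair nea] at this
        exact this
      have c2 : dg H {x, y, e, a} y ≤ 2 := by
        have : nb H {x, y, e, a} y ⊆ ({e, a} : Finset V) := by
          intro z hz
          rw [mem_nb] at hz
          obtain ⟨z1, z2⟩ := hz
          simp only [mem_insert, mem_singleton] at z1 ⊢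
          rcases z1 with rfl | rfl | rfl | rfl
          · exact absurd z2.symm hadj
          · exact absurd z2 H.irrefl
          · exact Or.inl rfl
          · exact Or.inr rfl
        have := card_le_card this
        rw [card_pair nea] at this
        exact this
      omega
  have hz := (hM.zero IH hW hC hB hb).2 ⟨v, mem_sdiff.2 ⟨h.hv, hvR⟩⟩
  have hb3' : (3 : ℤ) ≤ bdry H A {x, y, e, a} := by exact_mod_cast hb3
  rw [sum_insert i1, sum_insert i2, sum_pair nea, wtU3 xQ xF dx, wtU3 yQ yF dy, wtQ heQ,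
    wtU3 h.haQ haF da3, card_pair hxy] at hz
  push_cast at hz
  linarith

/-- case 0.4, `r` marked or special -/
theorem C0.c04a (h : C0 H Q A F v a b) (IH : IHq H A) (hW : WFQ H Q A F) (hC : Conn H A)
    (hB : Bl H A) (haF : a ∉ F) (hbF : b ∉ F) (hsa : ¬ Spc H Q A a) (hsb : ¬ Spc H Q A b)
    {r s : V} (hna : nb H A a = {v, r}) (hvr : v ≠ r) (hnb : nb H A b = {v, s}) (hvs : v ≠ s)
    (hrb : r ≠ b) (hr : r ∈ F ∨ Spc H Q A r) : gq H Q A F ≤ 2 := by
  have mr : r ∈ nb H A a := mem2b hna
  have ms : s ∈ nb H A b := mem2b hnb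
  have ar := mem_of_nb mr
  have as : s ∈ A := mem_of_nb ms
  have rQ : r ∉ Q := fun hh => hsa ⟨r, ar, hh, adj_of mr⟩
  have sQ : s ∉ Q := fun hh => hsb ⟨s, as, hh, adj_of ms⟩
  have nar : a ≠ r := (adj_of mr).ne
  have nbs : b ≠ s := (adj_of ms).ne
  have nas : a ≠ s := by
    rintro rfl
    rcases nbr2 hna h.bA (adj_of ms) with h1 | h1
    · exact h.nvb h1.symm
    · exact hrb h1.symm
  have da : dg H A a = 2 := by rw [dg_eq hna, card_pair hvr]
  have db : dg H A b = 2 := by rw [dg_eq hnb, card_pair hvs]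
  have i1 : v ∉ ({a, b} : Finset V) := by simp [h.nva, h.nvb]
  have hRA : ({v, a, b} : Finset V) ⊆ A := by
    intro z hz
    simp only [mem_insert, mem_singleton] at hz
    rcases hz with rfl | rfl | rfl
    · exact h.hv
    · exact h.aA
    · exact h.bA
  have b0 := dg_out (H := H) hRA (r := v) (T := {a, b}) (by simp [insert_subset_iff])
    (by rw [h.hn])
  have b1 := dg_out (H := H) hRA (r := a) (T := {v}) (by simp) (by rw [hna]; simp)
  have b2 := dg_out (H := H) hRA (r := b) (T := {v}) (by simp) (by rw [hnb]; simp)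
  rw [card_pair h.hab] at b0
  rw [card_singleton] at b1 b2
  have dv := h.dv
  have hb : bdry H A {v, a, b} ≤ 3 := by
    unfold bdry
    rw [sum_insert i1, sum_pair h.hab]
    omega
  have hdom : ∀ r ∈ ({v, a, b} : Finset V), r ∈ ({v} : Finset V) ∨ r ∈ F ∨
      (r ∉ Q ∧ AdjS H {v} r) ∨ (r ∈ Q ∧ nb H A r ⊆ {v}) := by
    intro r hr
    simp only [mem_insert, mem_singleton] at hr ⊢
    rcases hr with rfl | rfl | rfl
    · exact Or.inl rfl
    · exact Or.inr (Or.inr (Or.inl ⟨h.haQ, v, by simp, adj_of h.ma⟩))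
    · exact Or.inr (Or.inr (Or.inl ⟨h.hbQ, v, by simp, adj_of h.mb⟩))
  have hrR : r ∉ ({v, a, b} : Finset V) := by simp [hvr.symm, nar.symm, hrb]
  have hsR : s ∉ ({v, a, b} : Finset V) := by simp [hvs.symm, nas.symm, nbs.symm]
  have hwr : ∀ w ∈ A, w ∉ ({v, a, b} : Finset V) → H.Adj w a → w = r := fun w hw hwR hwa =>
    (nbr2 hna hw hwa).resolve_left (by rintro rfl; exact hwR (by simp))
  have hws : ∀ w ∈ A, w ∉ ({v, a, b} : Finset V) → H.Adj w b → w = s := fun w hw hwR hwa =>
    (nbr2 hnb hw hwa).resolve_left (by rintro rfl; exact hwR (by simp))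
  have wa := wtU2 (H := H) (A := A) h.haQ haF da
  have wb := wtU2 (H := H) (A := A) h.hbQ hbF db
  by_cases hrF : r ∈ F
  · by_cases hsr : s = r
    · have hM : MV H Q A F {v, a, b} {v} ∅ := by
        refine ⟨hRA, by simp, ⟨v, by simp⟩, ?_, hdom⟩
        intro w hw hwR z hz hwz
        simp only [mem_insert, mem_singleton] at hz ⊢
        rcases hz with rfl | rfl | rfl
        · exact Or.inl rfl
        · rw [hwr w hw hwR hwz]
          exact Or.inr (Or.inl ⟨rQ, Or.inl hrF⟩)
        · rw [hws w hw hwR hwz, hsr]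
          exact Or.inr (Or.inl ⟨rQ, Or.inl hrF⟩)
      have := (hM.zero IH hW hC hB hb).1
      rw [sum_insert i1, sum_pair h.hab, wtM2 (h.hvQ hW) h.hvF h.dv, card_singleton] at this
      push_cast at this
      linarith
    · have hM : MV H Q A F {v, a, b} {v} {s} := by
        refine ⟨hRA, by simp, ⟨v, by simp⟩, ?_, hdom⟩
        intro w hw hwR z hz hwz
        simp only [mem_insert, mem_singleton] at hz ⊢
        rcases hz with rfl | rfl | rfl
        · exact Or.inl rfl
        · rw [hwr w hw hwR hwz]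
          exact Or.inr (Or.inl ⟨rQ, Or.inl hrF⟩)
        · rw [hws w hw hwR hwz]
          exact Or.inr (Or.inr ⟨sQ, rfl⟩)
      have h1 := hM.one IH hW hB hb (fun _ => 5) (by
        intro x hx; rw [mem_singleton] at hx; rw [hx]; exact mem_sdiff.2 ⟨as, hsR⟩) (by
        intro x hx
        rw [mem_singleton] at hx
        rw [hx]
        refine wt_b5 (r0 := b) hW hM.rem as hsR sQ ?_ (h.deg2 hB s as)
        intro z hz hsz
        simp only [mem_insert, mem_singleton] at hz ⊢
        rcases hz with rfl | rfl | rfl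
        · exact Or.inl rfl
        · exact absurd (hwr s as hsR hsz) hsr
        · exact Or.inr rfl) ar hrR (Or.inr (Or.inl hrF))
      obtain ⟨h1, h2⟩ := h1
      rw [sum_insert i1, sum_pair h.hab, wtM2 (h.hvQ hW) h.hvF h.dv, card_singleton,
        sum_singleton] at h1
      have h2' : (2 : ℤ) ≤ bdry H A {v, a, b} := by exact_mod_cast h2
      push_cast at h1
      linarith
  · have hrS : Spc H Q A r := hr.resolve_left hrF
    obtain ⟨dr, _⟩ := h.spc hW ar rQ hrS
    obtain ⟨e, ae, heQ, hre⟩ := hrS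
    have heR : e ∉ ({v, a, b} : Finset V) := by
      simp only [mem_insert, mem_singleton]
      rintro (rfl | rfl | rfl)
      · exact h.hvQ hW heQ
      · exact h.haQ heQ
      · exact h.hbQ heQ
    have hsr : s ≠ r := by
      rintro rfl
      have hRA' : ({v, a, b, s} : Finset V) ⊆ A := by
        intro z hz
        simp only [mem_insert, mem_singleton] at hz
        rcases hz with rfl | rfl | rfl | rfl
        · exact h.hv
        · exact h.aA
        · exact h.bA
        · exact ar
      have j1 : v ∉ ({a, b, s} : Finset V) := by simp [h.nva, h.nvb, hvr]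
      have j2 : a ∉ ({b, s} : Finset V) := by simp [h.hab, nar]
      have c0 := dg_out (H := H) hRA' (r := v) (T := {a, b}) (by simp [insert_subset_iff])
        (by rw [h.hn])
      have c1 := dg_out (H := H) hRA' (r := a) (T := {v, s}) (by simp [insert_subset_iff])
        (by rw [hna])
      have c2 := dg_out (H := H) hRA' (r := b) (T := {v, s}) (by simp [insert_subset_iff])
        (by rw [hnb])
      have c3 := dg_out (H := H) hRA' (r := s) (T := {a, b}) (by simp [insert_subset_iff]) (by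
        intro z hz
        simp only [mem_insert, mem_singleton] at hz
        rcases hz with rfl | rfl
        · exact mem_nb_comm h.aA mr
        · exact mem_nb_comm h.bA ms)
      rw [card_pair h.hab] at c0 c3
      rw [card_pair hvr] at c1 c2
      have := hB _ hRA' ⟨v, by simp⟩ ⟨e, mem_sdiff.2 ⟨ae, by
        simp only [mem_insert, mem_singleton]
        rintro (rfl | rfl | rfl | rfl)
        · exact h.hvQ hW heQ
        · exact h.haQ heQ
        · exact h.hbQ heQ
        · exact rQ heQ⟩⟩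
      unfold bdry at this
      rw [sum_insert j1, sum_insert j2, sum_pair nbs] at this
      omega
    have hM : MV H Q A F {v, a, b} {v} {r, s} := by
      refine ⟨hRA, by simp, ⟨v, by simp⟩, ?_, hdom⟩
      intro w hw hwR z hz hwz
      simp only [mem_insert, mem_singleton] at hz ⊢
      rcases hz with rfl | rfl | rfl
      · exact Or.inl rfl
      · rw [hwr w hw hwR hwz]
        exact Or.inr (Or.inr ⟨rQ, Or.inl rfl⟩)
      · rw [hws w hw hwR hwz]
        exact Or.inr (Or.inr ⟨sQ, Or.inr rfl⟩)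
    have hm := hM.move hW (fun x => if x = r then 4 else 5) (by
      intro x hx
      simp only [mem_insert, mem_singleton] at hx
      rcases hx with rfl | rfl
      · exact mem_sdiff.2 ⟨ar, hrR⟩
      · exact mem_sdiff.2 ⟨as, hsR⟩) (by
      intro x hx
      simp only [mem_insert, mem_singleton] at hx
      rcases hx with rfl | rfl
      · rw [if_pos rfl]
        refine wt_b4 (r0 := a) hW hM.rem ar hrR rQ ?_ dr
        intro z hz hrz
        simp only [mem_insert, mem_singleton] at hz ⊢
        rcases hz with rfl | rfl | rfl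
        · exact Or.inl rfl
        · exact Or.inr rfl
        · exact absurd (hws x ar hrR hrz).symm hsr
      · rw [if_neg hsr]
        refine wt_b5 (r0 := b) hW hM.rem as hsR sQ ?_ (h.deg2 hB x as)
        intro z hz hsz
        simp only [mem_insert, mem_singleton] at hz ⊢
        rcases hz with rfl | rfl | rfl
        · exact Or.inl rfl
        · exact absurd (hwr x as hsR hsz) hsr
        · exact Or.inr rfl)
    have hcq := hM.cq IH hW hB hb ⟨r, mem_sdiff.2 ⟨ar, hrR⟩⟩
    have h2 := hB _ hRA ⟨v, by simp⟩ ⟨r, mem_sdiff.2 ⟨ar, hrR⟩⟩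
    have hsp := dg_split (H := H) hRA r
    have hp : 1 ≤ dg H {v, a, b} r := dg_pos' (by simp) (adj_of mr).symm
    have hns : ¬ AdjS H {v} r := by
      rintro ⟨z, hz, hzr⟩
      rw [mem_singleton] at hz
      subst hz
      rcases nbr2 h.hn ar hzr.symm with h1 | h1
      · exact nar h1.symm
      · exact hrb h1
    have h3 := hcq.c3 ⟨r, mem_sdiff.2 ⟨ar, hrR⟩, not_nQ rQ, by
      rw [mem_nF]
      rintro (h1 | ⟨_, ⟨_, h1⟩ | ⟨h1, _⟩⟩)
      · exact hrF h1
      · exact hns h1
      · exact rQ h1, by omega, e, mem_sdiff.2 ⟨ae, heR⟩, by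
      rw [mem_nQ]
      refine ⟨heQ, ?_⟩
      rintro ⟨z, hz, hze⟩
      rw [mem_singleton] at hz
      subst hz
      exact h.hN z h.hv h.hvF ⟨e, ae, heQ, hze⟩, hre⟩
    rw [sum_insert i1, sum_pair h.hab, wtM2 (h.hvQ hW) h.hvF h.dv, card_singleton,
      sum_pair (Ne.symm hsr), if_pos rfl, if_neg hsr] at hm
    have h2' : (2 : ℤ) ≤ bdry H A {v, a, b} := by exact_mod_cast h2
    push_cast at hm
    linarith

/-- case 0.4, `r` unmarked and not special -/
theorem C0.c04b (h : C0 H Q A F v a b) (IH : IHq H A) (hW : WFQ H Q A F) (hC : Conn H A)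
    (hB : Bl H A) (haF : a ∉ F) (hbF : b ∉ F) (hsa : ¬ Spc H Q A a) (hsb : ¬ Spc H Q A b)
    {r : V} (hna : nb H A a = {v, r}) (hvr : v ≠ r) (db : dg H A b = 2)
    (hrb : r ≠ b) (hrF : r ∉ F) (hrS : ¬ Spc H Q A r) : gq H Q A F ≤ 2 := by
  have mr : r ∈ nb H A a := mem2b hna
  have ar := mem_of_nb mr
  have rQ : r ∉ Q := fun hh => hsa ⟨r, ar, hh, adj_of mr⟩
  have nar : a ≠ r := (adj_of mr).ne
  have da : dg H A a = 2 := by rw [dg_eq hna, card_pair hvr]
  have i1 : r ∉ ({a, v} : Finset V) := by simp [nar.symm, hvr.symm]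
  have hRA : ({r, a, v} : Finset V) ⊆ A := by
    intro z hz
    simp only [mem_insert, mem_singleton] at hz
    rcases hz with rfl | rfl | rfl
    · exact ar
    · exact h.aA
    · exact h.hv
  have hbR : b ∉ ({r, a, v} : Finset V) := by simp [Ne.symm hrb, h.hab.symm, h.nvb.symm]
  have hba : ¬ H.Adj b a := fun hh => by
    rcases nbr2 hna h.bA hh with h1 | h1
    · exact h.nvb h1.symm
    · exact hrb h1.symm
  have hM : MV H Q A F {r, a, v} {r} {b} := by
    refine ⟨hRA, by simp, ⟨v, by simp⟩, ?_, ?_⟩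
    · intro w hw hwR z hz hwz
      simp only [mem_insert, mem_singleton] at hz ⊢
      rcases hz with rfl | rfl | rfl
      · exact Or.inl rfl
      · exact (out2 hna hw hwz hwR (by simp) (by simp)).elim
      · have hwb : w = b := (nbr2 h.hn hw hwz).resolve_left (by rintro rfl; exact hwR (by simp))
        rw [hwb]
        exact Or.inr (Or.inr ⟨h.hbQ, rfl⟩)
    · intro z hz
      simp only [mem_insert, mem_singleton] at hz ⊢
      rcases hz with rfl | rfl | rfl
      · exact Or.inl rfl
      · exact Or.inr (Or.inr (Or.inl ⟨h.haQ, r, by simp, (adj_of mr).symm⟩))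
      · exact Or.inr (Or.inl h.hvF)
  have b0 := dg_out (H := H) hRA (r := v) (T := {a}) (by simp) (by
    rw [singleton_subset_iff]; exact h.ma)
  have b1 := dg_out (H := H) hRA (r := a) (T := {v, r}) (by simp [insert_subset_iff])
    (by rw [hna])
  have b2 := dg_out (H := H) hRA (r := r) (T := {a}) (by simp) (by
    rw [singleton_subset_iff]; exact mem_nb_comm h.aA mr)
  rw [card_pair hvr] at b1
  rw [card_singleton] at b0 b2
  have dv := h.dv
  have d3 := hW.deg r ar
  have hbeq : bdry H A {r, a, v} = dg H (A \ {r, a, v}) r +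
      (dg H (A \ {r, a, v}) a + dg H (A \ {r, a, v}) v) := by
    unfold bdry
    rw [sum_insert i1, sum_pair h.nva.symm]
  have hb : bdry H A {r, a, v} ≤ 3 := by omega
  have hm := hM.move hW (fun _ => 5) (by
    intro x hx; rw [mem_singleton] at hx; rw [hx]; exact mem_sdiff.2 ⟨h.bA, hbR⟩) (by
    intro x hx
    rw [mem_singleton] at hx
    rw [hx]
    refine wt_b5 (r0 := v) hW hM.rem h.bA hbR h.hbQ ?_ db.ge
    intro z hz hbz
    simp only [mem_insert, mem_singleton] at hz ⊢
    rcases hz with rfl | rfl | rfl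
    · exact Or.inl rfl
    · exact absurd hbz hba
    · exact Or.inr rfl)
  have hcq := hM.cq IH hW hB hb ⟨b, mem_sdiff.2 ⟨h.bA, hbR⟩⟩
  have h2 := hB _ hRA ⟨v, by simp⟩ ⟨b, mem_sdiff.2 ⟨h.bA, hbR⟩⟩
  have hspb := dg_split (H := H) hRA b
  have hpb : 1 ≤ dg H {r, a, v} b := dg_pos' (by simp) (adj_of h.mb).symm
  have h3 := hcq.c2 (Or.inr (Or.inl ⟨b, mem_sdiff.2 ⟨h.bA, hbR⟩, not_nQ h.hbQ, by omega⟩))
  have wa := wtU2 (H := H) (A := A) h.haQ haF da
  rw [sum_insert i1, sum_pair h.nva.symm, wtM2 (h.hvQ hW) h.hvF h.dv, card_singleton,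
    sum_singleton] at hm
  have h2' : (2 : ℤ) ≤ bdry H A {r, a, v} := by exact_mod_cast h2
  obtain dr | dr : dg H A r = 2 ∨ dg H A r = 3 := by
    have := h.deg2 hB r ar
    omega
  · have wr := wtU2 (H := H) (A := A) rQ hrF dr
    push_cast at hm
    linarith
  · have hb3 : 3 ≤ bdry H A {r, a, v} := by
      have c1 : dg H {r, a, v} r ≤ 1 := by
        have : nb H {r, a, v} r ⊆ ({a} : Finset V) := by
          intro z hz
          rw [mem_nb] at hz
          obtain ⟨z1, z2⟩ := hz
          simp only [mem_insert, mem_singleton] at z1 ⊢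
          rcases z1 with rfl | rfl | rfl
          · exact absurd z2 H.irrefl
          · rfl
          · rcases nbr2 h.hn ar z2 with h1 | h1
            · exact absurd h1.symm nar
            · exact absurd h1 hrb
        exact (card_le_card this).trans (by simp)
      have c2 : 1 ≤ dg H (A \ {r, a, v}) v :=
        dg_pos' (mem_sdiff.2 ⟨h.bA, hbR⟩) (adj_of h.mb)
      have c3 := dg_split (H := H) hRA r
      omega
    have hb3' : (3 : ℤ) ≤ bdry H A {r, a, v} := by exact_mod_cast hb3
    rw [wtU3 rQ hrF dr] at hm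
    push_cast at hm
    linarith

/-- case 0 -/
theorem C0.all (h : C0 H Q A F v a b) (IH : IHq H A) (hW : WFQ H Q A F) (hC : Conn H A)
    (hB : Bl H A) : gq H Q A F ≤ 2 := by
  by_cases hsa : Spc H Q A a
  · exact h.c01 IH hW hB hsa
  by_cases hsb : Spc H Q A b
  · exact h.symm.c01 IH hW hB hsb
  have ha1 : a ∈ A \ {v} := mem_sdiff.2 ⟨h.aA, h.aR⟩
  have hb1 : b ∈ A \ {v} := mem_sdiff.2 ⟨h.bA, h.symm.aR⟩
  by_cases haF : a ∈ F
  · have hg := wt_good hW h.mv.rem h.aA h.aR (Or.inr (Or.inl haF))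
    obtain ⟨h1, h2⟩ := h.base IH hW hB (ba := 0) (by linarith) (h.symm.b5 hW hB)
    have h3 := c2_good hW h.mv.rem Subset.rfl h2 ha1 (Or.inr (Or.inl haF))
    linarith
  by_cases hbF : b ∈ F
  · have hg := wt_good hW h.mv.rem h.bA h.symm.aR (Or.inr (Or.inl hbF))
    obtain ⟨h1, h2⟩ := h.base IH hW hB (bb := 0) (h.b5 hW hB) (by linarith)
    have h3 := c2_good hW h.mv.rem Subset.rfl h2 hb1 (Or.inr (Or.inl hbF))
    linarith
  by_cases hTa : IsT H (nQ H Q ∅) (A \ {v}) a
  · exact h.c02 IH hW hC hB haF hsa hTa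
  by_cases hTb : IsT H (nQ H Q ∅) (A \ {v}) b
  · exact h.symm.c02 IH hW hC hB hbF hsb hTb
  have da := h.da
  have db := h.symm.da
  have a3 := hW.deg a h.aA
  have b3 := hW.deg b h.bA
  have a2 := h.deg2 hB a h.aA
  have b2 := h.deg2 hB b h.bA
  obtain ea | ea : dg H A a = 2 ∨ dg H A a = 3 := by omega
  · obtain eb | eb : dg H A b = 2 ∨ dg H A b = 3 := by omega
    · obtain ⟨r, hvr, hna⟩ := nb2' ea (mem_nb_comm h.hv h.ma)
      obtain ⟨s, hvs, hnb⟩ := nb2' eb (mem_nb_comm h.hv h.mb)
      by_cases hrb : r = b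
      · -- triangle
        subst hrb
        have hsa' : s = a := by
          have : H.Adj a r := adj_of (mem2b hna)
          rcases nbr2 hnb h.aA this with h1 | h1
          · exact absurd h1.symm h.nva
          · exact h1.symm
        subst hsa'
        have hRA : ({v, s, r} : Finset V) ⊆ A := by
          intro z hz
          simp only [mem_insert, mem_singleton] at hz
          rcases hz with rfl | rfl | rfl
          · exact h.hv
          · exact h.aA
          · exact h.bA
        have i1 : v ∉ ({s, r} : Finset V) := by simp [h.nva, h.nvb]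
        have hM : MV H Q A F {v, s, r} {v} ∅ := by
          refine ⟨hRA, by simp, ⟨v, by simp⟩, ?_, ?_⟩
          · intro w hw hwR z hz hwz
            simp only [mem_insert, mem_singleton] at hz ⊢
            rcases hz with rfl | rfl | rfl
            · exact Or.inl rfl
            · exact (out2 hna hw hwz hwR (by simp) (by simp)).elim
            · exact (out2 hnb hw hwz hwR (by simp) (by simp)).elim
          · intro z hz
            simp only [mem_insert, mem_singleton] at hz ⊢
            rcases hz with rfl | rfl | rfl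
            · exact Or.inl rfl
            · exact Or.inr (Or.inr (Or.inl ⟨h.haQ, v, by simp, adj_of h.ma⟩))
            · exact Or.inr (Or.inr (Or.inl ⟨h.hbQ, v, by simp, adj_of h.mb⟩))
        have hb : bdry H A {v, s, r} ≤ 3 := by
          unfold bdry
          rw [sum_insert i1, sum_pair h.hab]
          have c0 := dg_out (H := H) hRA (r := v) (T := {s, r}) (by simp [insert_subset_iff])
            (by rw [h.hn])
          have c1 := dg_out (H := H) hRA (r := s) (T := {v}) (by simp) (by rw [hna]; simp)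
          have c2 := dg_out (H := H) hRA (r := r) (T := {v}) (by simp) (by rw [hnb]; simp)
          rw [card_pair h.hab] at c0
          rw [card_singleton] at c1 c2
          have := h.dv
          omega
        have := (hM.zero IH hW hC hB hb).1
        have wa := wtU2 (H := H) (A := A) h.haQ haF ea
        have wb := wtU2 (H := H) (A := A) h.hbQ hbF eb
        rw [sum_insert i1, sum_pair h.hab, wtM2 (h.hvQ hW) h.hvF h.dv, card_singleton] at this
        push_cast at this
        linarith
      by_cases hr : r ∈ F ∨ Spc H Q A r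
      · exact h.c04a IH hW hC hB haF hbF hsa hsb hna hvr hnb hvs hrb hr
      · push Not at hr
        exact h.c04b IH hW hC hB haF hbF hsa hsb hna hvr eb hrb hr.1 hr.2
    · obtain ⟨h1, h2⟩ := h.base IH hW hB (h.b5 hW hB) (h.symm.b3 hW eb hTb)
      have h3 := h2.c2 (Or.inr (Or.inl ⟨a, ha1, not_nQ h.haQ, by omega⟩))
      linarith
  · obtain eb | eb : dg H A b = 2 ∨ dg H A b = 3 := by omega
    · obtain ⟨h1, h2⟩ := h.base IH hW hB (h.b3 hW ea hTa) (h.symm.b5 hW hB)
      have h3 := h2.c2 (Or.inr (Or.inl ⟨b, hb1, not_nQ h.hbQ, by omega⟩))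
      linarith
    · obtain ⟨h1, h2⟩ := h.base IH hW hB (h.b3 hW ea hTa) (h.symm.b3 hW eb hTb)
      have h3 := h2.c1 ⟨a, ha1, by omega⟩
      linarith

end

end Pool.Agent.H94.Dom
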