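import Mathlib
import Pool.Agent.Dom94.Dq7

/-! Decorated claims for MP_3fbd8d_co, part 8: the induction and the two interface statements. -/

set_option linter.unusedSectionVars false
set_option linter.unusedVariables false

namespace Pool.Agent.H94.Dom

open Finset

section
variable {V : Type} [DecidableEq V] {H : SimpleGraph V} {Q Q' A B F F' D R S X Y Z Bd : Finset V}

/-- a marked vertex in a graph without bridges -/
theorem q_mark (IH : IHq H A) (hW : WFQ H Q A F) (hC : Conn H A) (hB : Bl H A)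
    (hS : SPM H Q A F) {v : V} (hv : v ∈ A) (hvF : v ∈ F) : gq H Q A F ≤ 2 := by
  by_cases h0 : dg H A v = 0
  · linarith [q_iso hW hC hv h0]
  by_cases h1 : dg H A v = 1
  · exact q_leaf' IH hW hC hv h1
  have deg2 : ∀ u ∈ A, 2 ≤ dg H A u := by
    intro u hu
    by_cases huv : u = v
    · rw [huv]; omega
    · exact hB.dg2 hu hv huv
  by_cases hN : ∃ u ∈ A, u ∈ F ∧ Spc H Q A u
  · obtain ⟨u, hu, huF, e, he, heQ, hue⟩ := hN
    have huQ : u ∉ Q := fun hh => hW.qf u hu hh huF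
    have hd : dg H A u = 2 := by
      have := hW.f2 u hu huF
      have := deg2 u hu
      omega
    obtain ⟨p, hep, hn⟩ := nb2' hd (mem_nb.2 ⟨he, hue⟩)
    by_cases hp : p ∈ Q
    · exact q_IIa IH hW hC hB hu huQ huF hn hep heQ hp
    · exact q_IIb IH hW hC hB hS hu huQ huF hn hep heQ hp
  · push Not at hN
    have hvQ : v ∉ Q := fun hh => hW.qf v hv hh hvF
    have hd : dg H A v = 2 := by
      have := hW.f2 v hv hvF
      omega
    obtain ⟨a, b, hab, hn⟩ := nb2 hd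
    have h : C0 H Q A F v a b := by
      refine ⟨hS, hN, hv, hvF, hn, hab, ?_, ?_⟩
      · intro hh
        exact hN v hv hvF ⟨a, mem_of_nb (mem2a hn), hh, adj_of (mem2a hn)⟩
      · intro hh
        exact hN v hv hvF ⟨b, mem_of_nb (mem2b hn), hh, adj_of (mem2b hn)⟩
    exact h.all IH hW hC hB

theorem q_mark' (IH : IHq H A) (hW : WFQ H Q A F) (hC : Conn H A) (hB : Bl H A)
    {v : V} (hv : v ∈ A) (hvF : v ∈ F) : gq H Q A F ≤ 2 := by
  classical
  set F1 : Finset V := F ∪ A.filter (fun u => u ∉ Q ∧ Spc H Q A u ∧ dg H A u ≤ 2) with hF1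
  have hm : ∀ u, u ∈ F1 ↔ u ∈ F ∨ (u ∈ A ∧ u ∉ Q ∧ Spc H Q A u ∧ dg H A u ≤ 2) := by
    intro u
    rw [hF1]
    simp only [mem_union, mem_filter]
  have h1 : gq H Q A F ≤ gq H Q A F1 := gq_special hW (fun u _ huF => (hm u).2 (Or.inl huF))
    (fun u hu huF => by
      rcases (hm u).1 huF with h | h
      · exact Or.inl h
      · exact Or.inr ⟨h.2.1, h.2.2.1⟩)
  have hW1 : WFQ H Q A F1 := hW.special fun u hu huF => by
    rcases (hm u).1 huF with h | h
    · exact Or.inl h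
    · exact Or.inr ⟨h.2.1, h.2.2.2⟩
  refine h1.trans (q_mark IH hW1 hC hB ?_ hv ((hm v).2 (Or.inl hvF)))
  intro u hu huQ hs hd
  exact (hm u).2 (Or.inr ⟨hu, huQ, hs, hd⟩)

theorem q_c2 (IH : IHq H A) (hW : WFQ H Q A F) (hC : Conn H A)
    (h : (∃ v ∈ A, v ∈ F) ∨ (∃ v ∈ A, v ∉ Q ∧ dg H A v ≤ 1) ∨ ¬ Bl H A) : gq H Q A F ≤ 2 := by
  rcases h with ⟨v, hv, hvF⟩ | ⟨v, hv, hvQ, hd⟩ | h
  · by_cases hB : Bl H A
    · exact q_mark' IH hW hC hB hv hvF
    · exact q_bridge IH hW hC hB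
  · obtain hd | hd : dg H A v = 0 ∨ dg H A v = 1 := by omega
    · linarith [q_iso hW hC hv hd]
    · exact q_leaf' IH hW hC hv hd
  · exact q_bridge IH hW hC h

theorem q_c3 (IH : IHq H A) (hW : WFQ H Q A F) (hC : Conn H A)
    (h : ∃ v ∈ A, v ∉ Q ∧ v ∉ F ∧ dg H A v ≤ 2 ∧ ∃ e ∈ A, e ∈ Q ∧ H.Adj v e) :
    gq H Q A F ≤ -1 := by
  obtain ⟨v, hv, hvQ, hvF, hd, hs⟩ := h
  have h1 := gq_special1 hW hv hvQ hvF hd hs
  have hW1 : WFQ H Q A (insert v F) := hW.special fun u hu huF => by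
    rcases mem_insert.1 huF with rfl | h
    · exact Or.inr ⟨hvQ, hd⟩
    · exact Or.inl h
  have h2 := q_c2 IH hW1 hC (Or.inl ⟨v, hv, mem_insert_self _ _⟩)
  linarith

/-- one vertex selected in a graph without bridges -/
theorem q_selQ (IH : IHq H A) (hW : WFQ H Q A F) (hC : Conn H A) (hB : Bl H A) {e : V}
    (he : e ∈ A) (heQ : e ∈ Q) : gq H Q A F ≤ 4 := by
  have hRA : ({e} : Finset V) ⊆ A := by simpa using he
  have hM : MV H Q A F {e} {e} ∅ := by
    refine ⟨hRA, Subset.rfl, ⟨e, by simp⟩, ?_, ?_⟩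
    · intro w hw hwR r hr hwr
      exact Or.inl hr
    · intro r hr
      exact Or.inl hr
  have hb : bdry H A {e} ≤ 3 := by
    unfold bdry
    rw [sum_singleton]
    exact (dg_mono sdiff_subset e).trans (hW.deg e he)
  have := (hM.zero IH hW hC hB hb).1
  rw [sum_singleton, wtQ heQ, card_singleton] at this
  push_cast at this
  linarith

theorem q_c1 (IH : IHq H A) (hW : WFQ H Q A F) (hC : Conn H A)
    (h : ∃ v ∈ A, dg H A v ≤ 2) : gq H Q A F ≤ 4 := by
  by_cases h2 : (∃ v ∈ A, v ∈ F) ∨ (∃ v ∈ A, v ∉ Q ∧ dg H A v ≤ 1) ∨ ¬ Bl H A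
  · linarith [q_c2 IH hW hC h2]
  push Not at h2
  obtain ⟨hF, hL, hB⟩ := h2
  by_cases hQ : ∃ e ∈ A, e ∈ Q
  · obtain ⟨e, he, heQ⟩ := hQ
    exact q_selQ IH hW hC hB he heQ
  push Not at hQ
  have hcard : 2 ≤ A.card := by
    obtain ⟨v, hv, _⟩ := h
    have h1 := hL v hv (hQ v hv)
    obtain ⟨a, ha⟩ : (nb H A v).Nonempty := by
      rw [← card_pos]
      have : dg H A v = (nb H A v).card := rfl
      omega
    have hsub : ({v, a} : Finset V) ⊆ A := by
      intro x hx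
      rcases mem_insert.1 hx with rfl | hx
      · exact hv
      · rw [mem_singleton.1 hx]; exact mem_of_nb ha
    have := card_le_card hsub
    rw [card_pair (adj_of ha).ne] at this
    exact this
  have hfb := hW.inp A Subset.rfl hcard hQ hC hB h
  have h3 : dmq H Q A F ≤ dm H A ∅ := by
    obtain ⟨D, h1, h2⟩ := dm_spec H A ∅
    rw [← h2]
    refine dmq_le ⟨h1.1, fun v hv => ?_⟩
    rcases h1.2 v hv (by simp) with h3 | ⟨u, hu, huv⟩
    · exact Or.inl h3
    · exact Or.inr (Or.inr (Or.inl ⟨hQ v hv, u, hu, huv⟩))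
  have h4 : (dmq H Q A F : ℤ) ≤ dm H A ∅ := by exact_mod_cast h3
  have h5 : Phi H A ≤ ∑ v ∈ A, wt H Q A F v := by
    unfold Phi
    refine sum_le_sum fun v hv => ?_
    rw [wtU (hQ v hv) (hF v hv)]
    linarith [tc_nonneg (H := H) (Q := Q) (A := A) (v := v)]
  unfold fb at hfb
  unfold gq
  linarith

/-- all claims -/
theorem claims_Q (A : Finset V) : ∀ Q F, WFQ H Q A F → Conn H A → A.Nonempty → Cq H Q A F := by
  induction A using Finset.strongInduction with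
  | H A ih =>
    intro Q F hW hC _
    have IH : IHq H A := fun X hX Q F h1 h2 h3 => ih X hX Q F h1 h2 h3
    exact ⟨q_c1 IH hW hC, q_c2 IH hW hC, q_c3 IH hW hC⟩

/-- the bound for an arbitrary connected decorated graph, select any vertex -/
theorem q_any (hW : WFQ H Q A F) (hC : Conn H A) {p : V} (hp : p ∈ A) (hd : 1 ≤ dg H A p) :
    gq H Q A F ≤ 16 := by
  have hRA : ({p} : Finset V) ⊆ A := by simpa using hp
  have hM : MV H Q A F {p} {p} ∅ := by
    refine ⟨hRA, Subset.rfl, ⟨p, by simp⟩, ?_, ?_⟩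
    · intro w hw hwR r hr hwr
      exact Or.inl hr
    · intro r hr
      exact Or.inl hr
  have hm := hM.move hW (fun _ => 0) (by simp) (by simp)
  have hc := comps (Q' := nQ H Q {p}) (F' := nF H Q A F {p}) hC hRA ⟨p, by simp⟩ (by
    intro X hX hXn hXC hclo
    obtain ⟨x, hx, y, hy, hxy⟩ := hC X (hX.trans sdiff_subset) hXn
      ⟨p, mem_sdiff.2 ⟨hp, fun h => by simpa using (mem_sdiff.1 (hX h)).2⟩⟩
    rw [mem_sdiff] at hy
    have hyR : y ∈ ({p} : Finset V) := by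
      by_contra hyR
      exact hclo x hx y (mem_sdiff.2 ⟨hy.1, hyR⟩) hy.2 hxy
    have hcq : Cq H (nQ H Q {p}) X (nF H Q A F {p}) :=
      claims_Q X _ _ (hW.sub hM.rem hX hclo) hXC hXn
    exact c2_good hW hM.rem hX hcq hx (Or.inr (Or.inr ⟨y, hyR, hxy.symm⟩)))
    (A \ {p}) Subset.rfl Clo.self
  rw [← bdry_eq] at hc
  have hb : bdry H A {p} ≤ dg H A p := by
    unfold bdry
    rw [sum_singleton]
    exact dg_mono sdiff_subset p
  have hw := hW.wt_lb hp hd
  rw [sum_singleton, card_singleton, sum_empty] at hm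
  have hb' : (bdry H A {p} : ℤ) ≤ dg H A p := by exact_mod_cast hb
  push_cast at hm
  linarith

/-- from `gq` to a dominating set, if there are no `T`-vertices and no marks -/
theorem gq_dec {t : ℤ} (hg : gq H Q A ∅ ≤ t) (hT : ∀ v ∈ A, v ∉ Q → ¬ IsT H Q A v) :
    ∃ D, DomQ H Q A ∅ D ∧ 20 * (D.card : ℤ) ≤ PhiQ H Q A + t := by
  obtain ⟨D, h1, h2⟩ := dmq_spec H Q A ∅
  refine ⟨D, h1, ?_⟩
  have h3 : ∑ v ∈ A, wt H Q A ∅ v = PhiQ H Q A := by
    unfold PhiQ
    refine sum_congr rfl fun v hv => ?_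
    by_cases hQ : v ∈ Q
    · rw [wtQ hQ, if_pos hQ]
    · rw [wtU hQ (by simp), if_neg hQ, tc_of_not (hT v hv hQ), add_zero]
  unfold gq at hg
  rw [h3] at hg
  rw [h2]
  linarith

/-- The input: the bound for plain graphs. -/
def Plain4 (V : Type) [DecidableEq V] : Prop :=
  ∀ (H : SimpleGraph V) (A : Finset V), 2 ≤ A.card → Conn H A → Bl H A →
    (∀ v ∈ A, dg H A v ≤ 3) → (∃ v ∈ A, dg H A v ≤ 2) →
    (∀ w : Fin 7 → V, (∀ i, w i ∈ A) → ¬ IsG7 H w) →
    (∀ w : Fin 10 → V, (∀ i, w i ∈ A) → ¬ IsD10 H w) → fb H A ∅ ≤ 4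

theorem WF_of_Dec (h4 : Plain4 V) (h : Dec H Q A) : WFQ H Q A ∅ := by
  refine ⟨h.deg, h.q2, by simp, by simp, ?_⟩
  intro Z hZ hZ2 hZQ hZc hZb hZd
  have hm : ∀ z ∈ Z, z ∈ A \ Q := fun z hz => mem_sdiff.2 ⟨hZ hz, hZQ z hz⟩
  exact h4 H Z hZ2 hZc hZb (fun v hv => (dg_mono hZ v).trans (h.deg v (hZ hv))) hZd
    (fun w hw => h.g7 w fun i => hm _ (hw i)) (fun w hw => h.d10 w fun i => hm _ (hw i))

theorem decLeaf_of (h4 : Plain4 V) : DecLeaf V := by
  intro H Q A hD hC hcard ⟨v, hv, hvQ, hdv⟩ h2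
  have hW := WF_of_Dec h4 hD
  have hcl := claims_Q A Q ∅ hW hC ⟨v, hv⟩
  apply gq_dec (hcl.c2 (Or.inr (Or.inl ⟨v, hv, hvQ, hdv.le⟩)))
  rintro u hu huQ ⟨hdu, e, he, heQ, hn⟩
  obtain ⟨x, hx, hdx⟩ := h2 u hu huQ hdu
  have hx' : x ∈ nb H A e := by rw [hn]; exact hx
  have hxA := mem_of_nb hx
  have hsub : ({u, e} : Finset V) ⊆ nb H A x := by
    intro z hz
    rcases mem_insert.1 hz with rfl | hz
    · exact mem_nb_comm hu hx
    · rw [mem_singleton.1 hz]; exact mem_nb_comm he hx'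
  have hue : u ≠ e := by rintro rfl; exact huQ heQ
  have := card_le_card hsub
  rw [card_pair hue] at this
  have h3 : dg H A x = (nb H A x).card := rfl
  omega

theorem decCubic_of (h4 : Plain4 V) : DecCubic V := by
  intro H Q A hD hC ⟨p, hp⟩ h3
  have hW := WF_of_Dec h4 hD
  have hd : 1 ≤ dg H A p := by
    by_cases hQ : p ∈ Q
    · rw [hD.q2 p hp hQ]; norm_num
    · rw [h3 p hp hQ]; norm_num
  apply gq_dec (q_any hW hC hp hd)
  rintro u hu huQ ⟨hdu, _⟩
  have := h3 u hu huQ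
  omega

end

end Pool.Agent.H94.Dom
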