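import Mathlib
import Pool.Agent.Dom94.HandF

/-! Hand proofs for MP_3fbd8d_co, part G: two-edge cuts. -/

set_option linter.unusedSectionVars false

namespace Pool.Agent.H94.Dom

open Finset

section
variable {V : Type} [DecidableEq V] {H : SimpleGraph V} {A B F F' D X Y : Finset V}
variable {x1 x2 y1 y2 : V}

/-- a two-edge cut with distinct ends -/
structure Cut2 (H : SimpleGraph V) (A : Finset V) (x1 x2 y1 y2 : V) (X Y : Finset V) :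
    Prop where
  un : X ∪ Y = A
  dis : Disjoint X Y
  hx1 : x1 ∈ X
  hx2 : x2 ∈ X
  hy1 : y1 ∈ Y
  hy2 : y2 ∈ Y
  hx : x1 ≠ x2
  hy : y1 ≠ y2
  a1 : H.Adj x1 y1
  a2 : H.Adj x2 y2
  no : ∀ x ∈ X, ∀ y ∈ Y, H.Adj x y → (x = x1 ∧ y = y1) ∨ (x = x2 ∧ y = y2)

theorem Cut2.symm (h : Cut2 H A x1 x2 y1 y2 X Y) : Cut2 H A y1 y2 x1 x2 Y X :=
  ⟨by rw [union_comm, h.un], h.dis.symm, h.hy1, h.hy2, h.hx1, h.hx2, h.hy, h.hx, h.a1.symm,
    h.a2.symm, fun y hy x hx hxy => by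
      rcases h.no x hx y hy hxy.symm with ⟨h1, h2⟩ | ⟨h1, h2⟩
      · exact Or.inl ⟨h2, h1⟩
      · exact Or.inr ⟨h2, h1⟩⟩

theorem Cut2.swap (h : Cut2 H A x1 x2 y1 y2 X Y) : Cut2 H A x2 x1 y2 y1 X Y :=
  ⟨h.un, h.dis, h.hx2, h.hx1, h.hy2, h.hy1, h.hx.symm, h.hy.symm, h.a2, h.a1,
    fun x hx y hy hxy => (h.no x hx y hy hxy).symm⟩

theorem Cut2.subX (h : Cut2 H A x1 x2 y1 y2 X Y) : X ⊆ A := by
  rw [← h.un]; exact subset_union_left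

theorem Cut2.notY (h : Cut2 H A x1 x2 y1 y2 X Y) {v : V} (hv : v ∈ X) : v ∉ Y :=
  disjoint_left.1 h.dis hv

theorem Cut2.ssX (h : Cut2 H A x1 x2 y1 y2 X Y) : X ⊂ A := by
  refine ⟨h.subX, fun hsub => ?_⟩
  have : y1 ∈ X := hsub (by rw [← h.un]; exact mem_union_right _ h.hy1)
  exact h.notY this h.hy1

theorem Cut2.dg1 (h : Cut2 H A x1 x2 y1 y2 X Y) : dg H A x1 = dg H X x1 + 1 := by
  unfold dg
  have e : nb H A x1 = insert y1 (nb H X x1) := by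
    ext u
    rw [mem_nb, mem_insert, mem_nb, ← h.un, mem_union]
    constructor
    · rintro ⟨h1 | h1, h2⟩
      · exact Or.inr ⟨h1, h2⟩
      · rcases h.no x1 h.hx1 u h1 h2 with h3 | h3
        · exact Or.inl h3.2
        · exact absurd h3.1 h.hx
    · rintro (rfl | ⟨h1, h2⟩)
      · exact ⟨Or.inr h.hy1, h.a1⟩
      · exact ⟨Or.inl h1, h2⟩
  rw [e, card_insert_of_notMem]
  intro hy
  exact h.notY (mem_nb.1 hy).1 h.hy1

theorem Cut2.dgo (h : Cut2 H A x1 x2 y1 y2 X Y) {v : V} (hv : v ∈ X) (hv1 : v ≠ x1)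
    (hv2 : v ≠ x2) : dg H A v = dg H X v := by
  unfold dg
  congr 1
  ext u
  rw [mem_nb, mem_nb, ← h.un, mem_union]
  constructor
  · rintro ⟨h1 | h1, h2⟩
    · exact ⟨h1, h2⟩
    · rcases h.no v hv u h1 h2 with h3 | h3
      · exact absurd h3.1 hv1
      · exact absurd h3.1 hv2
  · rintro ⟨h1, h2⟩
    exact ⟨Or.inl h1, h2⟩

theorem Cut2.PhiX (h : Cut2 H A x1 x2 y1 y2 X Y) :
    ∑ v ∈ X, phi (dg H A v) = Phi H X - cc (dg H X x1) - cc (dg H X x2) := by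
  have h2 : x2 ∈ X.erase x1 := mem_erase.2 ⟨h.hx.symm, h.hx2⟩
  unfold Phi
  rw [← add_sum_erase X _ h.hx1, ← add_sum_erase _ _ h2,
    ← add_sum_erase X (fun v => phi (dg H X v)) h.hx1,
    ← add_sum_erase _ (fun v => phi (dg H X v)) h2, h.dg1, h.swap.dg1]
  have : ∑ v ∈ (X.erase x1).erase x2, phi (dg H A v) =
      ∑ v ∈ (X.erase x1).erase x2, phi (dg H X v) :=
    sum_congr rfl fun v hv => by
      rw [mem_erase, mem_erase] at hv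
      rw [h.dgo hv.2.2 hv.2.1 hv.1]
  rw [this]
  unfold cc
  ring

theorem Cut2.Phi (h : Cut2 H A x1 x2 y1 y2 X Y) :
    Dom.Phi H A = (Dom.Phi H X - cc (dg H X x1) - cc (dg H X x2)) +
      (Dom.Phi H Y - cc (dg H Y y1) - cc (dg H Y y2)) := by
  rw [← h.PhiX, ← h.symm.PhiX]
  conv_lhs => unfold Dom.Phi
  conv_lhs => rw [← h.un]
  rw [sum_union h.dis, h.un]

theorem Cut2.glue1 (h : Cut2 H A x1 x2 y1 y2 X Y) :
    fb H A F ≤ (fb H X F + cc (dg H X x1) + cc (dg H X x2)) +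
      (fb H Y F + cc (dg H Y y1) + cc (dg H Y y2)) := by
  have h1 : dm H A F ≤ dm H X F + dm H Y F := by rw [← h.un]; exact dm_union
  have h2 := h.Phi
  unfold fb
  have h3 : (dm H A F : ℤ) ≤ dm H X F + dm H Y F := by exact_mod_cast h1
  linarith

theorem Cut2.glue2 (h : Cut2 H A x1 x2 y1 y2 X Y) :
    fb H A ∅ ≤ (fb H X {x1} + cc (dg H X x1) + cc (dg H X x2)) +
      (fs H Y y1 + cc (dg H Y y1) + cc (dg H Y y2)) := by
  have h1 : dm H A ∅ ≤ dm H X {x1} + dmS H Y y1 := by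
    obtain ⟨D, h1, h2⟩ := dm_spec H X {x1}
    obtain ⟨E, h3, h4, h5⟩ := dmS_spec (H := H) h.hy1
    rw [← h2, ← h5]
    refine (dm_le (D := D ∪ E) ⟨?_, ?_⟩).trans (card_union_le _ _)
    · rw [← h.un]; exact union_subset_union h1.1 h3.1
    · intro v hv _
      rw [← h.un, mem_union] at hv
      rcases hv with hv | hv
      · by_cases hvx : v = x1
        · exact Or.inr ⟨y1, mem_union_right _ h4, hvx ▸ h.a1.symm⟩
        · rcases h1.2 v hv (by simp [hvx]) with h | ⟨u, hu, ha⟩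
          · exact Or.inl (mem_union_left _ h)
          · exact Or.inr ⟨u, mem_union_left _ hu, ha⟩
      · rcases h3.2 v hv (by simp) with h | ⟨u, hu, ha⟩
        · exact Or.inl (mem_union_right _ h)
        · exact Or.inr ⟨u, mem_union_right _ hu, ha⟩
  have h2 := h.Phi
  unfold fb fs
  have h3 : (dm H A ∅ : ℤ) ≤ dm H X {x1} + dmS H Y y1 := by exact_mod_cast h1
  linarith

theorem Cut2.nonemptyC (h : Cut2 H A x1 x2 y1 y2 X Y) {Z : Finset V} (hZ : Z ⊆ X) :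
    (A \ Z).Nonempty :=
  ⟨y1, mem_sdiff.2 ⟨by rw [← h.un]; exact mem_union_right _ h.hy1,
    fun hh => h.notY (hZ hh) h.hy1⟩⟩

theorem Cut2.conn (h : Cut2 H A x1 x2 y1 y2 X Y) (hC : Conn H A) (hB : Bl H A) : Conn H X := by
  apply conn_of_meet1 (a := x1)
  intro Z hZ hZn hZc
  by_contra hx1
  have hZA : Z ⊆ A := hZ.trans h.subX
  have key : ∀ z ∈ Z, ∀ p ∈ A \ Z, H.Adj z p → z = x2 ∧ p = y2 := by
    intro z hz p hp hzp
    rw [mem_sdiff, ← h.un, mem_union] at hp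
    have hpX : p ∉ X := fun hpX => hZc z hz p (mem_sdiff.2 ⟨hpX, hp.2⟩) hzp
    have hpY : p ∈ Y := by tauto
    rcases h.no z (hZ hz) p hpY hzp with h3 | h3
    · rw [h3.1] at hz; exact absurd hz hx1
    · exact h3
  obtain ⟨z, hz, p, hp, hzp⟩ := hC Z hZA hZn (h.nonemptyC hZ)
  have h1 := key z hz p hp hzp
  rw [h1.1] at hz
  exact hB.no hZA (h.nonemptyC hZ) hz key

theorem Cut2.connE (h : Cut2 H A x1 x2 y1 y2 X Y) (hC : Conn H A) (hB : Bl H A)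
    (h2 : dg H X x1 = 1 ∨ dg H X x1 = 2) : Conn H (X.erase x1) := by
  have hX := h.conn hC hB
  rcases h2 with h2 | h2
  · obtain ⟨r, hr⟩ := nb1 h2
    exact conn_erase_leaf hX h.hx1 hr
  obtain ⟨r, s, hrs, hn⟩ := nb2 h2
  rcases split_erase hX h.hx1 hn with h3 | ⟨P, Q, e1, e2, e3, e4, e5, e6, e7⟩
  · exact h3
  exfalso
  have key : ∀ {P Q : Finset V} {r s : V}, nb H X x1 = {r, s} → Disjoint P Q →
      P ∪ Q = X.erase x1 → r ∈ P → s ∈ Q → x2 ∉ P →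
      (∀ x ∈ P, ∀ y ∈ Q, ¬ H.Adj x y) → False := by
    intro P Q r s hn e1 e2 e3 e4 hx2 e7
    have hP : P ⊆ X.erase x1 := by rw [← e2]; exact subset_union_left
    have hPX : P ⊆ X := hP.trans (erase_subset _ _)
    refine hB.no (x := r) (y := x1) (hPX.trans h.subX) (h.nonemptyC hPX) e3 ?_
    intro u hu w hw huw
    rw [mem_sdiff, ← h.un, mem_union] at hw
    have hux1 : u ≠ x1 := ne_of_mem_erase (hP hu)
    have hux2 : u ≠ x2 := by rintro rfl; exact hx2 hu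
    have hwY : w ∉ Y := by
      intro hwY
      rcases h.no u (hPX hu) w hwY huw with h3 | h3
      · exact hux1 h3.1
      · exact hux2 h3.1
    have hwX : w ∈ X := by tauto
    by_cases hwx : w = x1
    · subst hwx
      refine ⟨?_, rfl⟩
      have : u ∈ nb H X w := mem_nb.2 ⟨hPX hu, huw.symm⟩
      rw [hn, mem_insert, mem_singleton] at this
      rcases this with h3 | h3
      · exact h3
      · subst h3
        exact absurd e4 (disjoint_left.1 e1 hu)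
    · have : w ∈ P ∪ Q := by rw [e2]; exact mem_erase.2 ⟨hwx, hwX⟩
      rcases mem_union.1 this with h3 | h3
      · exact absurd h3 hw.2
      · exact absurd huw (e7 u hu w h3)
  by_cases hx2 : x2 ∈ P
  · refine key (P := Q) (Q := P) (r := s) (s := r) (by rw [hn, pair_comm]) e1.symm
      (by rw [union_comm, e2]) e4 e3 (disjoint_left.1 e1 hx2)
      (fun x hx y hy hxy => e7 y hy x hx hxy.symm)
  · exact key hn e1 e2 e3 e4 hx2 e7

theorem dmS_sel {p : V} (hp : p ∈ X) :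
    dmS H X p ≤ dm H (X.erase p) (nb H X p) + 1 := by
  obtain ⟨D, h1, h2⟩ := dm_spec H (X.erase p) (nb H X p)
  rw [← h2]
  refine (dmS_le (D := insert p D) ⟨?_, fun v hv _ => ?_⟩ (mem_insert_self _ _)).trans
    (card_insert_le _ _)
  · intro v hv
    rcases mem_insert.1 hv with rfl | hv
    · exact hp
    · exact mem_of_mem_erase (h1.1 hv)
  · by_cases hvp : v = p
    · exact Or.inl (mem_insert.2 (Or.inl hvp))
    by_cases hn : H.Adj p v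
    · exact Or.inr ⟨p, mem_insert_self _ _, hn⟩
    · rcases h1.2 v (mem_erase.2 ⟨hvp, hv⟩) (by
        rw [mem_nb]
        tauto) with h | ⟨u, hu, ha⟩
      · exact Or.inl (mem_insert_of_mem h)
      · exact Or.inr ⟨u, mem_insert_of_mem hu, ha⟩

theorem fs_sel {p : V} (hp : p ∈ X) :
    fs H X p ≤ 20 + fb H (X.erase p) (nb H X p) - phi (dg H X p) +
      ∑ u ∈ nb H X p, cc (dg H (X.erase p) u) := by
  have h1 := dmS_sel (H := H) hp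
  unfold fs fb
  rw [Phi_erase hp]
  have h2 : (dmS H X p : ℤ) ≤ dm H (X.erase p) (nb H X p) + 1 := by exact_mod_cast h1
  linarith

/-- bounds for one side of the cut -/
theorem Cut2.sel1 (h : Cut2 H A x1 x2 y1 y2 X Y) (hC : Conn H A) (hd : ∀ v ∈ A, dg H A v ≤ 3)
    (IH : IHyp H A) (hB : Bl H A) :
    (dg H X x1 = 1 → fs H X x1 ≤ 8) ∧ (dg H X x1 = 2 → fs H X x1 ≤ 11) := by
  have h1 := fs_sel (H := H) h.hx1
  have hss : X.erase x1 ⊂ A := lt_of_le_of_lt (erase_subset _ _) h.ssX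
  have hdX : ∀ v ∈ X, dg H X v ≤ 3 := fun v hv => (dg_mono h.subX v).trans (hd v (h.subX hv))
  constructor
  · intro h2
    have hcon := h.connE hC hB (Or.inl h2)
    obtain ⟨r, hr⟩ := nb1 h2
    have hrm := mem1 hr
    have hc := IH _ hss ⟨r, mem_erase_nb hrm⟩ hcon
    rw [h2, phi1, hr, sum_singleton] at h1
    have k := K2 hcon hc (mem_erase_nb hrm) (dg_le_of_nb h.hx1 hrm (hdX r (mem_of_nb hrm)))
    linarith
  · intro h2
    have hcon := h.connE hC hB (Or.inr h2)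
    obtain ⟨r, s, hrs, hn⟩ := nb2 h2
    have hrm := mem2a hn
    have hsm := mem2b hn
    have hc := IH _ hss ⟨r, mem_erase_nb hrm⟩ hcon
    rw [h2, phi2, hn, sum_pair hrs] at h1
    have k := K4 hcon hc (mem_erase_nb hrm) (dg_le_of_nb h.hx1 hrm (hdX r (mem_of_nb hrm)))
      (mem_erase_nb hsm) (dg_le_of_nb h.hx1 hsm (hdX s (mem_of_nb hsm))) hrs
    linarith

/-- the numbers of one side -/
structure Side (d1 d2 a f1 f2 s1 s2 ff : ℤ) : Prop where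
  c1 : d1 = 1 ∨ d1 = 2
  c2 : d2 = 1 ∨ d2 = 2
  m1 : ∃ k : ℤ, 0 ≤ k ∧ f1 + 20 * k = a
  m2 : ∃ k : ℤ, 0 ≤ k ∧ f2 + 20 * k = a
  n1 : ∃ k : ℤ, 0 ≤ k ∧ a + 20 * k = s1
  n2 : ∃ k : ℤ, 0 ≤ k ∧ a + 20 * k = s2
  mm : ∃ k : ℤ, 0 ≤ k ∧ ff + 20 * k = a
  a5 : a ≤ 5
  al1 : d1 = 1 → a ≤ 2
  al2 : d2 = 1 → a ≤ 2
  b1 : f1 ≤ -1
  b2 : f2 ≤ -1
  b1' : d1 = 1 → f1 ≤ -6
  b2' : d2 = 1 → f2 ≤ -6
  e1 : d1 = 1 → s1 ≤ 8
  e2 : d2 = 1 → s2 ≤ 8
  e1' : d1 = 2 → s1 ≤ 11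
  e2' : d2 = 2 → s2 ≤ 11
  p : ff ≤ -4

theorem Cut2.side (h : Cut2 H A x1 x2 y1 y2 X Y) (hC : Conn H A) (hd : ∀ v ∈ A, dg H A v ≤ 3)
    (IH : IHyp H A) (hB : Bl H A) :
    Side (dg H X x1) (dg H X x2) (fb H X ∅) (fb H X {x1}) (fb H X {x2}) (fs H X x1)
      (fs H X x2) (fb H X {x1, x2}) := by
  have hcon := h.conn hC hB
  have hc := IH X h.ssX ⟨x1, h.hx1⟩ hcon
  have t1 := h.dg1
  have t2 := h.swap.dg1
  have u1 := hd x1 (h.subX h.hx1)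
  have u2 := hd x2 (h.subX h.hx2)
  have p1 := dg_pos hcon h.hx1 h.hx2 h.hx
  have p2 := dg_pos hcon h.hx2 h.hx1 h.hx.symm
  have s1 := h.sel1 hC hd IH hB
  have s2 := h.swap.sel1 hC hd IH hB
  have key : ∀ F : Finset V, dm H X F ≤ dm H X ∅ → ∃ k : ℤ, 0 ≤ k ∧
      fb H X F + 20 * k = fb H X ∅ := by
    intro F hF
    refine ⟨(dm H X ∅ : ℤ) - dm H X F, ?_, ?_⟩
    · have : (dm H X F : ℤ) ≤ dm H X ∅ := by exact_mod_cast hF
      linarith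
    · unfold fb; ring
  have key2 : ∀ y ∈ X, ∃ k : ℤ, 0 ≤ k ∧ fb H X ∅ + 20 * k = fs H X y := by
    intro y hy
    refine ⟨(dmS H X y : ℤ) - dm H X ∅, ?_, ?_⟩
    · have : (dm H X ∅ : ℤ) ≤ dmS H X y := by exact_mod_cast dmS_ge hy
      linarith
    · unfold fb fs; ring
  have c1 : dg H X x1 = 1 ∨ dg H X x1 = 2 := by omega
  have c2 : dg H X x2 = 1 ∨ dg H X x2 = 2 := by omega
  exact {
    c1 := by rcases c1 with h | h <;> simp [h]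
    c2 := by rcases c2 with h | h <;> simp [h]
    m1 := key _ (dm_mono (by simp))
    m2 := key _ (dm_mono (by simp))
    n1 := key2 _ h.hx1
    n2 := key2 _ h.hx2
    mm := key _ (dm_mono (by simp))
    a5 := hc.full
    al1 := fun hh => hc.leaf x1 h.hx1 (by exact_mod_cast hh)
    al2 := fun hh => hc.leaf x2 h.hx2 (by exact_mod_cast hh)
    b1 := hc.mark x1 h.hx1 (by omega)
    b2 := hc.mark x2 h.hx2 (by omega)
    b1' := fun hh => hc.mark1 x1 h.hx1 (by omega)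
    b2' := fun hh => hc.mark1 x2 h.hx2 (by omega)
    e1 := fun hh => s1.1 (by exact_mod_cast hh)
    e2 := fun hh => s2.1 (by exact_mod_cast hh)
    e1' := fun hh => s1.2 (by exact_mod_cast hh)
    e2' := fun hh => s2.2 (by exact_mod_cast hh)
    p := hc.pair x1 h.hx1 x2 h.hx2 h.hx (by omega) (by omega) }

/-- arithmetic of two sides -/
theorem two_sides {d1 d2 a f1 f2 s1 s2 ff e1 e2 b g1 g2 t1 t2 gg : ℤ}
    (hX : Side d1 d2 a f1 f2 s1 s2 ff) (hY : Side e1 e2 b g1 g2 t1 t2 gg)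
    (n1 : ¬ (d1 = 1 ∧ e1 = 1)) (n2 : ¬ (d2 = 1 ∧ e2 = 1))
    (u0 : 5 ≤ (a + (6 - 2 * d1) + (6 - 2 * d2)) + (b + (6 - 2 * e1) + (6 - 2 * e2)))
    (u1 : 5 ≤ (f1 + (6 - 2 * d1) + (6 - 2 * d2)) + (t1 + (6 - 2 * e1) + (6 - 2 * e2)))
    (u2 : 5 ≤ (f2 + (6 - 2 * d1) + (6 - 2 * d2)) + (t2 + (6 - 2 * e1) + (6 - 2 * e2)))
    (v1 : 5 ≤ (s1 + (6 - 2 * d1) + (6 - 2 * d2)) + (g1 + (6 - 2 * e1) + (6 - 2 * e2)))
    (v2 : 5 ≤ (s2 + (6 - 2 * d1) + (6 - 2 * d2)) + (g2 + (6 - 2 * e1) + (6 - 2 * e2))) :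
    (d1 = 2 ∧ d2 = 2 ∧ e1 = 2 ∧ e2 = 2 ∧ a ≤ -1 ∧ -2 ≤ a ∧ b ≤ -1 ∧ -2 ≤ b) ∨
    (d1 = 1 ∧ d2 = 1 ∧ e1 = 2 ∧ e2 = 2 ∧
      ((a = 2 ∧ b = -9) ∨ (a = -12 ∧ b = 5) ∨ (a = -6 ∧ b = -1))) ∨
    (e1 = 1 ∧ e2 = 1 ∧ d1 = 2 ∧ d2 = 2 ∧
      ((b = 2 ∧ a = -9) ∨ (b = -12 ∧ a = 5) ∨ (b = -6 ∧ a = -1))) := by
  obtain ⟨c1, c2, ⟨k1, m1, m1'⟩, ⟨k2, m2, m2'⟩, ⟨k3, m3, m3'⟩, ⟨k4, m4, m4'⟩, ⟨k5, m5, m5'⟩,
    a5, al1, al2, b1, b2, b1', b2', q1, q2, q1', q2', p⟩ := hX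
  obtain ⟨C1, C2, ⟨K1, M1, M1'⟩, ⟨K2, M2, M2'⟩, ⟨K3, M3, M3'⟩, ⟨K4, M4, M4'⟩, ⟨K5, M5, M5'⟩,
    A5, Al1, Al2, B1, B2, B1', B2', Q1, Q2, Q1', Q2', P⟩ := hY
  rcases c1 with c1 | c1 <;> rcases c2 with c2 | c2 <;> rcases C1 with C1 | C1 <;>
    rcases C2 with C2 | C2 <;> subst c1 <;> subst c2 <;> subst C1 <;> subst C2 <;>
    norm_num at * <;> omega

end

end Pool.Agent.H94.Dom
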