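import Mathlib
import Pool.Agent.Dom94.HandG

/-! Hand proofs for MP_3fbd8d_co, part H: two-edge cuts in a counterexample. -/

set_option linter.unusedSectionVars false

namespace Pool.Agent.H94.Dom

open Finset

section
variable {V : Type} [DecidableEq V] {H : SimpleGraph V} {A B F F' D X Y : Finset V}
variable {x1 x2 y1 y2 : V}

theorem cc_lin {d : ℕ} (h : (d : ℤ) = 1 ∨ (d : ℤ) = 2) : cc d = 6 - 2 * (d : ℤ) := by
  rcases h with h | h
  · have : d = 1 := by exact_mod_cast h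
    subst this
    rw [cc1]; norm_num
  · have : d = 2 := by exact_mod_cast h
    subst this
    rw [cc2]; norm_num

theorem Cut2.step12 (h : Cut2 H A x1 x2 y1 y2 X Y) (hC : Conn H A) (hd : ∀ v ∈ A, dg H A v ≤ 3)
    (IH : IHyp H A) (hB : Bl H A) (h5 : 5 ≤ fb H A ∅)
    (h22 : ∀ v ∈ A, ∀ w ∈ A, H.Adj v w → dg H A v = 2 → dg H A w = 2 → False) :
    (dg H X x1 = 2 ∧ dg H X x2 = 2 ∧ dg H Y y1 = 2 ∧ dg H Y y2 = 2 ∧
      fb H X ∅ ≤ -1 ∧ -2 ≤ fb H X ∅ ∧ fb H Y ∅ ≤ -1 ∧ -2 ≤ fb H Y ∅) ∨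
    (dg H X x1 = 1 ∧ dg H X x2 = 1 ∧ dg H Y y1 = 2 ∧ dg H Y y2 = 2 ∧
      ((fb H X ∅ = 2 ∧ fb H Y ∅ = -9) ∨ (fb H X ∅ = -12 ∧ fb H Y ∅ = 5) ∨
        (fb H X ∅ = -6 ∧ fb H Y ∅ = -1))) ∨
    (dg H Y y1 = 1 ∧ dg H Y y2 = 1 ∧ dg H X x1 = 2 ∧ dg H X x2 = 2 ∧
      ((fb H Y ∅ = 2 ∧ fb H X ∅ = -9) ∨ (fb H Y ∅ = -12 ∧ fb H X ∅ = 5) ∨
        (fb H Y ∅ = -6 ∧ fb H X ∅ = -1))) := by
  have sX := h.side hC hd IH hB
  have sY := h.symm.side hC hd IH hB
  have g0 := h.glue1 (F := ∅)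
  have g1 := h.glue2
  have g2 := h.swap.glue2
  have g3 := h.symm.glue2
  have g4 := h.swap.symm.glue2
  rw [cc_lin sX.c1, cc_lin sX.c2, cc_lin sY.c1, cc_lin sY.c2] at g0 g1 g2 g3 g4
  have memA : ∀ {v : V}, v ∈ Y → v ∈ A := fun hv => by rw [← h.un]; exact mem_union_right _ hv
  have n1 : ¬ ((dg H X x1 : ℤ) = 1 ∧ (dg H Y y1 : ℤ) = 1) := by
    rintro ⟨t1, t2⟩
    have t3 := h.dg1
    have t4 := h.symm.dg1
    exact h22 x1 (h.subX h.hx1) y1 (memA h.hy1) h.a1 (by omega) (by omega)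
  have n2 : ¬ ((dg H X x2 : ℤ) = 1 ∧ (dg H Y y2 : ℤ) = 1) := by
    rintro ⟨t1, t2⟩
    have t3 := h.swap.dg1
    have t4 := h.swap.symm.dg1
    exact h22 x2 (h.subX h.hx2) y2 (memA h.hy2) h.a2 (by omega) (by omega)
  have := two_sides sX sY n1 n2 (by linarith) (by linarith) (by linarith) (by linarith)
    (by linarith)
  rcases this with ⟨q1, q2, q3, q4, q5⟩ | ⟨q1, q2, q3, q4, q5⟩ | ⟨q1, q2, q3, q4, q5⟩
  · exact Or.inl ⟨by exact_mod_cast q1, by exact_mod_cast q2, by exact_mod_cast q3,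
      by exact_mod_cast q4, q5⟩
  · exact Or.inr (Or.inl ⟨by exact_mod_cast q1, by exact_mod_cast q2, by exact_mod_cast q3,
      by exact_mod_cast q4, q5⟩)
  · exact Or.inr (Or.inr ⟨by exact_mod_cast q1, by exact_mod_cast q2, by exact_mod_cast q3,
      by exact_mod_cast q4, q5⟩)

/-- both ends in `X` of degree one: move them to the other side -/
theorem Cut2.step3 (h : Cut2 H A x1 x2 y1 y2 X Y) (hC : Conn H A) (hd : ∀ v ∈ A, dg H A v ≤ 3)
    (IH : IHyp H A) (hB : Bl H A) (h5 : 5 ≤ fb H A ∅)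
    (h22 : ∀ v ∈ A, ∀ w ∈ A, H.Adj v w → dg H A v = 2 → dg H A w = 2 → False)
    (d1 : dg H X x1 = 1) (d2 : dg H X x2 = 1) (e1 : dg H Y y1 = 2) (e2 : dg H Y y2 = 2)
    (hv : fb H Y ∅ = -9 ∨ fb H Y ∅ = 5 ∨ fb H Y ∅ = -1) : False := by
  obtain ⟨r1, hr1⟩ := nb1 d1
  obtain ⟨r2, hr2⟩ := nb1 d2
  have m1 := mem1 hr1
  have m2 := mem1 hr2
  have A1 : dg H A x1 = 2 := by rw [h.dg1, d1]
  have A2 : dg H A x2 = 2 := by rw [h.swap.dg1, d2]
  have x1A := h.subX h.hx1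
  have x2A := h.subX h.hx2
  have nadj : ¬ H.Adj x1 x2 := fun hh => h22 x1 x1A x2 x2A hh A1 A2
  have r1X := mem_of_nb m1
  have r2X := mem_of_nb m2
  have ad1 : H.Adj x1 r1 := (mem_nb.1 m1).2
  have ad2 : H.Adj x2 r2 := (mem_nb.1 m2).2
  have r1x1 : r1 ≠ x1 := ne_nb m1
  have r2x2 : r2 ≠ x2 := ne_nb m2
  have r1x2 : r1 ≠ x2 := by rintro rfl; exact nadj ad1
  have r2x1 : r2 ≠ x1 := by rintro rfl; exact nadj ad2.symm
  have hx1Y : x1 ∉ Y := h.notY h.hx1
  have hx2Y : x2 ∉ Y := h.notY h.hx2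
  -- `r1 ≠ r2`
  have hXr : ∀ u ∈ X, ∀ w, H.Adj u w → w ∈ X → w = x1 → u = r1 := by
    intro u hu w huw hw hwx
    subst hwx
    have : u ∈ nb H X w := mem_nb.2 ⟨hu, huw.symm⟩
    rw [hr1, mem_singleton] at this
    exact this
  have hXr2 : ∀ u ∈ X, ∀ w, H.Adj u w → w ∈ X → w = x2 → u = r2 := by
    intro u hu w huw hw hwx
    subst hwx
    have : u ∈ nb H X w := mem_nb.2 ⟨hu, huw.symm⟩
    rw [hr2, mem_singleton] at this
    exact this
  have hrr : r1 ≠ r2 := by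
    intro hr
    subst hr
    have r1A := h.subX r1X
    have hx1n : x1 ∈ nb H A r1 := mem_nb.2 ⟨x1A, ad1.symm⟩
    have hx2n : x2 ∈ nb H A r1 := mem_nb.2 ⟨x2A, ad2.symm⟩
    have hge : 2 ≤ dg H A r1 := by
      unfold dg
      rw [← card_pair h.hx]
      apply card_le_card
      intro t ht
      rw [mem_insert, mem_singleton] at ht
      rcases ht with rfl | rfl
      · exact hx1n
      · exact hx2n
    have hne2 : dg H A r1 ≠ 2 := fun hh => h22 r1 r1A x1 x1A ad1.symm hh A1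
    have h3 : dg H A r1 = 3 := by have := hd r1 r1A; omega
    obtain ⟨z, hz1, hz2, hn⟩ := nb3'' h3 hx1n hx2n h.hx
    have hzn : z ∈ nb H A r1 := by rw [hn]; simp
    have hzA := mem_of_nb hzn
    have hzY : z ∉ Y := by
      intro hzY
      rcases h.no r1 r1X z hzY (mem_nb.1 hzn).2 with t | t
      · exact r1x1 t.1
      · exact r2x2 t.1
    -- the set `Y ∪ {x1, x2, r1}` has one boundary edge
    set Z : Finset V := X \ {x1, x2, r1} with hZ
    have hzZ : z ∈ Z := by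
      rw [hZ, mem_sdiff]
      refine ⟨by rw [← h.un, mem_union] at hzA; tauto, ?_⟩
      simp only [mem_insert, mem_singleton]
      rintro (t | t | t)
      · exact hz1 t.symm
      · exact hz2 t.symm
      · exact ne_nb hzn t
    have hZX : Z ⊆ X := sdiff_subset
    refine hB.no (x := z) (y := r1) (hZX.trans h.subX) (h.nonemptyC hZX) hzZ ?_
    intro u hu w hw huw
    rw [hZ, mem_sdiff] at hu
    simp only [mem_insert, mem_singleton, not_or] at hu
    obtain ⟨huX, hu1, hu2, hu3⟩ := hu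
    rw [mem_sdiff] at hw
    have hwY : w ∉ Y := by
      intro hwY
      rcases h.no u huX w hwY huw with t | t
      · exact hu1 t.1
      · exact hu2 t.1
    have hwX : w ∈ X := by
      have := hw.1
      rw [← h.un, mem_union] at this
      tauto
    have hw3 : w = x1 ∨ w = x2 ∨ w = r1 := by
      by_contra hcon
      push Not at hcon
      apply hw.2
      rw [hZ, mem_sdiff]
      simp only [mem_insert, mem_singleton, not_or]
      exact ⟨hwX, hcon⟩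
    rcases hw3 with t | t | t
    · exact absurd (hXr u huX w huw hwX t) hu3
    · exact absurd (hXr2 u huX w huw hwX t) hu3
    · subst t
      have : u ∈ nb H A w := mem_nb.2 ⟨h.subX huX, huw.symm⟩
      rw [hn] at this
      simp only [mem_insert, mem_singleton] at this
      rcases this with t | t | t
      · exact absurd t hu1
      · exact absurd t hu2
      · exact ⟨t, rfl⟩
  -- the new cut
  set X' : Finset V := (X.erase x1).erase x2 with hX'
  set Y' : Finset V := insert x1 (insert x2 Y) with hY'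
  have memX' : ∀ v, v ∈ X' ↔ v ∈ X ∧ v ≠ x1 ∧ v ≠ x2 := by
    intro v
    simp only [hX', mem_erase]
    tauto
  have memY' : ∀ v, v ∈ Y' ↔ v = x1 ∨ v = x2 ∨ v ∈ Y := by
    intro v
    simp only [hY', mem_insert]
  have hcut : Cut2 H A r1 r2 x1 x2 X' Y' := by
    refine ⟨?_, ?_, (memX' r1).2 ⟨r1X, r1x1, r1x2⟩, (memX' r2).2 ⟨r2X, r2x1, r2x2⟩,
      (memY' x1).2 (Or.inl rfl), (memY' x2).2 (Or.inr (Or.inl rfl)), hrr, h.hx, ad1.symm,
      ad2.symm, ?_⟩
    · ext v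
      rw [mem_union, memX', memY', ← h.un, mem_union]
      constructor
      · rintro (t | t | t | t)
        · exact Or.inl t.1
        · subst t; exact Or.inl h.hx1
        · subst t; exact Or.inl h.hx2
        · exact Or.inr t
      · rintro (t | t)
        · by_cases t1 : v = x1
          · exact Or.inr (Or.inl t1)
          by_cases t2 : v = x2
          · exact Or.inr (Or.inr (Or.inl t2))
          exact Or.inl ⟨t, t1, t2⟩
        · exact Or.inr (Or.inr (Or.inr t))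
    · rw [disjoint_left]
      intro v hv hv'
      rw [memX'] at hv
      rw [memY'] at hv'
      rcases hv' with t | t | t
      · exact hv.2.1 t
      · exact hv.2.2 t
      · exact h.notY hv.1 t
    · intro u hu w hw huw
      rw [memX'] at hu
      rw [memY'] at hw
      rcases hw with t | t | t
      · exact Or.inl ⟨hXr u hu.1 w huw (t ▸ h.hx1) t, t⟩
      · exact Or.inr ⟨hXr2 u hu.1 w huw (t ▸ h.hx2) t, t⟩
      · rcases h.no u hu.1 w t huw with s | s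
        · exact absurd s.1 hu.2.1
        · exact absurd s.1 hu.2.2
  -- degrees in `Y'`
  have dgx1 : dg H Y' x1 = 1 := by
    have := hcut.symm.dg1
    omega
  have dgx2 : dg H Y' x2 = 1 := by
    have := hcut.symm.swap.dg1
    omega
  have dgy : ∀ v ∈ Y, dg H Y' v = dg H A v := by
    intro v hv
    unfold dg
    congr 1
    ext u
    rw [mem_nb, mem_nb, memY', ← h.un, mem_union]
    constructor
    · rintro ⟨t | t | t, t'⟩
      · subst t; exact ⟨Or.inl h.hx1, t'⟩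
      · subst t; exact ⟨Or.inl h.hx2, t'⟩
      · exact ⟨Or.inr t, t'⟩
    · rintro ⟨t | t, t'⟩
      · rcases h.no u t v hv t'.symm with s | s
        · exact ⟨Or.inl s.1, t'⟩
        · exact ⟨Or.inr (Or.inl s.1), t'⟩
      · exact ⟨Or.inr (Or.inr t), t'⟩
  have hPhi : Dom.Phi H Y' = Dom.Phi H Y + 22 := by
    have hx2' : x2 ∉ Y := hx2Y
    have hx1' : x1 ∉ insert x2 Y := by
      rw [mem_insert]
      rintro (t | t)
      · exact h.hx t
      · exact hx1Y t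
    have t1 : Dom.Phi H Y' = phi (dg H Y' x1) + (phi (dg H Y' x2) + ∑ v ∈ Y, phi (dg H Y' v)) := by
      unfold Dom.Phi
      rw [hY', sum_insert hx1', sum_insert hx2']
    rw [t1, dgx1, dgx2, phi1, sum_congr rfl (fun v hv => by rw [dgy v hv]), h.symm.PhiX, e1, e2,
      cc2]
    ring
  have key := hcut.symm.step12 hC hd IH hB h5 h22
  have hfY' : ∃ k : ℤ, fb H Y' ∅ = 20 * k - Dom.Phi H Y' := ⟨_, rfl⟩
  have hfY : ∃ k : ℤ, fb H Y ∅ = 20 * k - Dom.Phi H Y := ⟨_, rfl⟩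
  obtain ⟨k1, hk1⟩ := hfY'
  obtain ⟨k2, hk2⟩ := hfY
  rw [hPhi] at hk1
  rcases key with key | key | key
  · omega
  · obtain ⟨-, -, -, -, key⟩ := key
    omega
  · omega

theorem Cut2.good (h : Cut2 H A x1 x2 y1 y2 X Y) (hC : Conn H A) (hd : ∀ v ∈ A, dg H A v ≤ 3)
    (IH : IHyp H A) (hB : Bl H A) (h5 : 5 ≤ fb H A ∅)
    (h22 : ∀ v ∈ A, ∀ w ∈ A, H.Adj v w → dg H A v = 2 → dg H A w = 2 → False) :
    dg H A x1 = 3 ∧ dg H A x2 = 3 ∧ dg H A y1 = 3 ∧ dg H A y2 = 3 ∧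
      fb H X ∅ ≤ -1 ∧ fb H X {x1, x2} ≤ -21 := by
  rcases h.step12 hC hd IH hB h5 h22 with key | key | key
  · obtain ⟨k1, k2, k3, k4, k5, k6, k7, k8⟩ := key
    have t1 := h.dg1
    have t2 := h.swap.dg1
    have t3 := h.symm.dg1
    have t4 := h.swap.symm.dg1
    have sX := h.side hC hd IH hB
    obtain ⟨k, hk, hk'⟩ := sX.mm
    have := sX.p
    refine ⟨by omega, by omega, by omega, by omega, k5, by omega⟩
  · obtain ⟨k1, k2, k3, k4, k5⟩ := key
    exact (h.step3 hC hd IH hB h5 h22 k1 k2 k3 k4 (by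
      rcases k5 with t | t | t
      · exact Or.inl t.2
      · exact Or.inr (Or.inl t.2)
      · exact Or.inr (Or.inr t.2))).elim
  · obtain ⟨k1, k2, k3, k4, k5⟩ := key
    exact (h.symm.step3 hC hd IH hB h5 h22 k1 k2 k3 k4 (by
      rcases k5 with t | t | t
      · exact Or.inl t.2
      · exact Or.inr (Or.inl t.2)
      · exact Or.inr (Or.inr t.2))).elim

/-- The lemma on two-edge cuts, in the form used by the explorer. -/
theorem cut2 (hC : Conn H A) (hd : ∀ v ∈ A, dg H A v ≤ 3) (IH : IHyp H A) (hB : Bl H A)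
    (h5 : 5 ≤ fb H A ∅)
    (h22 : ∀ v ∈ A, ∀ w ∈ A, H.Adj v w → dg H A v = 2 → dg H A w = 2 → False)
    (hXY : X ∪ Y = A) (hdis : Disjoint X Y) (hx1 : x1 ∈ X) (hx2 : x2 ∈ X) (hy1 : y1 ∈ Y)
    (hy2 : y2 ∈ Y) (hx : x1 ≠ x2) (hy : y1 ≠ y2) (a1 : H.Adj x1 y1) (a2 : H.Adj x2 y2)
    (hno : ∀ x ∈ X, ∀ y ∈ Y, H.Adj x y → (x = x1 ∧ y = y1) ∨ (x = x2 ∧ y = y2)) :
    dg H A x1 = 3 ∧ dg H A x2 = 3 ∧ dg H A y1 = 3 ∧ dg H A y2 = 3 ∧
      fb H X ∅ ≤ -1 ∧ fb H X {x1, x2} ≤ -21 :=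
  (Cut2.mk hXY hdis hx1 hx2 hy1 hy2 hx hy a1 a2 hno).good hC hd IH hB h5 h22

end

end Pool.Agent.H94.Dom
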