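import Pool.Agent.Dom94.Defs

/-! The rings `R_k` (Kelmans): connected cubic graphs on `20 k` vertices, every dominating
set has at least `7 k` vertices. -/

namespace Pool.Agent.H94.Dom

/-- Edge list of the 20-vertex block (`0 = x`, `1 = y` have degree two inside the block). -/
def blkList : List (ℕ × ℕ) :=
  [(0,4),(2,6),(1,12),(2,14),(0,3),(1,3),(2,3),
   (4,5),(4,9),(5,7),(5,8),(6,9),(6,11),(7,10),(7,11),(8,10),(8,11),(9,10),
   (12,13),(12,17),(13,15),(13,16),(14,17),(14,19),(15,18),(15,19),(16,18),(16,19),(17,18)]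

def blk (a b : Fin 20) : Bool :=
  blkList.contains (a.val, b.val) || blkList.contains (b.val, a.val)

theorem blk_symm : ∀ a b : Fin 20, blk a b = true → blk b a = true := by
  intro a b h
  unfold blk at *
  rw [Bool.or_comm]
  exact h

theorem blk_irrefl : ∀ a : Fin 20, blk a a = false := by decide

theorem blk_zero_one : blk 0 1 = false := by decide

/-- The ring of `k + 1` blocks. -/
def ring (k : ℕ) : SimpleGraph (Fin (k + 1) × Fin 20) where
  Adj p q := (p.1 = q.1 ∧ blk p.2 q.2 = true) ∨ (q.1 = p.1 + 1 ∧ p.2 = 0 ∧ q.2 = 1) ∨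
    (p.1 = q.1 + 1 ∧ p.2 = 1 ∧ q.2 = 0)
  symm := ⟨by
    rintro p q (⟨h1, h2⟩ | ⟨h1, h2, h3⟩ | ⟨h1, h2, h3⟩)
    · exact Or.inl ⟨h1.symm, blk_symm _ _ h2⟩
    · exact Or.inr (Or.inr ⟨h1, h3, h2⟩)
    · exact Or.inr (Or.inl ⟨h1, h3, h2⟩)⟩
  loopless := ⟨by
    rintro p (⟨-, h2⟩ | ⟨-, h2, h3⟩ | ⟨-, h2, h3⟩)
    · rw [blk_irrefl] at h2
      exact absurd h2 (by decide)
    · rw [h2] at h3
      exact absurd h3 (by decide)
    · rw [h2] at h3
      exact absurd h3 (by decide)⟩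

/-! ### The 8-vertex pole -/

/-- Domination of the six inner vertices of the pole `0..7` with ends `0` and `2`. -/
def poleInner (b0 b1 b2 b3 b4 b5 b6 b7 : Bool) : Bool :=
  (b1 || b0 || b3 || b4) && (b3 || b1 || b6 || b7) && (b4 || b1 || b6 || b7) &&
  (b5 || b0 || b2 || b6) && (b6 || b3 || b4 || b5) && (b7 || b2 || b3 || b4)

def poleCount (b0 b1 b2 b3 b4 b5 b6 b7 : Bool) : ℕ :=
  b0.toNat + b1.toNat + b2.toNat + b3.toNat + b4.toNat + b5.toNat + b6.toNat + b7.toNat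

/-- `(0 dominated inside)` or `(2 dominated inside)`. -/
def poleEnd (b0 b1 b2 _b3 _b4 b5 _b6 b7 : Bool) : Bool :=
  (b0 || b1 || b5) || (b2 || b5 || b7)

def poleCheck (b0 b1 b2 b3 b4 b5 b6 b7 : Bool) : Bool :=
  !(poleInner b0 b1 b2 b3 b4 b5 b6 b7) ||
    (decide (2 ≤ poleCount b0 b1 b2 b3 b4 b5 b6 b7) &&
      (decide (3 ≤ poleCount b0 b1 b2 b3 b4 b5 b6 b7) || !(poleEnd b0 b1 b2 b3 b4 b5 b6 b7)))

theorem poleCheck_all : ∀ b0 b1 b2 b3 b4 b5 b6 b7 : Bool,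
    poleCheck b0 b1 b2 b3 b4 b5 b6 b7 = true := by decide

end Pool.Agent.H94.Dom
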