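import Pool.Agent.Dom94.PRng
import Pool.Agent.Dom94.PData

/-! Checked ranges of the certificate. -/

set_option maxRecDepth 1000000

namespace Pool.Agent.H94.Dom.P

theorem ck88 : chkR tt jt par0 88 18 = true := by decide +kernel

theorem ck129 : chkR tt jt par1 129 59 = true := by decide +kernel

theorem ck231 : chkR tt jt par1 231 10 = true := by decide +kernel

theorem ck405 : chkR tt jt par1 405 6 = true := by decide +kernel

end Pool.Agent.H94.Dom.P
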