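import Pool.Agent.Dom94.PRng
import Pool.Agent.Dom94.PData

/-! Checked ranges of the certificate. -/

set_option maxRecDepth 1000000

namespace Pool.Agent.H94.Dom.P

theorem ck106 : chkR tt jt par0 106 6 = true := by decide +kernel

theorem ck188 : chkR tt jt par1 188 23 = true := by decide +kernel

theorem ck241 : chkR tt jt par1 241 38 = true := by decide +kernel

theorem ck411 : chkR tt jt par1 411 41 = true := by decide +kernel

end Pool.Agent.H94.Dom.P
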