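import Pool.Agent.Dom94.PRng
import Pool.Agent.Dom94.PData

/-! Checked ranges of the certificate. -/

set_option maxRecDepth 1000000

namespace Pool.Agent.H94.Dom.P

theorem ck112 : chkR tt jt par0 112 2 = true := by decide +kernel

theorem ck114 : chkR tt jt par0 114 2 = true := by decide +kernel

theorem ck211 : chkR tt jt par1 211 11 = true := by decide +kernel

theorem ck279 : chkR tt jt par1 279 45 = true := by decide +kernel

end Pool.Agent.H94.Dom.P
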