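import Pool.Agent.Dom94.PChk0
import Pool.Agent.Dom94.PChk1
import Pool.Agent.Dom94.PChk2
import Pool.Agent.Dom94.PChk3

/-! The certificate is complete. -/

namespace Pool.Agent.H94.Dom.P

theorem cert0 : ∀ i, 0 ≤ i → i < 129 → chkI tt par0 i (getJ jt i) = true := by
  intro i h0 hi
  by_cases h : i < 88
  · exact chkR_iff ck0 i (by omega) (by omega)
  by_cases h : i < 106
  · exact chkR_iff ck88 i (by omega) (by omega)
  by_cases h : i < 112
  · exact chkR_iff ck106 i (by omega) (by omega)
  by_cases h : i < 114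
  · exact chkR_iff ck112 i (by omega) (by omega)
  by_cases h : i < 116
  · exact chkR_iff ck114 i (by omega) (by omega)
  exact chkR_iff ck116 i (by omega) (by omega)

theorem cert1 : ∀ i, 129 ≤ i → i < 452 → chkI tt par1 i (getJ jt i) = true := by
  intro i h0 hi
  by_cases h : i < 188
  · exact chkR_iff ck129 i (by omega) (by omega)
  by_cases h : i < 211
  · exact chkR_iff ck188 i (by omega) (by omega)
  by_cases h : i < 222
  · exact chkR_iff ck211 i (by omega) (by omega)
  by_cases h : i < 231
  · exact chkR_iff ck222 i (by omega) (by omega)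
  by_cases h : i < 241
  · exact chkR_iff ck231 i (by omega) (by omega)
  by_cases h : i < 279
  · exact chkR_iff ck241 i (by omega) (by omega)
  by_cases h : i < 324
  · exact chkR_iff ck279 i (by omega) (by omega)
  by_cases h : i < 405
  · exact chkR_iff ck324 i (by omega) (by omega)
  by_cases h : i < 411
  · exact chkR_iff ck405 i (by omega) (by omega)
  exact chkR_iff ck411 i (by omega) (by omega)

open Finset

/-- All claims for plain graphs which are not cubic. -/
theorem plainP {V : Type} [DecidableEq V] {H : SimpleGraph V} {A : Finset V}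
    (hne : A.Nonempty) (hd : ∀ v ∈ A, dg H A v ≤ 3) (hnc : ∃ v ∈ A, dg H A v ≤ 2)
    (hC : Conn H A)
    (h7 : ∀ w : Fin 7 → V, (∀ i, w i ∈ A) → ¬ IsG7 H w)
    (h10 : ∀ w : Fin 10 → V, (∀ i, w i ∈ A) → ¬ IsD10 H w) : ClP H A :=
  plain_claims (getJ jt) (N0 := 129) (N := 452) (r22 := 128) (r2 := 451) rfl
    rfl (by norm_num) (by norm_num) (fun i hi => cert0 i (Nat.zero_le i) hi)
    cert1 hne hd hnc hC h7 h10

end Pool.Agent.H94.Dom.P
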