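import Mathlib
import Pool.Agent.Dom94.Pot
import Pool.Agent.Dom94.Bits

/-! Partially known graphs (states) and their realizations. -/

set_option linter.unusedSectionVars false

namespace Pool.Agent.H94.Dom

open Finset

/-- A state: `n` known vertices, packed true degrees (2 bits each), packed adjacency rows
(32 bits each), mask of free vertices. -/
structure St where
  n : ℕ
  dm : ℕ
  am : ℕ
  fr : ℕ

/-- True degree of a known vertex. -/
def St.dg (s : St) (i : ℕ) : ℕ := (s.dm >>> (2 * i)) &&& 3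

/-- Known neighbours of a known vertex. -/
def St.row (s : St) (i : ℕ) : ℕ := (s.am >>> (32 * i)) &&& 4294967295

/-- All known neighbours are known. -/
def St.isFull (s : St) (i : ℕ) : Bool := Nat.beq (pc (s.row i)) (s.dg i)

/-- Well-formedness: rows are symmetric, loopless and within the known vertices. -/
def St.wf (s : St) : Bool :=
  Nat.ble s.n 32 && (List.range s.n).all (fun i =>
    subm (s.row i) (ones s.n) && (elems 32 (s.row i)).all (fun j =>
      (s.row j).testBit i && !(Nat.beq j i)))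

theorem St.row_lt (s : St) (i : ℕ) : s.row i < 2 ^ 32 := by
  unfold St.row
  exact lt_of_le_of_lt Nat.and_le_right (by norm_num)

/-- Prop version of well-formedness. -/
structure WF (s : St) : Prop where
  n_le : s.n ≤ 32
  sub : ∀ i < s.n, ∀ j, (s.row i).testBit j = true → j < s.n
  sym : ∀ i < s.n, ∀ j, (s.row i).testBit j = true → (s.row j).testBit i = true
  irr : ∀ i < s.n, ∀ j, (s.row i).testBit j = true → j ≠ i

theorem wf_iff {s : St} (h : s.wf = true) : WF s := by
  unfold St.wf at h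
  rw [Bool.and_eq_true, List.all_eq_true] at h
  obtain ⟨h1, h2⟩ := h
  have key : ∀ i < s.n, ∀ j, (s.row i).testBit j = true →
      j < s.n ∧ (s.row j).testBit i = true ∧ j ≠ i := by
    intro i hi j hj
    have := h2 i (List.mem_range.2 hi)
    rw [Bool.and_eq_true, List.all_eq_true] at this
    obtain ⟨h3, h4⟩ := this
    have h5 := subm_iff h3 j hj
    rw [testBit_ones] at h5
    have h6 := h4 j ((mem_elems (s.row_lt i) j).2 hj)
    rw [Bool.and_eq_true] at h6
    refine ⟨by simpa using h5, h6.1, ?_⟩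
    rintro rfl
    have := h6.2
    simp at this
  exact ⟨Nat.le_of_ble_eq_true h1, fun i hi j hj => (key i hi j hj).1,
    fun i hi j hj => (key i hi j hj).2.1, fun i hi j hj => (key i hi j hj).2.2⟩

section
variable {V : Type} [DecidableEq V]

/-- Realization of an abstract partially known graph. -/
structure RealP (H : SimpleGraph V) (A F : Finset V) (n : ℕ) (dgf : ℕ → ℕ) (adf : ℕ → ℕ → Bool)
    (frf : ℕ → Bool) (ι : ℕ → V) : Prop where
  inj : ∀ i < n, ∀ j < n, ι i = ι j → i = j
  mem : ∀ i < n, ι i ∈ A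
  deg : ∀ i < n, dg H A (ι i) = dgf i
  adj : ∀ i < n, ∀ j < n, adf i j = true → H.Adj (ι i) (ι j)
  fr : ∀ i < n, (frf i = true ↔ ι i ∈ F)
  cov : ∀ x ∈ F, ∃ i < n, ι i = x

/-- Realization of a state. -/
def Real (H : SimpleGraph V) (A F : Finset V) (s : St) (ι : ℕ → V) : Prop :=
  RealP H A F s.n s.dg (fun i j => (s.row i).testBit j) (fun i => s.fr.testBit i) ι

/-- Image of a mask. -/
def img (ι : ℕ → V) (m : ℕ) : Finset V := (bits m).image ι

theorem mem_img {ι : ℕ → V} {m : ℕ} (hm : m < 2 ^ 32) {x : V} :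
    x ∈ img ι m ↔ ∃ i, m.testBit i = true ∧ ι i = x := by
  unfold img
  rw [mem_image]
  constructor
  · rintro ⟨i, hi, rfl⟩
    exact ⟨i, (mem_bits.1 hi).2, rfl⟩
  · rintro ⟨i, hi, rfl⟩
    exact ⟨i, (mem_bits_of_lt hm).2 hi, rfl⟩

variable {H : SimpleGraph V} {A F : Finset V} {s : St} {ι : ℕ → V}

theorem card_img (hR : Real H A F s ι) {m : ℕ} (hm : m < 2 ^ 32)
    (hs : ∀ i, m.testBit i = true → i < s.n) : (img ι m).card = pc m := by
  rw [pc_eq hm]
  unfold img
  apply card_image_of_injOn
  intro i hi j hj hij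
  exact hR.inj i (hs i (mem_bits.1 hi).2) j (hs j (mem_bits.1 hj).2) hij

/-- Known neighbours are neighbours. -/
theorem img_row_subset (hR : Real H A F s ι) (hw : WF s) {i : ℕ} (hi : i < s.n) :
    img ι (s.row i) ⊆ nb H A (ι i) := by
  intro x hx
  rw [mem_img (s.row_lt i)] at hx
  obtain ⟨j, hj, rfl⟩ := hx
  rw [mem_nb]
  exact ⟨hR.mem j (hw.sub i hi j hj), hR.adj i hi j (hw.sub i hi j hj) hj⟩

theorem pc_row_le (hR : Real H A F s ι) (hw : WF s) {i : ℕ} (hi : i < s.n) :
    pc (s.row i) ≤ s.dg i := by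
  rw [← card_img hR (s.row_lt i) (hw.sub i hi), ← hR.deg i hi]
  exact card_le_card (img_row_subset hR hw hi)

/-- A full vertex has only known neighbours. -/
theorem full_nb (hR : Real H A F s ι) (hw : WF s) {i : ℕ} (hi : i < s.n)
    (hf : s.isFull i = true) : nb H A (ι i) = img ι (s.row i) := by
  symm
  apply eq_of_subset_of_card_le (img_row_subset hR hw hi)
  have h1 : pc (s.row i) = s.dg i := Nat.eq_of_beq_eq_true hf
  rw [card_img hR (s.row_lt i) (hw.sub i hi), h1, ← hR.deg i hi]
  exact le_refl _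

theorem full_adj (hR : Real H A F s ι) (hw : WF s) {i : ℕ} (hi : i < s.n)
    (hf : s.isFull i = true) {y : V} (hy : y ∈ A) (ha : H.Adj (ι i) y) :
    ∃ j, (s.row i).testBit j = true ∧ j < s.n ∧ ι j = y := by
  have : y ∈ nb H A (ι i) := mem_nb.2 ⟨hy, ha⟩
  rw [full_nb hR hw hi hf, mem_img (s.row_lt i)] at this
  obtain ⟨j, hj, rfl⟩ := this
  exact ⟨j, hj, hw.sub i hi j hj, rfl⟩

/-- A non-full vertex has an unknown neighbour edge. -/
theorem stub_exists (hR : Real H A F s ι) (hw : WF s) {i : ℕ} (hi : i < s.n)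
    (hf : s.isFull i = false) : ∃ y ∈ A, H.Adj (ι i) y ∧ y ∉ img ι (s.row i) := by
  have h1 : pc (s.row i) ≠ s.dg i := by
    intro h
    rw [← Bool.not_eq_true] at hf
    apply hf
    unfold St.isFull
    rw [h]
    exact Nat.beq_refl _
  have h2 := pc_row_le hR hw hi
  have h3 : (img ι (s.row i)).card < (nb H A (ι i)).card := by
    rw [card_img hR (s.row_lt i) (hw.sub i hi)]
    have := hR.deg i hi
    unfold dg at this
    rw [this]
    change _ < s.dg i
    omega
  obtain ⟨y, hy, hy'⟩ := exists_mem_notMem_of_card_lt_card h3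
  rw [mem_nb] at hy
  exact ⟨y, hy.1, hy.2, hy'⟩

end

end Pool.Agent.H94.Dom
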