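import Mathlib
import Pool.Agent.Dom94.State

/-! The unknown region of a realized state, blocks of stub vertices, attached sets. -/

set_option linter.unusedSectionVars false

namespace Pool.Agent.H94.Dom

open Finset

/-- Mask of the indices below `n` satisfying `p`. -/
def maskOf (p : ℕ → Bool) : ℕ → ℕ
  | 0 => 0
  | n + 1 => bif p n then maskOf p n ||| (1 <<< n) else maskOf p n

theorem testBit_maskOf (p : ℕ → Bool) : ∀ n i, (maskOf p n).testBit i = (decide (i < n) && p i)
  | 0, i => by simp [maskOf]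
  | n + 1, i => by
    unfold maskOf
    by_cases h : p n = true
    · rw [h, cond_true, Nat.testBit_or, testBit_maskOf p n i, Nat.one_shiftLeft,
        Nat.testBit_two_pow]
      by_cases hi : n = i
      · subst hi; simp [h]
      · have : (i < n + 1) ↔ i < n := by omega
        simp [hi, this]
    · simp only [Bool.not_eq_true] at h
      rw [h, cond_false, testBit_maskOf p n i]
      by_cases hi : n = i
      · subst hi; simp [h]
      · have : (i < n + 1) ↔ i < n := by omega
        simp [this]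

/-- Mask of full vertices. -/
def St.fm (s : St) : ℕ := maskOf s.isFull s.n

/-- Mask of stub vertices. -/
def St.sm (s : St) : ℕ := ones s.n ^^^ s.fm

theorem testBit_fm (s : St) (i : ℕ) : s.fm.testBit i = (decide (i < s.n) && s.isFull i) :=
  testBit_maskOf _ _ _

theorem testBit_sm (s : St) (i : ℕ) : s.sm.testBit i = (decide (i < s.n) && !s.isFull i) := by
  unfold St.sm
  rw [Nat.testBit_xor, testBit_ones, testBit_fm]
  by_cases h : i < s.n <;> simp [h]

theorem ones_lt {n : ℕ} (h : n ≤ 32) : ones n < 2 ^ 32 := by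
  unfold ones
  have : 2 ^ n ≤ 2 ^ 32 := Nat.pow_le_pow_right (by norm_num) h
  have h2 : 0 < 2 ^ n := by positivity
  omega

theorem lt_of_sub {m n : ℕ} (h : n ≤ 32) (hs : ∀ i, m.testBit i = true → i < n) : m < 2 ^ 32 := by
  apply Nat.lt_pow_two_of_testBit
  intro i hi
  by_contra hc
  simp only [Bool.not_eq_false] at hc
  have := hs i hc
  omega

theorem fm_lt {s : St} (hw : WF s) : s.fm < 2 ^ 32 :=
  lt_of_sub hw.n_le (fun i hi => by rw [testBit_fm] at hi; simp at hi; exact hi.1)

theorem sm_lt {s : St} (hw : WF s) : s.sm < 2 ^ 32 :=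
  lt_of_sub hw.n_le (fun i hi => by rw [testBit_sm] at hi; simp at hi; exact hi.1)

section
variable {V : Type} [DecidableEq V]

/-- Connection inside the region `B`. -/
def RT (H : SimpleGraph V) (B : Finset V) : V → V → Prop :=
  Relation.ReflTransGen (fun a b => H.Adj a b ∧ a ∈ B ∧ b ∈ B)

theorem RT.symm {H : SimpleGraph V} {B : Finset V} {x y : V} (h : RT H B x y) : RT H B y x := by
  induction h with
  | refl => exact Relation.ReflTransGen.refl
  | tail _ h2 ih =>
    exact Relation.ReflTransGen.trans (Relation.ReflTransGen.single ⟨h2.1.symm, h2.2.2, h2.2.1⟩) ih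

theorem RT.trans {H : SimpleGraph V} {B : Finset V} {x y z : V} (h : RT H B x y)
    (h' : RT H B y z) : RT H B x z := Relation.ReflTransGen.trans h h'

theorem RT.refl {H : SimpleGraph V} {B : Finset V} (x : V) : RT H B x x :=
  Relation.ReflTransGen.refl

theorem RT.edge {H : SimpleGraph V} {B : Finset V} {x y : V} (h : H.Adj x y) (hx : x ∈ B)
    (hy : y ∈ B) : RT H B x y := Relation.ReflTransGen.single ⟨h, hx, hy⟩

/-- The region: everything except the full known vertices. -/
def region (A : Finset V) (s : St) (ι : ℕ → V) : Finset V := A \ img ι s.fm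

/-- `x` is attached to the known vertex `i`. -/
def att (H : SimpleGraph V) (A : Finset V) (s : St) (ι : ℕ → V) (x : V) (i : ℕ) : Prop :=
  (i < s.n ∧ ι i = x) ∨
    ((∀ j < s.n, ι j ≠ x) ∧ s.sm.testBit i = true ∧ RT H (region A s ι) x (ι i))

/-- The blocks describe the connection of the stub vertices through the region. -/
structure Faith (H : SimpleGraph V) (A : Finset V) (s : St) (ι : ℕ → V) (bl : List ℕ) :
    Prop where
  sub : ∀ b ∈ bl, ∀ i, b.testBit i = true → s.sm.testBit i = true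
  cov : ∀ i, s.sm.testBit i = true → ∃ b ∈ bl, b.testBit i = true
  conn : ∀ b ∈ bl, ∀ i j, b.testBit i = true → b.testBit j = true →
    RT H (region A s ι) (ι i) (ι j)
  sep : ∀ i j, s.sm.testBit i = true → s.sm.testBit j = true →
    RT H (region A s ι) (ι i) (ι j) → ∀ b ∈ bl, b.testBit i = true → b.testBit j = true

open Classical in
/-- The real set of a mask. -/
noncomputable def hat (H : SimpleGraph V) (A : Finset V) (s : St) (ι : ℕ → V) (m : ℕ) :
    Finset V := A.filter (fun x => ∃ i, m.testBit i = true ∧ att H A s ι x i)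

/-- Closed under blocks. -/
def CB (bl : List ℕ) (m : ℕ) : Prop :=
  ∀ b ∈ bl, ∀ i j, b.testBit i = true → m.testBit i = true → b.testBit j = true →
    m.testBit j = true

variable {H : SimpleGraph V} {A F : Finset V} {s : St} {ι : ℕ → V} {bl : List ℕ}

theorem mem_hat {m : ℕ} {x : V} :
    x ∈ hat H A s ι m ↔ x ∈ A ∧ ∃ i, m.testBit i = true ∧ att H A s ι x i := by
  simp [hat]

theorem stub_mem_region (hR : Real H A F s ι) (hw : WF s) {i : ℕ}
    (hi : s.sm.testBit i = true) : ι i ∈ region A s ι := by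
  rw [testBit_sm] at hi
  simp at hi
  unfold region
  rw [mem_sdiff, mem_img (fm_lt hw)]
  refine ⟨hR.mem i hi.1, ?_⟩
  rintro ⟨j, hj, hij⟩
  rw [testBit_fm] at hj
  simp at hj
  have := hR.inj j hj.1 i hi.1 hij
  subst this
  rw [hj.2] at hi
  simp at hi

theorem unknown_mem_region (hw : WF s) {x : V} (hx : x ∈ A) (hu : ∀ j < s.n, ι j ≠ x) :
    x ∈ region A s ι := by
  unfold region
  rw [mem_sdiff, mem_img (fm_lt hw)]
  refine ⟨hx, ?_⟩
  rintro ⟨j, hj, hij⟩
  rw [testBit_fm] at hj
  simp at hj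
  exact hu j hj.1 hij

theorem stub_of_not_full {i : ℕ} (hi : i < s.n) (hf : s.isFull i = false) :
    s.sm.testBit i = true := by
  rw [testBit_sm]; simp [hi, hf]

theorem att_same (hR : Real H A F s ι) (hf : Faith H A s ι bl) {m : ℕ} (hc : CB bl m)
    {x : V} {i j : ℕ} (hi : att H A s ι x i) (hj : att H A s ι x j) (hm : m.testBit i = true) :
    m.testBit j = true := by
  rcases hi with ⟨h1, h2⟩ | ⟨h1, h2, h3⟩
  · rcases hj with ⟨h4, h5⟩ | ⟨h4, h5, h6⟩
    · have := hR.inj i h1 j h4 (h2.trans h5.symm)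
      subst this
      exact hm
    · exact absurd h2 (h4 i h1)
  · rcases hj with ⟨h4, h5⟩ | ⟨h4, h5, h6⟩
    · exact absurd h5 (h1 j h4)
    · obtain ⟨b, hb, hbi⟩ := hf.cov i h2
      exact hc b hb i j hbi hm (hf.sep i j h2 h5 (h3.symm.trans h6) b hb hbi)

/-- Edges leaving the real set of a block-closed mask are known edges. -/
theorem leave (hR : Real H A F s ι) (hw : WF s) (hf : Faith H A s ι bl) {m : ℕ}
    (hc : CB bl m) {x y : V} (hx : x ∈ hat H A s ι m) (hy : y ∈ A) (ha : H.Adj x y) :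
    y ∈ hat H A s ι m ∨ ∃ i j, m.testBit i = true ∧ i < s.n ∧ j < s.n ∧ ι i = x ∧ ι j = y ∧
      (s.row i).testBit j = true ∧ m.testBit j = false := by
  rw [mem_hat] at hx
  obtain ⟨hxA, i, hi, hati⟩ := hx
  by_cases hyk : ∃ j < s.n, ι j = y
  · obtain ⟨j, hj, hjy⟩ := hyk
    by_cases hmj : m.testBit j = true
    · left
      rw [mem_hat]
      exact ⟨hy, j, hmj, Or.inl ⟨hj, hjy⟩⟩
    simp only [Bool.not_eq_true] at hmj
    rcases hati with ⟨h1, h2⟩ | ⟨h1, h2, h3⟩
    · by_cases hfi : s.isFull i = true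
      · obtain ⟨k, hk, hkn, hky⟩ := full_adj hR hw h1 hfi hy (by rw [h2]; exact ha)
        have := hR.inj k hkn j hj (hky.trans hjy.symm)
        subst this
        exact Or.inr ⟨i, k, hi, h1, hj, h2, hjy, hk, hmj⟩
      by_cases hfj : s.isFull j = true
      · obtain ⟨k, hk, hkn, hky⟩ := full_adj hR hw hj hfj hxA (by rw [hjy]; exact ha.symm)
        have := hR.inj k hkn i h1 (hky.trans h2.symm)
        subst this
        exact Or.inr ⟨k, j, hi, h1, hj, h2, hjy, hw.sym j hj k hk, hmj⟩
      simp only [Bool.not_eq_true] at hfi hfj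
      have hsi := stub_of_not_full h1 hfi
      have hsj := stub_of_not_full hj hfj
      have hrt : RT H (region A s ι) (ι i) (ι j) :=
        RT.edge (by rw [h2, hjy]; exact ha) (stub_mem_region hR hw hsi)
          (stub_mem_region hR hw hsj)
      obtain ⟨b, hb, hbi⟩ := hf.cov i hsi
      have := hc b hb i j hbi hi (hf.sep i j hsi hsj hrt b hb hbi)
      rw [this] at hmj
      simp at hmj
    · by_cases hfj : s.isFull j = true
      · obtain ⟨k, hk, hkn, hky⟩ := full_adj hR hw hj hfj hxA (by rw [hjy]; exact ha.symm)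
        exact absurd hky (h1 k hkn)
      simp only [Bool.not_eq_true] at hfj
      have hsj := stub_of_not_full hj hfj
      have hrt : RT H (region A s ι) (ι j) (ι i) :=
        (RT.edge (by rw [hjy]; exact ha.symm) (stub_mem_region hR hw hsj)
          (unknown_mem_region hw hxA h1)).trans h3
      obtain ⟨b, hb, hbi⟩ := hf.cov i h2
      have := hc b hb i j hbi hi (hf.sep i j h2 hsj hrt.symm b hb hbi)
      rw [this] at hmj
      simp at hmj
  · push Not at hyk
    left
    have hyB := unknown_mem_region hw hy hyk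
    rw [mem_hat]
    refine ⟨hy, ?_⟩
    rcases hati with ⟨h1, h2⟩ | ⟨h1, h2, h3⟩
    · by_cases hfi : s.isFull i = true
      · obtain ⟨k, hk, hkn, hky⟩ := full_adj hR hw h1 hfi hy (by rw [h2]; exact ha)
        exact absurd hky (hyk k hkn)
      simp only [Bool.not_eq_true] at hfi
      have hsi := stub_of_not_full h1 hfi
      refine ⟨i, hi, Or.inr ⟨hyk, hsi, ?_⟩⟩
      exact RT.edge (by rw [h2]; exact ha.symm) hyB (stub_mem_region hR hw hsi)
    · refine ⟨i, hi, Or.inr ⟨hyk, h2, ?_⟩⟩
      exact (RT.edge ha.symm hyB (unknown_mem_region hw hxA h1)).trans h3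

/-- Everything is attached to some known vertex. -/
theorem att_exists (hR : Real H A F s ι) (hw : WF s) (hcn : Conn H A) (hn : 0 < s.n)
    {x : V} (hx : x ∈ A) : ∃ i < s.n, att H A s ι x i := by
  classical
  by_cases hk : ∃ j < s.n, ι j = x
  · obtain ⟨j, hj, hjx⟩ := hk
    exact ⟨j, hj, Or.inl ⟨hj, hjx⟩⟩
  push Not at hk
  by_contra hc
  push Not at hc
  have hno : ∀ i, s.sm.testBit i = true → ¬ RT H (region A s ι) x (ι i) := by
    intro i hi hrt
    have hin : i < s.n := by rw [testBit_sm] at hi; simp at hi; exact hi.1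
    exact hc i hin (Or.inr ⟨hk, hi, hrt⟩)
  set Z := A.filter (fun y => y ∈ region A s ι ∧ RT H (region A s ι) x y) with hZ
  have hZu : ∀ z ∈ Z, ∀ j < s.n, ι j ≠ z := by
    intro z hz j hj hjz
    rw [hZ, mem_filter] at hz
    subst hjz
    have h1 : s.sm.testBit j = true := by
      rw [testBit_sm]
      have h2 := hz.2.1
      unfold region at h2
      rw [mem_sdiff, mem_img (fm_lt hw)] at h2
      have h3 : s.fm.testBit j = false := by
        by_contra hcc
        simp only [Bool.not_eq_false] at hcc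
        exact h2.2 ⟨j, hcc, rfl⟩
      rw [testBit_fm] at h3
      simp [hj] at h3
      simp [hj, h3]
    exact hno j h1 hz.2.2
  have hxZ : x ∈ Z := by
    rw [hZ, mem_filter]
    exact ⟨hx, unknown_mem_region hw hx hk, RT.refl x⟩
  obtain ⟨z, hz, y, hy, hzy⟩ := hcn Z (filter_subset _ _) ⟨x, hxZ⟩
    ⟨ι 0, mem_sdiff.2 ⟨hR.mem 0 hn, fun h => hZu _ h 0 hn rfl⟩⟩
  rw [mem_sdiff] at hy
  have hz' := hz
  rw [hZ, mem_filter] at hz'
  by_cases hyB : y ∈ region A s ι
  · apply hy.2
    rw [hZ, mem_filter]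
    exact ⟨hy.1, hyB, hz'.2.2.trans (RT.edge hzy hz'.2.1 hyB)⟩
  · unfold region at hyB
    rw [mem_sdiff, mem_img (fm_lt hw)] at hyB
    push Not at hyB
    obtain ⟨j, hj, hjy⟩ := hyB hy.1
    rw [testBit_fm] at hj
    simp at hj
    obtain ⟨k, hk1, hk2, hk3⟩ := full_adj hR hw hj.1 hj.2 hz'.1 (by rw [hjy]; exact hzy.symm)
    exact hZu z hz k hk2 hk3

theorem hat_disj (hR : Real H A F s ι) (hf : Faith H A s ι bl) {m k : ℕ} (hc : CB bl m)
    (hd : disj m k = true) : Disjoint (hat H A s ι m) (hat H A s ι k) := by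
  rw [disjoint_left]
  intro x hx hx'
  rw [mem_hat] at hx hx'
  obtain ⟨_, i, hi, hai⟩ := hx
  obtain ⟨_, j, hj, haj⟩ := hx'
  have h1 := att_same hR hf hc hai haj hi
  have h2 := disj_iff hd j h1
  rw [hj] at h2
  simp at h2

theorem hat_or {m k : ℕ} : hat H A s ι (m ||| k) = hat H A s ι m ∪ hat H A s ι k := by
  ext x
  rw [mem_union, mem_hat, mem_hat, mem_hat]
  constructor
  · rintro ⟨h1, i, hi, ha⟩
    rw [Nat.testBit_or, Bool.or_eq_true] at hi
    rcases hi with hi | hi
    · exact Or.inl ⟨h1, i, hi, ha⟩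
    · exact Or.inr ⟨h1, i, hi, ha⟩
  · rintro (⟨h1, i, hi, ha⟩ | ⟨h1, i, hi, ha⟩)
    · exact ⟨h1, i, by rw [Nat.testBit_or, hi]; simp, ha⟩
    · exact ⟨h1, i, by rw [Nat.testBit_or, hi]; simp, ha⟩

theorem known_mem_hat (hR : Real H A F s ι) {m i : ℕ} (hi : i < s.n) :
    ι i ∈ hat H A s ι m ↔ m.testBit i = true := by
  rw [mem_hat]
  constructor
  · rintro ⟨_, j, hj, ⟨h1, h2⟩ | ⟨h1, h2, h3⟩⟩
    · have := hR.inj j h1 i hi h2
      subst this
      exact hj
    · exact absurd rfl (h1 i hi)
  · intro h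
    exact ⟨hR.mem i hi, i, h, Or.inl ⟨hi, rfl⟩⟩

end

end Pool.Agent.H94.Dom
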