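import Mathlib
import Pool.Agent.Dom94.Region

/-! Enumeration of the partitions of the stub vertices. -/

set_option linter.unusedSectionVars false

namespace Pool.Agent.H94.Dom

open Finset

/-- All ways to add the vertex `v` to one of the blocks or as a new block; the known neighbours
`am` among the earlier stub vertices must be in the same block. -/
def addTo (v am : ℕ) : List ℕ → List (List ℕ)
  | [] => bif Nat.beq am 0 then [[1 <<< v]] else []
  | b :: bs => (bif subm am b then [(b ||| (1 <<< v)) :: bs] else []) ++
      (addTo v am bs).map (fun l => b :: l)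

/-- Check `P` for all partitions. -/
def enumP (s : St) (P : List ℕ → Bool) : List ℕ → ℕ → List ℕ → Bool
  | [], _, bl => P bl
  | v :: r, dn, bl => (addTo v (s.row v &&& dn) bl).all
      (fun bl' => enumP s P r (dn ||| (1 <<< v)) bl')

theorem addTo_replace {v am b : ℕ} (hb : subm am b = true) (l2 : List ℕ) :
    ∀ l1, (l1 ++ (b ||| (1 <<< v)) :: l2) ∈ addTo v am (l1 ++ b :: l2)
  | [] => by simp [addTo, hb]
  | a :: l1 => by
    have := addTo_replace (v := v) hb l2 l1
    simp only [List.cons_append, addTo, List.mem_append, List.mem_map]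
    right
    exact ⟨_, this, rfl⟩

theorem addTo_new (v : ℕ) : ∀ l, (l ++ [1 <<< v]) ∈ addTo v 0 l
  | [] => by simp [addTo]
  | a :: l => by
    have := addTo_new v l
    simp only [List.cons_append, addTo, List.mem_append, List.mem_map]
    right
    exact ⟨_, this, rfl⟩

section
variable {V : Type} [DecidableEq V]

/-- Partial faithfulness. -/
structure PF (H : SimpleGraph V) (A : Finset V) (s : St) (ι : ℕ → V) (bl : List ℕ)
    (dn : ℕ) : Prop where
  dsub : ∀ i, dn.testBit i = true → s.sm.testBit i = true
  sub : ∀ b ∈ bl, ∀ i, b.testBit i = true → dn.testBit i = true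
  cov : ∀ i, dn.testBit i = true → ∃ b ∈ bl, b.testBit i = true
  conn : ∀ b ∈ bl, ∀ i j, b.testBit i = true → b.testBit j = true →
    RT H (region A s ι) (ι i) (ι j)
  sep : ∀ i j, dn.testBit i = true → dn.testBit j = true →
    RT H (region A s ι) (ι i) (ι j) → ∀ b ∈ bl, b.testBit i = true → b.testBit j = true
  pw : bl.Pairwise (fun a b => ∀ i, a.testBit i = true → b.testBit i = false)

variable {H : SimpleGraph V} {A F : Finset V} {s : St} {ι : ℕ → V}

theorem tb_or_one (b v i : ℕ) :
    (b ||| (1 <<< v)).testBit i = true ↔ b.testBit i = true ∨ i = v := by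
  rw [Nat.testBit_or, Nat.one_shiftLeft, Nat.testBit_two_pow]
  simp only [Bool.or_eq_true, decide_eq_true_eq]
  constructor
  · rintro (h | h)
    · exact Or.inl h
    · exact Or.inr h.symm
  · rintro (h | h)
    · exact Or.inl h
    · exact Or.inr h.symm

theorem PF.step (hR : Real H A F s ι) (hw : WF s) {bl : List ℕ} {dn v : ℕ}
    (h : PF H A s ι bl dn) (hv : s.sm.testBit v = true) (hvd : dn.testBit v = false) :
    ∃ bl' ∈ addTo v (s.row v &&& dn) bl, PF H A s ι bl' (dn ||| (1 <<< v)) := by
  have hvn : v < s.n := by rw [testBit_sm] at hv; simp at hv; exact hv.1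
  have hadj : ∀ k, (s.row v &&& dn).testBit k = true → dn.testBit k = true ∧
      RT H (region A s ι) (ι v) (ι k) := by
    intro k hk
    rw [Nat.testBit_and, Bool.and_eq_true] at hk
    refine ⟨hk.2, RT.edge (hR.adj v hvn k (hw.sub v hvn k hk.1) hk.1)
      (stub_mem_region hR hw hv) (stub_mem_region hR hw (h.dsub k hk.2))⟩
  by_cases hc : ∃ j, dn.testBit j = true ∧ RT H (region A s ι) (ι v) (ι j)
  · obtain ⟨j, hj, hvj⟩ := hc
    obtain ⟨b, hb, hbj⟩ := h.cov j hj
    obtain ⟨l1, l2, rfl⟩ := List.append_of_mem hb
    have hsub : subm (s.row v &&& dn) b = true := by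
      apply subm_of
      intro k hk
      obtain ⟨h1, h2⟩ := hadj k hk
      exact h.sep j k hj h1 (hvj.symm.trans h2) b hb hbj
    refine ⟨_, addTo_replace hsub l2 l1, ?_⟩
    have hpw := h.pw
    rw [List.pairwise_append, List.pairwise_cons] at hpw
    obtain ⟨p1, ⟨p2, p3⟩, p4⟩ := hpw
    have hmem : ∀ c, c ∈ l1 ++ (b ||| (1 <<< v)) :: l2 → c = (b ||| (1 <<< v)) ∨
        (c ∈ l1 ++ b :: l2 ∧ ∀ i, b.testBit i = true → c.testBit i = false) := by
      intro c hc
      rw [List.mem_append, List.mem_cons] at hc
      rcases hc with hc | hc | hc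
      · right
        refine ⟨List.mem_append_left _ hc, ?_⟩
        intro i hi
        by_contra hcc
        simp only [Bool.not_eq_false] at hcc
        have := p4 c hc b (List.mem_cons_self) i hcc
        rw [hi] at this
        simp at this
      · exact Or.inl hc
      · right
        exact ⟨List.mem_append_right _ (List.mem_cons_of_mem _ hc), p2 c hc⟩
    refine ⟨?_, ?_, ?_, ?_, ?_, ?_⟩
    · intro i hi
      rw [tb_or_one] at hi
      rcases hi with hi | rfl
      · exact h.dsub i hi
      · exact hv
    · intro c hc i hi
      rw [tb_or_one]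
      rcases hmem c hc with rfl | ⟨h1, _⟩
      · rw [tb_or_one] at hi
        rcases hi with hi | rfl
        · exact Or.inl (h.sub b hb i hi)
        · exact Or.inr rfl
      · exact Or.inl (h.sub c h1 i hi)
    · intro i hi
      rw [tb_or_one] at hi
      have hnew : (b ||| (1 <<< v)) ∈ l1 ++ (b ||| (1 <<< v)) :: l2 :=
        List.mem_append_right _ List.mem_cons_self
      rcases hi with hi | rfl
      · obtain ⟨c, hc, hci⟩ := h.cov i hi
        rw [List.mem_append, List.mem_cons] at hc
        rcases hc with hc | rfl | hc
        · exact ⟨c, List.mem_append_left _ hc, hci⟩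
        · exact ⟨_, hnew, (tb_or_one _ _ _).2 (Or.inl hci)⟩
        · exact ⟨c, List.mem_append_right _ (List.mem_cons_of_mem _ hc), hci⟩
      · exact ⟨_, hnew, (tb_or_one _ _ _).2 (Or.inr rfl)⟩
    · intro c hc i k hi hk
      rcases hmem c hc with rfl | ⟨h1, _⟩
      · rw [tb_or_one] at hi hk
        have key : ∀ i, (b.testBit i = true ∨ i = v) → RT H (region A s ι) (ι j) (ι i) := by
          rintro i (hi | rfl)
          · exact h.conn b hb j i hbj hi
          · exact hvj.symm
        exact (key i hi).symm.trans (key k hk)
      · exact h.conn c h1 i k hi hk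
    · intro i k hi hk hrt c hc hci
      rw [tb_or_one] at hi hk
      rcases hmem c hc with rfl | ⟨h1, h2⟩
      · rw [tb_or_one] at hci ⊢
        rcases hk with hk | rfl
        · left
          rcases hci with hci | rfl
          · exact h.sep i k (h.sub b hb i hci) hk hrt b hb hci
          · exact h.sep j k hj hk (hvj.symm.trans hrt) b hb hbj
        · exact Or.inr rfl
      · have hid : dn.testBit i = true := h.sub c h1 i hci
        rcases hk with hk | rfl
        · exact h.sep i k hid hk hrt c h1 hci
        · exfalso
          have := h.sep i j hid hj (hrt.trans hvj) c h1 hci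
          rw [h2 j hbj] at this
          simp at this
    · rw [List.pairwise_append, List.pairwise_cons]
      refine ⟨p1, ⟨?_, p3⟩, ?_⟩
      · intro c hc i hi
        rw [tb_or_one] at hi
        rcases hi with hi | rfl
        · exact p2 c hc i hi
        · by_contra hcc
          simp only [Bool.not_eq_false] at hcc
          have := h.sub c (List.mem_append_right _ (List.mem_cons_of_mem _ hc)) i hcc
          rw [hvd] at this
          simp at this
      · intro a ha c hc i hi
        rw [List.mem_cons] at hc
        rcases hc with rfl | hc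
        · by_contra hcc
          simp only [Bool.not_eq_false] at hcc
          rw [tb_or_one] at hcc
          rcases hcc with hcc | rfl
          · have := p4 a ha b List.mem_cons_self i hi
            rw [hcc] at this
            simp at this
          · have := h.sub a (List.mem_append_left _ ha) i hi
            rw [hvd] at this
            simp at this
        · exact p4 a ha c (List.mem_cons_of_mem _ hc) i hi
  · push Not at hc
    have h0 : s.row v &&& dn = 0 := by
      apply Nat.eq_of_testBit_eq
      intro k
      rw [Nat.zero_testBit]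
      by_contra hcc
      simp only [Bool.not_eq_false] at hcc
      obtain ⟨h1, h2⟩ := hadj k hcc
      exact hc k h1 h2
    rw [h0]
    refine ⟨_, addTo_new v bl, ?_⟩
    have hone : ∀ i, (1 <<< v).testBit i = true ↔ i = v := by
      intro i
      rw [Nat.one_shiftLeft, Nat.testBit_two_pow]
      simp [eq_comm]
    have hmem : ∀ c, c ∈ bl ++ [1 <<< v] → c ∈ bl ∨ c = 1 <<< v := by
      intro c hc
      rw [List.mem_append, List.mem_singleton] at hc
      exact hc
    refine ⟨?_, ?_, ?_, ?_, ?_, ?_⟩
    · intro i hi
      rw [tb_or_one] at hi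
      rcases hi with hi | rfl
      · exact h.dsub i hi
      · exact hv
    · intro c hc i hi
      rw [tb_or_one]
      rcases hmem c hc with h1 | rfl
      · exact Or.inl (h.sub c h1 i hi)
      · exact Or.inr ((hone i).1 hi)
    · intro i hi
      rw [tb_or_one] at hi
      rcases hi with hi | rfl
      · obtain ⟨c, hc, hci⟩ := h.cov i hi
        exact ⟨c, List.mem_append_left _ hc, hci⟩
      · exact ⟨_, List.mem_append_right _ (List.mem_singleton.2 rfl), (hone i).2 rfl⟩
    · intro c hc i k hi hk
      rcases hmem c hc with h1 | rfl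
      · exact h.conn c h1 i k hi hk
      · rw [hone] at hi hk
        rw [hi, hk]
        exact RT.refl _
    · intro i k hi hk hrt c hcm hci
      rw [tb_or_one] at hi hk
      rcases hmem c hcm with h1 | rfl
      · have hid : dn.testBit i = true := h.sub c h1 i hci
        rcases hk with hk | rfl
        · exact h.sep i k hid hk hrt c h1 hci
        · exact absurd hrt.symm (hc i hid)
      · rw [hone] at hci ⊢
        subst hci
        rcases hk with hk | hk
        · exact absurd hrt (hc k hk)
        · exact hk
    · rw [List.pairwise_append]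
      refine ⟨h.pw, List.pairwise_singleton _ _, ?_⟩
      intro a ha c hc i hi
      rw [List.mem_singleton] at hc
      subst hc
      by_contra hcc
      simp only [Bool.not_eq_false] at hcc
      rw [hone] at hcc
      subst hcc
      have := h.sub a ha i hi
      rw [hvd] at this
      simp at this

theorem enumP_sound (hR : Real H A F s ι) (hw : WF s) {P : List ℕ → Bool} :
    ∀ (r : List ℕ) (dn : ℕ) (bl : List ℕ), PF H A s ι bl dn → r.Nodup →
      (∀ v ∈ r, s.sm.testBit v = true ∧ dn.testBit v = false) →
      (∀ i, s.sm.testBit i = true → dn.testBit i = true ∨ i ∈ r) →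
      enumP s P r dn bl = true → ∃ bl', Faith H A s ι bl' ∧ P bl' = true
  | [], dn, bl, h, _, _, hall, he => by
    refine ⟨bl, ⟨?_, ?_, h.conn, ?_⟩, he⟩
    · intro b hb i hi
      exact h.dsub i (h.sub b hb i hi)
    · intro i hi
      rcases hall i hi with h1 | h1
      · exact h.cov i h1
      · simp at h1
    · intro i j hi hj
      rcases hall i hi with h1 | h1
      · rcases hall j hj with h2 | h2
        · exact h.sep i j h1 h2
        · simp at h2
      · simp at h1
  | v :: r, dn, bl, h, hnd, hr, hall, he => by
    rw [List.nodup_cons] at hnd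
    obtain ⟨bl', hbl', hpf⟩ := h.step hR hw (hr v List.mem_cons_self).1
      (hr v List.mem_cons_self).2
    unfold enumP at he
    rw [List.all_eq_true] at he
    refine enumP_sound hR hw r _ _ hpf hnd.2 ?_ ?_ (he bl' hbl')
    · intro w hw'
      refine ⟨(hr w (List.mem_cons_of_mem _ hw')).1, ?_⟩
      by_contra hcc
      simp only [Bool.not_eq_false] at hcc
      rw [tb_or_one] at hcc
      rcases hcc with hcc | rfl
      · rw [(hr w (List.mem_cons_of_mem _ hw')).2] at hcc
        simp at hcc
      · exact hnd.1 hw'
    · intro i hi
      rcases hall i hi with h1 | h1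
      · exact Or.inl ((tb_or_one _ _ _).2 (Or.inl h1))
      · rw [List.mem_cons] at h1
        rcases h1 with rfl | h1
        · exact Or.inl ((tb_or_one _ _ _).2 (Or.inr rfl))
        · exact Or.inr h1

/-- The check over all partitions gives the check for a faithful one. -/
theorem enum_faith (hR : Real H A F s ι) (hw : WF s) {P : List ℕ → Bool}
    (he : enumP s P (elems 32 s.sm) 0 [] = true) : ∃ bl, Faith H A s ι bl ∧ P bl = true := by
  refine enumP_sound hR hw _ _ _ ?_ (nodup_elems (sm_lt hw)) ?_ ?_ he
  · refine ⟨?_, ?_, ?_, ?_, ?_, ?_⟩ <;> simp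
  · intro v hv
    rw [mem_elems (sm_lt hw)] at hv
    exact ⟨hv, by simp⟩
  · intro i hi
    right
    rw [mem_elems (sm_lt hw)]
    exact hi

end

end Pool.Agent.H94.Dom
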