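import Mathlib
import Pool.Agent.Dom94.Part
import Pool.Agent.Dom94.HandP
import Pool.Agent.Dom94.HandH
import Pool.Agent.Dom94.Dec

/-! Evaluation of a deletion move on a partially known graph. -/

set_option linter.unusedSectionVars false

namespace Pool.Agent.H94.Dom.P

open Finset

/-- Parameters: the target (shifted by 30), the minimal deficiency of the graph, and whether the
rule for cuts with two edges may be used. -/
structure Par where
  T : ℕ
  dfm : ℕ
  c2 : Bool

/-- Union of the rows of the elements of a mask. -/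
def nbm (s : St) (m : ℕ) : ℕ := (elems 32 m).foldl (fun acc v => acc ||| s.row v) 0

/-- Union of the blocks containing `v`. -/
def blkOf (bl : List ℕ) (v : ℕ) : ℕ :=
  bl.foldr (fun b acc => bif b.testBit v then b ||| acc else acc) 0

/-- Neighbours of `v` in the component graph. -/
def nbr (s : St) (bl : List ℕ) (keep v : ℕ) : ℕ := (s.row v ||| blkOf bl v) &&& keep

/-- Closure search with continuation. -/
def cloF (s : St) (bl : List ℕ) (keep : ℕ) (k : ℕ → Bool) : ℕ → ℕ → ℕ → Bool
  | 0, _, _ => false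
  | f + 1, c, fr => bif Nat.beq fr 0 then k c else
      cloF s bl keep k f (c ||| nbr s bl keep (Nat.log2 fr))
        ((fr ^^^ (1 <<< Nat.log2 fr)) |||
          (nbr s bl keep (Nat.log2 fr) ^^^ (nbr s bl keep (Nat.log2 fr) &&& c)))

/-- Potential as a natural number. -/
def phiN : ℕ → ℕ
  | 0 => 20
  | 1 => 13
  | 2 => 9
  | _ => 7

/-- Remaining degree after deleting `L`. -/
def rdg (s : St) (L i : ℕ) : ℕ := s.dg i - pc (s.row i &&& L)

/-- Marked vertices of remaining degree at most two, those of degree at most one first. -/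
def mlist (s : St) (L m : ℕ) : List ℕ :=
  (elems 32 m).filter (fun i => Nat.ble (rdg s L i) 1) ++
    (elems 32 m).filter (fun i => Nat.beq (rdg s L i) 2)

/-- Shifted bound from a list of marked vertices. -/
def mbd (s : St) (L c : ℕ) : List ℕ → ℕ
  | [] => bif (elems 32 c).any (fun i => Nat.beq (rdg s L i) 1) then 32 else 34
  | [a] => bif Nat.ble (rdg s L a) 1 then 24 else 29
  | [a, _] => bif Nat.ble (rdg s L a) 1 then 20 else 26
  | a :: _ :: _ :: _ => bif Nat.ble (rdg s L a) 1 then 17 else 25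

/-- Known edges leaving the mask. -/
def elist (s : St) (m : ℕ) : List (ℕ × ℕ) :=
  (elems 32 m).flatMap (fun i => (elems 32 (s.row i ^^^ (s.row i &&& m))).map (fun j => (i, j)))

/-- The improvement of the bound for components with exactly two boundary edges. -/
def c2bd (b mk : ℕ) : List (ℕ × ℕ) → ℕ
  | [(i, j), (k, l)] => bif Nat.beq i k then b else bif Nat.beq j l then b else
      bif mk.testBit i && mk.testBit k then min b 9 else min b 29
  | _ => b

/-- The component has a bridge. -/
def hasBr (s : St) (bl : List ℕ) (brs : List ℕ) (c : ℕ) : Bool :=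
  brs.any (fun m => !(Nat.beq (m &&& c) 0) && (!(Nat.beq (m &&& c) c) &&
    (bl.all (fun b => subm b (m &&& c) || disj b (m &&& c)) &&
      Nat.ble ((elems 32 (m &&& c)).map (fun i => pc (s.row i &&& (c ^^^ (m &&& c))))).sum 1)))

/-- Apply the bridge bound. -/
def brF (s : St) (bl brs : List ℕ) (c b : ℕ) : ℕ :=
  bif Nat.ble b 32 then b else bif hasBr s bl brs c then 32 else b

/-- Shifted bound for a component. -/
def cbd (s : St) (par : Par) (bl brs : List ℕ) (L mk c : ℕ) : ℕ :=
  brF s bl brs c (bif par.c2 then c2bd (mbd s L c (mlist s L (c &&& mk))) mk (elist s c) else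
    mbd s L c (mlist s L (c &&& mk)))

/-- Component loop. -/
def compsB (s : St) (par : Par) (bl brs : List ℕ) (keep L mk : ℕ) : ℕ → ℕ → ℕ → ℕ → Bool
  | 0, _, _, _ => false
  | f + 1, rem, p, q => bif Nat.beq rem 0 then Nat.ble p q else
      cloF s bl keep (fun c => subm c rem &&
        compsB s par bl brs keep L mk f (rem ^^^ c) (p + cbd s par bl brs L mk c) (q + 30))
        40 (1 <<< Nat.log2 rem) (1 <<< Nat.log2 rem)

/-- Evaluation of the move `(S, L)` for the blocks `bl`: choose `S`, delete `L`. -/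
def evalB (s : St) (par : Par) (brs : List ℕ) (S L : ℕ) (bl : List ℕ) : Bool :=
  subm S (ones s.n) && (subm L s.fm && (subm L (S ||| nbm s S ||| s.fr) &&
    (!(Nat.beq L 0) &&
      compsB s par bl brs (ones s.n ^^^ L) L (S ||| nbm s S ||| s.fr)
        40 (ones s.n ^^^ L)
        (20 * pc S + ((elems 32 (ones s.n ^^^ L)).map (fun i => phiN (rdg s L i))).sum + 30)
        (((elems 32 (ones s.n)).map (fun i => phiN (s.dg i))).sum + par.T))))

theorem phi_eq (d : ℕ) : phi d = (phiN d : ℤ) := by
  unfold phi phiN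
  split <;> simp

theorem testBit_nbm {s : St} {m : ℕ} (hm : m < 2 ^ 32) (j : ℕ) :
    (nbm s m).testBit j = true ↔ ∃ v, m.testBit v = true ∧ (s.row v).testBit j = true := by
  unfold nbm
  have key : ∀ (l : List ℕ) (acc : ℕ), (l.foldl (fun acc v => acc ||| s.row v) acc).testBit j = true
      ↔ acc.testBit j = true ∨ ∃ v ∈ l, (s.row v).testBit j = true := by
    intro l
    induction l with
    | nil => intro acc; simp
    | cons a l ih =>
      intro acc
      rw [List.foldl_cons, ih, Nat.testBit_or, Bool.or_eq_true]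
      simp only [List.mem_cons, exists_eq_or_imp]
      tauto
  rw [key]
  simp only [Nat.zero_testBit, Bool.false_eq_true, false_or, mem_elems hm]

theorem testBit_blkOf {bl : List ℕ} {v j : ℕ} :
    (blkOf bl v).testBit j = true ↔ ∃ b ∈ bl, b.testBit v = true ∧ b.testBit j = true := by
  unfold blkOf
  induction bl with
  | nil => simp
  | cons a l ih =>
    rw [List.foldr_cons]
    by_cases h : a.testBit v = true
    · rw [h, cond_true, Nat.testBit_or, Bool.or_eq_true, ih]
      simp only [List.mem_cons, exists_eq_or_imp, h, true_and]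
    · simp only [Bool.not_eq_true] at h
      rw [h, cond_false, ih]
      simp only [List.mem_cons, exists_eq_or_imp, h, Bool.false_eq_true, false_and, false_or]

theorem cloF_sound {s : St} {bl : List ℕ} {keep : ℕ} {k : ℕ → Bool} :
    ∀ (f c fr : ℕ), cloF s bl keep k f c fr = true →
      (∀ v, c.testBit v = true → fr.testBit v = false → ∀ w,
        (nbr s bl keep v).testBit w = true → c.testBit w = true) →
      (∀ v, fr.testBit v = true → c.testBit v = true) →
      ∃ c', k c' = true ∧ (∀ v, c.testBit v = true → c'.testBit v = true) ∧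
        (∀ v, c'.testBit v = true → c.testBit v = true ∨ keep.testBit v = true) ∧
        (∀ v, c'.testBit v = true → ∀ w, (nbr s bl keep v).testBit w = true →
          c'.testBit w = true) ∧
        (∀ P : ℕ → Prop, (∀ v, c.testBit v = true → P v) →
          (∀ v, c'.testBit v = true → P v → ∀ w, (nbr s bl keep v).testBit w = true → P w) →
          ∀ v, c'.testBit v = true → P v)
  | 0, c, fr, h, _, _ => by simp [cloF] at h
  | f + 1, c, fr, h, h1, h2 => by
    unfold cloF at h
    by_cases h0 : fr = 0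
    · subst h0
      have hbq : Nat.beq 0 0 = true := rfl
      rw [hbq, cond_true] at h
      refine ⟨c, h, fun v hv => hv, fun v hv => Or.inl hv, ?_, ?_⟩
      · intro v hv w hw
        exact h1 v hv (by simp) w hw
      · intro P hP _ v hv
        exact hP v hv
    · have hb : Nat.beq fr 0 = false := by
        rw [← Bool.not_eq_true]
        intro hh
        exact h0 (Nat.eq_of_beq_eq_true hh)
      rw [hb, cond_false] at h
      have hlc : c.testBit (Nat.log2 fr) = true := h2 _ (testBit_log2 h0)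
      obtain ⟨c', r1, r2, r3, r4, r5⟩ := cloF_sound f _ _ h (by
        intro v hv hfr w hw
        rw [Nat.testBit_or, Bool.or_eq_true] at hv ⊢
        rw [Nat.testBit_or, Bool.or_eq_false_iff, testBit_clear h0] at hfr
        obtain ⟨g1, g2⟩ := hfr
        by_cases hcv : c.testBit v = true
        · by_cases hvl : v = Nat.log2 fr
          · right
            rw [← hvl]
            exact hw
          · left
            apply h1 v hcv _ w hw
            simpa [hvl] using g1
        · exfalso
          rcases hv with hv | hv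
          · exact hcv hv
          · rw [Nat.testBit_xor, Nat.testBit_and, hv] at g2
            simp only [Bool.not_eq_true] at hcv
            rw [hcv] at g2
            simp at g2) (by
        intro v hv
        rw [Nat.testBit_or, Bool.or_eq_true] at hv ⊢
        rcases hv with hv | hv
        · left
          rw [testBit_clear h0, Bool.and_eq_true] at hv
          exact h2 v hv.1
        · rw [Nat.testBit_xor, Nat.testBit_and] at hv
          by_cases hn : (nbr s bl keep (Nat.log2 fr)).testBit v = true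
          · exact Or.inr hn
          · simp only [Bool.not_eq_true] at hn
            rw [hn] at hv
            simp at hv)
      refine ⟨c', r1, ?_, ?_, r4, ?_⟩
      · intro v hv
        apply r2
        rw [Nat.testBit_or, hv]
        simp
      · intro v hv
        rcases r3 v hv with h3 | h3
        · rw [Nat.testBit_or, Bool.or_eq_true] at h3
          rcases h3 with h3 | h3
          · exact Or.inl h3
          · right
            unfold nbr at h3
            rw [Nat.testBit_and, Bool.and_eq_true] at h3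
            exact h3.2
        · exact Or.inr h3
      · intro P hP hcl v hv
        apply r5 P _ hcl v hv
        intro u hu
        rw [Nat.testBit_or, Bool.or_eq_true] at hu
        rcases hu with hu | hu
        · exact hP u hu
        · apply hcl (Nat.log2 fr) _ (hP _ hlc) u hu
          apply r2
          rw [Nat.testBit_or, hlc]
          simp

section
variable {V : Type} [DecidableEq V]

/-- A cut with exactly two edges and distinct ends. -/
structure CutE (H : SimpleGraph V) (A X Y : Finset V) (x1 x2 y1 y2 : V) : Prop where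
  un : X ∪ Y = A
  dis : Disjoint X Y
  hx1 : x1 ∈ X
  hx2 : x2 ∈ X
  hy1 : y1 ∈ Y
  hy2 : y2 ∈ Y
  nex : x1 ≠ x2
  ney : y1 ≠ y2
  adj1 : H.Adj x1 y1
  adj2 : H.Adj x2 y2
  only : ∀ x ∈ X, ∀ y ∈ Y, H.Adj x y → (x = x1 ∧ y = y1) ∨ (x = x2 ∧ y = y2)

/-- The context of the exploration. -/
structure Ctx (par : Par) (H : SimpleGraph V) (A F : Finset V) : Prop where
  deg : ∀ v ∈ A, dg H A v ≤ 3
  conn : Conn H A
  ih : ∀ X, X ⊂ A → X.Nonempty → Conn H X → ClP H X
  bl : Bl H A
  dg2 : ∀ v ∈ A, 2 ≤ dg H A v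
  df : (par.dfm : ℤ) ≤ df H A
  no : ¬ Bd H A F ((par.T : ℤ) - 30)
  pat7 : ∀ w : Fin 7 → V, Function.Injective w → (∀ i, w i ∈ A) →
    (∀ i j : Fin 7, ladj g7l i j = true → H.Adj (w i) (w j)) → False
  pat10 : ∀ w : Fin 10 → V, (∀ i, w i ∈ A) → ¬ IsD10 H w
  cut2 : par.c2 = true → ∀ X Y x1 x2 y1 y2, CutE H A X Y x1 x2 y1 y2 →
    (dg H A x1 = 3 ∧ dg H A x2 = 3 ∧ dg H A y1 = 3 ∧ dg H A y2 = 3) ∧
      fb H X ∅ ≤ -1 ∧ fb H X {x1, x2} ≤ -21

variable {H : SimpleGraph V} {A F : Finset V} {s : St} {ι : ℕ → V} {bl : List ℕ} {par : Par}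

/-- Data of a move. -/
structure MoveD (s : St) (bl : List ℕ) (L keep : ℕ) : Prop where
  Lfm : ∀ i, L.testBit i = true → s.fm.testBit i = true
  kp : ∀ i, keep.testBit i = true ↔ (i < s.n ∧ L.testBit i = false)
  bsub : ∀ b ∈ bl, ∀ i, b.testBit i = true → s.sm.testBit i = true

theorem MoveD.L_lt {L keep : ℕ} (hw : WF s) (hM : MoveD s bl L keep) : L < 2 ^ 32 :=
  lt_of_sub hw.n_le (fun i hi => by
    have := hM.Lfm i hi
    rw [testBit_fm] at this; simp at this; exact this.1)

theorem MoveD.L_n {L keep : ℕ} (hM : MoveD s bl L keep) {i : ℕ} (hi : L.testBit i = true) :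
    i < s.n := by
  have := hM.Lfm i hi
  rw [testBit_fm] at this; simp at this; exact this.1

theorem sm_keep {L keep : ℕ} (hM : MoveD s bl L keep) {i : ℕ} (hi : s.sm.testBit i = true) :
    keep.testBit i = true := by
  rw [hM.kp]
  have h1 := hi
  rw [testBit_sm] at h1
  simp at h1
  refine ⟨h1.1, ?_⟩
  by_contra hc
  simp only [Bool.not_eq_false] at hc
  have := hM.Lfm i hc
  rw [testBit_fm] at this
  simp [h1] at this

/-- The remaining vertex set. -/
theorem hat_keep (hR : Real H A F s ι) (hw : WF s) (hcn : Conn H A) (hn : 0 < s.n)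
    {L keep : ℕ} (hM : MoveD s bl L keep) : hat H A s ι keep = A \ img ι L := by
  ext x
  rw [mem_hat, mem_sdiff, mem_img (hM.L_lt hw)]
  constructor
  · rintro ⟨hx, i, hi, ha⟩
    refine ⟨hx, ?_⟩
    rintro ⟨j, hj, hjx⟩
    have hjn := hM.L_n hj
    rcases ha with ⟨h1, h2⟩ | ⟨h1, h2, h3⟩
    · have := hR.inj j hjn i h1 (hjx.trans h2.symm)
      subst this
      rw [hM.kp] at hi
      rw [hj] at hi
      simp at hi
    · exact h1 j hjn hjx
  · rintro ⟨hx, hx2⟩
    refine ⟨hx, ?_⟩
    obtain ⟨i, hi, ha⟩ := att_exists hR hw hcn hn hx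
    refine ⟨i, ?_, ha⟩
    rcases ha with ⟨h1, h2⟩ | ⟨h1, h2, h3⟩
    · rw [hM.kp]
      refine ⟨h1, ?_⟩
      by_contra hc
      simp only [Bool.not_eq_false] at hc
      exact hx2 ⟨i, hc, h2⟩
    · exact sm_keep hM h2

/-- Closed masks give vertex sets closed in the remaining graph. -/
theorem hat_closed (hR : Real H A F s ι) (hw : WF s) (hf : Faith H A s ι bl)
    {L keep c : ℕ} (hM : MoveD s bl L keep)
    (hcl : ∀ v, c.testBit v = true → ∀ w, (nbr s bl keep v).testBit w = true →
      c.testBit w = true)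
    {x y : V} (hx : x ∈ hat H A s ι c) (hy : y ∈ A) (hyL : y ∉ img ι L) (ha : H.Adj x y) :
    y ∈ hat H A s ι c := by
  have hc : CB bl c := by
    intro b hb i j hi hm hj
    apply hcl i hm j
    unfold nbr
    rw [Nat.testBit_and, Nat.testBit_or, Bool.and_eq_true, Bool.or_eq_true]
    exact ⟨Or.inr (testBit_blkOf.2 ⟨b, hb, hi, hj⟩), sm_keep hM (hM.bsub b hb j hj)⟩
  rcases leave hR hw hf hc hx hy ha with h | ⟨i, j, h1, h2, h3, h4, h5, h6, h7⟩
  · exact h
  · exfalso
    have hk : keep.testBit j = true := by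
      rw [hM.kp]
      refine ⟨h3, ?_⟩
      by_contra hcc
      simp only [Bool.not_eq_false] at hcc
      exact hyL ((mem_img (hM.L_lt hw)).2 ⟨j, hcc, h5⟩)
    have := hcl i h1 j (by
      unfold nbr
      rw [Nat.testBit_and, Nat.testBit_or, Bool.and_eq_true, Bool.or_eq_true]
      exact ⟨Or.inl h6, hk⟩)
    rw [h7] at this
    simp at this

/-- Connectedness of the real set of a component mask. -/
theorem hat_conn (hR : Real H A F s ι) (hw : WF s) (hf : Faith H A s ι bl)
    {L keep c v0 : ℕ} (hM : MoveD s bl L keep)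
    (hck : ∀ v, c.testBit v = true → keep.testBit v = true)
    (hcl : ∀ v, c.testBit v = true → ∀ w, (nbr s bl keep v).testBit w = true →
      c.testBit w = true)
    (hv0 : c.testBit v0 = true)
    (hP : ∀ P : ℕ → Prop, P v0 →
      (∀ v, c.testBit v = true → P v → ∀ w, (nbr s bl keep v).testBit w = true → P w) →
      ∀ v, c.testBit v = true → P v) : Conn H (hat H A s ι c) := by
  have hn : ∀ i, c.testBit i = true → i < s.n := fun i hi => ((hM.kp i).1 (hck i hi)).1
  -- the region avoids `L`
  have hreg : ∀ y ∈ region A s ι, y ∈ A ∧ y ∉ img ι L := by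
    intro y hy
    unfold region at hy
    rw [mem_sdiff] at hy
    refine ⟨hy.1, fun h => hy.2 ?_⟩
    rw [mem_img (hM.L_lt hw)] at h
    obtain ⟨j, hj, hjy⟩ := h
    exact (mem_img (fm_lt hw)).2 ⟨j, hM.Lfm j hj, hjy⟩
  -- one-sided statement
  have main : ∀ X, X ⊆ hat H A s ι c → ι v0 ∈ X →
      (∀ x ∈ X, ∀ y ∈ hat H A s ι c \ X, ¬ H.Adj x y) → hat H A s ι c ⊆ X := by
    intro X hX h0 hno
    have hstep : ∀ x y, x ∈ X → H.Adj x y → y ∈ A → y ∉ img ι L → y ∈ X := by
      intro x y hx ha hy hyL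
      by_contra hc
      have := hat_closed hR hw hf hM hcl (hX hx) hy hyL ha
      exact hno x hx y (mem_sdiff.2 ⟨this, hc⟩) ha
    have hrt : ∀ x y, RT H (region A s ι) x y → x ∈ X → y ∈ X := by
      intro x y h hx
      induction h with
      | refl => exact hx
      | tail _ h2 ih => exact hstep _ _ ih h2.1 (hreg _ h2.2.2).1 (hreg _ h2.2.2).2
    have hall : ∀ v, c.testBit v = true → (c.testBit v = true ∧ ι v ∈ X) := by
      apply hP (fun v => c.testBit v = true ∧ ι v ∈ X) ⟨hv0, h0⟩
      intro v hv hPv w hw'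
      refine ⟨hcl v hv w hw', ?_⟩
      have hcw := hcl v hv w hw'
      have hwn := hn w hcw
      unfold nbr at hw'
      rw [Nat.testBit_and, Nat.testBit_or, Bool.and_eq_true, Bool.or_eq_true] at hw'
      rcases hw'.1 with h1 | h1
      · apply hstep _ _ hPv.2 (hR.adj v (hn v hv) w hwn h1) (hR.mem w hwn)
        intro h
        rw [mem_img (hM.L_lt hw)] at h
        obtain ⟨j, hj, hjy⟩ := h
        have := hR.inj j (hM.L_n hj) w hwn hjy
        subst this
        have := ((hM.kp j).1 hw'.2).2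
        rw [hj] at this
        simp at this
      · rw [testBit_blkOf] at h1
        obtain ⟨b, hb, hbv, hbw⟩ := h1
        exact hrt _ _ (hf.conn b hb v w hbv hbw) hPv.2
    intro x hx
    rw [mem_hat] at hx
    obtain ⟨hxA, i, hi, ha⟩ := hx
    rcases ha with ⟨h1, h2⟩ | ⟨h1, h2, h3⟩
    · rw [← h2]
      exact (hall i hi).2
    · exact hrt _ _ h3.symm (hall i hi).2
  intro X hX hne hne'
  by_contra hcon
  push Not at hcon
  have hv0h : ι v0 ∈ hat H A s ι c := (known_mem_hat hR (hn v0 hv0)).2 hv0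
  by_cases h0 : ι v0 ∈ X
  · have := main X hX h0 hcon
    obtain ⟨y, hy⟩ := hne'
    rw [mem_sdiff] at hy
    exact hy.2 (this hy.1)
  · have := main (hat H A s ι c \ X) sdiff_subset (mem_sdiff.2 ⟨hv0h, h0⟩) (by
      intro x hx y hy ha
      rw [mem_sdiff] at hy
      have hyX : y ∈ X := by
        by_contra hc
        exact hy.2 (mem_sdiff.2 ⟨hy.1, hc⟩)
      exact hcon y hyX x hx ha.symm)
    obtain ⟨x, hx⟩ := hne
    have := this (hX hx)
    rw [mem_sdiff] at this
    exact this.2 hx

/-- Degree of an unknown vertex is unchanged. -/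
theorem dg_unknown (hR : Real H A F s ι) (hw : WF s) {L keep : ℕ} (hM : MoveD s bl L keep)
    {x : V} (hx : x ∈ A) (hu : ∀ j < s.n, ι j ≠ x) : dg H (A \ img ι L) x = dg H A x := by
  unfold dg
  congr 1
  ext y
  rw [mem_nb, mem_nb, mem_sdiff]
  constructor
  · rintro ⟨⟨h1, _⟩, h2⟩
    exact ⟨h1, h2⟩
  · rintro ⟨h1, h2⟩
    refine ⟨⟨h1, ?_⟩, h2⟩
    intro h
    rw [mem_img (hM.L_lt hw)] at h
    obtain ⟨j, hj, hjy⟩ := h
    have hfj := hM.Lfm j hj
    rw [testBit_fm] at hfj
    simp at hfj
    obtain ⟨k, _, hk2, hk3⟩ := full_adj hR hw hfj.1 hfj.2 hx (by rw [hjy]; exact h2.symm)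
    exact hu k hk2 hk3

theorem and_lt (a b : ℕ) (h : a < 2 ^ 32) : a &&& b < 2 ^ 32 := lt_of_le_of_lt Nat.and_le_left h

/-- Degree of a known vertex after deletion. -/
theorem dg_known (hR : Real H A F s ι) (hw : WF s) {L keep : ℕ} (hM : MoveD s bl L keep)
    {i : ℕ} (hi : i < s.n) : dg H (A \ img ι L) (ι i) = rdg s L i := by
  have h1 : nb H A (ι i) = nb H (A \ img ι L) (ι i) ∪ img ι (s.row i &&& L) := by
    ext y
    rw [mem_union, mem_nb, mem_nb, mem_sdiff, mem_img (and_lt _ _ (s.row_lt i))]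
    constructor
    · rintro ⟨h1, h2⟩
      by_cases hyL : y ∈ img ι L
      · right
        rw [mem_img (hM.L_lt hw)] at hyL
        obtain ⟨j, hj, hjy⟩ := hyL
        have hfj := hM.Lfm j hj
        rw [testBit_fm] at hfj
        simp at hfj
        obtain ⟨k, hk1, hk2, hk3⟩ := full_adj hR hw hfj.1 hfj.2 (hR.mem i hi)
          (by rw [hjy]; exact h2.symm)
        have := hR.inj k hk2 i hi hk3
        subst this
        refine ⟨j, ?_, hjy⟩
        rw [Nat.testBit_and, Bool.and_eq_true]
        exact ⟨hw.sym j hfj.1 k hk1, hj⟩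
      · exact Or.inl ⟨⟨h1, hyL⟩, h2⟩
    · rintro (⟨⟨h1, _⟩, h2⟩ | ⟨j, hj, hjy⟩)
      · exact ⟨h1, h2⟩
      · rw [Nat.testBit_and, Bool.and_eq_true] at hj
        have hjn := hw.sub i hi j hj.1
        rw [← hjy]
        exact ⟨hR.mem j hjn, hR.adj i hi j hjn hj.1⟩
  have h2 : Disjoint (nb H (A \ img ι L) (ι i)) (img ι (s.row i &&& L)) := by
    rw [disjoint_left]
    intro y hy hy'
    rw [mem_nb, mem_sdiff] at hy
    apply hy.1.2
    rw [mem_img (and_lt _ _ (s.row_lt i))] at hy'
    obtain ⟨j, hj, hjy⟩ := hy'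
    rw [Nat.testBit_and, Bool.and_eq_true] at hj
    exact (mem_img (hM.L_lt hw)).2 ⟨j, hj.2, hjy⟩
  have h3 := hR.deg i hi
  unfold dg at h3 ⊢
  rw [h1, card_union_of_disjoint h2, card_img hR (and_lt _ _ (s.row_lt i)) (fun j hj => by
    rw [Nat.testBit_and, Bool.and_eq_true] at hj
    exact hw.sub i hi j hj.1)] at h3
  unfold rdg
  change _ = s.dg i at h3
  omega

theorem sum_img (hR : Real H A F s ι) {m : ℕ} (hs : ∀ i, m.testBit i = true → i < s.n)
    (g : V → ℤ) : ∑ x ∈ img ι m, g x = ∑ i ∈ bits m, g (ι i) := by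
  unfold img
  apply sum_image
  intro i hi j hj hij
  exact hR.inj i (hs i (mem_bits.1 hi).2) j (hs j (mem_bits.1 hj).2) hij

theorem cast_sum_elems {m : ℕ} (hm : m < 2 ^ 32) (g : ℕ → ℕ) :
    ((((elems 32 m).map g).sum : ℕ) : ℤ) = ∑ i ∈ bits m, (g i : ℤ) := by
  rw [sum_elems hm]
  push_cast
  rfl

/-- Accounting of the potential. -/
theorem Phi_move (hR : Real H A F s ι) (hw : WF s) {L keep : ℕ} (hM : MoveD s bl L keep) :
    Phi H (A \ img ι L) + (((elems 32 (ones s.n)).map (fun i => phiN (s.dg i))).sum : ℕ) =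
      Phi H A + (((elems 32 keep).map (fun i => phiN (rdg s L i))).sum : ℕ) := by
  have hkn : ∀ i, keep.testBit i = true → i < s.n := fun i hi => ((hM.kp i).1 hi).1
  have hk32 : keep < 2 ^ 32 := lt_of_sub hw.n_le hkn
  have ho32 : ones s.n < 2 ^ 32 := ones_lt hw.n_le
  have hon : ∀ i, (ones s.n).testBit i = true → i < s.n := fun i hi => by
    rw [testBit_ones] at hi; simpa using hi
  set U := A \ img ι (ones s.n) with hU
  have hUu : ∀ x ∈ U, x ∈ A ∧ ∀ j < s.n, ι j ≠ x := by
    intro x hx
    rw [hU, mem_sdiff, mem_img ho32] at hx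
    refine ⟨hx.1, fun j hj hjx => hx.2 ⟨j, ?_, hjx⟩⟩
    rw [testBit_ones]; simpa using hj
  have e1 : A = img ι (ones s.n) ∪ U := by
    rw [hU, union_sdiff_of_subset]
    intro x hx
    rw [mem_img ho32] at hx
    obtain ⟨j, hj, rfl⟩ := hx
    exact hR.mem j (hon j hj)
  have d1 : Disjoint (img ι (ones s.n)) U := by rw [hU]; exact disjoint_sdiff
  have e2 : A \ img ι L = img ι keep ∪ U := by
    ext x
    rw [mem_union, mem_sdiff, mem_img (hM.L_lt hw), mem_img hk32]
    constructor
    · rintro ⟨h1, h2⟩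
      by_cases hk : ∃ j < s.n, ι j = x
      · obtain ⟨j, hj, hjx⟩ := hk
        left
        refine ⟨j, (hM.kp j).2 ⟨hj, ?_⟩, hjx⟩
        by_contra hc
        simp only [Bool.not_eq_false] at hc
        exact h2 ⟨j, hc, hjx⟩
      · push Not at hk
        right
        rw [hU, mem_sdiff, mem_img ho32]
        refine ⟨h1, ?_⟩
        rintro ⟨j, hj, hjx⟩
        exact hk j (hon j hj) hjx
    · rintro (⟨j, hj, rfl⟩ | hx)
      · refine ⟨hR.mem j (hkn j hj), ?_⟩
        rintro ⟨k, hk, hkj⟩
        have := hR.inj k (hM.L_n hk) j (hkn j hj) hkj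
        subst this
        rw [hM.kp, hk] at hj
        simp at hj
      · obtain ⟨h1, h2⟩ := hUu x hx
        refine ⟨h1, ?_⟩
        rintro ⟨k, hk, hkj⟩
        exact h2 k (hM.L_n hk) hkj
  have d2 : Disjoint (img ι keep) U := by
    rw [disjoint_left]
    intro x hx hx'
    rw [mem_img hk32] at hx
    obtain ⟨j, hj, rfl⟩ := hx
    exact (hUu _ hx').2 j (hkn j hj) rfl
  have p1 : Phi H A = ∑ i ∈ bits (ones s.n), (phiN (s.dg i) : ℤ) + ∑ x ∈ U, phi (dg H A x) := by
    have : Phi H A = ∑ x ∈ img ι (ones s.n) ∪ U, phi (dg H A x) := by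
      unfold Phi; rw [← e1]
    rw [this, sum_union d1, sum_img hR hon (fun x => phi (dg H A x))]
    congr 1
    apply sum_congr rfl
    intro i hi
    rw [phi_eq, hR.deg i (hon i (mem_bits.1 hi).2)]
  have p2 : Phi H (A \ img ι L) = ∑ i ∈ bits keep, (phiN (rdg s L i) : ℤ) +
      ∑ x ∈ U, phi (dg H A x) := by
    have : Phi H (A \ img ι L) = ∑ x ∈ img ι keep ∪ U, phi (dg H (A \ img ι L) x) := by
      unfold Phi; rw [← e2]
    rw [this, sum_union d2, sum_img hR hkn (fun x => phi (dg H (A \ img ι L) x))]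
    congr 1
    · apply sum_congr rfl
      intro i hi
      rw [phi_eq, dg_known hR hw hM (hkn i (mem_bits.1 hi).2)]
    · apply sum_congr rfl
      intro x hx
      rw [dg_unknown hR hw hM (hUu x hx).1 (hUu x hx).2]
  rw [p1, p2, cast_sum_elems ho32, cast_sum_elems hk32]
  ring

theorem xor_and_lt {a m : ℕ} (h : a < 2 ^ 32) : a ^^^ (a &&& m) < 2 ^ 32 := by
  apply Nat.xor_lt_two_pow h (and_lt _ _ h)

theorem testBit_diff {a m i : ℕ} :
    (a ^^^ (a &&& m)).testBit i = true ↔ a.testBit i = true ∧ m.testBit i = false := by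
  rw [Nat.testBit_xor, Nat.testBit_and]
  cases a.testBit i <;> cases m.testBit i <;> simp

theorem mem_elist {m i j : ℕ} (hm : m < 2 ^ 32) : (i, j) ∈ elist s m ↔
    m.testBit i = true ∧ (s.row i).testBit j = true ∧ m.testBit j = false := by
  unfold elist
  simp only [List.mem_flatMap, List.mem_map, Prod.mk.injEq]
  constructor
  · rintro ⟨a, ha, b, hb, rfl, rfl⟩
    rw [mem_elems hm] at ha
    rw [mem_elems (xor_and_lt (s.row_lt a)), testBit_diff] at hb
    exact ⟨ha, hb⟩
  · rintro ⟨h1, h2, h3⟩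
    refine ⟨i, (mem_elems hm i).2 h1, j, ?_, rfl, rfl⟩
    rw [mem_elems (xor_and_lt (s.row_lt i)), testBit_diff]
    exact ⟨h2, h3⟩

/-- A block-closed mask with exactly two leaving edges with distinct ends gives a cut. -/
theorem cut2_of (hR : Real H A F s ι) (hw : WF s) (hf : Faith H A s ι bl) {m i j k l : ℕ}
    (hc : CB bl m) (hm : ∀ i, m.testBit i = true → i < s.n)
    (he : elist s m = [(i, j), (k, l)]) (hik : i ≠ k) (hjl : j ≠ l) :
    CutE H A (hat H A s ι m) (A \ hat H A s ι m) (ι i) (ι k) (ι j) (ι l) := by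
  have hm32 := lt_of_sub hw.n_le hm
  have h1 : (i, j) ∈ elist s m := by rw [he]; simp
  have h2 : (k, l) ∈ elist s m := by rw [he]; simp
  rw [mem_elist hm32] at h1 h2
  have hin := hm i h1.1
  have hkn := hm k h2.1
  have hjn := hw.sub i hin j h1.2.1
  have hln := hw.sub k hkn l h2.2.1
  refine ⟨?_, disjoint_sdiff, (known_mem_hat hR hin).2 h1.1, (known_mem_hat hR hkn).2 h2.1, ?_, ?_,
    ?_, ?_, hR.adj i hin j hjn h1.2.1, hR.adj k hkn l hln h2.2.1, ?_⟩
  · exact union_sdiff_of_subset (fun x hx => (mem_hat.1 hx).1)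
  · rw [mem_sdiff]
    refine ⟨hR.mem j hjn, fun h => ?_⟩
    rw [known_mem_hat hR hjn, h1.2.2] at h
    simp at h
  · rw [mem_sdiff]
    refine ⟨hR.mem l hln, fun h => ?_⟩
    rw [known_mem_hat hR hln, h2.2.2] at h
    simp at h
  · exact fun h => hik (hR.inj i hin k hkn h)
  · exact fun h => hjl (hR.inj j hjn l hln h)
  · intro x hx y hy ha
    rw [mem_sdiff] at hy
    rcases leave hR hw hf hc hx hy.1 ha with h | ⟨a, b, g1, g2, g3, g4, g5, g6, g7⟩
    · exact absurd h hy.2
    · have : (a, b) ∈ elist s m := (mem_elist hm32).2 ⟨g1, g6, g7⟩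
      rw [he] at this
      simp only [List.mem_cons, Prod.mk.injEq, List.not_mem_nil, or_false] at this
      rcases this with ⟨rfl, rfl⟩ | ⟨rfl, rfl⟩
      · exact Or.inl ⟨g4.symm, g5.symm⟩
      · exact Or.inr ⟨g4.symm, g5.symm⟩

theorem mem_mlist {L m a : ℕ} (hm : m < 2 ^ 32) (h : a ∈ mlist s L m) :
    m.testBit a = true ∧ rdg s L a ≤ 2 := by
  unfold mlist at h
  rw [List.mem_append, List.mem_filter, List.mem_filter, mem_elems hm] at h
  rcases h with ⟨h1, h2⟩ | ⟨h1, h2⟩
  · exact ⟨h1, (Nat.le_of_ble_eq_true h2).trans (by norm_num)⟩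
  · exact ⟨h1, (Nat.eq_of_beq_eq_true h2).le⟩

theorem nodup_mlist {L m : ℕ} (hm : m < 2 ^ 32) : (mlist s L m).Nodup := by
  unfold mlist
  rw [List.nodup_append]
  refine ⟨(nodup_elems hm).filter _, (nodup_elems hm).filter _, ?_⟩
  intro a ha b hb
  rintro rfl
  rw [List.mem_filter] at ha hb
  have h1 := Nat.le_of_ble_eq_true ha.2
  have h2 := Nat.eq_of_beq_eq_true hb.2
  omega

/-- Data of a component. -/
structure CompD (H : SimpleGraph V) (A : Finset V) (s : St) (ι : ℕ → V) (bl : List ℕ)
    (L keep c : ℕ) : Prop where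
  ck : ∀ v, c.testBit v = true → keep.testBit v = true
  cl : ∀ v, c.testBit v = true → ∀ w, (nbr s bl keep v).testBit w = true → c.testBit w = true
  ne : ∃ v, c.testBit v = true
  conn : Conn H (hat H A s ι c)

theorem CompD.cn {L keep c : ℕ} (hM : MoveD s bl L keep) (hD : CompD H A s ι bl L keep c)
    {i : ℕ} (hi : c.testBit i = true) : i < s.n := ((hM.kp i).1 (hD.ck i hi)).1

theorem CompD.cb {L keep c : ℕ} (hM : MoveD s bl L keep) (hD : CompD H A s ι bl L keep c) :
    CB bl c := by
  intro b hb i j hi hm hj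
  apply hD.cl i hm j
  unfold nbr
  rw [Nat.testBit_and, Nat.testBit_or, Bool.and_eq_true, Bool.or_eq_true]
  exact ⟨Or.inr (testBit_blkOf.2 ⟨b, hb, hi, hj⟩), sm_keep hM (hM.bsub b hb j hj)⟩

theorem CompD.deg {L keep c : ℕ} (hR : Real H A F s ι) (hw : WF s) (hf : Faith H A s ι bl)
    (hM : MoveD s bl L keep) (hD : CompD H A s ι bl L keep c) {i : ℕ}
    (hi : c.testBit i = true) : dg H (hat H A s ι c) (ι i) = rdg s L i := by
  have hin := hD.cn hM hi
  rw [← dg_known hR hw hM hin]
  unfold dg
  congr 1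
  ext y
  rw [mem_nb, mem_nb, mem_sdiff]
  constructor
  · rintro ⟨h1, h2⟩
    refine ⟨⟨(mem_hat.1 h1).1, ?_⟩, h2⟩
    intro h
    rw [mem_img (hM.L_lt hw)] at h
    obtain ⟨j, hj, hjy⟩ := h
    rw [← hjy] at h1
    have := (known_mem_hat hR (hM.L_n hj)).1 h1
    have := ((hM.kp j).1 (hD.ck j this)).2
    rw [hj] at this
    simp at this
  · rintro ⟨⟨h1, h2⟩, h3⟩
    exact ⟨hat_closed hR hw hf hM hD.cl ((known_mem_hat hR hin).2 hi) h1 h2 h3, h3⟩

theorem CompD.ss {L keep c : ℕ} (hR : Real H A F s ι)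
    (hM : MoveD s bl L keep) (hL : L ≠ 0) (hD : CompD H A s ι bl L keep c) :
    hat H A s ι c ⊂ A := by
  have hsub : hat H A s ι c ⊆ A := fun x hx => (mem_hat.1 hx).1
  refine ⟨hsub, fun hAs => ?_⟩
  have hl := testBit_log2 hL
  have hln := hM.L_n hl
  have := (known_mem_hat hR hln).1 (hAs (hR.mem _ hln))
  have := ((hM.kp _).1 (hD.ck _ this)).2
  rw [hl] at this
  simp at this

theorem CompD.hne {L keep c : ℕ} (hR : Real H A F s ι)
    (hM : MoveD s bl L keep) (hD : CompD H A s ι bl L keep c) : (hat H A s ι c).Nonempty := by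
  obtain ⟨v, hv⟩ := hD.ne
  exact ⟨_, (known_mem_hat hR (hD.cn hM hv)).2 hv⟩

theorem mbd_bd (hR : Real H A F s ι) (hw : WF s) (hf : Faith H A s ι bl)
    (hC : Ctx par H A F) {L keep c mk : ℕ} {Fm : Finset V} (hM : MoveD s bl L keep) (hL : L ≠ 0)
    (hmk : ∀ i, mk.testBit i = true → i < s.n → ι i ∈ Fm)
    (hD : CompD H A s ι bl L keep c) :
    fb H (hat H A s ι c) Fm ≤ (mbd s L c (mlist s L (c &&& mk)) : ℤ) - 30 := by
  have hss := hD.ss hR hM hL
  have hCl := hC.ih _ hss (hD.hne hR hM) hD.conn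
  have hc32 : c < 2 ^ 32 := lt_of_sub hw.n_le (fun i hi => hD.cn hM hi)
  have hcm32 := and_lt c mk hc32
  have hmem : ∀ a ∈ mlist s L (c &&& mk), ι a ∈ hat H A s ι c ∧ ι a ∈ Fm ∧
      dg H (hat H A s ι c) (ι a) = rdg s L a ∧ rdg s L a ≤ 2 ∧ a < s.n := by
    intro a ha
    obtain ⟨h1, h2⟩ := mem_mlist hcm32 ha
    rw [Nat.testBit_and, Bool.and_eq_true] at h1
    have han := hD.cn hM h1.1
    exact ⟨(known_mem_hat hR han).2 h1.1, hmk a h1.2 han, hD.deg hR hw hf hM h1.1, h2, han⟩
  have hnd := nodup_mlist (s := s) (L := L) hcm32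
  have hle : ∀ {F0 : Finset V} {t : ℤ}, F0 ⊆ Fm → fb H (hat H A s ι c) F0 ≤ t →
      fb H (hat H A s ι c) Fm ≤ t := fun h1 h2 => (fbm h1).trans h2
  generalize mlist s L (c &&& mk) = l at hmem hnd
  match l with
  | [] =>
    simp only [mbd]
    by_cases hlf : (elems 32 c).any (fun i => Nat.beq (rdg s L i) 1) = true
    · rw [hlf, cond_true]
      rw [List.any_eq_true] at hlf
      obtain ⟨i, hi, hb⟩ := hlf
      rw [mem_elems hc32] at hi
      have := hCl.cl.leaf (ι i) ((known_mem_hat hR (hD.cn hM hi)).2 hi) (by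
        rw [hD.deg hR hw hf hM hi]; exact Nat.eq_of_beq_eq_true hb)
      refine hle (empty_subset _) (this.trans ?_)
      norm_num
    · simp only [Bool.not_eq_true] at hlf
      rw [hlf, cond_false]
      refine hle (empty_subset _) (hCl.full4.trans ?_)
      norm_num
  | [a] =>
    obtain ⟨a1, a2, a3, a4, a5⟩ := hmem a (by simp)
    have hs : ({ι a} : Finset V) ⊆ Fm := by simpa using a2
    simp only [mbd]
    by_cases h1 : Nat.ble (rdg s L a) 1 = true
    · rw [h1, cond_true]
      have := hCl.cl.mark1 (ι a) a1 (by rw [a3]; exact Nat.le_of_ble_eq_true h1)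
      refine hle hs (this.trans ?_)
      norm_num
    · simp only [Bool.not_eq_true] at h1
      rw [h1, cond_false]
      have := hCl.cl.mark (ι a) a1 (by rw [a3]; exact a4)
      refine hle hs (this.trans ?_)
      norm_num
  | [a, b] =>
    obtain ⟨a1, a2, a3, a4, a5⟩ := hmem a (by simp)
    obtain ⟨b1, b2, b3, b4, b5⟩ := hmem b (by simp)
    have hab : ι a ≠ ι b := by
      intro h
      have := hR.inj a a5 b b5 h
      subst this
      simp at hnd
    have hs : ({ι a, ι b} : Finset V) ⊆ Fm := by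
      intro x hx
      simp only [mem_insert, mem_singleton] at hx
      rcases hx with rfl | rfl
      · exact a2
      · exact b2
    simp only [mbd]
    by_cases h1 : Nat.ble (rdg s L a) 1 = true
    · rw [h1, cond_true]
      have := hCl.cl.pair1 (ι a) a1 (ι b) b1 hab (by rw [a3]; exact Nat.le_of_ble_eq_true h1)
        (by rw [b3]; exact b4)
      refine hle hs (this.trans ?_)
      norm_num
    · simp only [Bool.not_eq_true] at h1
      rw [h1, cond_false]
      have := hCl.cl.pair (ι a) a1 (ι b) b1 hab (by rw [a3]; exact a4) (by rw [b3]; exact b4)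
      refine hle hs (this.trans ?_)
      norm_num
  | a :: b :: d :: r =>
    obtain ⟨a1, a2, a3, a4, a5⟩ := hmem a (by simp)
    obtain ⟨b1, b2, b3, b4, b5⟩ := hmem b (by simp)
    obtain ⟨d1, d2, d3, d4, d5⟩ := hmem d (by simp)
    have hnd' : a ≠ b ∧ a ≠ d ∧ b ≠ d := by
      simp only [List.nodup_cons, List.mem_cons, not_or] at hnd
      exact ⟨hnd.1.1, hnd.1.2.1, hnd.2.1.1⟩
    have hab : ι a ≠ ι b := fun h => hnd'.1 (hR.inj a a5 b b5 h)
    have had : ι a ≠ ι d := fun h => hnd'.2.1 (hR.inj a a5 d d5 h)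
    have hbd : ι b ≠ ι d := fun h => hnd'.2.2 (hR.inj b b5 d d5 h)
    have hs : ({ι a, ι b, ι d} : Finset V) ⊆ Fm := by
      intro x hx
      simp only [mem_insert, mem_singleton] at hx
      rcases hx with rfl | rfl | rfl
      · exact a2
      · exact b2
      · exact d2
    simp only [mbd]
    by_cases h1 : Nat.ble (rdg s L a) 1 = true
    · rw [h1, cond_true]
      have := hCl.cl.trip1 (ι a) a1 (ι b) b1 (ι d) d1 hab had hbd
        (by rw [a3]; exact Nat.le_of_ble_eq_true h1) (by rw [b3]; exact b4) (by rw [d3]; exact d4)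
      refine hle hs (this.trans ?_)
      norm_num
    · simp only [Bool.not_eq_true] at h1
      rw [h1, cond_false]
      have := hCl.cl.trip (ι a) a1 (ι b) b1 (ι d) d1 hab had hbd
        (by rw [a3]; exact a4) (by rw [b3]; exact b4) (by rw [d3]; exact d4)
      refine hle hs (this.trans ?_)
      norm_num

theorem c2bd_bd (hR : Real H A F s ι) (hw : WF s) (hf : Faith H A s ι bl)
    (hC : Ctx par H A F) {L keep c mk b : ℕ} {Fm : Finset V} (hM : MoveD s bl L keep)
    (hmk : ∀ i, mk.testBit i = true → i < s.n → ι i ∈ Fm)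
    (hD : CompD H A s ι bl L keep c) (hc2 : par.c2 = true)
    (hb : fb H (hat H A s ι c) Fm ≤ (b : ℤ) - 30) :
    fb H (hat H A s ι c) Fm ≤ (c2bd b mk (elist s c) : ℤ) - 30 := by
  generalize he : elist s c = l
  unfold c2bd
  split
  · rename_i i j k l'
    by_cases h1 : Nat.beq i k = true
    · rw [h1, cond_true]; exact hb
    simp only [Bool.not_eq_true] at h1
    rw [h1, cond_false]
    by_cases h2 : Nat.beq j l' = true
    · rw [h2, cond_true]; exact hb
    simp only [Bool.not_eq_true] at h2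
    rw [h2, cond_false]
    have hik : i ≠ k := by rintro rfl; simp at h1
    have hjl : j ≠ l' := by rintro rfl; simp at h2
    have hcut := cut2_of hR hw hf (hD.cb hM) (fun i hi => hD.cn hM hi) he hik hjl
    obtain ⟨_, g2, g3⟩ := hC.cut2 hc2 _ _ _ _ _ _ hcut
    have hm32 : c < 2 ^ 32 := lt_of_sub hw.n_le (fun i hi => hD.cn hM hi)
    have hi1 : (i, j) ∈ elist s c := by rw [he]; simp
    have hi2 : (k, l') ∈ elist s c := by rw [he]; simp
    rw [mem_elist hm32] at hi1 hi2
    by_cases h3 : (mk.testBit i && mk.testBit k) = true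
    · rw [h3, cond_true]
      rw [Bool.and_eq_true] at h3
      have hs : ({ι i, ι k} : Finset V) ⊆ Fm := by
        intro x hx
        simp only [mem_insert, mem_singleton] at hx
        rcases hx with rfl | rfl
        · exact hmk i h3.1 (hD.cn hM hi1.1)
        · exact hmk k h3.2 (hD.cn hM hi2.1)
      have := (fbm (H := H) (A := hat H A s ι c) hs).trans g3
      rw [Nat.cast_min]
      have h4 : ((9 : ℕ) : ℤ) = 9 := rfl
      rcases min_choice (b : ℤ) ((9 : ℕ) : ℤ) with h | h <;> rw [h]
      · exact hb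
      · linarith
    · simp only [Bool.not_eq_true] at h3
      rw [h3, cond_false]
      have := (fbm (H := H) (A := hat H A s ι c) (empty_subset Fm)).trans g2
      rw [Nat.cast_min]
      have h4 : ((29 : ℕ) : ℤ) = 29 := rfl
      rcases min_choice (b : ℤ) ((29 : ℕ) : ℤ) with h | h <;> rw [h]
      · exact hb
      · linarith
  · exact hb

theorem br_bd (hR : Real H A F s ι) (hw : WF s) (hf : Faith H A s ι bl)
    (hC : Ctx par H A F) {L keep c : ℕ} {brs : List ℕ} {Fm : Finset V} (hM : MoveD s bl L keep)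
    (hL : L ≠ 0) (hD : CompD H A s ι bl L keep c) (h : hasBr s bl brs c = true) :
    fb H (hat H A s ι c) Fm ≤ 2 := by
  have hss := hD.ss hR hM hL
  have hc32 : c < 2 ^ 32 := lt_of_sub hw.n_le (fun i hi => hD.cn hM hi)
  unfold hasBr at h
  rw [List.any_eq_true] at h
  obtain ⟨m0, _, h⟩ := h
  rw [Bool.and_eq_true, Bool.and_eq_true, Bool.and_eq_true] at h
  obtain ⟨h1, h2, h3, h4⟩ := h
  generalize hmm : m0 &&& c = m at h1 h2 h3 h4
  have hmc : ∀ i, m.testBit i = true → c.testBit i = true := by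
    intro i hi
    rw [← hmm, Nat.testBit_and, Bool.and_eq_true] at hi
    exact hi.2
  have hmn : ∀ i, m.testBit i = true → i < s.n := fun i hi => hD.cn hM (hmc i hi)
  have hm32 := lt_of_sub hw.n_le hmn
  have hm0 : m ≠ 0 := by rintro rfl; simp at h1
  have hmc' : m ≠ c := by rintro rfl; simp at h2
  have hcb : CB bl m := by
    intro b hb i j hi hmi hj
    rw [List.all_eq_true] at h3
    have := h3 b hb
    rw [Bool.or_eq_true] at this
    rcases this with h | h
    · exact subm_iff h j hj
    · have := disj_iff h i hi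
      rw [hmi] at this
      simp at this
  obtain ⟨i0, hi0⟩ : ∃ i, m.testBit i = true := ⟨_, testBit_log2 hm0⟩
  obtain ⟨j0, hj0, hj0'⟩ : ∃ j, c.testBit j = true ∧ m.testBit j = false := by
    by_contra hcon
    push Not at hcon
    apply hmc'
    apply Nat.eq_of_testBit_eq
    intro i
    by_cases hci : c.testBit i = true
    · have := hcon i hci
      simp only [ne_eq, Bool.not_eq_false] at this
      rw [this, hci]
    · by_cases hmi : m.testBit i = true
      · exact absurd (hmc i hmi) hci
      · simp only [Bool.not_eq_true] at hmi hci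
        rw [hmi, hci]
  have hsub : hat H A s ι m ⊆ hat H A s ι c := by
    intro x hx
    rw [mem_hat] at hx ⊢
    obtain ⟨h1, i, h2, h3⟩ := hx
    exact ⟨h1, i, hmc i h2, h3⟩
  have hne : (hat H A s ι m).Nonempty := ⟨_, (known_mem_hat hR (hmn i0 hi0)).2 hi0⟩
  have hnc : (hat H A s ι c \ hat H A s ι m).Nonempty := by
    refine ⟨ι j0, mem_sdiff.2 ⟨(known_mem_hat hR (hD.cn hM hj0)).2 hj0, fun h => ?_⟩⟩
    rw [known_mem_hat hR (hD.cn hM hj0), hj0'] at h
    simp at h
  have hb : bdry H (hat H A s ι c) (hat H A s ι m) ≤ 1 := by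
    have hsub2 : img ι m ⊆ hat H A s ι m := by
      intro x hx
      rw [mem_img hm32] at hx
      obtain ⟨i, hi, rfl⟩ := hx
      exact (known_mem_hat hR (hmn i hi)).2 hi
    have hzero : ∀ x ∈ hat H A s ι m \ img ι m,
        dg H (hat H A s ι c \ hat H A s ι m) x = 0 := by
      intro x hx
      rw [mem_sdiff] at hx
      unfold dg
      rw [card_eq_zero, eq_empty_iff_forall_notMem]
      intro y hy
      rw [mem_nb, mem_sdiff] at hy
      rcases leave hR hw hf hcb hx.1 (mem_hat.1 hy.1.1).1 hy.2 with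
        h | ⟨i, j, g1, g2, g3, g4, g5, g6, g7⟩
      · exact hy.1.2 h
      · exact hx.2 ((mem_img hm32).2 ⟨i, g1, g4⟩)
    have h5 := Nat.le_of_ble_eq_true h4
    unfold bdry
    rw [← sum_sdiff hsub2, sum_eq_zero hzero, zero_add]
    have h6 : ∑ x ∈ img ι m, dg H (hat H A s ι c \ hat H A s ι m) x =
        ∑ i ∈ bits m, dg H (hat H A s ι c \ hat H A s ι m) (ι i) := by
      unfold img
      apply sum_image
      intro i hi j hj hij
      exact hR.inj i (hmn i (mem_bits.1 hi).2) j (hmn j (mem_bits.1 hj).2) hij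
    rw [h6]
    rw [sum_elems hm32] at h5
    refine le_trans (sum_le_sum ?_) h5
    intro i hi
    have hi' := (mem_bits.1 hi).2
    have hin' := hmn i hi'
    rw [← card_img hR (and_lt _ _ (s.row_lt i)) (fun j hj => by
      rw [Nat.testBit_and, Bool.and_eq_true] at hj
      exact hw.sub i hin' j hj.1)]
    unfold dg
    apply card_le_card
    intro y hy
    rw [mem_nb, mem_sdiff] at hy
    rcases leave hR hw hf hcb (hsub2 ((mem_img hm32).2 ⟨i, hi', rfl⟩)) (mem_hat.1 hy.1.1).1 hy.2
      with h | ⟨i', j, g1, g2, g3, g4, g5, g6, g7⟩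
    · exact absurd h hy.1.2
    · have := hR.inj i' g2 i hin' g4
      subst this
      refine (mem_img (and_lt _ _ (s.row_lt i'))).2 ⟨j, ?_, g5⟩
      rw [Nat.testBit_and, Nat.testBit_xor, g6, g7]
      have : c.testBit j = true := by
        rw [← known_mem_hat hR g3 (m := c), g5]
        exact hy.1.1
      rw [this]
      rfl
  have hnBl : ¬ Bl H (hat H A s ι c) := by
    intro hBl
    have := hBl _ hsub hne hnc
    omega
  obtain ⟨X, Y, x, y, hbr⟩ := exists_bridge hD.conn hnBl
  have := T_bridge hD.conn (fun v hv => (dg_mono hss.1 v).trans (hC.deg v (hss.1 hv)))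
    (fun Z h1 h2 h3 => (hC.ih Z (h1.trans hss) h2 h3).cl) hbr
  exact (fbm (empty_subset Fm)).trans this

/-- Bound for one component. -/
theorem comp_bd (hR : Real H A F s ι) (hw : WF s) (hf : Faith H A s ι bl)
    (hC : Ctx par H A F) {L keep c mk : ℕ} {brs : List ℕ} {Fm : Finset V}
    (hM : MoveD s bl L keep) (hL : L ≠ 0)
    (hmk : ∀ i, mk.testBit i = true → i < s.n → ι i ∈ Fm)
    (hD : CompD H A s ι bl L keep c) :
    Bd H (hat H A s ι c) Fm ((cbd s par bl brs L mk c : ℤ) - 30) := by
  rw [bd_iff]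
  have h0 := mbd_bd hR hw hf hC hM hL hmk hD
  have h1 : fb H (hat H A s ι c) Fm ≤ ((bif par.c2 then c2bd (mbd s L c (mlist s L (c &&& mk))) mk
      (elist s c) else mbd s L c (mlist s L (c &&& mk)) : ℕ) : ℤ) - 30 := by
    by_cases hc2 : par.c2 = true
    · rw [hc2, cond_true]
      exact c2bd_bd hR hw hf hC hM hmk hD hc2 h0
    · simp only [Bool.not_eq_true] at hc2
      rw [hc2, cond_false]
      exact h0
  unfold cbd
  generalize (bif par.c2 then c2bd (mbd s L c (mlist s L (c &&& mk))) mk
      (elist s c) else mbd s L c (mlist s L (c &&& mk)) : ℕ) = b at h1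
  unfold brF
  by_cases h2 : Nat.ble b 32 = true
  · rw [h2, cond_true]; exact h1
  · simp only [Bool.not_eq_true] at h2
    rw [h2, cond_false]
    by_cases h3 : hasBr s bl brs c = true
    · rw [h3, cond_true]
      refine (br_bd hR hw hf hC hM hL hD h3).trans ?_
      norm_num
    · simp only [Bool.not_eq_true] at h3
      rw [h3, cond_false]
      exact h1

theorem hat_zero : hat H A s ι 0 = ∅ := by
  ext x
  rw [mem_hat]
  simp

theorem tb_one (v i : ℕ) : (1 <<< v).testBit i = true ↔ i = v := by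
  rw [Nat.one_shiftLeft, Nat.testBit_two_pow]
  simp [eq_comm]

theorem compsB_sound (hR : Real H A F s ι) (hw : WF s) (hf : Faith H A s ι bl)
    (hn0 : 0 < s.n) (hC : Ctx par H A F)
    {L keep mk : ℕ} {brs : List ℕ} {Fm : Finset V} (hM : MoveD s bl L keep) (hL : L ≠ 0)
    (hmk : ∀ i, mk.testBit i = true → i < s.n → ι i ∈ Fm) :
    ∀ (f rem p q : ℕ), (∀ v, rem.testBit v = true → keep.testBit v = true) →
      compsB s par bl brs keep L mk f rem p q = true →
      ∃ T : ℤ, Bd H (hat H A s ι rem) Fm T ∧ (p : ℤ) + T ≤ q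
  | 0, rem, p, q, _, h => by simp [compsB] at h
  | f + 1, rem, p, q, hrk, h => by
    unfold compsB at h
    by_cases h0 : rem = 0
    · subst h0
      have : Nat.beq 0 0 = true := rfl
      rw [this, cond_true] at h
      refine ⟨0, ?_, ?_⟩
      · rw [hat_zero]
        exact Bd.empty
      · have := Nat.le_of_ble_eq_true h
        push_cast
        omega
    · have hb : Nat.beq rem 0 = false := by
        rw [← Bool.not_eq_true]
        intro hh
        exact h0 (Nat.eq_of_beq_eq_true hh)
      rw [hb, cond_false] at h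
      have hlr := testBit_log2 h0
      have hlk := hrk _ hlr
      obtain ⟨c, h1, h2, h3, h4, h5⟩ := cloF_sound _ _ _ h (by
        intro v hv hv'
        rw [hv] at hv'
        simp at hv') (fun v hv => hv)
      rw [Bool.and_eq_true] at h1
      have hcr := subm_iff h1.1
      have hv0 : c.testBit (Nat.log2 rem) = true := h2 _ ((tb_one _ _).2 rfl)
      have hck : ∀ v, c.testBit v = true → keep.testBit v = true := fun v hv => hrk v (hcr v hv)
      have hkn : ∀ i, keep.testBit i = true → i < s.n := fun i hi => ((hM.kp i).1 hi).1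
      obtain ⟨T, hT1, hT2⟩ := compsB_sound hR hw hf hn0 hC hM hL hmk f _ _ _ (by
        intro v hv
        apply hrk
        rw [Nat.testBit_xor] at hv
        by_contra hcc
        simp only [Bool.not_eq_true] at hcc
        rw [hcc] at hv
        have : c.testBit v = true := by simpa using hv
        rw [hcr v this] at hcc
        simp at hcc) h1.2
      have hD : CompD H A s ι bl L keep c := ⟨hck, h4, ⟨_, hv0⟩, hat_conn hR hw hf hM hck h4 hv0 (by
        intro P hP0 hPc v hv
        apply h5 P _ hPc v hv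
        intro u hu
        rw [tb_one] at hu
        rw [hu]
        exact hP0)⟩
      have hbd := comp_bd (brs := brs) hR hw hf hC hM hL hmk hD
      have hxc : ∀ i, (rem ^^^ c).testBit i = true ↔ rem.testBit i = true ∧ c.testBit i = false := by
        intro i
        rw [Nat.testBit_xor]
        by_cases hci : c.testBit i = true
        · rw [hci, hcr i hci]; simp
        · simp only [Bool.not_eq_true] at hci
          rw [hci]; simp
      have hsplit : hat H A s ι rem = hat H A s ι c ∪ hat H A s ι (rem ^^^ c) := by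
        rw [← hat_or]
        congr 1
        apply Nat.eq_of_testBit_eq
        intro i
        rw [Nat.testBit_or]
        by_cases hci : c.testBit i = true
        · rw [hci, hcr i hci]; simp
        · simp only [Bool.not_eq_true] at hci
          rw [hci, Nat.testBit_xor, hci]; simp
      have hcb : CB bl c := hD.cb hM
      have hdis : Disjoint (hat H A s ι c) (hat H A s ι (rem ^^^ c)) := by
        rw [disjoint_left]
        intro x hx hx'
        rw [mem_hat] at hx hx'
        obtain ⟨_, i, hi, hai⟩ := hx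
        obtain ⟨_, j, hj, haj⟩ := hx'
        have g1 := att_same hR hf hcb hai haj hi
        rw [hxc] at hj
        rw [hj.2] at g1
        simp at g1
      have hne : ∀ a ∈ hat H A s ι c, ∀ b ∈ hat H A s ι (rem ^^^ c), ¬ H.Adj a b := by
        intro a ha b hb hab
        have hbk : b ∈ hat H A s ι keep := by
          rw [mem_hat] at hb ⊢
          obtain ⟨hbA, j, hj, haj⟩ := hb
          exact ⟨hbA, j, hrk j ((hxc j).1 hj).1, haj⟩
        rw [hat_keep hR hw hC.conn hn0 hM, mem_sdiff] at hbk
        have := hat_closed hR hw hf hM h4 ha hbk.1 hbk.2 hab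
        exact (disjoint_left.1 hdis) this hb
      refine ⟨((cbd s par bl brs L mk c : ℤ) - 30) + T, ?_, ?_⟩
      · rw [hsplit]
        exact Bd.union hdis hne hbd hT1
      · push_cast at hT2 ⊢
        linarith

theorem evalB_sound (hR : Real H A F s ι) (hw : WF s) (hf : Faith H A s ι bl)
    (hn0 : 0 < s.n) (hC : Ctx par H A F) {S L : ℕ} {brs : List ℕ}
    (h : evalB s par brs S L bl = true) : False := by
  unfold evalB at h
  rw [Bool.and_eq_true, Bool.and_eq_true, Bool.and_eq_true, Bool.and_eq_true] at h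
  obtain ⟨h0, h1, h2, h3, h4⟩ := h
  set D := S ||| nbm s S with hD
  set keep := ones s.n ^^^ L with hkeep
  have hfm := fm_lt hw
  have hSn : ∀ i, S.testBit i = true → i < s.n := fun i hi => by
    have := subm_iff h0 i hi
    rw [testBit_ones] at this
    simpa using this
  have hfn : ∀ i, s.fm.testBit i = true → i < s.n := fun i hi => by
    rw [testBit_fm] at hi; simp at hi; exact hi.1
  have hS32 : S < 2 ^ 32 := lt_of_sub hw.n_le hSn
  have hDn : ∀ i, D.testBit i = true → i < s.n := by
    intro i hi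
    rw [hD, Nat.testBit_or, Bool.or_eq_true] at hi
    rcases hi with hi | hi
    · exact hSn i hi
    · rw [testBit_nbm hS32] at hi
      obtain ⟨v, hv, hvi⟩ := hi
      exact hw.sub v (hSn v hv) i hvi
  have hLfm := subm_iff h1
  have hLD := subm_iff h2
  set W := D &&& keep with hW
  have hW32 : W < 2 ^ 32 := lt_of_sub hw.n_le (fun i hi => by
    rw [hW, Nat.testBit_and, Bool.and_eq_true] at hi
    exact hDn i hi.1)
  have hM : MoveD s bl L keep := by
    refine ⟨hLfm, ?_, hf.sub⟩
    intro i
    rw [hkeep, Nat.testBit_xor, testBit_ones]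
    by_cases hi : L.testBit i = true
    · have := hfn i (hLfm i hi)
      simp [hi, this]
    · simp only [Bool.not_eq_true] at hi
      simp [hi]
  have hL0 : L ≠ 0 := by
    intro h0
    rw [h0] at h3
    simp at h3
  -- every marked kept vertex is free or dominated
  obtain ⟨T, hT1, hT2⟩ := compsB_sound (Fm := F ∪ img ι D) hR hw hf hn0 hC hM hL0
    (mk := D ||| s.fr) (by
      intro i hi hin
      rw [Nat.testBit_or, Bool.or_eq_true] at hi
      rw [mem_union]
      rcases hi with hi | hi
      · exact Or.inr ((mem_img (lt_of_sub hw.n_le hDn)).2 ⟨i, hi, rfl⟩)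
      · exact Or.inl ((hR.fr i hin).1 hi)) _ _ _ _ (fun v hv => hv) h4
  rw [hat_keep hR hw hC.conn hn0 hM] at hT1
  have hdom : ∀ i, D.testBit i = true → ι i ∈ img ι S ∨ ∃ u ∈ img ι S, H.Adj u (ι i) := by
    intro i hi
    have hin := hDn i hi
    rw [hD, Nat.testBit_or, Bool.or_eq_true] at hi
    rcases hi with hi | hi
    · exact Or.inl ((mem_img hS32).2 ⟨i, hi, rfl⟩)
    · rw [testBit_nbm hS32] at hi
      obtain ⟨v, hv, hvi⟩ := hi
      have hvn := hSn v hv
      exact Or.inr ⟨ι v, (mem_img hS32).2 ⟨v, hv, rfl⟩, hR.adj v hvn i hin hvi⟩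
  apply hC.no
  refine Bd.move (S := img ι S) (L := img ι L) (W := img ι D) ?_ ?_ ?_ hT1 ?_
  · intro x hx
    rw [mem_img hS32] at hx
    obtain ⟨i, hi, rfl⟩ := hx
    exact hR.mem i (hSn i hi)
  · intro x hx
    rw [mem_img (hM.L_lt hw)] at hx
    obtain ⟨i, hi, rfl⟩ := hx
    have hin := hfn i (hLfm i hi)
    have := hLD i hi
    rw [Nat.testBit_or, Bool.or_eq_true] at this
    rcases this with h | h
    · exact Or.inr (hdom i h)
    · exact Or.inl ((hR.fr i hin).1 h)
  · intro x hx
    rw [mem_img (lt_of_sub hw.n_le hDn)] at hx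
    obtain ⟨i, hi, rfl⟩ := hx
    exact hdom i hi
  · have hPhi := Phi_move hR hw hM
    rw [card_img hR hS32 hSn]
    push_cast at hT2 hPhi ⊢
    linarith

end

end Pool.Agent.H94.Dom.P
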