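import Mathlib
import Pool.Agent.Dom94.PEval

/-! Contradictions from small cuts and from the sparsity condition. -/

set_option linter.unusedSectionVars false

namespace Pool.Agent.H94.Dom.P

open Finset

/-- Known edges leaving the mask. -/
def out (s : St) (m : ℕ) : ℕ :=
  ((elems 32 m).map (fun i => pc (s.row i ^^^ (s.row i &&& m)))).sum

/-- Edges leaving the mask, with all stubs counted. -/
def outk (s : St) (m : ℕ) : ℕ := ((elems 32 m).map (fun i => s.dg i - pc (s.row i &&& m))).sum

/-- Number of stubs in the mask. -/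
def stubsum (s : St) (b : ℕ) : ℕ := ((elems 32 b).map (fun i => s.dg i - pc (s.row i))).sum

/-- Contradiction from a cut with at most `e` edges. -/
def cutC (s : St) (e m : ℕ) : Bool :=
  Nat.ble e 1 && (!(Nat.beq m 0) && !(Nat.beq (ones s.n ^^^ m) 0))

/-- Cut rule for a block-closed mask. -/
def cutR1 (s : St) (bl : List ℕ) (m : ℕ) : Bool :=
  subm m (ones s.n) && (bl.all (fun b => subm b m || disj b m) && cutC s (out s m) m)

/-- Bridge rule for the unknown part of a block. -/
def cutR2 (s : St) (b : ℕ) : Bool :=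
  Nat.ble (stubsum s b) 1 && !(Nat.beq b 0)

/-- Cut rule for a set of known vertices. -/
def cutR3 (s : St) (m : ℕ) : Bool :=
  subm m (ones s.n) && cutC s (outk s m) m

/-- Rule for cuts with two edges one of whose ends has degree two. -/
def two2 (s : St) : List (ℕ × ℕ) → Bool
  | [(i, j), (k, l)] => !(Nat.beq i k) && (!(Nat.beq j l) &&
      !(Nat.beq (s.dg i) 3 && (Nat.beq (s.dg j) 3 && (Nat.beq (s.dg k) 3 && Nat.beq (s.dg l) 3))))
  | _ => false

/-- Rule for cuts with two edges one of whose ends has degree two. -/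
def cutT (s : St) (par : Par) (bl : List ℕ) (m : ℕ) : Bool :=
  par.c2 && (subm m (ones s.n) && (bl.all (fun b => subm b m || disj b m) && two2 s (elist s m)))

/-- Everything is known and the deficiency is too small. -/
def lowd (s : St) (par : Par) : Bool :=
  Nat.beq s.sm 0 && Nat.blt ((elems 32 (ones s.n)).map (fun i => 3 - s.dg i)).sum par.dfm

/-- Packed map, five bits per entry. -/
def sg (σ i : ℕ) : ℕ := (σ >>> (5 * i)) &&& 31

/-- Image mask of a packed map. -/
def sgm (σ : ℕ) : ℕ → ℕ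
  | 0 => 0
  | n + 1 => sgm σ n ||| (1 <<< sg σ n)

/-- The packed map `σ` shows a copy of the pattern with edge list `l` on `k` vertices. -/
def patv (s : St) (k : ℕ) (l : List (ℕ × ℕ)) (σ : ℕ) : Bool :=
  (List.range k).all (fun i => Nat.blt (sg σ i) s.n) && (Nat.beq (pc (sgm σ k)) k &&
    l.all (fun e => (s.row (sg σ e.1)).testBit (sg σ e.2)))

section
variable {V : Type} [DecidableEq V]
variable {H : SimpleGraph V} {A F : Finset V} {s : St} {ι : ℕ → V} {bl : List ℕ} {par : Par}

theorem bdry_symm {Y : Finset V} (hY : Y ⊆ A) : bdry H A (A \ Y) = bdry H A Y := by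
  classical
  unfold bdry dg nb
  rw [Finset.sdiff_sdiff_eq_self hY]
  simp only [card_filter]
  rw [sum_comm]
  apply sum_congr rfl
  intro x _
  apply sum_congr rfl
  intro y _
  simp only [H.adj_comm]

theorem dg_sdiff_self {v : V} : dg H (A \ {v}) v = dg H A v := by
  unfold dg
  congr 1
  ext u
  rw [mem_nb, mem_nb, mem_sdiff]
  constructor
  · rintro ⟨⟨h1, _⟩, h2⟩
    exact ⟨h1, h2⟩
  · rintro ⟨h1, h2⟩
    refine ⟨⟨h1, ?_⟩, h2⟩
    rw [mem_singleton]
    rintro rfl
    exact H.loopless.irrefl _ h2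

theorem bdry_singleton {v : V} : bdry H A {v} = dg H A v := by
  unfold bdry
  rw [sum_singleton, dg_sdiff_self]

theorem bdry_pos {Y : Finset V} {x y : V} (hx : x ∈ Y) (hy : y ∈ A \ Y) (ha : H.Adj x y) :
    1 ≤ bdry H A Y := by
  unfold bdry
  have h1 : 1 ≤ dg H (A \ Y) x := by
    unfold dg
    rw [Nat.one_le_iff_ne_zero, card_ne_zero]
    exact ⟨y, mem_nb.2 ⟨hy, ha⟩⟩
  exact h1.trans (single_le_sum (f := fun v => dg H (A \ Y) v) (fun _ _ => Nat.zero_le _) hx)

theorem exists_bit {m : ℕ} (h : m ≠ 0) : ∃ i, m.testBit i = true :=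
  ⟨_, testBit_log2 h⟩

theorem cut_false (hR : Real H A F s ι) (hC : Ctx par H A F) {Y : Finset V}
    {e m : ℕ} (hY : Y ⊆ A) (hb : bdry H A Y ≤ e)
    (hin : ∀ i, m.testBit i = true → i < s.n)
    (h1 : ∀ i, m.testBit i = true → ι i ∈ Y)
    (h2 : ∀ i < s.n, m.testBit i = false → ι i ∉ Y) (h : cutC s e m = true) : False := by
  have hcomp : ∀ i, (ones s.n ^^^ m).testBit i = true → i < s.n ∧ m.testBit i = false := by
    intro i hi
    rw [Nat.testBit_xor, testBit_ones] at hi
    by_cases hmi : m.testBit i = true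
    · rw [hmi] at hi
      have := hin i hmi
      simp [this] at hi
    · simp only [Bool.not_eq_true] at hmi
      rw [hmi] at hi
      exact ⟨by simpa using hi, hmi⟩
  unfold cutC at h
  rw [Bool.and_eq_true, Bool.and_eq_true] at h
  obtain ⟨g1, g2, g3⟩ := h
  have e1 : e ≤ 1 := Nat.le_of_ble_eq_true g1
  have m0 : m ≠ 0 := by rintro rfl; simp at g2
  have c0 : ones s.n ^^^ m ≠ 0 := by intro hh; rw [hh] at g3; simp at g3
  obtain ⟨i, hi⟩ := exists_bit m0
  obtain ⟨j, hj⟩ := exists_bit c0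
  obtain ⟨hj1, hj2⟩ := hcomp j hj
  have := hC.bl Y hY ⟨_, h1 i hi⟩ ⟨ι j, mem_sdiff.2 ⟨hR.mem j hj1, h2 j hj1 hj2⟩⟩
  omega

theorem cast_sum_le {m : ℕ} (hm : m < 2 ^ 32) (g : ℕ → ℕ) :
    (((elems 32 m).map g).sum : ℕ) = ∑ i ∈ bits m, g i := sum_elems hm g

theorem sum_imgN (hR : Real H A F s ι) {m : ℕ} (hs : ∀ i, m.testBit i = true → i < s.n)
    (g : V → ℕ) : ∑ x ∈ img ι m, g x = ∑ i ∈ bits m, g (ι i) := by
  unfold img
  apply sum_image
  intro i hi j hj hij
  exact hR.inj i (hs i (mem_bits.1 hi).2) j (hs j (mem_bits.1 hj).2) hij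

theorem r1_false (hR : Real H A F s ι) (hw : WF s) (hf : Faith H A s ι bl)
    (hC : Ctx par H A F) {m : ℕ} (h : cutR1 s bl m = true) : False := by
  unfold cutR1 at h
  rw [Bool.and_eq_true, Bool.and_eq_true] at h
  obtain ⟨g1, g2, g3⟩ := h
  have hin : ∀ i, m.testBit i = true → i < s.n := fun i hi => by
    have := subm_iff g1 i hi
    rw [testBit_ones] at this
    simpa using this
  have hm := lt_of_sub hw.n_le hin
  have hcb : CB bl m := by
    intro b hb i j hi hmi hj
    rw [List.all_eq_true] at g2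
    have := g2 b hb
    rw [Bool.or_eq_true] at this
    rcases this with h | h
    · exact subm_iff h j hj
    · have := disj_iff h i hi
      rw [hmi] at this
      simp at this
  refine cut_false hR hC (Y := hat H A s ι m) (fun x hx => (mem_hat.1 hx).1) ?_ hin
    (fun i hi => (known_mem_hat hR (hin i hi)).2 hi)
    (fun i hi h0 h1 => by rw [(known_mem_hat hR hi).1 h1] at h0; simp at h0) g3
  -- the boundary
  have hsub : img ι m ⊆ hat H A s ι m := by
    intro x hx
    rw [mem_img hm] at hx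
    obtain ⟨i, hi, rfl⟩ := hx
    exact (known_mem_hat hR (hin i hi)).2 hi
  have hzero : ∀ x ∈ hat H A s ι m \ img ι m, dg H (A \ hat H A s ι m) x = 0 := by
    intro x hx
    rw [mem_sdiff] at hx
    unfold dg
    rw [card_eq_zero, eq_empty_iff_forall_notMem]
    intro y hy
    rw [mem_nb, mem_sdiff] at hy
    rcases leave hR hw hf hcb hx.1 hy.1.1 hy.2 with h | ⟨i, j, h1, h2, h3, h4, h5, h6, h7⟩
    · exact hy.1.2 h
    · exact hx.2 ((mem_img hm).2 ⟨i, h1, h4⟩)
  unfold bdry
  rw [← sum_sdiff hsub, sum_eq_zero hzero, zero_add, sum_imgN hR hin]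
  unfold out
  rw [cast_sum_le hm]
  apply sum_le_sum
  intro i hi
  have hi' := (mem_bits.1 hi).2
  have hin' := hin i hi'
  rw [← card_img hR (xor_and_lt (s.row_lt i)) (fun j hj => hw.sub i hin' j (testBit_diff.1 hj).1)]
  unfold dg
  apply card_le_card
  intro y hy
  rw [mem_nb, mem_sdiff] at hy
  rcases leave hR hw hf hcb (hsub ((mem_img hm).2 ⟨i, hi', rfl⟩)) hy.1.1 hy.2 with
    h | ⟨i', j, h1, h2, h3, h4, h5, h6, h7⟩
  · exact absurd h hy.1.2
  · have := hR.inj i' h2 i hin' h4
    subst this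
    exact (mem_img (xor_and_lt (s.row_lt i'))).2 ⟨j, testBit_diff.2 ⟨h6, h7⟩, h5⟩

theorem dg_split {Y : Finset V} (hY : Y ⊆ A) (v : V) : dg H A v = dg H Y v + dg H (A \ Y) v := by
  unfold dg
  rw [← card_union_of_disjoint]
  · congr 1
    ext u
    rw [mem_union, mem_nb, mem_nb, mem_nb, mem_sdiff]
    constructor
    · rintro ⟨h1, h2⟩
      by_cases h : u ∈ Y
      · exact Or.inl ⟨h, h2⟩
      · exact Or.inr ⟨⟨h1, h⟩, h2⟩
    · rintro (⟨h1, h2⟩ | ⟨⟨h1, _⟩, h2⟩)
      · exact ⟨hY h1, h2⟩
      · exact ⟨h1, h2⟩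
  · rw [disjoint_left]
    intro u hu hu'
    rw [mem_nb] at hu hu'
    exact (mem_sdiff.1 hu'.1).2 hu.1

theorem dg_img_ge (hR : Real H A F s ι) (hw : WF s) {m i : ℕ} (hm : m < 2 ^ 32)
    (hin : i < s.n) : pc (s.row i &&& m) ≤ dg H (img ι m) (ι i) := by
  rw [← card_img hR (and_lt _ _ (s.row_lt i)) (fun j hj => by
    rw [Nat.testBit_and, Bool.and_eq_true] at hj
    exact hw.sub i hin j hj.1)]
  unfold dg
  apply card_le_card
  intro y hy
  rw [mem_img (and_lt _ _ (s.row_lt i))] at hy
  obtain ⟨j, hj, rfl⟩ := hy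
  rw [Nat.testBit_and, Bool.and_eq_true] at hj
  rw [mem_nb, mem_img hm]
  exact ⟨⟨j, hj.2, rfl⟩, hR.adj i hin j (hw.sub i hin j hj.1) hj.1⟩

theorem r3_false (hR : Real H A F s ι) (hw : WF s) (hC : Ctx par H A F) {m : ℕ}
    (h : cutR3 s m = true) : False := by
  unfold cutR3 at h
  rw [Bool.and_eq_true] at h
  obtain ⟨g1, g3⟩ := h
  have hin : ∀ i, m.testBit i = true → i < s.n := fun i hi => by
    have := subm_iff g1 i hi
    rw [testBit_ones] at this
    simpa using this
  have hm := lt_of_sub hw.n_le hin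
  have hYA : img ι m ⊆ A := by
    intro x hx
    rw [mem_img hm] at hx
    obtain ⟨i, hi, rfl⟩ := hx
    exact hR.mem i (hin i hi)
  refine cut_false hR hC (Y := img ι m) hYA ?_ hin
    (fun i hi => (mem_img hm).2 ⟨i, hi, rfl⟩) ?_ g3
  · unfold bdry
    rw [sum_imgN hR hin]
    unfold outk
    rw [cast_sum_le hm]
    apply sum_le_sum
    intro i hi
    have hin' := hin i (mem_bits.1 hi).2
    have h1 := dg_split (H := H) hYA (ι i)
    have h2 := dg_img_ge hR hw hm hin'
    have h3 := hR.deg i hin'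
    change _ = s.dg i at h3
    omega
  · intro i hi h0 h1
    rw [mem_img hm] at h1
    obtain ⟨j, hj, hji⟩ := h1
    have := hR.inj j (hin j hj) i hi hji
    subst this
    rw [hj] at h0
    simp at h0

theorem testBit_sgm (σ : ℕ) : ∀ n a, (sgm σ n).testBit a = true ↔ ∃ i < n, sg σ i = a
  | 0, a => by simp [sgm]
  | n + 1, a => by
    unfold sgm
    rw [tb_or_one, testBit_sgm σ n a]
    constructor
    · rintro (⟨i, hi, h⟩ | h)
      · exact ⟨i, by omega, h⟩
      · exact ⟨n, by omega, h.symm⟩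
    · rintro ⟨i, hi, h⟩
      by_cases hin : i = n
      · subst hin; exact Or.inr h.symm
      · exact Or.inl ⟨i, by omega, h⟩

theorem sg_lt (σ i : ℕ) : sg σ i < 32 := by
  unfold sg
  have : (σ >>> (5 * i)) &&& 31 ≤ 31 := Nat.and_le_right
  omega

theorem sgm_lt (σ n : ℕ) : sgm σ n < 2 ^ 32 := by
  apply Nat.lt_pow_two_of_testBit
  intro i hi
  by_contra hc
  simp only [Bool.not_eq_false] at hc
  rw [testBit_sgm] at hc
  obtain ⟨j, _, hj⟩ := hc
  have := sg_lt σ j
  omega

theorem sg_inj {σ n : ℕ} (h : pc (sgm σ n) = n) : ∀ i < n, ∀ j < n, sg σ i = sg σ j → i = j := by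
  have h1 : bits (sgm σ n) = (range n).image (sg σ) := by
    ext a
    rw [mem_bits_of_lt (sgm_lt σ n), testBit_sgm, mem_image]
    simp only [mem_range]
  rw [pc_eq (sgm_lt σ n), h1] at h
  have h2 : ((range n).image (sg σ)).card = (range n).card := by rw [h, card_range]
  have h3 := card_image_iff.1 h2
  intro i hi j hj hij
  exact h3 (by simpa using hi) (by simpa using hj) hij

theorem patv_real (hR : Real H A F s ι) {k : ℕ} {l : List (ℕ × ℕ)} {σ : ℕ}
    (hl : ∀ e ∈ l, e.1 < k ∧ e.2 < k)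
    (h : patv s k l σ = true) : Function.Injective (fun i : Fin k => ι (sg σ i)) ∧
      (∀ i : Fin k, ι (sg σ i) ∈ A) ∧
      ∀ i j : Fin k, ladj l i j = true → H.Adj (ι (sg σ i)) (ι (sg σ j)) := by
  unfold patv at h
  rw [Bool.and_eq_true, Bool.and_eq_true, List.all_eq_true, List.all_eq_true] at h
  obtain ⟨h1, h2, h3⟩ := h
  have hn : ∀ i < k, sg σ i < s.n := fun i hi => Nat.le_of_ble_eq_true (h1 i (List.mem_range.2 hi))
  have hpc : pc (sgm σ k) = k := Nat.eq_of_beq_eq_true h2
  refine ⟨?_, fun i => hR.mem _ (hn i i.2), ?_⟩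
  · intro i j hij
    exact Fin.ext (sg_inj hpc i i.2 j j.2 (hR.inj _ (hn i i.2) _ (hn j j.2) hij))
  · have key : ∀ i j : Fin k, ((i : ℕ), (j : ℕ)) ∈ l → H.Adj (ι (sg σ i)) (ι (sg σ j)) :=
      fun i j hij => hR.adj _ (hn i i.2) _ (hn j j.2) (h3 _ hij)
    intro i j hij
    unfold ladj at hij
    rw [Bool.or_eq_true, List.contains_iff_mem, List.contains_iff_mem] at hij
    rcases hij with hij | hij
    · exact key i j hij
    · exact (key j i hij).symm

theorem pat7_false (hR : Real H A F s ι) (hC : Ctx par H A F) {σ : ℕ}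
    (h : patv s 7 g7l σ = true) : False := by
  obtain ⟨h1, h2, h3⟩ := patv_real hR (by decide) h
  exact hC.pat7 _ h1 h2 h3

theorem pat10_false (hR : Real H A F s ι) (hC : Ctx par H A F) {σ : ℕ}
    (h : patv s 10 d10l σ = true) : False := by
  obtain ⟨h1, h2, h3⟩ := patv_real hR (by decide) h
  exact hC.pat10 _ h2 ⟨h1, h3⟩

theorem r2_false (hR : Real H A F s ι) (hw : WF s) (hf : Faith H A s ι bl)
    (hC : Ctx par H A F) {b : ℕ} (hb : b ∈ bl) (h : cutR2 s b = true) : False := by
  classical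
  unfold cutR2 at h
  rw [Bool.and_eq_true] at h
  obtain ⟨g2, g3⟩ := h
  have hst := Nat.le_of_ble_eq_true g2
  have hb0 : b ≠ 0 := by rintro rfl; simp at g3
  have hbs := hf.sub b hb
  have hbn : ∀ i, b.testBit i = true → i < s.n ∧ s.isFull i = false := fun i hi => by
    have := hbs i hi
    rw [testBit_sm] at this; simpa using this
  have hb32 : b < 2 ^ 32 := lt_of_sub hw.n_le (fun i hi => (hbn i hi).1)
  have hcb : CB bl b := by
    intro b' hb' i j hi hmi hj
    exact hf.sep i j (hbs i hmi) (hf.sub b' hb' j hj) (hf.conn b' hb' i j hi hj) b hb hmi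
  have hpos : ∀ i, b.testBit i = true → 1 ≤ s.dg i - pc (s.row i) := by
    intro i hi
    have h1 := pc_row_le hR hw (hbn i hi).1
    have h2 : pc (s.row i) ≠ s.dg i := by
      intro h
      have := (hbn i hi).2
      unfold St.isFull at this
      rw [h] at this
      simp at this
    omega
  unfold stubsum at hst
  rw [cast_sum_le hb32] at hst
  obtain ⟨i0, hi0⟩ := exists_bit hb0
  have hi0n := (hbn i0 hi0).1
  -- the unknown part
  set Y := (hat H A s ι b).filter (fun x => ∀ j < s.n, ι j ≠ x) with hYdef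
  have hYA : Y ⊆ A := fun x hx => (mem_hat.1 (mem_filter.1 hx).1).1
  -- nonempty
  obtain ⟨y, hyA, hya, hyr⟩ := stub_exists hR hw hi0n (hbn i0 hi0).2
  have hYne : y ∈ Y := by
    rw [hYdef, mem_filter]
    have hyh : y ∈ hat H A s ι b := by
      rcases leave hR hw hf hcb ((known_mem_hat hR hi0n).2 hi0) hyA hya with
        h | ⟨i, j, h1, h2, h3, h4, h5, h6, h7⟩
      · exact h
      · exfalso
        have := hR.inj i h2 i0 hi0n h4
        subst this
        exact hyr ((mem_img (s.row_lt i)).2 ⟨j, h6, h5⟩)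
    refine ⟨hyh, ?_⟩
    intro j hj hjy
    subst hjy
    have hbj := (known_mem_hat hR hj).1 hyh
    have hne : j ≠ i0 := by
      rintro rfl
      exact H.loopless.irrefl _ hya
    have hsum : (s.dg i0 - pc (s.row i0)) + (s.dg j - pc (s.row j)) ≤
        ∑ i ∈ bits b, (s.dg i - pc (s.row i)) := by
      have : ({i0, j} : Finset ℕ) ⊆ bits b := by
        intro x hx
        rw [mem_insert, mem_singleton] at hx
        rcases hx with rfl | rfl
        · exact (mem_bits_of_lt hb32).2 hi0
        · exact (mem_bits_of_lt hb32).2 hbj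
      rw [← sum_pair (f := fun i => s.dg i - pc (s.row i)) (Ne.symm hne)]
      exact sum_le_sum_of_subset this
    have h1 := hpos i0 hi0
    have h2 := hpos j hbj
    omega
  -- boundary at most one
  have hout : ∀ z ∈ A \ Y, ∀ x ∈ Y, H.Adj z x → ∃ i, b.testBit i = true ∧ ι i = z := by
    intro z hz x hx ha
    rw [hYdef, mem_filter] at hx
    rw [mem_sdiff] at hz
    rcases leave hR hw hf hcb hx.1 hz.1 ha.symm with h | ⟨i, j, h1, h2, h3, h4, h5, h6, h7⟩
    · by_contra hcon
      push Not at hcon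
      apply hz.2
      rw [hYdef, mem_filter]
      refine ⟨h, ?_⟩
      intro j hj hjz
      have : b.testBit j = true := by
        subst hjz
        exact (known_mem_hat hR hj).1 h
      exact hcon j this hjz
    · exact absurd h4 (hx.2 i h2)
  have hbd : bdry H A Y ≤ 1 := by
    rw [← bdry_symm hYA]
    unfold bdry
    rw [Finset.sdiff_sdiff_eq_self hYA]
    have hsub : img ι b ⊆ A \ Y := by
      intro x hx
      rw [mem_img hb32] at hx
      obtain ⟨i, hi, rfl⟩ := hx
      rw [mem_sdiff]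
      refine ⟨hR.mem i (hbn i hi).1, ?_⟩
      intro h
      rw [hYdef, mem_filter] at h
      exact h.2 i (hbn i hi).1 rfl
    have hzero : ∀ x ∈ (A \ Y) \ img ι b, dg H Y x = 0 := by
      intro x hx
      rw [mem_sdiff] at hx
      unfold dg
      rw [card_eq_zero, eq_empty_iff_forall_notMem]
      intro z hz
      rw [mem_nb] at hz
      obtain ⟨i, hi, hix⟩ := hout x hx.1 z hz.1 hz.2
      exact hx.2 ((mem_img hb32).2 ⟨i, hi, hix⟩)
    rw [← sum_sdiff hsub, sum_eq_zero hzero, zero_add, sum_imgN hR (fun i hi => (hbn i hi).1)]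
    refine le_trans (sum_le_sum ?_) hst
    intro i hi
    have hi' := (mem_bits.1 hi).2
    have hin' := (hbn i hi').1
    have h1 : (nb H Y (ι i)) ∪ img ι (s.row i) ⊆ nb H A (ι i) := by
      apply union_subset
      · intro z hz
        rw [mem_nb] at hz ⊢
        exact ⟨hYA hz.1, hz.2⟩
      · exact img_row_subset hR hw hin'
    have h2 : Disjoint (nb H Y (ι i)) (img ι (s.row i)) := by
      rw [disjoint_left]
      intro z hz hz'
      rw [mem_nb, hYdef, mem_filter] at hz
      rw [mem_img (s.row_lt i)] at hz'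
      obtain ⟨j, hj, hjz⟩ := hz'
      exact hz.1.2 j (hw.sub i hin' j hj) hjz
    have h3 := card_le_card h1
    rw [card_union_of_disjoint h2, card_img hR (s.row_lt i) (hw.sub i hin')] at h3
    have h4 := hR.deg i hin'
    unfold dg at h4 ⊢
    change _ = s.dg i at h4
    omega
  have hx0 : ι i0 ∈ A \ Y := by
    rw [mem_sdiff]
    refine ⟨hR.mem i0 hi0n, ?_⟩
    intro h
    rw [hYdef, mem_filter] at h
    exact h.2 i0 hi0n rfl
  have := hC.bl Y hYA ⟨y, hYne⟩ ⟨_, hx0⟩
  omega

theorem cutT_false (hR : Real H A F s ι) (hw : WF s) (hf : Faith H A s ι bl)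
    (hC : Ctx par H A F) {m : ℕ} (h : cutT s par bl m = true) : False := by
  unfold cutT at h
  rw [Bool.and_eq_true, Bool.and_eq_true, Bool.and_eq_true] at h
  obtain ⟨g0, g1, g2, g3⟩ := h
  have hin : ∀ i, m.testBit i = true → i < s.n := fun i hi => by
    have := subm_iff g1 i hi
    rw [testBit_ones] at this
    simpa using this
  have hm := lt_of_sub hw.n_le hin
  have hcb : CB bl m := by
    intro b hb i j hi hmi hj
    rw [List.all_eq_true] at g2
    have := g2 b hb
    rw [Bool.or_eq_true] at this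
    rcases this with h | h
    · exact subm_iff h j hj
    · have := disj_iff h i hi
      rw [hmi] at this
      simp at this
  generalize he : elist s m = l at g3
  unfold two2 at g3
  split at g3
  · rename_i i j k l'
    rw [Bool.and_eq_true, Bool.and_eq_true] at g3
    obtain ⟨q1, q2, q3⟩ := g3
    have hik : i ≠ k := by rintro rfl; simp at q1
    have hjl : j ≠ l' := by rintro rfl; simp at q2
    have hcut := cut2_of hR hw hf hcb hin he hik hjl
    obtain ⟨⟨r1, r2, r3, r4⟩, _, _⟩ := hC.cut2 g0 _ _ _ _ _ _ hcut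
    have hi1 : (i, j) ∈ elist s m := by rw [he]; simp
    have hi2 : (k, l') ∈ elist s m := by rw [he]; simp
    rw [mem_elist hm] at hi1 hi2
    have hin1 := hin i hi1.1
    have hkn1 := hin k hi2.1
    have hjn1 := hw.sub i hin1 j hi1.2.1
    have hln1 := hw.sub k hkn1 l' hi2.2.1
    have e1 := hR.deg i hin1
    have e2 := hR.deg k hkn1
    have e3 := hR.deg j hjn1
    have e4 := hR.deg l' hln1
    rw [r1] at e1
    rw [r2] at e2
    rw [r3] at e3
    rw [r4] at e4
    rw [← e1, ← e2, ← e3, ← e4] at q3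
    simp at q3
  · simp at g3

theorem lowd_false (hR : Real H A F s ι) (hw : WF s) (hn0 : 0 < s.n)
    (hC : Ctx par H A F) (h : lowd s par = true) : False := by
  unfold lowd at h
  rw [Bool.and_eq_true] at h
  obtain ⟨g1, g2⟩ := h
  have hsm : s.sm = 0 := Nat.eq_of_beq_eq_true g1
  have hlt : ((elems 32 (ones s.n)).map (fun i => 3 - s.dg i)).sum < par.dfm :=
    Nat.le_of_ble_eq_true g2
  have ho := ones_lt hw.n_le
  have hon : ∀ i, (ones s.n).testBit i = true → i < s.n := fun i hi => by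
    rw [testBit_ones] at hi; simpa using hi
  have hA : A = img ι (ones s.n) := by
    ext x
    rw [mem_img ho]
    constructor
    · intro hx
      obtain ⟨i, hi, ha⟩ := att_exists hR hw hC.conn hn0 hx
      rcases ha with ⟨h1, h2⟩ | ⟨_, h2, _⟩
      · exact ⟨i, by rw [testBit_ones]; simpa using hi, h2⟩
      · rw [hsm] at h2
        simp at h2
    · rintro ⟨i, hi, rfl⟩
      exact hR.mem i (hon i hi)
  have h1 := hC.df
  have h2 : df H A = ((((elems 32 (ones s.n)).map (fun i => 3 - s.dg i)).sum : ℕ) : ℤ) := by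
    rw [cast_sum_elems ho]
    unfold df
    have : ∑ v ∈ A, (3 - (dg H A v : ℤ)) = ∑ v ∈ img ι (ones s.n), (3 - (dg H A v : ℤ)) := by
      rw [← hA]
    rw [this, sum_img hR hon]
    apply sum_congr rfl
    intro i hi
    have hi' := hon i (mem_bits.1 hi).2
    have h3 := hR.deg i hi'
    have h4 := hC.deg _ (hR.mem i hi')
    change _ = s.dg i at h3
    rw [h3] at h4 ⊢
    omega
  rw [h2] at h1
  have h3 : par.dfm ≤ ((elems 32 (ones s.n)).map (fun i => 3 - s.dg i)).sum := by exact_mod_cast h1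
  omega

end

end Pool.Agent.H94.Dom.P
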