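import Pool.Agent.Dom94.RedF

/-! From an induced copy with a common outer neighbour of two exits to the module structure. -/

set_option linter.unusedSectionVars false
set_option linter.unusedVariables false

namespace Pool.Agent.H94.Dom

open Finset

section
variable {V : Type} [DecidableEq V] {H : SimpleGraph V} {Q A : Finset V} {w : Fin 7 → V}
  {a0 a1 a2 v : V}

theorem forall_wset {P : V → Prop} (h0 : P (w 0)) (h1 : P (w 1)) (h2 : P (w 2)) (h3 : P (w 3))
    (h4 : P (w 4)) (h5 : P (w 5)) (h6 : P (w 6)) : ∀ x ∈ wset w, P x := by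
  intro x hx
  obtain ⟨l, rfl⟩ := mem_wset.1 hx
  fin_cases l
  · exact h0
  · exact h1
  · exact h2
  · exact h3
  · exact h4
  · exact h5
  · exact h6

theorem GD.inj' (h : GD H A w a0 a1 a2) {i j : Fin 7} (hij : i ≠ j) : w i ≠ w j :=
  fun hh => hij (h.inj hh)

theorem GD.wsub (h : GD H A w a0 a1 a2) : wset w ⊆ A := by
  intro x hx
  obtain ⟨l, rfl⟩ := mem_wset.1 hx
  exact h.wA l

theorem pair_sub {B : Finset V} {a b : V} (ha : a ∈ B) (hb : b ∈ B) : ({a, b} : Finset V) ⊆ B := by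
  intro x hx
  simp only [mem_insert, mem_singleton] at hx
  rcases hx with rfl | rfl
  · exact ha
  · exact hb

/-- Exits 0 and 1 have the common outer neighbour `v`. -/
theorem GD.xm01 (h : GD H A w v v a2) (h3 : ∀ i, dg H A (w i) = 3) (hQ : ∀ i, w i ∉ Q)
    (hvQ : v ∉ Q) (hd : dg H A v = 3) (hne : a2 ≠ v) :
    ∃ p, XM H Q A (wset w) v (w 2) p a2 := by
  obtain ⟨A01, A03, A14, A25, A26, A35, A36, A45, A46⟩ := h.adjs
  have hvM : v ∉ wset w := fun hh => by
    obtain ⟨i, hi⟩ := mem_wset.1 hh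
    exact h.m0.2.2 i hi
  obtain ⟨p, hpA, hvp, hp0, hp1, hnb⟩ := third hd (h.wA 0) (h.wA 1) (h.inj' (by decide))
    h.m0.2.1.symm h.m1.2.1.symm
  have hpM : p ∉ wset w := by
    intro hh
    obtain ⟨i, hi⟩ := mem_wset.1 hh
    have hiv : H.Adj (w i) v := by rw [hi]; exact hvp.symm
    rcases h.out h.m0.1 hvM i hiv with ⟨g1, _⟩ | ⟨g1, _⟩ | ⟨_, g2⟩
    · rw [g1] at hi; exact hp0 hi.symm
    · rw [g1] at hi; exact hp1 hi.symm
    · exact hne g2.symm
  refine ⟨p, ?_⟩
  refine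
    { MA := h.wsub
      MQ := forall_wset (hQ 0) (hQ 1) (hQ 2) (hQ 3) (hQ 4) (hQ 5) (hQ 6)
      vA := h.m0.1
      vQ := hvQ
      vM := hvM
      kM := w_mem 2
      pA := hpA
      pM := hpM
      qA := h.m2.1
      qM := fun hh => by
        obtain ⟨i, hi⟩ := mem_wset.1 hh
        exact h.m2.2.2 i hi
      qv := hne
      vp := hvp
      kq := h.m2.2.1
      out := ?_
      kv := ?_
      outv := ?_
      card := wset_card h.inj
      dgM := forall_wset (h3 0) (h3 1) (h3 2) (h3 3) (h3 4) (h3 5) (h3 6)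
      dgv := hd
      t3 := ?_
      t2 := ?_ }
  · intro x hx y hy hyM ha
    obtain ⟨i, rfl⟩ := mem_wset.1 hx
    rcases h.out hy hyM i ha with ⟨_, g2⟩ | ⟨_, g2⟩ | ⟨g1, g2⟩
    · exact Or.inl g2
    · exact Or.inl g2
    · exact Or.inr ⟨by rw [g1], g2⟩
  · intro ha
    rcases h.out h.m0.1 hvM 2 ha with ⟨g1, _⟩ | ⟨g1, _⟩ | ⟨_, g2⟩
    · exact absurd g1 (by decide)
    · exact absurd g1 (by decide)
    · exact hne g2.symm
  · intro y hy hyM ha
    rcases mem_of_nb3 hnb hy ha with g | g | g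
    · exact absurd (g ▸ w_mem 0) hyM
    · exact absurd (g ▸ w_mem 1) hyM
    · exact g
  · refine ⟨{w 2, w 5}, pair_sub (w_mem 2) (w_mem 5), card_pair (h.inj' (by decide)), by simp, ?_⟩
    apply forall_wset
    · exact Or.inr ⟨v, by simp, h.m0.2.1.symm⟩
    · exact Or.inr ⟨v, by simp, h.m1.2.1.symm⟩
    · left; simp
    · exact Or.inr ⟨w 5, by simp, A35.symm⟩
    · exact Or.inr ⟨w 5, by simp, A45.symm⟩
    · left; simp
    · exact Or.inr ⟨w 2, by simp, A26⟩
  · refine ⟨{w 3, w 4}, pair_sub (w_mem 3) (w_mem 4), card_pair (h.inj' (by decide)), ?_⟩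
    apply forall_wset
    · exact Or.inr (Or.inr ⟨w 3, by simp, A03.symm⟩)
    · exact Or.inr (Or.inr ⟨w 4, by simp, A14.symm⟩)
    · left; rfl
    · right; left; simp
    · right; left; simp
    · exact Or.inr (Or.inr ⟨w 3, by simp, A35⟩)
    · exact Or.inr (Or.inr ⟨w 3, by simp, A36⟩)

/-- Exits 0 and 2 have the common outer neighbour `v`. -/
theorem GD.xm02 (h : GD H A w v a1 v) (h3 : ∀ i, dg H A (w i) = 3) (hQ : ∀ i, w i ∉ Q)
    (hvQ : v ∉ Q) (hd : dg H A v = 3) (hne : a1 ≠ v) :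
    ∃ p, XM H Q A (wset w) v (w 1) p a1 := by
  obtain ⟨A01, A03, A14, A25, A26, A35, A36, A45, A46⟩ := h.adjs
  have hvM : v ∉ wset w := fun hh => by
    obtain ⟨i, hi⟩ := mem_wset.1 hh
    exact h.m0.2.2 i hi
  obtain ⟨p, hpA, hvp, hp0, hp1, hnb⟩ := third hd (h.wA 0) (h.wA 2) (h.inj' (by decide))
    h.m0.2.1.symm h.m2.2.1.symm
  have hpM : p ∉ wset w := by
    intro hh
    obtain ⟨i, hi⟩ := mem_wset.1 hh
    have hiv : H.Adj (w i) v := by rw [hi]; exact hvp.symm
    rcases h.out h.m0.1 hvM i hiv with ⟨g1, _⟩ | ⟨_, g2⟩ | ⟨g1, _⟩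
    · rw [g1] at hi; exact hp0 hi.symm
    · exact hne g2.symm
    · rw [g1] at hi; exact hp1 hi.symm
  refine ⟨p, ?_⟩
  refine
    { MA := h.wsub
      MQ := forall_wset (hQ 0) (hQ 1) (hQ 2) (hQ 3) (hQ 4) (hQ 5) (hQ 6)
      vA := h.m0.1
      vQ := hvQ
      vM := hvM
      kM := w_mem 1
      pA := hpA
      pM := hpM
      qA := h.m1.1
      qM := fun hh => by
        obtain ⟨i, hi⟩ := mem_wset.1 hh
        exact h.m1.2.2 i hi
      qv := hne
      vp := hvp
      kq := h.m1.2.1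
      out := ?_
      kv := ?_
      outv := ?_
      card := wset_card h.inj
      dgM := forall_wset (h3 0) (h3 1) (h3 2) (h3 3) (h3 4) (h3 5) (h3 6)
      dgv := hd
      t3 := ?_
      t2 := ?_ }
  · intro x hx y hy hyM ha
    obtain ⟨i, rfl⟩ := mem_wset.1 hx
    rcases h.out hy hyM i ha with ⟨_, g2⟩ | ⟨g1, g2⟩ | ⟨_, g2⟩
    · exact Or.inl g2
    · exact Or.inr ⟨by rw [g1], g2⟩
    · exact Or.inl g2
  · intro ha
    rcases h.out h.m0.1 hvM 1 ha with ⟨g1, _⟩ | ⟨_, g2⟩ | ⟨g1, _⟩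
    · exact absurd g1 (by decide)
    · exact hne g2.symm
    · exact absurd g1 (by decide)
  · intro y hy hyM ha
    rcases mem_of_nb3 hnb hy ha with g | g | g
    · exact absurd (g ▸ w_mem 0) hyM
    · exact absurd (g ▸ w_mem 2) hyM
    · exact g
  · refine ⟨{w 1, w 3}, pair_sub (w_mem 1) (w_mem 3), card_pair (h.inj' (by decide)), by simp, ?_⟩
    apply forall_wset
    · exact Or.inr ⟨v, by simp, h.m0.2.1.symm⟩
    · left; simp
    · exact Or.inr ⟨v, by simp, h.m2.2.1.symm⟩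
    · left; simp
    · exact Or.inr ⟨w 1, by simp, A14⟩
    · exact Or.inr ⟨w 3, by simp, A35⟩
    · exact Or.inr ⟨w 3, by simp, A36⟩
  · refine ⟨{w 3, w 5}, pair_sub (w_mem 3) (w_mem 5), card_pair (h.inj' (by decide)), ?_⟩
    apply forall_wset
    · exact Or.inr (Or.inr ⟨w 3, by simp, A03.symm⟩)
    · left; rfl
    · exact Or.inr (Or.inr ⟨w 5, by simp, A25.symm⟩)
    · right; left; simp
    · exact Or.inr (Or.inr ⟨w 5, by simp, A45.symm⟩)
    · right; left; simp
    · exact Or.inr (Or.inr ⟨w 3, by simp, A36⟩)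

/-- Exits 1 and 2 have the common outer neighbour `v`. -/
theorem GD.xm12 (h : GD H A w a0 v v) (h3 : ∀ i, dg H A (w i) = 3) (hQ : ∀ i, w i ∉ Q)
    (hvQ : v ∉ Q) (hd : dg H A v = 3) (hne : a0 ≠ v) :
    ∃ p, XM H Q A (wset w) v (w 0) p a0 := by
  obtain ⟨A01, A03, A14, A25, A26, A35, A36, A45, A46⟩ := h.adjs
  have hvM : v ∉ wset w := fun hh => by
    obtain ⟨i, hi⟩ := mem_wset.1 hh
    exact h.m1.2.2 i hi
  obtain ⟨p, hpA, hvp, hp0, hp1, hnb⟩ := third hd (h.wA 1) (h.wA 2) (h.inj' (by decide))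
    h.m1.2.1.symm h.m2.2.1.symm
  have hpM : p ∉ wset w := by
    intro hh
    obtain ⟨i, hi⟩ := mem_wset.1 hh
    have hiv : H.Adj (w i) v := by rw [hi]; exact hvp.symm
    rcases h.out h.m1.1 hvM i hiv with ⟨_, g2⟩ | ⟨g1, _⟩ | ⟨g1, _⟩
    · exact hne g2.symm
    · rw [g1] at hi; exact hp0 hi.symm
    · rw [g1] at hi; exact hp1 hi.symm
  refine ⟨p, ?_⟩
  refine
    { MA := h.wsub
      MQ := forall_wset (hQ 0) (hQ 1) (hQ 2) (hQ 3) (hQ 4) (hQ 5) (hQ 6)
      vA := h.m1.1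
      vQ := hvQ
      vM := hvM
      kM := w_mem 0
      pA := hpA
      pM := hpM
      qA := h.m0.1
      qM := fun hh => by
        obtain ⟨i, hi⟩ := mem_wset.1 hh
        exact h.m0.2.2 i hi
      qv := hne
      vp := hvp
      kq := h.m0.2.1
      out := ?_
      kv := ?_
      outv := ?_
      card := wset_card h.inj
      dgM := forall_wset (h3 0) (h3 1) (h3 2) (h3 3) (h3 4) (h3 5) (h3 6)
      dgv := hd
      t3 := ?_
      t2 := ?_ }
  · intro x hx y hy hyM ha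
    obtain ⟨i, rfl⟩ := mem_wset.1 hx
    rcases h.out hy hyM i ha with ⟨g1, g2⟩ | ⟨_, g2⟩ | ⟨_, g2⟩
    · exact Or.inr ⟨by rw [g1], g2⟩
    · exact Or.inl g2
    · exact Or.inl g2
  · intro ha
    rcases h.out h.m1.1 hvM 0 ha with ⟨_, g2⟩ | ⟨g1, _⟩ | ⟨g1, _⟩
    · exact hne g2.symm
    · exact absurd g1 (by decide)
    · exact absurd g1 (by decide)
  · intro y hy hyM ha
    rcases mem_of_nb3 hnb hy ha with g | g | g
    · exact absurd (g ▸ w_mem 1) hyM
    · exact absurd (g ▸ w_mem 2) hyM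
    · exact g
  · refine ⟨{w 0, w 4}, pair_sub (w_mem 0) (w_mem 4), card_pair (h.inj' (by decide)), by simp, ?_⟩
    apply forall_wset
    · left; simp
    · exact Or.inr ⟨v, by simp, h.m1.2.1.symm⟩
    · exact Or.inr ⟨v, by simp, h.m2.2.1.symm⟩
    · exact Or.inr ⟨w 0, by simp, A03⟩
    · left; simp
    · exact Or.inr ⟨w 4, by simp, A45⟩
    · exact Or.inr ⟨w 4, by simp, A46⟩
  · refine ⟨{w 4, w 5}, pair_sub (w_mem 4) (w_mem 5), card_pair (h.inj' (by decide)), ?_⟩
    apply forall_wset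
    · left; rfl
    · exact Or.inr (Or.inr ⟨w 4, by simp, A14.symm⟩)
    · exact Or.inr (Or.inr ⟨w 5, by simp, A25.symm⟩)
    · exact Or.inr (Or.inr ⟨w 5, by simp, A35.symm⟩)
    · right; left; simp
    · right; left; simp
    · exact Or.inr (Or.inr ⟨w 4, by simp, A46⟩)

/-- All three exits have the same outer neighbour: eight vertices. -/
theorem GD.closed (h : GD H A w v v v) (h3 : ∀ i, dg H A (w i) = 3) (hQ : ∀ i, w i ∉ Q)
    (hvQ : v ∉ Q) (hd : dg H A v = 3) (hc : Conn H A) : Goal H Q A := by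
  obtain ⟨A01, A03, A14, A25, A26, A35, A36, A45, A46⟩ := h.adjs
  have hvM : v ∉ wset w := fun hh => by
    obtain ⟨i, hi⟩ := mem_wset.1 hh
    exact h.m1.2.2 i hi
  have hnb : nb H A v = {w 0, w 1, w 2} := nb3 hd.le (h.wA 0) (h.wA 1) (h.wA 2)
    (h.inj' (by decide)) (h.inj' (by decide)) (h.inj' (by decide)) h.m0.2.1.symm h.m1.2.1.symm
    h.m2.2.1.symm
  have hA : insert v (wset w) = A := by
    apply hc.eq_of_closed
    · intro x hx
      rcases mem_insert.1 hx with rfl | hx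
      · exact h.m0.1
      · exact h.wsub hx
    · exact ⟨v, mem_insert_self _ _⟩
    · intro x hx y hy ha
      by_contra hcon
      rw [mem_insert, not_or] at hcon
      rcases mem_insert.1 hx with rfl | hx
      · rcases mem_of_nb3 hnb hy ha with g | g | g
        · exact hcon.2 (g ▸ w_mem 0)
        · exact hcon.2 (g ▸ w_mem 1)
        · exact hcon.2 (g ▸ w_mem 2)
      · obtain ⟨i, rfl⟩ := mem_wset.1 hx
        rcases h.out hy hcon.2 i ha with ⟨_, g⟩ | ⟨_, g⟩ | ⟨_, g⟩ <;> exact hcon.1 g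
  have h3' : ∀ x ∈ wset w, dg H A x = 3 :=
    forall_wset (h3 0) (h3 1) (h3 2) (h3 3) (h3 4) (h3 5) (h3 6)
  have hQ' : ∀ x ∈ wset w, x ∉ Q :=
    forall_wset (hQ 0) (hQ 1) (hQ 2) (hQ 3) (hQ 4) (hQ 5) (hQ 6)
  have key : ∀ x ∈ wset w, x ∈ ({v, w 2, w 5} : Finset V) ∨
      ∃ u ∈ ({v, w 2, w 5} : Finset V), H.Adj u x := by
    apply forall_wset
    · exact Or.inr ⟨v, by simp, h.m0.2.1.symm⟩
    · exact Or.inr ⟨v, by simp, h.m1.2.1.symm⟩
    · exact Or.inr ⟨v, by simp, h.m2.2.1.symm⟩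
    · exact Or.inr ⟨w 5, by simp, A35.symm⟩
    · exact Or.inr ⟨w 5, by simp, A45.symm⟩
    · exact Or.inr ⟨w 2, by simp, A25⟩
    · exact Or.inr ⟨w 2, by simp, A26⟩
  constructor
  · refine ⟨{v, w 2, w 5}, ⟨?_, ?_⟩, ?_⟩
    · intro x hx
      simp only [mem_insert, mem_singleton] at hx
      rcases hx with rfl | rfl | rfl
      · exact h.m0.1
      · exact h.wA 2
      · exact h.wA 5
    · intro x hx
      rw [← hA] at hx
      rcases mem_insert.1 hx with rfl | hx
      · left; simp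
      · rcases key x hx with g | g
        · exact Or.inl g
        · exact Or.inr (Or.inr (Or.inl ⟨hQ' x hx, g⟩))
    · have h1 : (({v, w 2, w 5} : Finset V).card : ℤ) ≤ 3 := by
        have := card_le_three (a := v) (b := w 2) (c := w 5)
        exact_mod_cast this
      have h2 : PhiQ H Q A = 56 := by
        unfold PhiQ
        have : ∀ x ∈ A, (if x ∈ Q then (16 : ℤ) else phi (dg H A x)) = 7 := by
          intro x hx
          rw [← hA] at hx
          rcases mem_insert.1 hx with rfl | hx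
          · rw [if_neg hvQ, hd]; rfl
          · rw [if_neg (hQ' x hx), h3' x hx]; rfl
        rw [sum_congr rfl this, sum_const, ← hA, card_insert_of_notMem hvM, wset_card h.inj]
        norm_num
      rw [h2]
      linarith
  · rintro ⟨x, hx, _, hx1⟩
    exfalso
    rw [← hA] at hx
    rcases mem_insert.1 hx with rfl | hx
    · omega
    · have := h3' x hx
      omega

end

end Pool.Agent.H94.Dom
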