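import Mathlib
import Pool.Agent.Dom94.HandP
import Pool.Agent.Dom94.HandH
import Pool.Agent.Dom94.RedG

/-! Copies of `G7` in graphs without bridges: not necessarily induced copies do not occur. -/

set_option linter.unusedSectionVars false
set_option linter.unusedVariables false

namespace Pool.Agent.H94.Dom.P

open Finset

section
variable {V : Type} [DecidableEq V] {H : SimpleGraph V} {A : Finset V}

/-- A copy of `G7` with the additional edge `0 2`. -/
theorem pat7a (hd : ∀ v ∈ A, dg H A v ≤ 3) (hC : Conn H A) (hB : Bl H A)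
    (no : ¬ Bd H A ∅ 4) (w : Fin 7 → V) (hi : Function.Injective w) (hw : ∀ i, w i ∈ A)
    (h : ∀ i j : Fin 7, ladj g7l i j = true → H.Adj (w i) (w j)) (h02 : H.Adj (w 0) (w 2)) :
    False := by
  have hne : ∀ {i j : Fin 7}, i ≠ j → w i ≠ w j := fun hij hh => hij (hi hh)
  have n0 : nb H A (w 0) = {w 1, w 3, w 2} := nb3 (hd _ (hw 0)) (hw 1) (hw 3) (hw 2)
    (hne (by decide)) (hne (by decide)) (hne (by decide)) (h 0 1 (by decide)) (h 0 3 (by decide)) h02
  have n2 : nb H A (w 2) = {w 5, w 6, w 0} := nb3 (hd _ (hw 2)) (hw 5) (hw 6) (hw 0)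
    (hne (by decide)) (hne (by decide)) (hne (by decide)) (h 2 5 (by decide)) (h 2 6 (by decide))
    h02.symm
  have n3 : nb H A (w 3) = {w 0, w 5, w 6} := nb3 (hd _ (hw 3)) (hw 0) (hw 5) (hw 6)
    (hne (by decide)) (hne (by decide)) (hne (by decide)) (h 3 0 (by decide)) (h 3 5 (by decide))
    (h 3 6 (by decide))
  have n4 : nb H A (w 4) = {w 1, w 5, w 6} := nb3 (hd _ (hw 4)) (hw 1) (hw 5) (hw 6)
    (hne (by decide)) (hne (by decide)) (hne (by decide)) (h 4 1 (by decide)) (h 4 5 (by decide))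
    (h 4 6 (by decide))
  have n5 : nb H A (w 5) = {w 2, w 3, w 4} := nb3 (hd _ (hw 5)) (hw 2) (hw 3) (hw 4)
    (hne (by decide)) (hne (by decide)) (hne (by decide)) (h 5 2 (by decide)) (h 5 3 (by decide))
    (h 5 4 (by decide))
  have n6 : nb H A (w 6) = {w 2, w 3, w 4} := nb3 (hd _ (hw 6)) (hw 2) (hw 3) (hw 4)
    (hne (by decide)) (hne (by decide)) (hne (by decide)) (h 6 2 (by decide)) (h 6 3 (by decide))
    (h 6 4 (by decide))
  have hsub : wset w ⊆ A := by
    intro x hx
    obtain ⟨i, rfl⟩ := mem_wset.1 hx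
    exact hw i
  -- vertices other than `w 1` have no neighbours outside
  have hz : ∀ (i : Fin 7) (a b c : Fin 7), nb H A (w i) = {w a, w b, w c} →
      dg H (A \ wset w) (w i) = 0 := by
    intro i a b c hn
    unfold dg
    rw [card_eq_zero, eq_empty_iff_forall_notMem]
    intro y hy
    rw [mem_nb, mem_sdiff] at hy
    rcases mem_of_nb3 hn hy.1.1 hy.2 with rfl | rfl | rfl
    · exact hy.1.2 (w_mem _)
    · exact hy.1.2 (w_mem _)
    · exact hy.1.2 (w_mem _)
  have h1 : dg H (A \ wset w) (w 1) ≤ 1 := by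
    have e1 : nb H (A \ wset w) (w 1) ∪ {w 0, w 4} ⊆ nb H A (w 1) := by
      intro y hy
      rw [mem_union, mem_nb, mem_sdiff, mem_insert, mem_singleton] at hy
      rw [mem_nb]
      rcases hy with hy | rfl | rfl
      · exact ⟨hy.1.1, hy.2⟩
      · exact ⟨hw 0, h 1 0 (by decide)⟩
      · exact ⟨hw 4, h 1 4 (by decide)⟩
    have e2 : Disjoint (nb H (A \ wset w) (w 1)) {w 0, w 4} := by
      rw [disjoint_right]
      intro y hy hy'
      rw [mem_nb, mem_sdiff] at hy'
      rw [mem_insert, mem_singleton] at hy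
      rcases hy with rfl | rfl
      · exact hy'.1.2 (w_mem _)
      · exact hy'.1.2 (w_mem _)
    have e3 := card_le_card e1
    rw [card_union_of_disjoint e2, card_pair (hne (by decide))] at e3
    have e4 := hd _ (hw 1)
    unfold dg at e4 ⊢
    omega
  have hb : bdry H A (wset w) ≤ 1 := by
    unfold bdry
    have e : wset w = insert (w 1) ((wset w).erase (w 1)) := (insert_erase (w_mem 1)).symm
    rw [e, sum_insert (notMem_erase _ _), ← e]
    have : ∑ x ∈ (wset w).erase (w 1), dg H (A \ wset w) x = 0 := by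
      apply sum_eq_zero
      intro x hx
      rw [mem_erase] at hx
      obtain ⟨hx1, hx2⟩ := hx
      obtain ⟨i, rfl⟩ := mem_wset.1 hx2
      fin_cases i
      · exact hz _ _ _ _ n0
      · exact absurd rfl hx1
      · exact hz _ _ _ _ n2
      · exact hz _ _ _ _ n3
      · exact hz _ _ _ _ n4
      · exact hz _ _ _ _ n5
      · exact hz _ _ _ _ n6
    rw [this]
    omega
  by_cases hA : (A \ wset w).Nonempty
  · have := hB _ hsub ⟨_, w_mem 0⟩ hA
    omega
  · have hAe : A = wset w := by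
      rw [not_nonempty_iff_eq_empty, sdiff_eq_empty_iff_subset] at hA
      exact hA.antisymm hsub
    apply no
    refine ⟨{w 0, w 4}, ⟨?_, ?_⟩, ?_⟩
    · intro x hx
      rw [mem_insert, mem_singleton] at hx
      rcases hx with rfl | rfl
      · exact hw 0
      · exact hw 4
    · have key : ∀ v ∈ wset w, v ∈ ({w 0, w 4} : Finset V) ∨
          ∃ u ∈ ({w 0, w 4} : Finset V), H.Adj u v := by
        refine forall_wset (P := fun v => v ∈ ({w 0, w 4} : Finset V) ∨
          ∃ u ∈ ({w 0, w 4} : Finset V), H.Adj u v) ?_ ?_ ?_ ?_ ?_ ?_ ?_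
        · exact Or.inl (by simp)
        · exact Or.inr ⟨w 0, by simp, h 0 1 (by decide)⟩
        · exact Or.inr ⟨w 0, by simp, h02⟩
        · exact Or.inr ⟨w 0, by simp, h 0 3 (by decide)⟩
        · exact Or.inl (by simp)
        · exact Or.inr ⟨w 4, by simp, h 4 5 (by decide)⟩
        · exact Or.inr ⟨w 4, by simp, h 4 6 (by decide)⟩
      intro v hv _
      rw [hAe] at hv
      exact key v hv
    · rw [card_pair (hne (by decide))]
      have e1 : (A.card : ℤ) * 7 ≤ Phi H A := by
        unfold Phi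
        rw [← nsmul_eq_mul, ← sum_const]
        exact sum_le_sum (fun v _ => phi_pos _)
      rw [hAe, wset_card hi] at e1
      rw [hAe]
      push_cast at e1 ⊢
      linarith

/-- A copy of `G7`, induced or not. -/
theorem pat7' (hd : ∀ v ∈ A, dg H A v ≤ 3) (hC : Conn H A) (hB : Bl H A)
    (no : ¬ Bd H A ∅ 4) (h7 : ∀ w : Fin 7 → V, (∀ i, w i ∈ A) → ¬ IsG7 H w)
    (w : Fin 7 → V) (hi : Function.Injective w) (hw : ∀ i, w i ∈ A)
    (h : ∀ i j : Fin 7, ladj g7l i j = true → H.Adj (w i) (w j)) : False := by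
  have hne : ∀ {i j : Fin 7}, i ≠ j → w i ≠ w j := fun hij hh => hij (hi hh)
  have g02 : ¬ H.Adj (w 0) (w 2) := pat7a hd hC hB no w hi hw h
  have g12 : ¬ H.Adj (w 1) (w 2) := by
    intro h12
    set p : Fin 7 → Fin 7 := ![1, 0, 2, 4, 3, 5, 6] with hp
    have hpi : Function.Injective p := by rw [hp]; decide
    have hpa : ∀ i j : Fin 7, ladj g7l i j = true → ladj g7l (p i) (p j) = true := by
      rw [hp]; decide
    exact pat7a hd hC hB no (fun i => w (p i)) (hi.comp hpi) (fun i => hw _)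
      (fun i j hij => h _ _ (hpa i j hij)) h12
  have n3 : nb H A (w 3) = {w 0, w 5, w 6} := nb3 (hd _ (hw 3)) (hw 0) (hw 5) (hw 6)
    (hne (by decide)) (hne (by decide)) (hne (by decide)) (h 3 0 (by decide)) (h 3 5 (by decide))
    (h 3 6 (by decide))
  have n4 : nb H A (w 4) = {w 1, w 5, w 6} := nb3 (hd _ (hw 4)) (hw 1) (hw 5) (hw 6)
    (hne (by decide)) (hne (by decide)) (hne (by decide)) (h 4 1 (by decide)) (h 4 5 (by decide))
    (h 4 6 (by decide))
  have n5 : nb H A (w 5) = {w 2, w 3, w 4} := nb3 (hd _ (hw 5)) (hw 2) (hw 3) (hw 4)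
    (hne (by decide)) (hne (by decide)) (hne (by decide)) (h 5 2 (by decide)) (h 5 3 (by decide))
    (h 5 4 (by decide))
  have n6 : nb H A (w 6) = {w 2, w 3, w 4} := nb3 (hd _ (hw 6)) (hw 2) (hw 3) (hw 4)
    (hne (by decide)) (hne (by decide)) (hne (by decide)) (h 6 2 (by decide)) (h 6 3 (by decide))
    (h 6 4 (by decide))
  have key : ∀ (i a b c : Fin 7), nb H A (w i) = {w a, w b, w c} → ∀ j : Fin 7,
      H.Adj (w i) (w j) → j = a ∨ j = b ∨ j = c := by
    intro i a b c hn j hj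
    rcases mem_of_nb3 hn (hw j) hj with hh | hh | hh
    · exact Or.inl (hi hh)
    · exact Or.inr (Or.inl (hi hh))
    · exact Or.inr (Or.inr (hi hh))
  have k3 : ∀ j : Fin 7, H.Adj (w 3) (w j) → ladj g7l (3 : Fin 7) j = true := by
    intro j hj
    rcases key _ _ _ _ n3 j hj with rfl | rfl | rfl <;> decide
  have k4 : ∀ j : Fin 7, H.Adj (w 4) (w j) → ladj g7l (4 : Fin 7) j = true := by
    intro j hj
    rcases key _ _ _ _ n4 j hj with rfl | rfl | rfl <;> decide
  have k5 : ∀ j : Fin 7, H.Adj (w 5) (w j) → ladj g7l (5 : Fin 7) j = true := by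
    intro j hj
    rcases key _ _ _ _ n5 j hj with rfl | rfl | rfl <;> decide
  have k6 : ∀ j : Fin 7, H.Adj (w 6) (w j) → ladj g7l (6 : Fin 7) j = true := by
    intro j hj
    rcases key _ _ _ _ n6 j hj with rfl | rfl | rfl <;> decide
  have sy : ∀ i j : Fin 7, ladj g7l i j = true → ladj g7l j i = true := by decide
  have irr : ∀ i : Fin 7, ¬ H.Adj (w i) (w i) := fun i hh => H.loopless.irrefl _ hh
  apply h7 w hw
  refine ⟨hi, fun i j => ⟨fun hij => ?_, h i j⟩⟩
  by_cases hi3 : i = 3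
  · subst hi3; exact k3 j hij
  by_cases hi4 : i = 4
  · subst hi4; exact k4 j hij
  by_cases hi5 : i = 5
  · subst hi5; exact k5 j hij
  by_cases hi6 : i = 6
  · subst hi6; exact k6 j hij
  by_cases hj3 : j = 3
  · subst hj3; exact sy _ _ (k3 i hij.symm)
  by_cases hj4 : j = 4
  · subst hj4; exact sy _ _ (k4 i hij.symm)
  by_cases hj5 : j = 5
  · subst hj5; exact sy _ _ (k5 i hij.symm)
  by_cases hj6 : j = 6
  · subst hj6; exact sy _ _ (k6 i hij.symm)
  have hi' : i = 0 ∨ i = 1 ∨ i = 2 := by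
    have : ∀ i : Fin 7, i ≠ 3 → i ≠ 4 → i ≠ 5 → i ≠ 6 → i = 0 ∨ i = 1 ∨ i = 2 := by decide
    exact this i hi3 hi4 hi5 hi6
  have hj' : j = 0 ∨ j = 1 ∨ j = 2 := by
    have : ∀ i : Fin 7, i ≠ 3 → i ≠ 4 → i ≠ 5 → i ≠ 6 → i = 0 ∨ i = 1 ∨ i = 2 := by decide
    exact this j hj3 hj4 hj5 hj6
  rcases hi' with rfl | rfl | rfl <;> rcases hj' with rfl | rfl | rfl
  · exact absurd hij (irr _)
  · decide
  · exact absurd hij g02
  · decide
  · exact absurd hij (irr _)
  · exact absurd hij g12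
  · exact absurd hij.symm g02
  · exact absurd hij.symm g12
  · exact absurd hij (irr _)

end

end Pool.Agent.H94.Dom.P
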