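import Mathlib
import Pool.Agent.Dom94.PCut

/-! Expansion, embedding and the table checker. -/

set_option linter.unusedSectionVars false

namespace Pool.Agent.H94.Dom.P

open Finset

/-- The state `t` embeds into the abstract state by the packed map `σ`. -/
def embOK (t : St) (nn : ℕ) (cdg : ℕ → ℕ) (cad : ℕ → ℕ → Bool) (cfr : ℕ → Bool) (σ : ℕ) : Bool :=
  (List.range t.n).all (fun i => Nat.blt (sg σ i) nn && (Nat.beq (t.dg i) (cdg (sg σ i)) &&
    ((elems 32 (t.row i)).all (fun j => cad (sg σ i) (sg σ j)) &&
      (t.fr.testBit i == cfr (sg σ i))))) &&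
  (Nat.beq (pc (sgm σ t.n)) t.n &&
    (List.range nn).all (fun a => !(cfr a) || (sgm σ t.n).testBit a))

/-- Outcomes of exploring a stub at `v`. -/
def outs (s : St) (v : ℕ) : List (ℕ × ℕ) :=
  (elems 32 (s.sm &&& (ones s.n ^^^ (s.row v ||| (1 <<< v))))).map (fun w => (w, 0)) ++
    [(s.n, 2), (s.n, 3)]

/-- Degrees of the child. -/
def cdg (s : St) (d : ℕ) (a : ℕ) : ℕ := bif Nat.beq a s.n then d else s.dg a

/-- Adjacency of the child. -/
def cad (s : St) (v w : ℕ) (a b : ℕ) : Bool :=
  (Nat.blt a s.n && (s.row a).testBit b) ||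
    ((Nat.beq a v && Nat.beq b w) || (Nat.beq a w && Nat.beq b v))

/-- Free vertices of the child. -/
def cfr (s : St) (a : ℕ) : Bool := Nat.blt a s.n && s.fr.testBit a

/-- Check one reference. -/
def refOK (s : St) (v : ℕ) (o : ℕ × ℕ) (t : St) (σ : ℕ) : Bool :=
  embOK t (bif Nat.beq o.1 s.n then s.n + 1 else s.n) (cdg s o.2) (cad s v o.1) (cfr s) σ

/-- Justifications. -/
inductive Jst where
  | move (brs : List ℕ) (cands : List (ℕ × ℕ)) (cuts : List ℕ) : Jst
  | cut (m : ℕ) : Jst
  | pat7 (σ : ℕ) : Jst
  | pat10 (σ : ℕ) : Jst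
  | low : Jst
  | exp (v : ℕ) (refs : List (ℕ × ℕ)) : Jst
  | ref (j σ : ℕ) : Jst

/-- Check for one partition. -/
def patOK (s : St) (par : Par) (brs : List ℕ) (cands : List (ℕ × ℕ)) (cuts : List ℕ)
    (bl : List ℕ) : Bool :=
  bl.any (fun b => cutR2 s b) || (bl.any (fun b => cutR1 s bl b) ||
    (cands.any (fun c => evalB s par brs c.1 c.2 bl) ||
      cuts.any (fun m => cutR1 s bl m || cutT s par bl m)))

/-- Table lookup. -/
def getT (tt : List (List St)) (j : ℕ) : St := (tt.getD (j / 32) []).getD (j % 32) ⟨0, 0, 0, 0⟩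

/-- Check one entry. -/
def chkE (tt : List (List St)) (par : Par) (idx : ℕ) (s : St) : Jst → Bool
  | .move brs cands cuts => enumP s (patOK s par brs cands cuts) (elems 32 s.sm) 0 []
  | .cut m => cutR3 s m
  | .pat7 σ => patv s 7 g7l σ
  | .pat10 σ => patv s 10 d10l σ
  | .low => lowd s par
  | .exp v refs => Nat.blt v s.n && (!(s.isFull v) &&
      (Nat.beq (outs s v).length refs.length &&
        ((outs s v).zip refs).all (fun p => Nat.blt p.2.1 idx &&
          refOK s v p.1 (getT tt p.2.1) p.2.2)))
  | .ref j σ => Nat.blt j idx &&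
      embOK (getT tt j) s.n s.dg (fun a b => (s.row a).testBit b) (fun a => s.fr.testBit a) σ

/-- Check an entry together with well-formedness of its state. -/
def chkI (tt : List (List St)) (par : Par) (idx : ℕ) (J : Jst) : Bool :=
  (getT tt idx).wf && (Nat.blt 0 (getT tt idx).n && chkE tt par idx (getT tt idx) J)

/-- Check a chunk of entries. -/
def chkC (tt : List (List St)) (par : Par) (c n : ℕ) (J : List Jst) : Bool :=
  (List.range n).all (fun k => chkI tt par (32 * c + k) (J.getD k (.cut 0)))

theorem blt_iff {a b : ℕ} (h : Nat.blt a b = true) : a < b := Nat.le_of_ble_eq_true h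

section
variable {V : Type} [DecidableEq V]
variable {H : SimpleGraph V} {A F : Finset V} {s : St} {ι : ℕ → V} {par : Par}

theorem emb_sound {t : St} {nn : ℕ} {dgf : ℕ → ℕ} {adf : ℕ → ℕ → Bool} {frf : ℕ → Bool}
    (hR : RealP H A F nn dgf adf frf ι) (hwt : WF t) {σ : ℕ}
    (h : embOK t nn dgf adf frf σ = true) : Real H A F t (fun i => ι (sg σ i)) := by
  unfold embOK at h
  rw [Bool.and_eq_true, Bool.and_eq_true, List.all_eq_true, List.all_eq_true] at h
  obtain ⟨h1, h2, h3⟩ := h
  have hpc : pc (sgm σ t.n) = t.n := Nat.eq_of_beq_eq_true h2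
  have hinj := sg_inj hpc
  have key : ∀ i < t.n, sg σ i < nn ∧ t.dg i = dgf (sg σ i) ∧
      (∀ j, (t.row i).testBit j = true → adf (sg σ i) (sg σ j) = true) ∧
      t.fr.testBit i = frf (sg σ i) := by
    intro i hi
    have := h1 i (List.mem_range.2 hi)
    rw [Bool.and_eq_true, Bool.and_eq_true, Bool.and_eq_true, List.all_eq_true] at this
    obtain ⟨g1, g2, g3, g4⟩ := this
    exact ⟨blt_iff g1, Nat.eq_of_beq_eq_true g2,
      fun j hj => g3 j ((mem_elems (t.row_lt i) j).2 hj), by simpa using g4⟩
  refine ⟨?_, ?_, ?_, ?_, ?_, ?_⟩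
  · intro i hi j hj hij
    exact hinj i hi j hj (hR.inj _ (key i hi).1 _ (key j hj).1 hij)
  · intro i hi
    exact hR.mem _ (key i hi).1
  · intro i hi
    rw [hR.deg _ (key i hi).1, (key i hi).2.1]
  · intro i hi j hj hij
    exact hR.adj _ (key i hi).1 _ (key j hj).1 ((key i hi).2.2.1 j hij)
  · intro i hi
    change t.fr.testBit i = true ↔ _
    rw [(key i hi).2.2.2]
    exact hR.fr _ (key i hi).1
  · intro x hx
    obtain ⟨a, ha, hax⟩ := hR.cov x hx
    have hfa : frf a = true := (hR.fr a ha).2 (by rw [hax]; exact hx)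
    have := h3 a (List.mem_range.2 ha)
    rw [hfa] at this
    simp only [Bool.not_true, Bool.false_or] at this
    rw [testBit_sgm] at this
    obtain ⟨i, hi, hia⟩ := this
    exact ⟨i, hi, by change ι (sg σ i) = x; rw [hia, hax]⟩

theorem blt_true {a b : ℕ} (h : a < b) : Nat.blt a b = true := Nat.ble_eq_true_of_le h

theorem cad_real (hR : Real H A F s ι) (hw : WF s) {v w nn : ℕ} {ι' : ℕ → V}
    (hι : ∀ i < s.n, ι' i = ι i) (hvn : v < s.n) (hvw : H.Adj (ι v) (ι' w)) :
    ∀ a b, cad s v w a b = true → H.Adj (ι' a) (ι' b) := by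
  intro a b h
  unfold cad at h
  rw [Bool.or_eq_true, Bool.or_eq_true, Bool.and_eq_true, Bool.and_eq_true, Bool.and_eq_true] at h
  rcases h with ⟨h1, h2⟩ | ⟨h1, h2⟩ | ⟨h1, h2⟩
  · have han := blt_iff h1
    have hbn := hw.sub a han b h2
    rw [hι a han, hι b hbn]
    exact hR.adj a han b hbn h2
  · have e1 := Nat.eq_of_beq_eq_true h1
    have e2 := Nat.eq_of_beq_eq_true h2
    rw [e1, e2, hι v hvn]
    exact hvw
  · have e1 := Nat.eq_of_beq_eq_true h1
    have e2 := Nat.eq_of_beq_eq_true h2
    rw [e1, e2, hι v hvn]
    exact hvw.symm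

theorem expand (hR : Real H A F s ι) (hw : WF s) (hC : Ctx par H A F) {v : ℕ}
    (hv : v < s.n) (hf : s.isFull v = false) : ∃ o ∈ outs s v, ∃ ι' : ℕ → V,
      RealP H A F (bif Nat.beq o.1 s.n then s.n + 1 else s.n) (cdg s o.2) (cad s v o.1) (cfr s) ι' := by
  obtain ⟨y, hyA, hya, hyr⟩ := stub_exists hR hw hv hf
  by_cases hk : ∃ w < s.n, ι w = y
  · obtain ⟨w, hwn, rfl⟩ := hk
    have hne : w ≠ v := by
      rintro rfl
      exact H.loopless.irrefl _ hya
    have hrow : (s.row v).testBit w = false := by
      by_contra hc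
      simp only [Bool.not_eq_false] at hc
      exact hyr ((mem_img (s.row_lt v)).2 ⟨w, hc, rfl⟩)
    have hsw : s.sm.testBit w = true := by
      apply stub_of_not_full hwn
      by_contra hc
      simp only [Bool.not_eq_false] at hc
      obtain ⟨k, hk1, hk2, hk3⟩ := full_adj hR hw hwn hc (hR.mem v hv) hya.symm
      have := hR.inj k hk2 v hv hk3
      subst this
      have := hw.sym w hwn k hk1
      rw [hrow] at this
      simp at this
    refine ⟨(w, 0), ?_, ι, ?_⟩
    · unfold outs
      rw [List.mem_append]
      left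
      rw [List.mem_map]
      refine ⟨w, ?_, rfl⟩
      rw [mem_elems (and_lt _ _ (sm_lt hw)), Nat.testBit_and, Nat.testBit_xor, testBit_ones,
        hsw]
      have h1 : (s.row v ||| 1 <<< v).testBit w = false := by
        by_contra hc
        simp only [Bool.not_eq_false] at hc
        rw [tb_or_one] at hc
        rcases hc with hc | hc
        · rw [hrow] at hc; simp at hc
        · exact hne hc
      rw [h1]
      simp [hwn]
    · have hb : Nat.beq w s.n = false := by
        rw [← Bool.not_eq_true]
        intro hh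
        have := Nat.eq_of_beq_eq_true hh
        omega
      have hcn : ∀ i < s.n, cdg s 0 i = s.dg i := by
        intro i hi
        unfold cdg
        have : Nat.beq i s.n = false := by
          rw [← Bool.not_eq_true]
          intro hh
          have := Nat.eq_of_beq_eq_true hh
          omega
        rw [this, cond_false]
      simp only [hb, cond_false]
      refine ⟨hR.inj, hR.mem, ?_, ?_, ?_, hR.cov⟩
      · intro i hi
        rw [hcn i hi]
        exact hR.deg i hi
      · intro i hi j hj hij
        exact cad_real (nn := s.n) hR hw (fun _ _ => rfl) hv hya i j hij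
      · intro i hi
        unfold cfr
        rw [blt_true hi, Bool.true_and]
        exact hR.fr i hi
  · push Not at hk
    have hd3 := hC.deg y hyA
    have hd1 : 1 ≤ dg H A y := by
      unfold dg
      rw [Nat.one_le_iff_ne_zero, card_ne_zero]
      exact ⟨ι v, mem_nb.2 ⟨hR.mem v hv, hya.symm⟩⟩
    have hdm := hC.dg2 y hyA
    refine ⟨(s.n, dg H A y), ?_, fun i => if i = s.n then y else ι i, ?_⟩
    · unfold outs
      rw [List.mem_append]
      right
      have : dg H A y = 2 ∨ dg H A y = 3 := by omega
      rcases this with h | h <;> rw [h] <;> simp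
    · have hb : Nat.beq s.n s.n = true := Nat.beq_refl _
      simp only [hb, cond_true]
      have hlt : ∀ i < s.n, (if i = s.n then y else ι i) = ι i := by
        intro i hi
        rw [if_neg (by omega)]
      have hcase : ∀ i < s.n + 1, i < s.n ∨ i = s.n := by intro i hi; omega
      refine ⟨?_, ?_, ?_, ?_, ?_, ?_⟩
      · intro i hi j hj hij
        rcases hcase i hi with h1 | h1 <;> rcases hcase j hj with h2 | h2
        · change (if i = s.n then y else ι i) = (if j = s.n then y else ι j) at hij
          rw [hlt i h1, hlt j h2] at hij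
          exact hR.inj i h1 j h2 hij
        · change (if i = s.n then y else ι i) = (if j = s.n then y else ι j) at hij
          rw [hlt i h1, if_pos h2] at hij
          exact absurd hij (hk i h1)
        · change (if i = s.n then y else ι i) = (if j = s.n then y else ι j) at hij
          rw [hlt j h2, if_pos h1] at hij
          exact absurd hij.symm (hk j h2)
        · omega
      · intro i hi
        change (if i = s.n then y else ι i) ∈ A
        rcases hcase i hi with h1 | h1
        · rw [hlt i h1]; exact hR.mem i h1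
        · rw [if_pos h1]; exact hyA
      · intro i hi
        change dg H A (if i = s.n then y else ι i) = _
        unfold cdg
        rcases hcase i hi with h1 | h1
        · have : Nat.beq i s.n = false := by
            rw [← Bool.not_eq_true]
            intro hh
            have := Nat.eq_of_beq_eq_true hh
            omega
          rw [hlt i h1, this, cond_false]
          exact hR.deg i h1
        · subst h1
          rw [if_pos rfl, hb, cond_true]
      · intro i hi j hj hij
        exact cad_real (nn := s.n) (ι' := fun i => if i = s.n then y else ι i) hR hw hlt hv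
          (by change H.Adj (ι v) (if s.n = s.n then y else ι s.n); rw [if_pos rfl]; exact hya)
          i j hij
      · intro i hi
        change _ ↔ (if i = s.n then y else ι i) ∈ F
        unfold cfr
        rcases hcase i hi with h1 | h1
        · rw [hlt i h1, blt_true h1, Bool.true_and]
          exact hR.fr i h1
        · rw [if_pos h1]
          have h2 : Nat.blt i s.n = false := by
            rw [← Bool.not_eq_true]
            intro hh
            have := blt_iff hh
            omega
          rw [h2]
          simp only [Bool.false_and, Bool.false_eq_true, false_iff]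
          intro hyF
          obtain ⟨j, hj, hjy⟩ := hR.cov y hyF
          exact hk j hj hjy
      · intro x hx
        obtain ⟨j, hj, hjx⟩ := hR.cov x hx
        refine ⟨j, by omega, ?_⟩
        change (if j = s.n then y else ι j) = x
        rw [hlt j hj, hjx]

/-- No realization of the state. -/
def NoR (H : SimpleGraph V) (A F : Finset V) (s : St) : Prop := ∀ ι, ¬ Real H A F s ι

theorem chkI_sound (hC : Ctx par H A F) {tt : List (List St)} {idx : ℕ} {J : Jst}
    (hw : ∀ j < idx, (getT tt j).wf = true) (hp : ∀ j < idx, NoR H A F (getT tt j))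
    (h : chkI tt par idx J = true) : (getT tt idx).wf = true ∧ NoR H A F (getT tt idx) := by
  unfold chkI at h
  rw [Bool.and_eq_true, Bool.and_eq_true] at h
  obtain ⟨h1, h2, h3⟩ := h
  refine ⟨h1, ?_⟩
  have hwf := wf_iff h1
  have hn0 := blt_iff h2
  intro ι hR
  generalize hs : getT tt idx = s at *
  cases J with
  | move brs cands cuts =>
    unfold chkE at h3
    obtain ⟨bl, hf, hP⟩ := enum_faith hR hwf h3
    unfold patOK at hP
    rw [Bool.or_eq_true, Bool.or_eq_true, Bool.or_eq_true, List.any_eq_true, List.any_eq_true,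
      List.any_eq_true, List.any_eq_true] at hP
    rcases hP with ⟨b, hb, h⟩ | ⟨b, hb, h⟩ | ⟨c, hc, h⟩ | ⟨m, hm, h⟩
    · exact r2_false hR hwf hf hC hb h
    · exact r1_false hR hwf hf hC h
    · exact evalB_sound hR hwf hf hn0 hC h
    · rw [Bool.or_eq_true] at h
      rcases h with h | h
      · exact r1_false hR hwf hf hC h
      · exact cutT_false hR hwf hf hC h
  | cut m =>
    exact r3_false hR hwf hC h3
  | pat7 σ =>
    exact pat7_false hR hC h3
  | pat10 σ =>
    exact pat10_false hR hC h3
  | low =>
    exact lowd_false hR hwf hn0 hC h3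
  | exp v refs =>
    unfold chkE at h3
    rw [Bool.and_eq_true, Bool.and_eq_true, Bool.and_eq_true, List.all_eq_true] at h3
    obtain ⟨g1, g2, g3, g4⟩ := h3
    have hfv : s.isFull v = false := by simpa using g2
    obtain ⟨o, ho, ι', hR'⟩ := expand hR hwf hC (blt_iff g1) hfv
    have hlen : (outs s v).length = refs.length := Nat.eq_of_beq_eq_true g3
    obtain ⟨k, hk, hko⟩ := List.getElem_of_mem ho
    have hz : (o, refs[k]'(by rw [← hlen]; exact hk)) ∈ (outs s v).zip refs := by
      rw [← hko, ← List.getElem_zip (h := by simp [List.length_zip, hlen]; rw [← hlen]; exact hk)]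
      exact List.getElem_mem _
    have := g4 _ hz
    rw [Bool.and_eq_true] at this
    obtain ⟨q1, q2⟩ := this
    exact hp _ (blt_iff q1) _ (emb_sound hR' (wf_iff (hw _ (blt_iff q1))) q2)
  | ref j σ =>
    unfold chkE at h3
    rw [Bool.and_eq_true] at h3
    obtain ⟨q1, q2⟩ := h3
    exact hp _ (blt_iff q1) _ (emb_sound hR (wf_iff (hw _ (blt_iff q1))) q2)

/-- Soundness of the table. -/
theorem table_sound (hC : Ctx par H A F) {tt : List (List St)} {N : ℕ} (Js : ℕ → Jst)
    (h : ∀ i < N, chkI tt par i (Js i) = true) : ∀ i < N, NoR H A F (getT tt i) := by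
  have key : ∀ i, i < N → ((getT tt i).wf = true ∧ NoR H A F (getT tt i)) := by
    intro i
    induction i using Nat.strong_induction_on with
    | _ i ih =>
      intro hi
      exact chkI_sound hC (fun j hj => (ih j hj (by omega)).1) (fun j hj => (ih j hj (by omega)).2)
        (h i hi)
  exact fun i hi => (key i hi).2

end

end Pool.Agent.H94.Dom.P
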