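import Mathlib
import Pool.Agent.Dom94.PTable
import Pool.Agent.Dom94.PPat

/-! The bound `fb ≤ 4` for plain graphs from a checked table. -/

set_option linter.unusedSectionVars false
set_option linter.unusedVariables false

namespace Pool.Agent.H94.Dom.P

open Finset

/-- Parameters without and with the rule for two-edge cuts. -/
def par0 : Par := ⟨34, 1, false⟩

/-- Parameters without and with the rule for two-edge cuts. -/
def par1 : Par := ⟨34, 1, true⟩

/-- Two adjacent vertices of degree two. -/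
def s22 : St := ⟨2, 10, 4294967298, 0⟩

/-- One vertex of degree two. -/
def s2 : St := ⟨1, 2, 0, 0⟩

section
variable {V : Type} [DecidableEq V] {H : SimpleGraph V} {A F : Finset V} {par : Par}

theorem table_from (hC : Ctx par H A F) {tt : List (List St)} {N0 N : ℕ} (Js : ℕ → Jst)
    (h0 : ∀ i < N0, (getT tt i).wf = true ∧ NoR H A F (getT tt i))
    (h : ∀ i, N0 ≤ i → i < N → chkI tt par i (Js i) = true) :
    ∀ i < N, (getT tt i).wf = true ∧ NoR H A F (getT tt i) := by
  intro i
  induction i using Nat.strong_induction_on with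
  | _ i ih =>
    intro hi
    by_cases hi0 : i < N0
    · exact h0 i hi0
    · exact chkI_sound hC (fun j hj => (ih j hj (by omega)).1)
        (fun j hj => (ih j hj (by omega)).2) (h i (by omega) hi)

theorem no2 (h : NoR H A ∅ s2) {v : V} (hv : v ∈ A) (h2 : dg H A v = 2) : False := by
  apply h (fun _ => v)
  refine ⟨?_, fun _ _ => hv, ?_, ?_, ?_, by simp⟩
  · intro i hi j hj _
    have : s2.n = 1 := rfl
    omega
  · intro i hi
    have h0 : i = 0 := by
      have : s2.n = 1 := rfl
      omega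
    subst h0
    exact h2
  · intro i hi j hj hij
    have h0 : i = 0 := by
      have : s2.n = 1 := rfl
      omega
    subst h0
    have h0 : j = 0 := by
      have : s2.n = 1 := rfl
      omega
    subst h0
    exact absurd hij (by decide)
  · intro i hi
    have h0 : i = 0 := by
      have : s2.n = 1 := rfl
      omega
    subst h0
    constructor
    · intro hh
      exact absurd hh (by decide)
    · intro hh
      simp at hh

theorem no22 (h : NoR H A ∅ s22) {v w : V} (hv : v ∈ A) (hw : w ∈ A) (ha : H.Adj v w)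
    (h2 : dg H A v = 2) (h2' : dg H A w = 2) : False := by
  have hc : ∀ i < s22.n, i = 0 ∨ i = 1 := by
    intro i hi
    have : s22.n = 2 := rfl
    omega
  apply h (fun i => if i = 0 then v else w)
  refine ⟨?_, ?_, ?_, ?_, ?_, by simp⟩
  · intro i hi j hj hij
    rcases hc i hi with rfl | rfl <;> rcases hc j hj with rfl | rfl
    · rfl
    · simp at hij
      exact absurd hij ha.ne
    · simp at hij
      exact absurd hij.symm ha.ne
    · rfl
  · intro i hi
    rcases hc i hi with rfl | rfl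
    · simpa using hv
    · simpa using hw
  · intro i hi
    rcases hc i hi with rfl | rfl
    · change dg H A (if (0 : ℕ) = 0 then v else w) = 2
      simpa using h2
    · change dg H A (if (1 : ℕ) = 0 then v else w) = 2
      simpa using h2'
  · intro i hi j hj hij
    rcases hc i hi with rfl | rfl <;> rcases hc j hj with rfl | rfl
    · exact absurd hij (by decide)
    · simpa using ha
    · simpa using ha.symm
    · exact absurd hij (by decide)
  · intro i hi
    constructor
    · intro hh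
      rcases hc i hi with rfl | rfl
      · exact absurd hh (by decide)
      · exact absurd hh (by decide)
    · intro hh
      simp at hh

/-- The main step: a graph without bridges which is not cubic. -/
theorem plain_bl {tt : List (List St)} (Js : ℕ → Jst) {N0 N r22 r2 : ℕ}
    (e22 : getT tt r22 = s22) (e2 : getT tt r2 = s2) (l22 : r22 < N0) (l2 : r2 < N)
    (c0 : ∀ i < N0, chkI tt par0 i (Js i) = true)
    (c1 : ∀ i, N0 ≤ i → i < N → chkI tt par1 i (Js i) = true)
    (hne : A.Nonempty) (hd : ∀ v ∈ A, dg H A v ≤ 3) (hnc : ∃ v ∈ A, dg H A v ≤ 2)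
    (hC : Conn H A) (hB : Bl H A) (IH : ∀ X, X ⊂ A → X.Nonempty → Conn H X → ClP H X)
    (h7 : ∀ w : Fin 7 → V, (∀ i, w i ∈ A) → ¬ IsG7 H w)
    (h10 : ∀ w : Fin 10 → V, (∀ i, w i ∈ A) → ¬ IsD10 H w) : fb H A ∅ ≤ 4 := by
  by_contra hcon
  have no : ¬ Bd H A ∅ 4 := fun h => hcon (bd_iff.1 h)
  have h5 : 5 ≤ fb H A ∅ := by omega
  obtain ⟨v, hv, hv2⟩ := hnc
  have hex : ∃ w ∈ A, w ≠ v := by
    by_contra hh
    push Not at hh
    have hA : A = {v} := by
      ext x
      rw [mem_singleton]
      exact ⟨fun hx => hh x hx, fun hx => hx ▸ hv⟩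
    have := fb_single (H := H) (F := ∅) v
    rw [← hA] at this
    omega
  have dg2 : ∀ x ∈ A, 2 ≤ dg H A x := by
    intro x hx
    obtain ⟨w, hw, hwv⟩ := hex
    by_cases hxv : x = v
    · subst hxv
      exact hB.dg2 hx hw (Ne.symm hwv)
    · exact hB.dg2 hx hv hxv
  have hdf : (1 : ℤ) ≤ df H A := by
    unfold df
    have h1 := single_le_sum (f := fun x => 3 - (dg H A x : ℤ)) (s := A) (fun x hx => by
      have := hd x hx
      change (0 : ℤ) ≤ 3 - (dg H A x : ℤ)
      omega) hv
    refine le_trans ?_ h1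
    change (1 : ℤ) ≤ 3 - (dg H A v : ℤ)
    omega
  have IH' : IHyp H A := fun X h1 h2 h3 => (IH X h1 h2 h3).cl
  have C0 : Ctx par0 H A ∅ := {
    deg := hd
    conn := hC
    ih := IH
    bl := hB
    dg2 := dg2
    df := hdf
    no := no
    pat7 := pat7' hd hC hB no h7
    pat10 := h10
    cut2 := fun h => by exact absurd h (by decide) }
  have T0 := table_from C0 (N0 := 0) Js (fun i hi => absurd hi (by omega))
    (fun i _ hi => c0 i hi)
  have h22 : ∀ x ∈ A, ∀ y ∈ A, H.Adj x y → dg H A x = 2 → dg H A y = 2 → False := by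
    intro x hx y hy ha hx2 hy2
    have := (T0 r22 l22).2
    rw [e22] at this
    exact no22 this hx hy ha hx2 hy2
  have C1 : Ctx par1 H A ∅ := {
    deg := hd
    conn := hC
    ih := IH
    bl := hB
    dg2 := dg2
    df := hdf
    no := no
    pat7 := pat7' hd hC hB no h7
    pat10 := h10
    cut2 := fun _ X Y x1 x2 y1 y2 hc => by
      obtain ⟨g1, g2, g3, g4, g5, g6⟩ := cut2 hC hd IH' hB h5 h22 hc.un hc.dis hc.hx1 hc.hx2
        hc.hy1 hc.hy2 hc.nex hc.ney hc.adj1 hc.adj2 hc.only
      exact ⟨⟨g1, g2, g3, g4⟩, g5, g6⟩ }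
  have T1 := table_from C1 (N0 := N0) Js T0 c1
  have := (T1 r2 l2).2
  rw [e2] at this
  exact no2 this hv (by have := dg2 v hv; omega)

/-- All claims for plain graphs which are not cubic. -/
theorem plain_claims {tt : List (List St)} (Js : ℕ → Jst) {N0 N r22 r2 : ℕ}
    (e22 : getT tt r22 = s22) (e2 : getT tt r2 = s2) (l22 : r22 < N0) (l2 : r2 < N)
    (c0 : ∀ i < N0, chkI tt par0 i (Js i) = true)
    (c1 : ∀ i, N0 ≤ i → i < N → chkI tt par1 i (Js i) = true)
    (hne : A.Nonempty) (hd : ∀ v ∈ A, dg H A v ≤ 3) (hnc : ∃ v ∈ A, dg H A v ≤ 2)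
    (hC : Conn H A)
    (h7 : ∀ w : Fin 7 → V, (∀ i, w i ∈ A) → ¬ IsG7 H w)
    (h10 : ∀ w : Fin 10 → V, (∀ i, w i ∈ A) → ¬ IsD10 H w) : ClP H A := by
  refine claims_P (H := H) (fun A => (∀ v ∈ A, dg H A v ≤ 3) ∧
    (∀ w : Fin 7 → V, (∀ i, w i ∈ A) → ¬ IsG7 H w) ∧
    (∀ w : Fin 10 → V, (∀ i, w i ∈ A) → ¬ IsD10 H w)) ?_ ?_ ?_ A hne ⟨hd, h7, h10⟩ hnc hC
  · rintro B X ⟨g1, g2, g3⟩ hX
    exact ⟨fun v hv => (dg_mono hX v).trans (g1 v (hX hv)), fun w hw => g2 w (fun i => hX (hw i)),
      fun w hw => g3 w (fun i => hX (hw i))⟩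
  · rintro B ⟨g1, _, _⟩
    exact g1
  · rintro B hB ⟨g1, g2, g3⟩ g4 g5 g6 g7
    exact plain_bl Js e22 e2 l22 l2 c0 c1 hB g1 g4 g5 g6 g7 g2 g3

end

end Pool.Agent.H94.Dom.P
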