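import Pool.Agent.Dom94.PMain

/-! Checking ranges of entries. -/

namespace Pool.Agent.H94.Dom.P

/-- Justification lookup. -/
def getJ (jt : List (List Jst)) (j : ℕ) : Jst := (jt.getD (j / 32) []).getD (j % 32) (.cut 0)

/-- Check the entries `lo, …, lo + n - 1`. -/
def chkR (tt : List (List St)) (jt : List (List Jst)) (par : Par) (lo : ℕ) : ℕ → Bool
  | 0 => true
  | n + 1 => chkI tt par (lo + n) (getJ jt (lo + n)) && chkR tt jt par lo n

theorem chkR_iff {tt : List (List St)} {jt : List (List Jst)} {par : Par} {lo : ℕ} :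
    ∀ {n : ℕ}, chkR tt jt par lo n = true → ∀ i, lo ≤ i → i < lo + n →
      chkI tt par i (getJ jt i) = true
  | 0, _, i, h1, h2 => by omega
  | n + 1, h, i, h1, h2 => by
    unfold chkR at h
    rw [Bool.and_eq_true] at h
    by_cases hi : i = lo + n
    · subst hi; exact h.1
    · exact chkR_iff h.2 i h1 (by omega)

end Pool.Agent.H94.Dom.P
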