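import Pool.Agent.Dom94.Dec

/-! Abstract modules and basic lemmas for the reductions. -/

set_option linter.unusedSectionVars false

namespace Pool.Agent.H94.Dom

open Finset

section
variable {V : Type} [DecidableEq V]

/-- Bound in the demand model. -/
def BdQ (H : SimpleGraph V) (Q A : Finset V) (t : ℤ) : Prop :=
  ∃ D, DomQ H Q A ∅ D ∧ 20 * (D.card : ℤ) ≤ PhiQ H Q A + t

/-- The invariant of the reductions. -/
structure Inv (H : SimpleGraph V) (Q A : Finset V) : Prop where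
  ne : A.Nonempty
  conn : Conn H A
  degQ : ∀ v ∈ A, v ∈ Q → dg H A v = 2
  degO : ∀ v ∈ A, v ∉ Q → dg H A v = 3 ∨ dg H A v = 1 ∨
    (dg H A v = 2 ∧ ∃ u ∈ nb H A v, dg H A u = 1)
  cop : ∀ w : Fin 7 → V, (∀ i, w i ∈ A \ Q) → IsG7 H w → ∃ v ∈ A \ Q, (∀ i, w i ≠ v) ∧
    ∃ i j : Fin 7, i.val < 3 ∧ j.val < 3 ∧ i ≠ j ∧ H.Adj v (w i) ∧ H.Adj v (w j)

/-- A module of eight vertices `M ∪ {v}` with exits `v → p` and `k → q`. -/
structure XM (H : SimpleGraph V) (Q A M : Finset V) (v k p q : V) : Prop where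
  MA : M ⊆ A
  MQ : ∀ x ∈ M, x ∉ Q
  vA : v ∈ A
  vQ : v ∉ Q
  vM : v ∉ M
  kM : k ∈ M
  pA : p ∈ A
  pM : p ∉ M
  qA : q ∈ A
  qM : q ∉ M
  qv : q ≠ v
  vp : H.Adj v p
  kq : H.Adj k q
  out : ∀ x ∈ M, ∀ y ∈ A, y ∉ M → H.Adj x y → y = v ∨ (x = k ∧ y = q)
  kv : ¬ H.Adj k v
  outv : ∀ y ∈ A, y ∉ M → H.Adj v y → y = p
  card : M.card = 7
  dgM : ∀ x ∈ M, dg H A x = 3
  dgv : dg H A v = 3
  t3 : ∃ T ⊆ M, T.card = 2 ∧ k ∈ T ∧ ∀ x ∈ M, x ∈ T ∨ ∃ u ∈ insert v T, H.Adj u x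
  t2 : ∃ T ⊆ M, T.card = 2 ∧ ∀ x ∈ M, x = k ∨ x ∈ T ∨ ∃ u ∈ T, H.Adj u x

/-- A module of ten vertices `M ∪ {r, s}` with exits `r → y`, `s → z`. -/
structure DM (H : SimpleGraph V) (Q A M : Finset V) (r s : V) : Prop where
  MA : M ⊆ A
  MQ : ∀ x ∈ M, x ∉ Q
  rA : r ∈ A
  rQ : r ∉ Q
  rM : r ∉ M
  sA : s ∈ A
  sQ : s ∉ Q
  sM : s ∉ M
  rs : r ≠ s
  out : ∀ x ∈ M, ∀ y ∈ A, y ∉ M → H.Adj x y → y = r ∨ y = s
  rM2 : ((nb H A r) \ M).card = 1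
  sM2 : ((nb H A s) \ M).card = 1
  card : M.card = 8
  dgM : ∀ x ∈ M, dg H A x = 3
  dgr : dg H A r = 3
  dgs : dg H A s = 3
  t0 : ∃ T ⊆ M, T.card = 2 ∧ ∀ x ∈ M, x ∈ T ∨ ∃ u ∈ T, H.Adj u x
  tr : ∃ T ⊆ M, T.card = 2 ∧ ∀ x ∈ M, x ∈ T ∨ ∃ u ∈ insert r T, H.Adj u x
  ts : ∃ T ⊆ M, T.card = 2 ∧ ∀ x ∈ M, x ∈ T ∨ ∃ u ∈ insert s T, H.Adj u x

/-- A vertex of degree at most three with three known neighbours. -/
theorem nb3 {H : SimpleGraph V} {A : Finset V} {v a b c : V} (hd : dg H A v ≤ 3) (ha : a ∈ A)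
    (hb : b ∈ A) (hc : c ∈ A) (hab : a ≠ b) (hac : a ≠ c) (hbc : b ≠ c) (h1 : H.Adj v a)
    (h2 : H.Adj v b) (h3 : H.Adj v c) : nb H A v = {a, b, c} := by
  symm
  apply eq_of_subset_of_card_le
  · intro x hx
    simp only [mem_insert, mem_singleton] at hx
    rw [mem_nb]
    rcases hx with rfl | rfl | rfl
    · exact ⟨ha, h1⟩
    · exact ⟨hb, h2⟩
    · exact ⟨hc, h3⟩
  · unfold dg at hd
    have : ({a, b, c} : Finset V).card = 3 := by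
      rw [card_insert_of_notMem (by simp [hab, hac]), card_insert_of_notMem (by simp [hbc]),
        card_singleton]
    omega

theorem mem_of_nb3 {H : SimpleGraph V} {A : Finset V} {v a b c : V}
    (h : nb H A v = {a, b, c}) {y : V} (hy : y ∈ A) (ha : H.Adj v y) :
    y = a ∨ y = b ∨ y = c := by
  have : y ∈ nb H A v := mem_nb.2 ⟨hy, ha⟩
  rw [h] at this
  simpa using this

/-- Degrees only change near the removed set. -/
theorem dg_sdiff {H : SimpleGraph V} {A M : Finset V} {x : V}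
    (h : ∀ y ∈ M, ¬ H.Adj x y) : dg H (A \ M) x = dg H A x := by
  unfold dg
  congr 1
  ext y
  simp only [mem_nb, mem_sdiff]
  constructor
  · rintro ⟨⟨h1, _⟩, h3⟩
    exact ⟨h1, h3⟩
  · rintro ⟨h1, h2⟩
    exact ⟨⟨h1, fun hm => h y hm h2⟩, h2⟩

/-- Degree after removing `M`. -/
theorem dg_sdiff_card {H : SimpleGraph V} {A M : Finset V} (hM : M ⊆ A) (x : V) :
    dg H (A \ M) x + dg H M x = dg H A x := by
  unfold dg
  rw [← card_union_of_disjoint]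
  · congr 1
    ext y
    simp only [mem_union, mem_nb, mem_sdiff]
    constructor
    · rintro (⟨⟨h1, _⟩, h2⟩ | ⟨h1, h2⟩)
      · exact ⟨h1, h2⟩
      · exact ⟨hM h1, h2⟩
    · rintro ⟨h1, h2⟩
      by_cases h : y ∈ M
      · exact Or.inr ⟨h, h2⟩
      · exact Or.inl ⟨⟨h1, h⟩, h2⟩
  · rw [disjoint_left]
    intro y hy hy'
    rw [mem_nb, mem_sdiff] at hy
    rw [mem_nb] at hy'
    exact hy.1.2 hy'.1

theorem phiQ_congr {H H' : SimpleGraph V} {Q A Q' A' : Finset V} {B : Finset V}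
    (hq : ∀ x ∈ B, (x ∈ Q ↔ x ∈ Q')) (hd : ∀ x ∈ B, dg H A x = dg H' A' x) :
    (∑ x ∈ B, if x ∈ Q then (16 : ℤ) else phi (dg H A x)) =
      ∑ x ∈ B, if x ∈ Q' then (16 : ℤ) else phi (dg H' A' x) := by
  refine sum_congr rfl (fun x hx => ?_)
  rw [hd x hx]
  by_cases h : x ∈ Q
  · rw [if_pos h, if_pos ((hq x hx).1 h)]
  · rw [if_neg h, if_neg (fun hh => h ((hq x hx).2 hh))]

end

end Pool.Agent.H94.Dom
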