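import Pool.Agent.Dom94.RedC

/-! Reduction of a module with two different outer neighbours to a Q-vertex. -/

set_option linter.unusedSectionVars false

namespace Pool.Agent.H94.Dom

open Finset

section
variable {V : Type} [DecidableEq V]

/-- Add the edge `a b`. -/
def addE (H : SimpleGraph V) (a b : V) : SimpleGraph V where
  Adj x y := H.Adj x y ∨ (a ≠ b ∧ ((x = a ∧ y = b) ∨ (x = b ∧ y = a)))
  symm := ⟨by
    rintro x y (h | ⟨h, h1 | h1⟩)
    · exact Or.inl h.symm
    · exact Or.inr ⟨h, Or.inr ⟨h1.2, h1.1⟩⟩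
    · exact Or.inr ⟨h, Or.inl ⟨h1.2, h1.1⟩⟩⟩
  loopless := ⟨by
    rintro x (h | ⟨h, h1 | h1⟩)
    · exact H.loopless.irrefl x h
    · exact h (h1.1.symm.trans h1.2)
    · exact h (h1.2.symm.trans h1.1)⟩

theorem addE_adj {H : SimpleGraph V} {a b x y : V} : (addE H a b).Adj x y ↔
    H.Adj x y ∨ (a ≠ b ∧ ((x = a ∧ y = b) ∨ (x = b ∧ y = a))) := Iff.rfl

theorem addE_of {H : SimpleGraph V} {a b x y : V} (h : H.Adj x y) : (addE H a b).Adj x y :=
  Or.inl h

theorem addE_new {H : SimpleGraph V} {a b : V} (h : a ≠ b) : (addE H a b).Adj a b :=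
  Or.inr ⟨h, Or.inl ⟨rfl, rfl⟩⟩

/-- Away from the new edge nothing changes. -/
theorem addE_iff {H : SimpleGraph V} {a b x y : V} (h : ¬(x = a ∧ y = b)) (h' : ¬(x = b ∧ y = a)) :
    (addE H a b).Adj x y ↔ H.Adj x y := by
  rw [addE_adj]
  tauto

theorem nb_addE_of {H : SimpleGraph V} {a b x : V} {A : Finset V} (ha : x ≠ a) (hb : x ≠ b) :
    nb (addE H a b) A x = nb H A x := by
  ext y
  rw [mem_nb, mem_nb, addE_iff (fun h => ha h.1) (fun h => hb h.1)]

variable {H : SimpleGraph V} {Q A M : Finset V} {v k p q : V}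

theorem XM.nvq (h : XM H Q A M v k p q) (hpq : p ≠ q) : ¬ H.Adj v q :=
  fun ha => hpq (h.outv q h.qA h.qM ha).symm

theorem XM.dg' (h : XM H Q A M v k p q) (hpq : p ≠ q) {x : V} (hx : x ∈ A) (hM : x ∉ M)
    (hv : x ≠ v) : dg (addE H v q) (A \ M) x = dg H A x := by
  by_cases hq : x = q
  · subst hq
    rw [← h.dgq']
    unfold dg
    have : nb (addE H v x) (A \ M) x = insert v (nb H (A \ M) x) := by
      ext y
      rw [mem_insert, mem_nb, mem_nb, addE_adj, mem_sdiff]
      constructor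
      · rintro ⟨h1, h2 | ⟨h3, h4 | h4⟩⟩
        · exact Or.inr ⟨h1, h2⟩
        · exact absurd h4.1 h.qv
        · exact Or.inl h4.2
      · rintro (rfl | ⟨h1, h2⟩)
        · exact ⟨⟨h.vA, h.vM⟩, Or.inr ⟨fun hh => h.qv hh.symm, Or.inr ⟨rfl, rfl⟩⟩⟩
        · exact ⟨h1, Or.inl h2⟩
    rw [this, card_insert_of_notMem]
    rw [mem_nb]
    rintro ⟨_, h2⟩
    exact h.nvq hpq h2.symm
  · rw [← h.dgx hx hM hv hq]
    unfold dg
    rw [nb_addE_of hv hq]

theorem XM.nbv' (h : XM H Q A M v k p q) : nb (addE H v q) (A \ M) v = {p, q} := by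
  ext y
  rw [mem_nb, addE_adj, mem_sdiff, mem_insert, mem_singleton]
  constructor
  · rintro ⟨h1, h2 | ⟨h3, h4 | h4⟩⟩
    · exact Or.inl (h.outv y h1.1 h1.2 h2)
    · exact Or.inr h4.2
    · exact absurd h4.1.symm h.qv
  · rintro (rfl | rfl)
    · exact ⟨⟨h.pA, h.pM⟩, Or.inl h.vp⟩
    · exact ⟨⟨h.qA, h.qM⟩, Or.inr ⟨fun hh => h.qv hh.symm, Or.inl ⟨rfl, rfl⟩⟩⟩

/-- Connectedness of the rest. -/
theorem XM.conn' (h : XM H Q A M v k p q) (hc : Conn H A) : Conn (addE H v q) (A \ M) := by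
  intro X hX hne hne'
  have key : ∀ Y, Y ⊆ A \ M → ((A \ M) \ Y).Nonempty → v ∈ Y →
      ∃ x ∈ Y, ∃ y ∈ (A \ M) \ Y, (addE H v q).Adj x y := by
    intro Y hY hYn hp
    obtain ⟨z, hz⟩ := hYn
    rw [mem_sdiff, mem_sdiff] at hz
    obtain ⟨x, hx, y, hy, ha⟩ := hc (Y ∪ M) (union_subset (hY.trans sdiff_subset) h.MA)
      ⟨v, mem_union_left _ hp⟩ ⟨z, by
        rw [mem_sdiff, mem_union]
        exact ⟨hz.1.1, fun hh => hh.elim hz.2 hz.1.2⟩⟩
    rw [mem_sdiff, mem_union, not_or] at hy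
    obtain ⟨hyA, hyY, hyM⟩ := hy
    rcases mem_union.1 hx with hx | hx
    · exact ⟨x, hx, y, mem_sdiff.2 ⟨mem_sdiff.2 ⟨hyA, hyM⟩, hyY⟩, Or.inl ha⟩
    · rcases h.out x hx y hyA hyM ha with h1 | ⟨_, h1⟩
      · exact absurd (h1 ▸ hp) hyY
      · subst h1
        exact ⟨v, hp, y, mem_sdiff.2 ⟨mem_sdiff.2 ⟨hyA, hyM⟩, hyY⟩,
          addE_new (fun hh => h.qv hh.symm)⟩
  by_cases hp : v ∈ X
  · exact key X hX hne' hp
  · have h1 : (A \ M) \ ((A \ M) \ X) = X := by
      exact Finset.sdiff_sdiff_eq_self hX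
    obtain ⟨x, hx, y, hy, ha⟩ := key ((A \ M) \ X) sdiff_subset (by rw [h1]; exact hne)
      (mem_sdiff.2 ⟨mem_sdiff.2 ⟨h.vA, h.vM⟩, hp⟩)
    rw [h1] at hy
    exact ⟨y, hy, x, hx, ha.symm⟩

/-- Transfer of the bound. -/
theorem XM.bd' (h : XM H Q A M v k p q) (hpq : p ≠ q) {t : ℤ}
    (hb : BdQ (addE H v q) (insert v Q) (A \ M) t) : BdQ H Q A t := by
  obtain ⟨D, ⟨hD, hdom⟩, hcard⟩ := hb
  have hphi : PhiQ H Q A = PhiQ (addE H v q) (insert v Q) (A \ M) + 40 := by
    unfold PhiQ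
    have hsplit : A = ((A \ M) \ {v}) ∪ ({v} ∪ M) := by
      ext x
      simp only [mem_union, mem_sdiff, mem_singleton]
      constructor
      · intro hx
        by_cases h1 : x ∈ M
        · exact Or.inr (Or.inr h1)
        · by_cases h2 : x = v
          · exact Or.inr (Or.inl h2)
          · exact Or.inl ⟨⟨hx, h1⟩, h2⟩
      · rintro (h1 | h1 | h1)
        · exact h1.1.1
        · rw [h1]; exact h.vA
        · exact h.MA h1
    have hsplit' : A \ M = ((A \ M) \ {v}) ∪ {v} := by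
      rw [sdiff_union_of_subset]
      intro x hx
      rw [mem_singleton] at hx
      rw [hx]
      exact mem_sdiff.2 ⟨h.vA, h.vM⟩
    have hd1 : Disjoint ((A \ M) \ {v}) ({v} ∪ M) := by
      rw [disjoint_left]
      intro x hx
      rw [mem_sdiff, mem_sdiff] at hx
      rw [mem_union, not_or]
      exact ⟨hx.2, hx.1.2⟩
    have hd2 : Disjoint ((A \ M) \ {v}) {v} := sdiff_disjoint
    have hd3 : Disjoint ({v} : Finset V) M := by
      rw [disjoint_left]
      intro x hx
      rw [mem_singleton] at hx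
      rw [hx]
      exact h.vM
    have e1 : (∑ x ∈ A, if x ∈ Q then (16 : ℤ) else phi (dg H A x)) =
        (∑ x ∈ (A \ M) \ {v}, if x ∈ Q then (16 : ℤ) else phi (dg H A x)) +
        ((∑ x ∈ {v}, if x ∈ Q then (16 : ℤ) else phi (dg H A x)) +
        ∑ x ∈ M, if x ∈ Q then (16 : ℤ) else phi (dg H A x)) := by
      conv_lhs => rw [hsplit]
      rw [sum_union hd1, sum_union hd3]
      rw [← hsplit]
    have e2 : (∑ x ∈ A \ M, if x ∈ insert v Q then (16 : ℤ) else
          phi (dg (addE H v q) (A \ M) x)) =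
        (∑ x ∈ (A \ M) \ {v}, if x ∈ insert v Q then (16 : ℤ) else
          phi (dg (addE H v q) (A \ M) x)) +
        (∑ x ∈ {v}, if x ∈ insert v Q then (16 : ℤ) else
          phi (dg (addE H v q) (A \ M) x)) := by
      conv_lhs => rw [hsplit']
      rw [sum_union hd2]
      rw [← hsplit']
    rw [e1, e2]
    have e3 : (∑ x ∈ (A \ M) \ {v}, if x ∈ Q then (16 : ℤ) else phi (dg H A x)) =
        ∑ x ∈ (A \ M) \ {v}, if x ∈ insert v Q then (16 : ℤ) else
          phi (dg (addE H v q) (A \ M) x) := by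
      apply phiQ_congr
      · intro x hx
        simp only [mem_sdiff, mem_singleton] at hx
        rw [mem_insert]
        tauto
      · intro x hx
        simp only [mem_sdiff, mem_singleton] at hx
        exact (h.dg' hpq hx.1.1 hx.1.2 hx.2).symm
    have e4 : (∑ x ∈ M, if x ∈ Q then (16 : ℤ) else phi (dg H A x)) = 49 := by
      rw [sum_congr rfl (g := fun _ => (7 : ℤ))]
      · rw [sum_const, h.card]; norm_num
      · intro x hx
        rw [if_neg (h.MQ x hx), h.dgM x hx]; rfl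
    rw [e3, e4, sum_singleton, sum_singleton, if_neg h.vQ, if_pos (mem_insert_self _ _), h.dgv]
    simp only [phi]
    ring
  have main : ∃ D', DomQ H Q A ∅ D' ∧ D'.card ≤ D.card + 2 := by
    have outside : ∀ T ⊆ M, (∀ x ∈ M, x ∈ D ∪ T ∨ ∃ u ∈ D ∪ T, H.Adj u x) →
        (v ∈ D → k ∈ T) → (v ∈ D ∨ (p ∈ D ∧ q ∈ D)) → DomQ H Q A ∅ (D ∪ T) := by
      intro T hT hM hkT hcase
      refine ⟨union_subset (hD.trans sdiff_subset) (hT.trans h.MA), ?_⟩
      intro x hx
      by_cases hxM : x ∈ M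
      · rcases hM x hxM with h1 | ⟨u, hu, ha⟩
        · exact Or.inl h1
        · exact Or.inr (Or.inr (Or.inl ⟨h.MQ x hxM, ⟨u, hu, ha⟩⟩))
      · by_cases hxv : x = v
        · subst hxv
          rcases hcase with h1 | ⟨h1, _⟩
          · exact Or.inl (mem_union_left _ h1)
          · exact Or.inr (Or.inr (Or.inl ⟨h.vQ, ⟨p, mem_union_left _ h1, h.vp.symm⟩⟩))
        · rcases hdom x (mem_sdiff.2 ⟨hx, hxM⟩) with h1 | h1 | ⟨h1, ⟨u, hu, ha⟩⟩ | ⟨h1, h2⟩
          · exact Or.inl (mem_union_left _ h1)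
          · simp at h1
          · have hxQ : x ∉ Q := fun hh => h1 (mem_insert_of_mem hh)
            refine Or.inr (Or.inr (Or.inl ⟨hxQ, ?_⟩))
            rcases ha with ha | ⟨_, ⟨h4, h5⟩ | ⟨h4, h5⟩⟩
            · exact ⟨u, mem_union_left _ hu, ha⟩
            · subst h4; subst h5
              exact ⟨k, mem_union_right _ (hkT hu), h.kq⟩
            · exact absurd h5 hxv
          · have hxQ : x ∈ Q := (mem_insert.1 h1).resolve_left hxv
            rcases hcase with hv | ⟨hp, hq⟩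
            · refine Or.inr (Or.inr (Or.inr ⟨hxQ, ?_⟩))
              intro u hu
              rw [mem_nb] at hu
              by_cases huM : u ∈ M
              · rcases h.out u huM x hx hxM hu.2.symm with h3 | ⟨h3, _⟩
                · exact absurd h3 hxv
                · rw [h3]; exact mem_union_right _ (hkT hv)
              · exact mem_union_left _ (h2 (mem_nb.2 ⟨mem_sdiff.2 ⟨hu.1, huM⟩, Or.inl hu.2⟩))
            · by_cases hxq : x = q
              · rw [hxq]; exact Or.inl (mem_union_left _ hq)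
              · refine Or.inr (Or.inr (Or.inr ⟨hxQ, ?_⟩))
                intro u hu
                rw [mem_nb] at hu
                by_cases huM : u ∈ M
                · rcases h.out u huM x hx hxM hu.2.symm with h3 | ⟨_, h3⟩
                  · exact absurd h3 hxv
                  · exact absurd h3 hxq
                · exact mem_union_left _ (h2 (mem_nb.2 ⟨mem_sdiff.2 ⟨hu.1, huM⟩, Or.inl hu.2⟩))
    by_cases hvD : v ∈ D
    · obtain ⟨T, hT, hc, hkT, hTd⟩ := h.t3
      refine ⟨D ∪ T, outside T hT ?_ (fun _ => hkT) (Or.inl hvD),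
        (card_union_le _ _).trans (by rw [hc])⟩
      intro x hx
      rcases hTd x hx with h1 | ⟨u, hu, ha⟩
      · exact Or.inl (mem_union_right _ h1)
      · rw [mem_insert] at hu
        rcases hu with rfl | hu
        · exact Or.inr ⟨u, mem_union_left _ hvD, ha⟩
        · exact Or.inr ⟨u, mem_union_right _ hu, ha⟩
    · have hpq2 : p ∈ D ∧ q ∈ D := by
        rcases hdom v (mem_sdiff.2 ⟨h.vA, h.vM⟩) with h1 | h1 | ⟨h1, _⟩ | ⟨_, h1⟩
        · exact absurd h1 hvD
        · simp at h1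
        · exact absurd (mem_insert_self _ _) h1
        · rw [h.nbv'] at h1
          exact ⟨h1 (mem_insert_self _ _), h1 (mem_insert_of_mem (mem_singleton_self _))⟩
      obtain ⟨T, hT, hc, hTd⟩ := h.t2
      refine ⟨D ∪ T, outside T hT ?_ (fun hh => absurd hh hvD) (Or.inr hpq2),
        (card_union_le _ _).trans (by rw [hc])⟩
      intro x hx
      rcases hTd x hx with h1 | h1 | ⟨u, hu, ha⟩
      · subst h1
        exact Or.inr ⟨q, mem_union_left _ hpq2.2, h.kq.symm⟩
      · exact Or.inl (mem_union_right _ h1)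
      · exact Or.inr ⟨u, mem_union_right _ hu, ha⟩
  obtain ⟨D', h1, h2⟩ := main
  refine ⟨D', h1, ?_⟩
  have h3 : (D'.card : ℤ) ≤ D.card + 2 := by exact_mod_cast h2
  rw [hphi]
  linarith

/-- The invariant is preserved. -/
theorem XM.inv' (h : XM H Q A M v k p q) (hpq : p ≠ q) (hI : Inv H Q A) :
    Inv (addE H v q) (insert v Q) (A \ M) := by
  refine ⟨⟨v, mem_sdiff.2 ⟨h.vA, h.vM⟩⟩, h.conn' hI.conn, ?_, ?_, ?_⟩
  · intro x hx hxQ
    rw [mem_sdiff] at hx
    by_cases hxv : x = v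
    · subst hxv
      unfold dg
      rw [h.nbv', card_pair hpq]
    · rw [h.dg' hpq hx.1 hx.2 hxv]
      exact hI.degQ x hx.1 ((mem_insert.1 hxQ).resolve_left hxv)
  · intro x hx hxQ
    rw [mem_sdiff] at hx
    rw [mem_insert, not_or] at hxQ
    rw [h.dg' hpq hx.1 hx.2 hxQ.1]
    rcases hI.degO x hx.1 hxQ.2 with h1 | h1 | ⟨h1, u, hu, h2⟩
    · exact Or.inl h1
    · exact Or.inr (Or.inl h1)
    · refine Or.inr (Or.inr ⟨h1, u, ?_⟩)
      have huM : u ∉ M := by
        intro hh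
        have := h.dgM u hh
        omega
      have huv : u ≠ v := by
        rintro rfl
        have := h.dgv
        omega
      rw [mem_nb] at hu
      exact ⟨mem_nb.2 ⟨mem_sdiff.2 ⟨hu.1, huM⟩, Or.inl hu.2⟩, by
        rw [h.dg' hpq hu.1 huM huv]; exact h2⟩
  · intro w hw hG
    have hwv : ∀ i, w i ≠ v := by
      intro i hi
      have := hw i
      rw [mem_sdiff, hi] at this
      exact this.2 (mem_insert_self _ _)
    have hwA : ∀ i, w i ∈ A ∧ w i ∉ M ∧ w i ∉ Q := by
      intro i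
      have := hw i
      rw [mem_sdiff, mem_sdiff, mem_insert, not_or] at this
      exact ⟨this.1.1, this.1.2, this.2.2⟩
    have hG' : IsG7 H w := by
      refine ⟨hG.1, fun i j => ?_⟩
      rw [← hG.2 i j, addE_iff (fun hh => hwv i hh.1) (fun hh => hwv j hh.2)]
    obtain ⟨v', hv', hne, i, j, hi, hj, hij, ha, hb⟩ := hI.cop w
      (fun i => mem_sdiff.2 ⟨(hwA i).1, (hwA i).2.2⟩) hG'
    rw [mem_sdiff] at hv'
    have hwne : w i ≠ w j := fun hh => hij (hG.1 hh)
    have hv'M : v' ∉ M := by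
      intro hh
      rcases h.out v' hh (w i) (hwA i).1 (hwA i).2.1 ha with h1 | ⟨_, h1⟩
      · exact hwv i h1
      · rcases h.out v' hh (w j) (hwA j).1 (hwA j).2.1 hb with h2 | ⟨_, h2⟩
        · exact hwv j h2
        · exact hwne (h1.trans h2.symm)
    have hv'v : v' ≠ v := by
      rintro rfl
      exact hwne ((h.outv _ (hwA i).1 (hwA i).2.1 ha).trans
        (h.outv _ (hwA j).1 (hwA j).2.1 hb).symm)
    refine ⟨v', ?_, hne, i, j, hi, hj, hij, Or.inl ha, Or.inl hb⟩
    rw [mem_sdiff, mem_sdiff, mem_insert, not_or]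
    exact ⟨⟨hv'.1, hv'M⟩, hv'v, hv'.2⟩

end

end Pool.Agent.H94.Dom
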