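import Pool.Agent.Dom94.RedA

/-! Reduction of a module whose two exits lead to the same vertex: it becomes a leaf. -/

set_option linter.unusedSectionVars false

namespace Pool.Agent.H94.Dom

open Finset

section
variable {V : Type} [DecidableEq V] {H : SimpleGraph V} {Q A M : Finset V} {v k p q : V}

theorem XM.kA (h : XM H Q A M v k p q) : k ∈ A := h.MA h.kM

/-- Outer vertices other than `v, p, q` have no neighbours in the module. -/
theorem XM.no (h : XM H Q A M v k p q) {x : V} (hx : x ∈ A) (hM : x ∉ M) (hv : x ≠ v)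
    (hq : x ≠ q) : ∀ y ∈ M, ¬ H.Adj x y := by
  intro y hy ha
  rcases h.out y hy x hx hM ha.symm with h1 | ⟨_, h1⟩
  · exact hv h1
  · exact hq h1

theorem XM.nov (h : XM H Q A M v k p q) {x : V} (hx : x ∈ A) (hM : x ∉ M)
    (hp : x ≠ p) : ¬ H.Adj v x := fun ha => hp (h.outv x hx hM ha)

theorem XM.dgv' (h : XM H Q A M v k p q) : dg H (A \ M) v = 1 := by
  unfold dg
  rw [card_eq_one]
  refine ⟨p, ?_⟩
  ext y
  rw [mem_nb, mem_sdiff, mem_singleton]
  constructor
  · rintro ⟨⟨h1, h2⟩, h3⟩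
    exact h.outv y h1 h2 h3
  · rintro rfl
    exact ⟨⟨h.pA, h.pM⟩, h.vp⟩

/-- The outer vertex `q` has exactly one neighbour in the module. -/
theorem XM.dgq (h : XM H Q A M v k p q) : dg H M q = 1 := by
  unfold dg
  rw [card_eq_one]
  refine ⟨k, ?_⟩
  ext y
  rw [mem_nb, mem_singleton]
  constructor
  · rintro ⟨h1, h2⟩
    rcases h.out y h1 q h.qA h.qM h2.symm with h3 | ⟨h3, _⟩
    · exact absurd h3 h.qv
    · exact h3
  · rintro rfl
    exact ⟨h.kM, h.kq.symm⟩

theorem XM.dgq' (h : XM H Q A M v k p q) : dg H (A \ M) q + 1 = dg H A q := by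
  have := dg_sdiff_card (H := H) h.MA q
  rw [h.dgq] at this
  exact this

theorem XM.dgx (h : XM H Q A M v k p q) {x : V} (hx : x ∈ A) (hM : x ∉ M) (hv : x ≠ v)
    (hq : x ≠ q) : dg H (A \ M) x = dg H A x := dg_sdiff (h.no hx hM hv hq)

/-- Connectedness of the rest. -/
theorem XM.conn (h : XM H Q A M v k p p) (hc : Conn H A) : Conn H (A \ M) := by
  intro X hX hne hne'
  -- the side containing p gets the module
  have key : ∀ Y, Y ⊆ A \ M → Y.Nonempty → ((A \ M) \ Y).Nonempty → p ∈ Y →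
      ∃ x ∈ Y, ∃ y ∈ (A \ M) \ Y, H.Adj x y := by
    intro Y hY _ hYn hp
    obtain ⟨z, hz⟩ := hYn
    rw [mem_sdiff, mem_sdiff] at hz
    obtain ⟨x, hx, y, hy, ha⟩ := hc (Y ∪ M) (union_subset (hY.trans sdiff_subset) h.MA)
      ⟨p, mem_union_left _ hp⟩ ⟨z, by
        rw [mem_sdiff, mem_union]
        exact ⟨hz.1.1, fun hh => hh.elim hz.2 hz.1.2⟩⟩
    rw [mem_sdiff, mem_union, not_or] at hy
    obtain ⟨hyA, hyY, hyM⟩ := hy
    rcases mem_union.1 hx with hx | hx
    · exact ⟨x, hx, y, mem_sdiff.2 ⟨mem_sdiff.2 ⟨hyA, hyM⟩, hyY⟩, ha⟩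
    · rcases h.out x hx y hyA hyM ha with h1 | ⟨_, h1⟩
      · subst h1
        exact ⟨p, hp, y, mem_sdiff.2 ⟨mem_sdiff.2 ⟨hyA, hyM⟩, hyY⟩, h.vp.symm⟩
      · exact absurd (h1 ▸ hp) hyY
  by_cases hp : p ∈ X
  · exact key X hX hne hne' hp
  · have h1 : (A \ M) \ ((A \ M) \ X) = X := by
      exact Finset.sdiff_sdiff_eq_self hX
    obtain ⟨x, hx, y, hy, ha⟩ := key ((A \ M) \ X) sdiff_subset hne' (by rw [h1]; exact hne)
      (mem_sdiff.2 ⟨mem_sdiff.2 ⟨h.pA, h.pM⟩, hp⟩)
    rw [h1] at hy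
    exact ⟨y, hy, x, hx, ha.symm⟩

/-- Transfer of the bound. -/
theorem XM.bd (h : XM H Q A M v k p p) (hpQ : p ∉ Q) (hp3 : dg H A p = 3) {t : ℤ}
    (hb : BdQ H Q (A \ M) t) : BdQ H Q A (t - 1) := by
  obtain ⟨D, ⟨hD, hdom⟩, hcard⟩ := hb
  have hpv : p ≠ v := h.qv
  have hphi : PhiQ H Q A = PhiQ H Q (A \ M) + 41 := by
    unfold PhiQ
    have hsplit : A = ((A \ M) \ {v, p}) ∪ ({v, p} ∪ M) := by
      ext x
      simp only [mem_union, mem_sdiff, mem_insert, mem_singleton]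
      constructor
      · intro hx
        by_cases h1 : x ∈ M
        · exact Or.inr (Or.inr h1)
        · by_cases h2 : x = v ∨ x = p
          · exact Or.inr (Or.inl h2)
          · exact Or.inl ⟨⟨hx, h1⟩, h2⟩
      · rintro (h1 | h1 | h1)
        · exact h1.1.1
        · rcases h1 with rfl | rfl
          · exact h.vA
          · exact h.pA
        · exact h.MA h1
    have hsplit' : A \ M = ((A \ M) \ {v, p}) ∪ {v, p} := by
      rw [sdiff_union_of_subset]
      intro x hx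
      simp only [mem_insert, mem_singleton] at hx
      rcases hx with rfl | rfl
      · exact mem_sdiff.2 ⟨h.vA, h.vM⟩
      · exact mem_sdiff.2 ⟨h.pA, h.pM⟩
    have hd1 : Disjoint ((A \ M) \ {v, p}) ({v, p} ∪ M) := by
      rw [disjoint_left]
      intro x hx
      rw [mem_sdiff, mem_sdiff] at hx
      rw [mem_union, not_or]
      exact ⟨hx.2, hx.1.2⟩
    have hd2 : Disjoint ((A \ M) \ {v, p}) {v, p} := sdiff_disjoint
    have hd3 : Disjoint ({v, p} : Finset V) M := by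
      rw [disjoint_left]
      intro x hx
      simp only [mem_insert, mem_singleton] at hx
      rcases hx with rfl | rfl
      · exact h.vM
      · exact h.pM
    have e1 : (∑ x ∈ A, if x ∈ Q then (16 : ℤ) else phi (dg H A x)) =
        (∑ x ∈ (A \ M) \ {v, p}, if x ∈ Q then (16 : ℤ) else phi (dg H A x)) +
        ((∑ x ∈ {v, p}, if x ∈ Q then (16 : ℤ) else phi (dg H A x)) +
        ∑ x ∈ M, if x ∈ Q then (16 : ℤ) else phi (dg H A x)) := by
      conv_lhs => rw [hsplit]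
      rw [sum_union hd1, sum_union hd3]
      rw [← hsplit]
    have e2 : (∑ x ∈ A \ M, if x ∈ Q then (16 : ℤ) else phi (dg H (A \ M) x)) =
        (∑ x ∈ (A \ M) \ {v, p}, if x ∈ Q then (16 : ℤ) else phi (dg H (A \ M) x)) +
        (∑ x ∈ {v, p}, if x ∈ Q then (16 : ℤ) else phi (dg H (A \ M) x)) := by
      conv_lhs => rw [hsplit']
      rw [sum_union hd2]
      rw [← hsplit']
    rw [e1, e2]
    have e3 : (∑ x ∈ (A \ M) \ {v, p}, if x ∈ Q then (16 : ℤ) else phi (dg H A x)) =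
        ∑ x ∈ (A \ M) \ {v, p}, if x ∈ Q then (16 : ℤ) else phi (dg H (A \ M) x) := by
      apply phiQ_congr (fun _ _ => Iff.rfl)
      intro x hx
      simp only [mem_sdiff, mem_insert, mem_singleton, not_or] at hx
      exact (h.dgx hx.1.1 hx.1.2 hx.2.1 hx.2.2).symm
    have e4 : (∑ x ∈ M, if x ∈ Q then (16 : ℤ) else phi (dg H A x)) = 49 := by
      rw [sum_congr rfl (g := fun _ => (7 : ℤ))]
      · rw [sum_const, h.card]; norm_num
      · intro x hx
        rw [if_neg (h.MQ x hx), h.dgM x hx]; rfl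
    have hp2 : dg H (A \ M) p = 2 := by
      have := h.dgq'
      omega
    rw [e3, e4, sum_pair hpv.symm, sum_pair hpv.symm, if_neg h.vQ, if_neg hpQ, if_neg h.vQ,
      if_neg hpQ, h.dgv, hp3, h.dgv', hp2]
    simp only [phi]
    ring
  -- picks
  have main : ∃ D', DomQ H Q A ∅ D' ∧ D'.card ≤ D.card + 2 := by
    have outside : ∀ T ⊆ M, (∀ x ∈ M, x ∈ D ∪ T ∨ ∃ u ∈ D ∪ T, H.Adj u x) →
        DomQ H Q A ∅ (D ∪ T) := by
      intro T hT hM
      refine ⟨union_subset (hD.trans sdiff_subset) (hT.trans h.MA), ?_⟩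
      intro x hx
      by_cases hxM : x ∈ M
      · rcases hM x hxM with h1 | ⟨u, hu, ha⟩
        · exact Or.inl h1
        · exact Or.inr (Or.inr (Or.inl ⟨h.MQ x hxM, ⟨u, hu, ha⟩⟩))
      · rcases hdom x (mem_sdiff.2 ⟨hx, hxM⟩) with h1 | h1 | ⟨h1, ⟨u, hu, ha⟩⟩ | ⟨h1, h2⟩
        · exact Or.inl (mem_union_left _ h1)
        · simp at h1
        · exact Or.inr (Or.inr (Or.inl ⟨h1, ⟨u, mem_union_left _ hu, ha⟩⟩))
        · refine Or.inr (Or.inr (Or.inr ⟨h1, ?_⟩))
          intro u hu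
          rw [mem_nb] at hu
          obtain ⟨hu, ha⟩ := hu
          apply mem_union_left
          apply h2
          rw [mem_nb, mem_sdiff]
          refine ⟨⟨hu, ?_⟩, ha⟩
          intro huM
          rcases h.out u huM x hx hxM ha.symm with h3 | ⟨_, h3⟩
          · exact h.vQ (h3 ▸ h1)
          · exact hpQ (h3 ▸ h1)
    by_cases hpD : p ∈ D
    · obtain ⟨T, hT, hc, hTd⟩ := h.t2
      refine ⟨D ∪ T, outside T hT ?_, (card_union_le _ _).trans (by rw [hc])⟩
      intro x hx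
      rcases hTd x hx with h1 | h1 | ⟨u, hu, ha⟩
      · subst h1
        exact Or.inr ⟨p, mem_union_left _ hpD, h.kq.symm⟩
      · exact Or.inl (mem_union_right _ h1)
      · exact Or.inr ⟨u, mem_union_right _ hu, ha⟩
    · have hvD : v ∈ D := by
        rcases hdom v (mem_sdiff.2 ⟨h.vA, h.vM⟩) with h1 | h1 | ⟨_, ⟨u, hu, ha⟩⟩ | ⟨h1, _⟩
        · exact h1
        · simp at h1
        rotate_left
        · exact absurd h1 h.vQ
        · have huA := hD hu
          rw [mem_sdiff] at huA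
          have := h.outv u huA.1 huA.2 ha.symm
          exact absurd (this ▸ hu) hpD
      obtain ⟨T, hT, hc, _, hTd⟩ := h.t3
      refine ⟨D ∪ T, outside T hT ?_, (card_union_le _ _).trans (by rw [hc])⟩
      intro x hx
      rcases hTd x hx with h1 | ⟨u, hu, ha⟩
      · exact Or.inl (mem_union_right _ h1)
      · rw [mem_insert] at hu
        rcases hu with rfl | hu
        · exact Or.inr ⟨u, mem_union_left _ hvD, ha⟩
        · exact Or.inr ⟨u, mem_union_right _ hu, ha⟩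
  obtain ⟨D', h1, h2⟩ := main
  refine ⟨D', h1, ?_⟩
  have h3 : (D'.card : ℤ) ≤ D.card + 2 := by exact_mod_cast h2
  rw [hphi]
  linarith

end

end Pool.Agent.H94.Dom
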