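import Pool.Agent.Dom94.RedB

/-! The loop case: invariant, and the closed case. -/

set_option linter.unusedSectionVars false

namespace Pool.Agent.H94.Dom

open Finset

section
variable {V : Type} [DecidableEq V] {H : SimpleGraph V} {Q A M : Finset V} {v k p q : V}

/-- The target of the reductions. -/
def Goal (H : SimpleGraph V) (Q A : Finset V) : Prop :=
  BdQ H Q A 16 ∧ ((∃ v ∈ A, v ∉ Q ∧ dg H A v = 1) → BdQ H Q A 2)

theorem BdQ.mono {t t' : ℤ} (h : BdQ H Q A t) (ht : t ≤ t') : BdQ H Q A t' := by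
  obtain ⟨D, h1, h2⟩ := h
  exact ⟨D, h1, by linarith⟩

theorem Goal.of2 (h : BdQ H Q A 2) : Goal H Q A := ⟨h.mono (by norm_num), fun _ => h⟩

theorem g7_two : ∀ i : Fin 7, ∃ j l : Fin 7, j ≠ l ∧ ladj g7l i j = true ∧ ladj g7l i l = true := by
  decide

/-- A vertex of a copy has two neighbours in it. -/
theorem IsG7.two {w : Fin 7 → V} (hG : IsG7 H w) {B : Finset V} (hw : ∀ i, w i ∈ B) (i : Fin 7) :
    2 ≤ dg H B (w i) := by
  obtain ⟨j, l, hjl, h1, h2⟩ := g7_two i
  unfold dg
  have : ({w j, w l} : Finset V) ⊆ nb H B (w i) := by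
    intro x hx
    simp only [mem_insert, mem_singleton] at hx
    rcases hx with rfl | rfl
    · exact mem_nb.2 ⟨hw j, (hG.2 i j).2 h1⟩
    · exact mem_nb.2 ⟨hw l, (hG.2 i l).2 h2⟩
  have h3 := card_le_card this
  rwa [card_pair (fun hh => hjl (hG.1 hh))] at h3

theorem XM.inv (h : XM H Q A M v k p p) (hp3 : dg H A p = 3) (hI : Inv H Q A) :
    Inv H Q (A \ M) := by
  refine ⟨⟨v, mem_sdiff.2 ⟨h.vA, h.vM⟩⟩, h.conn hI.conn, ?_, ?_, ?_⟩
  · intro x hx hxQ
    rw [mem_sdiff] at hx
    have hxv : x ≠ v := by rintro rfl; exact h.vQ hxQ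
    have hxp : x ≠ p := by
      rintro rfl
      have := hI.degQ x hx.1 hxQ
      omega
    rw [h.dgx hx.1 hx.2 hxv hxp]
    exact hI.degQ x hx.1 hxQ
  · intro x hx hxQ
    rw [mem_sdiff] at hx
    by_cases hxv : x = v
    · subst hxv
      exact Or.inr (Or.inl h.dgv')
    by_cases hxp : x = p
    · subst hxp
      refine Or.inr (Or.inr ⟨?_, v, mem_nb.2 ⟨mem_sdiff.2 ⟨h.vA, h.vM⟩, h.vp.symm⟩, h.dgv'⟩)
      have := h.dgq'
      omega
    rw [h.dgx hx.1 hx.2 hxv hxp]
    rcases hI.degO x hx.1 hxQ with h1 | h1 | ⟨h1, u, hu, h2⟩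
    · exact Or.inl h1
    · exact Or.inr (Or.inl h1)
    · refine Or.inr (Or.inr ⟨h1, u, ?_⟩)
      have huM : u ∉ M := by
        intro hh
        have := h.dgM u hh
        omega
      have huv : u ≠ v := by
        rintro rfl
        have := h.dgv
        omega
      have hup : u ≠ p := by
        rintro rfl
        omega
      rw [mem_nb] at hu
      exact ⟨mem_nb.2 ⟨mem_sdiff.2 ⟨hu.1, huM⟩, hu.2⟩, by
        rw [h.dgx hu.1 huM huv hup]; exact h2⟩
  · intro w hw hG
    have hwA : ∀ i, w i ∈ A ∧ w i ∉ M ∧ w i ∉ Q := by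
      intro i
      have := hw i
      rw [mem_sdiff, mem_sdiff] at this
      exact ⟨this.1.1, this.1.2, this.2⟩
    have hwv : ∀ i, w i ≠ v := by
      intro i hi
      have := hG.two (B := A \ M) (fun i => mem_sdiff.2 ⟨(hwA i).1, (hwA i).2.1⟩) i
      rw [hi, h.dgv'] at this
      omega
    obtain ⟨v', hv', hne, i, j, hi, hj, hij, ha, hb⟩ := hI.cop w
      (fun i => mem_sdiff.2 ⟨(hwA i).1, (hwA i).2.2⟩) hG
    rw [mem_sdiff] at hv'
    have hwne : w i ≠ w j := fun hh => hij (hG.1 hh)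
    have hv'M : v' ∉ M := by
      intro hh
      rcases h.out v' hh (w i) (hwA i).1 (hwA i).2.1 ha with h1 | ⟨_, h1⟩
      · exact hwv i h1
      · rcases h.out v' hh (w j) (hwA j).1 (hwA j).2.1 hb with h2 | ⟨_, h2⟩
        · exact hwv j h2
        · exact hwne (h1.trans h2.symm)
    refine ⟨v', ?_, hne, i, j, hi, hj, hij, ha, hb⟩
    rw [mem_sdiff, mem_sdiff]
    exact ⟨⟨hv'.1, hv'M⟩, hv'.2⟩

/-- The closed case: both exits lead to the same Q-vertex. -/
theorem XM.closed (h : XM H Q A M v k p p) (hpQ : p ∈ Q) (hI : Inv H Q A) : BdQ H Q A 2 := by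
  have hkv : k ≠ v := fun hh => h.vM (hh ▸ h.kM)
  have hnb : nb H A p = {v, k} := by
    symm
    apply eq_of_subset_of_card_le
    · intro x hx
      simp only [mem_insert, mem_singleton] at hx
      rcases hx with rfl | rfl
      · exact mem_nb.2 ⟨h.vA, h.vp.symm⟩
      · exact mem_nb.2 ⟨h.kA, h.kq.symm⟩
    · rw [card_pair hkv.symm]
      exact (hI.degQ p h.pA hpQ).le
  have hA : A = M ∪ {v, p} := by
    by_contra hne
    have hsub : M ∪ {v, p} ⊆ A := by
      apply union_subset h.MA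
      intro x hx
      simp only [mem_insert, mem_singleton] at hx
      rcases hx with rfl | rfl
      · exact h.vA
      · exact h.pA
    have hn : (A \ (M ∪ {v, p})).Nonempty := by
      rw [sdiff_nonempty]
      intro hh
      exact hne (hh.antisymm hsub)
    obtain ⟨x, hx, y, hy, ha⟩ := hI.conn _ hsub ⟨v, by simp⟩ hn
    simp only [mem_sdiff, mem_union, mem_insert, mem_singleton, not_or] at hy
    simp only [mem_union, mem_insert, mem_singleton] at hx
    rcases hx with hx | rfl | rfl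
    · rcases h.out x hx y hy.1 hy.2.1 ha with h1 | ⟨_, h1⟩
      · exact hy.2.2.1 h1
      · exact hy.2.2.2 h1
    · exact hy.2.2.2 (h.outv y hy.1 hy.2.1 ha)
    · have : y ∈ nb H A x := mem_nb.2 ⟨hy.1, ha⟩
      rw [hnb, mem_insert, mem_singleton] at this
      rcases this with h1 | h1
      · exact hy.2.2.1 h1
      · exact hy.2.1 (h1 ▸ h.kM)
  obtain ⟨T, hT, hc, hTd⟩ := h.t2
  refine ⟨insert p T, ⟨?_, ?_⟩, ?_⟩
  · intro x hx
    rcases mem_insert.1 hx with rfl | hx
    · exact h.pA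
    · exact h.MA (hT hx)
  · intro x hx
    rw [hA, mem_union, mem_insert, mem_singleton] at hx
    rcases hx with hx | rfl | rfl
    · rcases hTd x hx with h1 | h1 | ⟨u, hu, ha⟩
      · subst h1
        exact Or.inr (Or.inr (Or.inl ⟨h.MQ x hx, p, mem_insert_self _ _, h.kq.symm⟩))
      · exact Or.inl (mem_insert_of_mem h1)
      · exact Or.inr (Or.inr (Or.inl ⟨h.MQ x hx, u, mem_insert_of_mem hu, ha⟩))
    · exact Or.inr (Or.inr (Or.inl ⟨h.vQ, p, mem_insert_self _ _, h.vp.symm⟩))
    · exact Or.inl (mem_insert_self _ _)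
  · have h1 : (insert p T).card ≤ 3 := (card_insert_le _ _).trans (by rw [hc])
    have h2 : ((insert p T).card : ℤ) ≤ 3 := by exact_mod_cast h1
    have hpv : v ≠ p := fun hh => h.qv hh.symm
    have h3 : PhiQ H Q A = 72 := by
      unfold PhiQ
      have e1 : (∑ x ∈ A, if x ∈ Q then (16 : ℤ) else phi (dg H A x)) =
        (∑ x ∈ M, if x ∈ Q then (16 : ℤ) else phi (dg H A x)) +
        (∑ x ∈ {v, p}, if x ∈ Q then (16 : ℤ) else phi (dg H A x)) := by
        conv_lhs => rw [hA]
        rw [sum_union (by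
          rw [disjoint_left]
          intro x hx hx'
          simp only [mem_insert, mem_singleton] at hx'
          rcases hx' with rfl | rfl
          · exact h.vM hx
          · exact h.pM hx)]
        rw [← hA]
      have e4 : (∑ x ∈ M, if x ∈ Q then (16 : ℤ) else phi (dg H A x)) = 49 := by
        rw [sum_congr rfl (g := fun _ => (7 : ℤ))]
        · rw [sum_const, h.card]; norm_num
        · intro x hx
          rw [if_neg (h.MQ x hx), h.dgM x hx]; rfl
      rw [e1, e4, sum_pair hpv, if_neg h.vQ, if_pos hpQ, h.dgv]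
      simp only [phi]
      norm_num
    rw [h3]
    linarith

theorem Conn.eq_of_closed {S : Finset V} (hc : Conn H A) (hS : S ⊆ A) (hn : S.Nonempty)
    (h : ∀ x ∈ S, ∀ y ∈ A, H.Adj x y → y ∈ S) : S = A := by
  by_contra hne
  have hn' : (A \ S).Nonempty := by
    rw [sdiff_nonempty]
    intro hh
    exact hne (hS.antisymm hh)
  obtain ⟨x, hx, y, hy, ha⟩ := hc S hS hn hn'
  rw [mem_sdiff] at hy
  exact hy.2 (h x hx y hy.1 ha)

end

end Pool.Agent.H94.Dom
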