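import Pool.Agent.Dom94.RedD

/-! The ten-vertex module: its exits become leaves. -/

set_option linter.unusedSectionVars false
set_option linter.unusedVariables false

namespace Pool.Agent.H94.Dom

open Finset

section
variable {V : Type} [DecidableEq V] {H : SimpleGraph V} {Q A M : Finset V} {r s : V}

theorem DM.no (h : DM H Q A M r s) {x : V} (hx : x ∈ A) (hM : x ∉ M) (hr : x ≠ r)
    (hs : x ≠ s) : ∀ y ∈ M, ¬ H.Adj x y := by
  intro y hy ha
  rcases h.out y hy x hx hM ha.symm with h1 | h1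
  · exact hr h1
  · exact hs h1

theorem DM.dgx (h : DM H Q A M r s) {x : V} (hx : x ∈ A) (hM : x ∉ M) (hr : x ≠ r)
    (hs : x ≠ s) : dg H (A \ M) x = dg H A x := dg_sdiff (h.no hx hM hr hs)

theorem nb_sdiff {x : V} : nb H (A \ M) x = nb H A x \ M := by
  ext y
  simp only [mem_nb, mem_sdiff]
  tauto

theorem DM.dgr' (h : DM H Q A M r s) : dg H (A \ M) r = 1 := by
  unfold dg
  rw [nb_sdiff]
  exact h.rM2

theorem DM.dgs' (h : DM H Q A M r s) : dg H (A \ M) s = 1 := by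
  unfold dg
  rw [nb_sdiff]
  exact h.sM2

theorem DM.hsplit (h : DM H Q A M r s) {g : V → ℤ} : (∑ x ∈ A, g x) =
    (∑ x ∈ (A \ M) \ {r, s}, g x) + (g r + g s) + ∑ x ∈ M, g x := by
  rw [← sum_sdiff h.MA]
  congr 1
  have hsub : ({r, s} : Finset V) ⊆ A \ M := by
    intro x hx
    simp only [mem_insert, mem_singleton] at hx
    rcases hx with rfl | rfl
    · exact mem_sdiff.2 ⟨h.rA, h.rM⟩
    · exact mem_sdiff.2 ⟨h.sA, h.sM⟩
  rw [← sum_sdiff hsub, sum_pair h.rs]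

theorem DM.hsplit' (h : DM H Q A M r s) {g : V → ℤ} : (∑ x ∈ A \ M, g x) =
    (∑ x ∈ (A \ M) \ {r, s}, g x) + (g r + g s) := by
  have hsub : ({r, s} : Finset V) ⊆ A \ M := by
    intro x hx
    simp only [mem_insert, mem_singleton] at hx
    rcases hx with rfl | rfl
    · exact mem_sdiff.2 ⟨h.rA, h.rM⟩
    · exact mem_sdiff.2 ⟨h.sA, h.sM⟩
  rw [← sum_sdiff hsub, sum_pair h.rs]

theorem DM.phi (h : DM H Q A M r s) : PhiQ H Q A = PhiQ H Q (A \ M) + 44 := by
  unfold PhiQ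
  rw [h.hsplit (g := fun x => if x ∈ Q then (16 : ℤ) else Dom.phi (dg H A x)),
    h.hsplit' (g := fun x => if x ∈ Q then (16 : ℤ) else Dom.phi (dg H (A \ M) x))]
  have e4 : (∑ x ∈ M, if x ∈ Q then (16 : ℤ) else Dom.phi (dg H A x)) = 56 := by
    rw [sum_congr rfl (g := fun _ => (7 : ℤ))]
    · rw [sum_const, h.card]; norm_num
    · intro x hx
      rw [if_neg (h.MQ x hx), h.dgM x hx]; rfl
  rw [e4, phiQ_congr (Q' := Q) (H' := H) (A' := A \ M) (fun _ _ => Iff.rfl) (by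
    intro x hx
    simp only [mem_sdiff, mem_insert, mem_singleton, not_or] at hx
    exact (h.dgx hx.1.1 hx.1.2 hx.2.1 hx.2.2).symm)]
  rw [if_neg h.rQ, if_neg h.sQ, if_neg h.rQ, if_neg h.sQ, h.dgr, h.dgs, h.dgr', h.dgs']
  simp only [Dom.phi]
  ring

/-- From a dominating set of the rest. -/
theorem DM.dom (h : DM H Q A M r s) {D : Finset V} (hD : DomQ H Q (A \ M) ∅ D) :
    ∃ D', DomQ H Q A ∅ D' ∧ D'.card ≤ D.card + 2 := by
  obtain ⟨hD, hdom⟩ := hD
  have outside : ∀ T ⊆ M, T.card = 2 → (∀ x ∈ M, x ∈ T ∨ ∃ u ∈ T ∪ D, H.Adj u x) →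
      ∃ D', DomQ H Q A ∅ D' ∧ D'.card ≤ D.card + 2 := by
    intro T hT hc hM
    refine ⟨D ∪ T, ⟨union_subset (hD.trans sdiff_subset) (hT.trans h.MA), ?_⟩,
      (card_union_le _ _).trans (by rw [hc])⟩
    intro x hx
    by_cases hxM : x ∈ M
    · rcases hM x hxM with h1 | ⟨u, hu, ha⟩
      · exact Or.inl (mem_union_right _ h1)
      · refine Or.inr (Or.inr (Or.inl ⟨h.MQ x hxM, ⟨u, ?_, ha⟩⟩))
        rw [mem_union] at hu ⊢
        tauto
    · rcases hdom x (mem_sdiff.2 ⟨hx, hxM⟩) with h1 | h1 | ⟨h1, ⟨u, hu, ha⟩⟩ | ⟨h1, h2⟩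
      · exact Or.inl (mem_union_left _ h1)
      · simp at h1
      · exact Or.inr (Or.inr (Or.inl ⟨h1, ⟨u, mem_union_left _ hu, ha⟩⟩))
      · refine Or.inr (Or.inr (Or.inr ⟨h1, ?_⟩))
        intro u hu
        rw [mem_nb] at hu
        apply mem_union_left
        apply h2
        rw [mem_nb, mem_sdiff]
        refine ⟨⟨hu.1, ?_⟩, hu.2⟩
        intro huM
        rcases h.out u huM x hx hxM hu.2.symm with h3 | h3
        · exact h.rQ (h3 ▸ h1)
        · exact h.sQ (h3 ▸ h1)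
  by_cases hr : r ∈ D
  · obtain ⟨T, hT, hc, hTd⟩ := h.tr
    refine outside T hT hc ?_
    intro x hx
    rcases hTd x hx with h1 | ⟨u, hu, ha⟩
    · exact Or.inl h1
    · refine Or.inr ⟨u, ?_, ha⟩
      rcases mem_insert.1 hu with rfl | hu
      · exact mem_union_right _ hr
      · exact mem_union_left _ hu
  by_cases hs : s ∈ D
  · obtain ⟨T, hT, hc, hTd⟩ := h.ts
    refine outside T hT hc ?_
    intro x hx
    rcases hTd x hx with h1 | ⟨u, hu, ha⟩
    · exact Or.inl h1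
    · refine Or.inr ⟨u, ?_, ha⟩
      rcases mem_insert.1 hu with rfl | hu
      · exact mem_union_right _ hs
      · exact mem_union_left _ hu
  · obtain ⟨T, hT, hc, hTd⟩ := h.t0
    refine outside T hT hc ?_
    intro x hx
    rcases hTd x hx with h1 | ⟨u, hu, ha⟩
    · exact Or.inl h1
    · exact Or.inr ⟨u, mem_union_left _ hu, ha⟩

/-- Union of two parts without edges in between. -/
theorem BdQ.union {B C : Finset V} {a b : ℤ} (hd : Disjoint B C)
    (hn : ∀ x ∈ B, ∀ y ∈ C, ¬ H.Adj x y) (hB : BdQ H Q B a) (hC : BdQ H Q C b) :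
    BdQ H Q (B ∪ C) (a + b) := by
  obtain ⟨D, ⟨h1, h2⟩, h3⟩ := hB
  obtain ⟨E, ⟨h4, h5⟩, h6⟩ := hC
  have nbl : ∀ x ∈ B, nb H (B ∪ C) x = nb H B x := by
    intro x hx
    ext y
    simp only [mem_nb, mem_union]
    constructor
    · rintro ⟨g1 | g1, g2⟩
      · exact ⟨g1, g2⟩
      · exact absurd g2 (hn x hx y g1)
    · rintro ⟨g1, g2⟩
      exact ⟨Or.inl g1, g2⟩
  have nbr' : ∀ x ∈ C, nb H (B ∪ C) x = nb H C x := by
    intro x hx
    ext y
    simp only [mem_nb, mem_union]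
    constructor
    · rintro ⟨g1 | g1, g2⟩
      · exact absurd g2.symm (hn y g1 x hx)
      · exact ⟨g1, g2⟩
    · rintro ⟨g1, g2⟩
      exact ⟨Or.inr g1, g2⟩
  refine ⟨D ∪ E, ⟨union_subset_union h1 h4, ?_⟩, ?_⟩
  · intro x hx
    rcases mem_union.1 hx with hx | hx
    · rcases h2 x hx with g1 | g1 | ⟨g1, ⟨u, hu, ha⟩⟩ | ⟨g1, g2⟩
      · exact Or.inl (mem_union_left _ g1)
      · simp at g1
      · exact Or.inr (Or.inr (Or.inl ⟨g1, ⟨u, mem_union_left _ hu, ha⟩⟩))
      · exact Or.inr (Or.inr (Or.inr ⟨g1, by rw [nbl x hx]; exact g2.trans subset_union_left⟩))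
    · rcases h5 x hx with g1 | g1 | ⟨g1, ⟨u, hu, ha⟩⟩ | ⟨g1, g2⟩
      · exact Or.inl (mem_union_right _ g1)
      · simp at g1
      · exact Or.inr (Or.inr (Or.inl ⟨g1, ⟨u, mem_union_right _ hu, ha⟩⟩))
      · exact Or.inr (Or.inr (Or.inr ⟨g1, by rw [nbr' x hx]; exact g2.trans subset_union_right⟩))
  · have hphi : PhiQ H Q (B ∪ C) = PhiQ H Q B + PhiQ H Q C := by
      unfold PhiQ
      rw [sum_union hd]
      congr 1
      · apply phiQ_congr (fun _ _ => Iff.rfl)
        intro x hx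
        unfold dg
        rw [nbl x hx]
      · apply phiQ_congr (fun _ _ => Iff.rfl)
        intro x hx
        unfold dg
        rw [nbr' x hx]
    have := card_union_le D E
    have h7 : ((D ∪ E).card : ℤ) ≤ D.card + E.card := by exact_mod_cast this
    rw [hphi]
    linarith

/-- The invariant passes to a closed connected part. -/
theorem DM.inv (h : DM H Q A M r s) (hI : Inv H Q A) {B : Finset V} (hB : B ⊆ A \ M)
    (hne : B.Nonempty) (hc : Conn H B) (hcl : ∀ x ∈ B, ∀ y ∈ A \ M, H.Adj x y → y ∈ B) :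
    Inv H Q B := by
  have hdg : ∀ x ∈ B, dg H B x = dg H (A \ M) x := by
    intro x hx
    unfold dg
    congr 1
    ext y
    rw [mem_nb, mem_nb]
    exact ⟨fun hh => ⟨hB hh.1, hh.2⟩, fun hh => ⟨hcl x hx y hh.1 hh.2, hh.2⟩⟩
  refine ⟨hne, hc, ?_, ?_, ?_⟩
  · intro x hx hxQ
    have hx' := mem_sdiff.1 (hB hx)
    rw [hdg x hx, h.dgx hx'.1 hx'.2 (fun hh => h.rQ (hh ▸ hxQ)) (fun hh => h.sQ (hh ▸ hxQ))]
    exact hI.degQ x hx'.1 hxQ
  · intro x hx hxQ
    have hx' := mem_sdiff.1 (hB hx)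
    rw [hdg x hx]
    by_cases hxr : x = r
    · subst hxr; exact Or.inr (Or.inl h.dgr')
    by_cases hxs : x = s
    · subst hxs; exact Or.inr (Or.inl h.dgs')
    rw [h.dgx hx'.1 hx'.2 hxr hxs]
    rcases hI.degO x hx'.1 hxQ with h1 | h1 | ⟨h1, u, hu, h2⟩
    · exact Or.inl h1
    · exact Or.inr (Or.inl h1)
    · refine Or.inr (Or.inr ⟨h1, u, ?_⟩)
      have huM : u ∉ M := by
        intro hh
        have := h.dgM u hh
        omega
      have hur : u ≠ r := by
        rintro rfl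
        have := h.dgr
        omega
      have hus : u ≠ s := by
        rintro rfl
        have := h.dgs
        omega
      rw [mem_nb] at hu
      have huB : u ∈ B := hcl x hx u (mem_sdiff.2 ⟨hu.1, huM⟩) hu.2
      exact ⟨mem_nb.2 ⟨huB, hu.2⟩, by rw [hdg u huB, h.dgx hu.1 huM hur hus]; exact h2⟩
  · intro w hw hG
    have hwA : ∀ i, w i ∈ B ∧ w i ∈ A ∧ w i ∉ M ∧ w i ∉ Q := by
      intro i
      have h1 := mem_sdiff.1 (hw i)
      have h2 := mem_sdiff.1 (hB h1.1)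
      exact ⟨h1.1, h2.1, h2.2, h1.2⟩
    have hwr : ∀ i, w i ≠ r := by
      intro i hi
      have := hG.two (B := A \ M) (fun i => mem_sdiff.2 ⟨(hwA i).2.1, (hwA i).2.2.1⟩) i
      rw [hi, h.dgr'] at this
      omega
    have hws : ∀ i, w i ≠ s := by
      intro i hi
      have := hG.two (B := A \ M) (fun i => mem_sdiff.2 ⟨(hwA i).2.1, (hwA i).2.2.1⟩) i
      rw [hi, h.dgs'] at this
      omega
    obtain ⟨v', hv', hne, i, j, hi, hj, hij, ha, hb⟩ := hI.cop w
      (fun i => mem_sdiff.2 ⟨(hwA i).2.1, (hwA i).2.2.2⟩) hG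
    rw [mem_sdiff] at hv'
    have hv'M : v' ∉ M := by
      intro hh
      rcases h.out v' hh (w i) (hwA i).2.1 (hwA i).2.2.1 ha with h1 | h1
      · exact hwr i h1
      · exact hws i h1
    refine ⟨v', mem_sdiff.2 ⟨?_, hv'.2⟩, hne, i, j, hi, hj, hij, ha, hb⟩
    exact hcl (w i) (hwA i).1 v' (mem_sdiff.2 ⟨hv'.1, hv'M⟩) ha.symm

/-- The ten-vertex module reduces the problem. -/
theorem DM.reduce (h : DM H Q A M r s) (hI : Inv H Q A)
    (ih : ∀ H' : SimpleGraph V, ∀ Q' A', A'.card < A.card → Inv H' Q' A' → Goal H' Q' A') :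
    Goal H Q A := by
  apply Goal.of2
  have hMne : M.Nonempty := by
    rw [← card_pos, h.card]; norm_num
  have hlt : ∀ B ⊆ A \ M, B.card < A.card := by
    intro B hB
    refine lt_of_le_of_lt (card_le_card hB) ?_
    apply card_lt_card
    rw [ssubset_iff_subset_ne]
    refine ⟨sdiff_subset, fun hh => ?_⟩
    obtain ⟨x, hx⟩ := hMne
    have h1 := h.MA hx
    rw [← hh, mem_sdiff] at h1
    exact h1.2 hx
  have hrR : r ∈ A \ M := mem_sdiff.2 ⟨h.rA, h.rM⟩
  have hsR : s ∈ A \ M := mem_sdiff.2 ⟨h.sA, h.sM⟩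
  -- enough: bound 4 for the rest
  suffices hrest : BdQ H Q (A \ M) 4 by
    obtain ⟨D, hD, hcard⟩ := hrest
    obtain ⟨D', h1, h2⟩ := h.dom hD
    refine ⟨D', h1, ?_⟩
    have h3 : (D'.card : ℤ) ≤ D.card + 2 := by exact_mod_cast h2
    rw [h.phi]
    linarith
  by_cases hc : Conn H (A \ M)
  · have hInv := h.inv hI (B := A \ M) subset_rfl ⟨r, hrR⟩ hc (fun _ _ y hy _ => hy)
    have := (ih H Q _ (hlt _ subset_rfl) hInv).2 ⟨r, hrR, h.rQ, h.dgr'⟩
    exact this.mono (by norm_num)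
  · unfold Conn at hc
    push Not at hc
    obtain ⟨X, hX, hXne, hYne, hno⟩ := hc
    -- closed subsets contain r or s
    have hit : ∀ Z ⊆ A \ M, Z.Nonempty → (∀ x ∈ Z, ∀ y ∈ A \ M, H.Adj x y → y ∈ Z) →
        r ∈ Z ∨ s ∈ Z := by
      intro Z hZ hZne hZcl
      by_contra hcon
      rw [not_or] at hcon
      have : Z = A := by
        apply hI.conn.eq_of_closed (hZ.trans sdiff_subset) hZne
        intro x hx y hy ha
        have hx' := mem_sdiff.1 (hZ hx)
        by_cases hyM : y ∈ M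
        · rcases h.out y hyM x hx'.1 hx'.2 ha.symm with h1 | h1
          · exact absurd (h1 ▸ hx) hcon.1
          · exact absurd (h1 ▸ hx) hcon.2
        · exact hZcl x hx y (mem_sdiff.2 ⟨hy, hyM⟩) ha
      obtain ⟨x, hx⟩ := hMne
      have h1 := h.MA hx
      rw [← this] at h1
      exact (mem_sdiff.1 (hZ h1)).2 hx
    have hXcl : ∀ x ∈ X, ∀ y ∈ A \ M, H.Adj x y → y ∈ X := by
      intro x hx y hy ha
      by_contra hcon
      exact hno x hx y (mem_sdiff.2 ⟨hy, hcon⟩) ha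
    have hYcl : ∀ x ∈ (A \ M) \ X, ∀ y ∈ A \ M, H.Adj x y → y ∈ (A \ M) \ X := by
      intro x hx y hy ha
      rw [mem_sdiff]
      refine ⟨hy, fun hcon => ?_⟩
      exact hno y hcon x hx ha.symm
    have main : ∀ X Y : Finset V, X ⊆ A \ M → Y ⊆ A \ M → X ∪ Y = A \ M → Disjoint X Y →
        (∀ x ∈ X, ∀ y ∈ A \ M, H.Adj x y → y ∈ X) → (∀ x ∈ Y, ∀ y ∈ A \ M, H.Adj x y → y ∈ Y) →
        r ∈ X → s ∈ Y → BdQ H Q (A \ M) 4 := by
      intro X Y hX hY hXY hdis hXcl hYcl hrX hsY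
      have hconn : ∀ Z W : Finset V, Z ⊆ A \ M → Disjoint Z W →
          (∀ x ∈ Z, ∀ y ∈ A \ M, H.Adj x y → y ∈ Z) → (r ∈ Z ∧ s ∈ W ∨ s ∈ Z ∧ r ∈ W) →
          Conn H Z := by
        intro Z W hZ hZW hZcl hrs U hU hUne hUne'
        by_contra hcon
        push Not at hcon
        have hUcl : ∀ x ∈ U, ∀ y ∈ A \ M, H.Adj x y → y ∈ U := by
          intro x hx y hy ha
          by_contra hc2
          exact hcon x hx y (mem_sdiff.2 ⟨hZcl x (hU hx) y hy ha, hc2⟩) ha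
        have hUcl' : ∀ x ∈ Z \ U, ∀ y ∈ A \ M, H.Adj x y → y ∈ Z \ U := by
          intro x hx y hy ha
          rw [mem_sdiff]
          refine ⟨hZcl x (mem_sdiff.1 hx).1 y hy ha, fun hc2 => ?_⟩
          exact hcon y hc2 x hx ha.symm
        have h1 := hit U (hU.trans hZ) hUne hUcl
        have h2 := hit (Z \ U) (sdiff_subset.trans hZ) hUne' hUcl'
        rw [disjoint_left] at hZW
        rcases hrs with ⟨g1, g2⟩ | ⟨g1, g2⟩
        · have hs : s ∉ Z := fun hh => hZW hh g2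
          rcases h1 with h1 | h1
          · rcases h2 with h2 | h2
            · exact (mem_sdiff.1 h2).2 h1
            · exact hs (mem_sdiff.1 h2).1
          · exact hs (hU h1)
        · have hr : r ∉ Z := fun hh => hZW hh g2
          rcases h1 with h1 | h1
          · exact hr (hU h1)
          · rcases h2 with h2 | h2
            · exact hr (mem_sdiff.1 h2).1
            · exact (mem_sdiff.1 h2).2 h1
      have hdg : ∀ Z : Finset V, Z ⊆ A \ M → (∀ x ∈ Z, ∀ y ∈ A \ M, H.Adj x y → y ∈ Z) →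
          ∀ x ∈ Z, dg H Z x = dg H (A \ M) x := by
        intro Z hZ hZcl x hx
        unfold dg
        congr 1
        ext y
        rw [mem_nb, mem_nb]
        exact ⟨fun hh => ⟨hZ hh.1, hh.2⟩, fun hh => ⟨hZcl x hx y hh.1 hh.2, hh.2⟩⟩
      have b1 := (ih H Q X (hlt _ hX) (h.inv hI hX ⟨r, hrX⟩
        (hconn X Y hX hdis hXcl (Or.inl ⟨hrX, hsY⟩)) hXcl)).2
        ⟨r, hrX, h.rQ, by rw [hdg X hX hXcl r hrX]; exact h.dgr'⟩
      have b2 := (ih H Q Y (hlt _ hY) (h.inv hI hY ⟨s, hsY⟩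
        (hconn Y X hY hdis.symm hYcl (Or.inr ⟨hsY, hrX⟩)) hYcl)).2
        ⟨s, hsY, h.sQ, by rw [hdg Y hY hYcl s hsY]; exact h.dgs'⟩
      rw [← hXY]
      have := BdQ.union hdis (by
        intro x hx y hy ha
        exact (disjoint_left.1 hdis) (hXcl x hx y (hY hy) ha) hy) b1 b2
      exact this.mono (by norm_num)
    have hunion : X ∪ (A \ M) \ X = A \ M := union_sdiff_of_subset hX
    have hdis : Disjoint X ((A \ M) \ X) := disjoint_sdiff
    have h1 := hit X hX hXne hXcl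
    have h2 := hit _ sdiff_subset hYne hYcl
    rcases h1 with h1 | h1
    · rcases h2 with h2 | h2
      · exact absurd h1 (mem_sdiff.1 h2).2
      · exact main X _ hX sdiff_subset hunion hdis hXcl hYcl h1 h2
    · rcases h2 with h2 | h2
      · exact main _ X sdiff_subset hX (by rw [union_comm]; exact hunion) hdis.symm hYcl hXcl h2 h1
      · exact absurd h1 (mem_sdiff.1 h2).2

end

end Pool.Agent.H94.Dom
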