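import Pool.Agent.Dom94.RedE

/-! Analysis of an induced copy of `G7` in which all vertices have degree three. -/

set_option linter.unusedSectionVars false
set_option linter.unusedVariables false

namespace Pool.Agent.H94.Dom

open Finset

section
variable {V : Type} [DecidableEq V] {H : SimpleGraph V} {Q A : Finset V} {w : Fin 7 → V}

/-- Neighbourhood data of a copy of `G7`. -/
structure GD (H : SimpleGraph V) (A : Finset V) (w : Fin 7 → V) (a0 a1 a2 : V) : Prop where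
  inj : Function.Injective w
  wA : ∀ i, w i ∈ A
  n0 : nb H A (w 0) = {w 1, w 3, a0}
  n1 : nb H A (w 1) = {w 0, w 4, a1}
  n2 : nb H A (w 2) = {w 5, w 6, a2}
  n3 : nb H A (w 3) = {w 0, w 5, w 6}
  n4 : nb H A (w 4) = {w 1, w 5, w 6}
  n5 : nb H A (w 5) = {w 2, w 3, w 4}
  n6 : nb H A (w 6) = {w 2, w 3, w 4}
  m0 : a0 ∈ A ∧ H.Adj (w 0) a0 ∧ ∀ i, w i ≠ a0
  m1 : a1 ∈ A ∧ H.Adj (w 1) a1 ∧ ∀ i, w i ≠ a1
  m2 : a2 ∈ A ∧ H.Adj (w 2) a2 ∧ ∀ i, w i ≠ a2

theorem third {v a b : V} (hd : dg H A v = 3) (ha : a ∈ A) (hb : b ∈ A) (hab : a ≠ b)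
    (h1 : H.Adj v a) (h2 : H.Adj v b) : ∃ c ∈ A, H.Adj v c ∧ c ≠ a ∧ c ≠ b ∧
      nb H A v = {a, b, c} := by
  have hsub : ({a, b} : Finset V) ⊆ nb H A v := by
    intro x hx
    simp only [mem_insert, mem_singleton] at hx
    rcases hx with rfl | rfl
    · exact mem_nb.2 ⟨ha, h1⟩
    · exact mem_nb.2 ⟨hb, h2⟩
  have hlt : ({a, b} : Finset V).card < (nb H A v).card := by
    rw [card_pair hab]
    unfold dg at hd
    omega
  obtain ⟨c, hc, hc'⟩ := exists_mem_notMem_of_card_lt_card hlt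
  rw [mem_nb] at hc
  simp only [mem_insert, mem_singleton, not_or] at hc'
  exact ⟨c, hc.1, hc.2, hc'.1, hc'.2, nb3 hd.le ha hb hc.1 hab (Ne.symm hc'.1) (Ne.symm hc'.2)
    h1 h2 hc.2⟩

theorem IsG7.adj (hG : IsG7 H w) {i j : Fin 7} (h : ladj g7l i j = true) :
    H.Adj (w i) (w j) := (hG.2 i j).2 h

theorem IsG7.data (hG : IsG7 H w) (hw : ∀ i, w i ∈ A) (h3 : ∀ i, dg H A (w i) = 3) :
    ∃ a0 a1 a2, GD H A w a0 a1 a2 := by
  have ne : ∀ i j : Fin 7, i ≠ j → w i ≠ w j := fun i j hij hh => hij (hG.1 hh)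
  have nadj : ∀ i j : Fin 7, ladj g7l i j = false → ¬ H.Adj (w i) (w j) := by
    intro i j hij hh
    rw [(hG.2 i j).1 hh] at hij
    exact absurd hij (by simp)
  obtain ⟨a0, b0, c0, d0, e0, f0⟩ := third (h3 0) (hw 1) (hw 3) (ne _ _ (by decide))
    (hG.adj (by decide)) (hG.adj (by decide))
  obtain ⟨a1, b1, c1, d1, e1, f1⟩ := third (h3 1) (hw 0) (hw 4) (ne _ _ (by decide))
    (hG.adj (by decide)) (hG.adj (by decide))
  obtain ⟨a2, b2, c2, d2, e2, f2⟩ := third (h3 2) (hw 5) (hw 6) (ne _ _ (by decide))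
    (hG.adj (by decide)) (hG.adj (by decide))
  have aux : ∀ (e : Fin 7) (a : V), H.Adj (w e) a → (∀ i : Fin 7, ladj g7l e i = true → w i ≠ a) →
      ∀ i : Fin 7, w i ≠ a := by
    intro e a ha hne i hi
    by_cases h : ladj g7l e i = true
    · exact hne i h hi
    · have h' : ladj g7l e i = false := by simpa using h
      exact nadj e i h' (hi ▸ ha)
  refine ⟨a0, a1, a2, ⟨hG.1, hw, f0, f1, f2, ?_, ?_, ?_, ?_, ⟨b0, c0, ?_⟩, ⟨b1, c1, ?_⟩,
    ⟨b2, c2, ?_⟩⟩⟩
  · exact nb3 (h3 3).le (hw 0) (hw 5) (hw 6) (ne _ _ (by decide)) (ne _ _ (by decide))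
      (ne _ _ (by decide)) (hG.adj (by decide)) (hG.adj (by decide)) (hG.adj (by decide))
  · exact nb3 (h3 4).le (hw 1) (hw 5) (hw 6) (ne _ _ (by decide)) (ne _ _ (by decide))
      (ne _ _ (by decide)) (hG.adj (by decide)) (hG.adj (by decide)) (hG.adj (by decide))
  · exact nb3 (h3 5).le (hw 2) (hw 3) (hw 4) (ne _ _ (by decide)) (ne _ _ (by decide))
      (ne _ _ (by decide)) (hG.adj (by decide)) (hG.adj (by decide)) (hG.adj (by decide))
  · exact nb3 (h3 6).le (hw 2) (hw 3) (hw 4) (ne _ _ (by decide)) (ne _ _ (by decide))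
      (ne _ _ (by decide)) (hG.adj (by decide)) (hG.adj (by decide)) (hG.adj (by decide))
  · apply aux 0 a0 c0
    intro i hi
    have : i = 1 ∨ i = 3 := by revert i; decide
    rcases this with rfl | rfl
    · exact d0.symm
    · exact e0.symm
  · apply aux 1 a1 c1
    intro i hi
    have : i = 0 ∨ i = 4 := by revert i; decide
    rcases this with rfl | rfl
    · exact d1.symm
    · exact e1.symm
  · apply aux 2 a2 c2
    intro i hi
    have : i = 5 ∨ i = 6 := by revert i; decide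
    rcases this with rfl | rfl
    · exact d2.symm
    · exact e2.symm

/-- The vertex set of a copy. -/
def wset (w : Fin 7 → V) : Finset V := univ.image w

theorem mem_wset {x : V} : x ∈ wset w ↔ ∃ i, w i = x := by
  simp [wset]

theorem w_mem (i : Fin 7) : w i ∈ wset w := mem_wset.2 ⟨i, rfl⟩

theorem wset_card (hi : Function.Injective w) : (wset w).card = 7 := by
  unfold wset
  rw [card_image_of_injective _ hi]
  rfl

variable {a0 a1 a2 : V}

theorem GD.nw (h : GD H A w a0 a1 a2) {y : V} (hy : y ∉ wset w) (i : Fin 7) : w i ≠ y :=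
  fun hh => hy (mem_wset.2 ⟨i, hh⟩)

/-- Outer neighbours. -/
theorem GD.out (h : GD H A w a0 a1 a2) {y : V} (hy : y ∈ A) (hy' : y ∉ wset w) (i : Fin 7)
    (ha : H.Adj (w i) y) : (i = 0 ∧ y = a0) ∨ (i = 1 ∧ y = a1) ∨ (i = 2 ∧ y = a2) := by
  have hm : y ∈ nb H A (w i) := mem_nb.2 ⟨hy, ha⟩
  have nw := h.nw hy'
  fin_cases i
  · change y ∈ nb H A (w 0) at hm
    rw [h.n0] at hm
    simp only [mem_insert, mem_singleton] at hm
    rcases hm with hm | hm | hm
    · exact absurd hm.symm (nw 1)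
    · exact absurd hm.symm (nw 3)
    · exact Or.inl ⟨rfl, hm⟩
  · change y ∈ nb H A (w 1) at hm
    rw [h.n1] at hm
    simp only [mem_insert, mem_singleton] at hm
    rcases hm with hm | hm | hm
    · exact absurd hm.symm (nw 0)
    · exact absurd hm.symm (nw 4)
    · exact Or.inr (Or.inl ⟨rfl, hm⟩)
  · change y ∈ nb H A (w 2) at hm
    rw [h.n2] at hm
    simp only [mem_insert, mem_singleton] at hm
    rcases hm with hm | hm | hm
    · exact absurd hm.symm (nw 5)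
    · exact absurd hm.symm (nw 6)
    · exact Or.inr (Or.inr ⟨rfl, hm⟩)
  · change y ∈ nb H A (w 3) at hm
    rw [h.n3] at hm
    simp only [mem_insert, mem_singleton] at hm
    rcases hm with hm | hm | hm
    · exact absurd hm.symm (nw 0)
    · exact absurd hm.symm (nw 5)
    · exact absurd hm.symm (nw 6)
  · change y ∈ nb H A (w 4) at hm
    rw [h.n4] at hm
    simp only [mem_insert, mem_singleton] at hm
    rcases hm with hm | hm | hm
    · exact absurd hm.symm (nw 1)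
    · exact absurd hm.symm (nw 5)
    · exact absurd hm.symm (nw 6)
  · change y ∈ nb H A (w 5) at hm
    rw [h.n5] at hm
    simp only [mem_insert, mem_singleton] at hm
    rcases hm with hm | hm | hm
    · exact absurd hm.symm (nw 2)
    · exact absurd hm.symm (nw 3)
    · exact absurd hm.symm (nw 4)
  · change y ∈ nb H A (w 6) at hm
    rw [h.n6] at hm
    simp only [mem_insert, mem_singleton] at hm
    rcases hm with hm | hm | hm
    · exact absurd hm.symm (nw 2)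
    · exact absurd hm.symm (nw 3)
    · exact absurd hm.symm (nw 4)

/-- Adjacencies inside the copy. -/
theorem GD.adjs (h : GD H A w a0 a1 a2) :
    H.Adj (w 0) (w 1) ∧ H.Adj (w 0) (w 3) ∧ H.Adj (w 1) (w 4) ∧ H.Adj (w 2) (w 5) ∧
    H.Adj (w 2) (w 6) ∧ H.Adj (w 3) (w 5) ∧ H.Adj (w 3) (w 6) ∧ H.Adj (w 4) (w 5) ∧
    H.Adj (w 4) (w 6) := by
  have f0 : w 1 ∈ nb H A (w 0) ∧ w 3 ∈ nb H A (w 0) := by rw [h.n0]; simp
  have f1 : w 4 ∈ nb H A (w 1) := by rw [h.n1]; simp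
  have f2 : w 5 ∈ nb H A (w 2) ∧ w 6 ∈ nb H A (w 2) := by rw [h.n2]; simp
  have f3 : w 5 ∈ nb H A (w 3) ∧ w 6 ∈ nb H A (w 3) := by rw [h.n3]; simp
  have f4 : w 5 ∈ nb H A (w 4) ∧ w 6 ∈ nb H A (w 4) := by rw [h.n4]; simp
  simp only [mem_nb] at f0 f1 f2 f3 f4
  exact ⟨f0.1.2, f0.2.2, f1.2, f2.1.2, f2.2.2, f3.1.2, f3.2.2, f4.1.2, f4.2.2⟩

end

end Pool.Agent.H94.Dom
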