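import Pool.Agent.Dom94.RedG

/-! An induced copy of `G7` reduces the problem. -/

set_option linter.unusedSectionVars false
set_option linter.unusedVariables false

namespace Pool.Agent.H94.Dom

open Finset

section
variable {V : Type} [DecidableEq V] {H : SimpleGraph V} {Q A : Finset V}

/-- An ordinary vertex with two neighbours of degree at least two has degree three. -/
theorem Inv.deg3 (hI : Inv H Q A) {x a b : V} (hx : x ∈ A) (hxQ : x ∉ Q) (ha : a ∈ A)
    (hb : b ∈ A) (hab : a ≠ b) (h1 : H.Adj x a) (h2 : H.Adj x b) (hda : 2 ≤ dg H A a)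
    (hdb : 2 ≤ dg H A b) : dg H A x = 3 := by
  have hsub : ({a, b} : Finset V) ⊆ nb H A x := by
    apply pair_sub
    · exact mem_nb.2 ⟨ha, h1⟩
    · exact mem_nb.2 ⟨hb, h2⟩
  have hle := card_le_card hsub
  rw [card_pair hab] at hle
  rcases hI.degO x hx hxQ with h3 | h3 | ⟨h3, u, hu, h4⟩
  · exact h3
  · unfold dg at h3; omega
  · exfalso
    have h5 : ({a, b} : Finset V) = nb H A x := by
      apply eq_of_subset_of_card_le hsub
      rw [card_pair hab]
      exact h3.le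
    rw [← h5] at hu
    simp only [mem_insert, mem_singleton] at hu
    rcases hu with rfl | rfl <;> omega

/-- A module reduces the problem. -/
theorem XM.reduce {M : Finset V} {v k p q : V} (h : XM H Q A M v k p q) (hI : Inv H Q A)
    (ih : ∀ H' : SimpleGraph V, ∀ Q' A', A'.card < A.card → Inv H' Q' A' → Goal H' Q' A') :
    Goal H Q A := by
  have hlt : (A \ M).card < A.card := by
    apply card_lt_card
    rw [ssubset_iff_subset_ne]
    refine ⟨sdiff_subset, fun hh => ?_⟩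
    have h1 := h.kA
    rw [← hh, mem_sdiff] at h1
    exact h1.2 h.kM
  by_cases hpq : p = q
  · subst hpq
    by_cases hpQ : p ∈ Q
    · exact Goal.of2 (h.closed hpQ hI)
    · have hp3 : dg H A p = 3 := by
        apply hI.deg3 h.pA hpQ h.vA h.kA (fun hh => h.vM (hh ▸ h.kM)) h.vp.symm h.kq.symm
        · rw [h.dgv]; norm_num
        · rw [h.dgM k h.kM]; norm_num
      have h1 := (ih H Q _ hlt (h.inv hp3 hI)).2 ⟨v, mem_sdiff.2 ⟨h.vA, h.vM⟩, h.vQ, h.dgv'⟩
      exact Goal.of2 ((h.bd hpQ hp3 h1).mono (by norm_num))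
  · have h1 := ih _ _ _ hlt (h.inv' hpq hI)
    refine ⟨h.bd' hpq h1.1, ?_⟩
    rintro ⟨x, hx, hxQ, hd⟩
    have hxM : x ∉ M := by
      intro hh
      have := h.dgM x hh
      omega
    have hxv : x ≠ v := by
      rintro rfl
      have := h.dgv
      omega
    refine h.bd' hpq (h1.2 ⟨x, mem_sdiff.2 ⟨hx, hxM⟩, ?_, ?_⟩)
    · rw [mem_insert, not_or]
      exact ⟨hxv, hxQ⟩
    · rw [h.dg' hpq hx hxM hxv]
      exact hd

/-- A copy of `G7` reduces the problem. -/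
theorem Inv.copy (hI : Inv H Q A) {w : Fin 7 → V} (hw : ∀ i, w i ∈ A \ Q) (hG : IsG7 H w)
    (ih : ∀ H' : SimpleGraph V, ∀ Q' A', A'.card < A.card → Inv H' Q' A' → Goal H' Q' A') :
    Goal H Q A := by
  have hwA : ∀ i, w i ∈ A := fun i => (mem_sdiff.1 (hw i)).1
  have hwQ : ∀ i, w i ∉ Q := fun i => (mem_sdiff.1 (hw i)).2
  have h3 : ∀ i, dg H A (w i) = 3 := by
    intro i
    obtain ⟨j, l, hjl, h1, h2⟩ := g7_two i
    exact hI.deg3 (hwA i) (hwQ i) (hwA j) (hwA l) (fun hh => hjl (hG.1 hh)) (hG.adj h1)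
      (hG.adj h2) (hG.two hwA j) (hG.two hwA l)
  obtain ⟨a0, a1, a2, hD⟩ := hG.data hwA h3
  obtain ⟨v, hv, hne, i, j, hi, hj, hij, ha, hb⟩ := hI.cop w hw hG
  rw [mem_sdiff] at hv
  have hvM : v ∉ wset w := by
    intro hh
    obtain ⟨l, hl⟩ := mem_wset.1 hh
    exact hne l hl
  have hdv : dg H A v = 3 := hI.deg3 hv.1 hv.2 (hwA i) (hwA j) (fun hh => hij (hG.1 hh)) ha hb
    (hG.two hwA i) (hG.two hwA j)
  have o1 := hD.out hv.1 hvM i ha.symm
  have o2 := hD.out hv.1 hvM j hb.symm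
  have main : (v = a0 ∧ v = a1) ∨ (v = a0 ∧ v = a2) ∨ (v = a1 ∧ v = a2) := by
    rcases o1 with ⟨g1, g2⟩ | ⟨g1, g2⟩ | ⟨g1, g2⟩ <;> rcases o2 with ⟨g3, g4⟩ | ⟨g3, g4⟩ | ⟨g3, g4⟩
    · exact absurd (g1.trans g3.symm) hij
    · exact Or.inl ⟨g2, g4⟩
    · exact Or.inr (Or.inl ⟨g2, g4⟩)
    · exact Or.inl ⟨g4, g2⟩
    · exact absurd (g1.trans g3.symm) hij
    · exact Or.inr (Or.inr ⟨g2, g4⟩)
    · exact Or.inr (Or.inl ⟨g4, g2⟩)
    · exact Or.inr (Or.inr ⟨g4, g2⟩)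
    · exact absurd (g1.trans g3.symm) hij
  rcases main with ⟨g1, g2⟩ | ⟨g1, g2⟩ | ⟨g1, g2⟩
  · subst g1; subst g2
    by_cases h : a2 = v
    · subst h
      exact hD.closed h3 hwQ hv.2 hdv hI.conn
    · obtain ⟨p, hX⟩ := hD.xm01 h3 hwQ hv.2 hdv h
      exact hX.reduce hI ih
  · subst g1; subst g2
    by_cases h : a1 = v
    · subst h
      exact hD.closed h3 hwQ hv.2 hdv hI.conn
    · obtain ⟨p, hX⟩ := hD.xm02 h3 hwQ hv.2 hdv h
      exact hX.reduce hI ih
  · subst g1; subst g2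
    by_cases h : a0 = v
    · subst h
      exact hD.closed h3 hwQ hv.2 hdv hI.conn
    · obtain ⟨p, hX⟩ := hD.xm12 h3 hwQ hv.2 hdv h
      exact hX.reduce hI ih

end

end Pool.Agent.H94.Dom
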