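import Pool.Agent.Dom94.RedH

/-! A copy of `D10` reduces the problem. -/

set_option linter.unusedSectionVars false
set_option linter.unusedVariables false

namespace Pool.Agent.H94.Dom

open Finset

section
variable {V : Type} [DecidableEq V] {H : SimpleGraph V} {Q A : Finset V} {w : Fin 10 → V}

theorem d10_two : ∀ i : Fin 10, ∃ j l : Fin 10, j ≠ l ∧ ladj d10l i j = true ∧
    ladj d10l i l = true := by
  decide

/-- Removed vertices of a copy of `D10`. -/
def dset (w : Fin 10 → V) : Finset V := ({0, 1, 2, 3, 5, 6, 7, 8} : Finset (Fin 10)).image w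

theorem mem_dset {x : V} : x ∈ dset w ↔
    w 0 = x ∨ w 1 = x ∨ w 2 = x ∨ w 3 = x ∨ w 5 = x ∨ w 6 = x ∨ w 7 = x ∨ w 8 = x := by
  simp only [dset, image_insert, image_singleton, mem_insert, mem_singleton]
  simp only [eq_comm]

theorem dset_card (hi : Function.Injective w) : (dset w).card = 8 := by
  unfold dset
  rw [card_image_of_injective _ hi]
  rfl

theorem forall_dset {P : V → Prop} (h0 : P (w 0)) (h1 : P (w 1)) (h2 : P (w 2)) (h3 : P (w 3))
    (h5 : P (w 5)) (h6 : P (w 6)) (h7 : P (w 7)) (h8 : P (w 8)) : ∀ x ∈ dset w, P x := by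
  intro x hx
  rcases mem_dset.1 hx with h | h | h | h | h | h | h | h <;> rw [← h] <;> assumption

theorem IsD10.adj (hG : IsD10 H w) {i j : Fin 10} (h : ladj d10l i j = true) :
    H.Adj (w i) (w j) := hG.2 i j h

/-- A copy of `D10` gives the module structure. -/
theorem Inv.dm (hI : Inv H Q A) (hw : ∀ i, w i ∈ A \ Q) (hG : IsD10 H w) :
    DM H Q A (dset w) (w 4) (w 9) := by
  have hwA : ∀ i, w i ∈ A := fun i => (mem_sdiff.1 (hw i)).1
  have hwQ : ∀ i, w i ∉ Q := fun i => (mem_sdiff.1 (hw i)).2
  have ne : ∀ {i j : Fin 10}, i ≠ j → w i ≠ w j := fun hij hh => hij (hG.1 hh)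
  have two : ∀ i, 2 ≤ dg H A (w i) := by
    intro i
    obtain ⟨j, l, hjl, h1, h2⟩ := d10_two i
    unfold dg
    have : ({w j, w l} : Finset V) ⊆ nb H A (w i) :=
      pair_sub (mem_nb.2 ⟨hwA j, hG.adj h1⟩) (mem_nb.2 ⟨hwA l, hG.adj h2⟩)
    have h3 := card_le_card this
    rwa [card_pair (ne hjl)] at h3
  have h3 : ∀ i, dg H A (w i) = 3 := by
    intro i
    obtain ⟨j, l, hjl, h1, h2⟩ := d10_two i
    exact hI.deg3 (hwA i) (hwQ i) (hwA j) (hwA l) (ne hjl) (hG.adj h1) (hG.adj h2)
      (two j) (two l)
  have full : ∀ (i a b c : Fin 10), a ≠ b → a ≠ c → b ≠ c → ladj d10l i a = true →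
      ladj d10l i b = true → ladj d10l i c = true → nb H A (w i) = {w a, w b, w c} := by
    intro i a b c hab hac hbc ha hb hc
    exact nb3 (h3 i).le (hwA a) (hwA b) (hwA c) (ne hab) (ne hac) (ne hbc) (hG.adj ha)
      (hG.adj hb) (hG.adj hc)
  have n0 := full 0 2 3 4 (by decide) (by decide) (by decide) (by decide) (by decide) (by decide)
  have n1 := full 1 2 3 4 (by decide) (by decide) (by decide) (by decide) (by decide) (by decide)
  have n2 := full 2 0 1 7 (by decide) (by decide) (by decide) (by decide) (by decide) (by decide)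
  have n3 := full 3 0 1 8 (by decide) (by decide) (by decide) (by decide) (by decide) (by decide)
  have n5 := full 5 7 8 9 (by decide) (by decide) (by decide) (by decide) (by decide) (by decide)
  have n6 := full 6 7 8 9 (by decide) (by decide) (by decide) (by decide) (by decide) (by decide)
  have n7 := full 7 5 6 2 (by decide) (by decide) (by decide) (by decide) (by decide) (by decide)
  have n8 := full 8 5 6 3 (by decide) (by decide) (by decide) (by decide) (by decide) (by decide)
  have nd : ∀ i : Fin 10, (i = 4 ∨ i = 9) → w i ∉ dset w := by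
    intro i hi hh
    rw [mem_dset] at hh
    rcases hi with rfl | rfl
    · rcases hh with h | h | h | h | h | h | h | h <;> exact absurd h (ne (by decide))
    · rcases hh with h | h | h | h | h | h | h | h <;> exact absurd h (ne (by decide))
  have dm : ∀ i : Fin 10, i ≠ 4 → i ≠ 9 → w i ∈ dset w := by
    intro i h4 h9
    unfold dset
    apply mem_image_of_mem
    revert i
    decide
  -- exits have exactly one neighbour outside
  have exitc : ∀ (r a b : Fin 10), (r = 4 ∨ r = 9) → a ≠ b → ladj d10l r a = true →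
      ladj d10l r b = true →
      (∀ i : Fin 10, i ≠ 4 → i ≠ 9 → i ≠ a → i ≠ b → w r ∉ nb H A (w i)) → w a ∈ dset w →
      w b ∈ dset w → (nb H A (w r) \ dset w).card = 1 := by
    intro r a b hr hab ha hb hno hda hdb
    obtain ⟨c, hcA, hc, hca, hcb, hn⟩ := third (h3 r) (hwA a) (hwA b) (ne hab) (hG.adj ha)
      (hG.adj hb)
    have hcd : c ∉ dset w := by
      intro hh
      unfold dset at hh
      rw [mem_image] at hh
      obtain ⟨i, hi, hic⟩ := hh
      have hi4 : i ≠ 4 := by rintro rfl; exact absurd hi (by decide)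
      have hi9 : i ≠ 9 := by rintro rfl; exact absurd hi (by decide)
      have hia : i ≠ a := by rintro rfl; exact hca hic.symm
      have hib : i ≠ b := by rintro rfl; exact hcb hic.symm
      apply hno i hi4 hi9 hia hib
      rw [mem_nb, hic]
      exact ⟨hwA r, hc.symm⟩
    have : nb H A (w r) \ dset w = {c} := by
      ext y
      rw [mem_sdiff, hn, mem_singleton]
      simp only [mem_insert, mem_singleton]
      constructor
      · rintro ⟨h | h | h, h'⟩
        · exact absurd (h ▸ hda) h'
        · exact absurd (h ▸ hdb) h'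
        · exact h
      · rintro rfl
        exact ⟨Or.inr (Or.inr rfl), hcd⟩
    rw [this, card_singleton]
  refine
    { MA := ?_
      MQ := forall_dset (hwQ 0) (hwQ 1) (hwQ 2) (hwQ 3) (hwQ 5) (hwQ 6) (hwQ 7) (hwQ 8)
      rA := hwA 4
      rQ := hwQ 4
      rM := nd 4 (Or.inl rfl)
      sA := hwA 9
      sQ := hwQ 9
      sM := nd 9 (Or.inr rfl)
      rs := ne (by decide)
      out := ?_
      rM2 := ?_
      sM2 := ?_
      card := dset_card hG.1
      dgM := forall_dset (h3 0) (h3 1) (h3 2) (h3 3) (h3 5) (h3 6) (h3 7) (h3 8)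
      dgr := h3 4
      dgs := h3 9
      t0 := ?_
      tr := ?_
      ts := ?_ }
  · intro x hx
    rw [mem_dset] at hx
    rcases hx with h | h | h | h | h | h | h | h <;> rw [← h] <;> exact hwA _
  · have key : ∀ (i a b c : Fin 10), nb H A (w i) = {w a, w b, w c} → ∀ y ∈ A, y ∉ dset w →
        H.Adj (w i) y → y = w 4 ∨ y = w 9 := by
      intro i a b c hn y hy hyM ha
      have : ∀ j : Fin 10, y = w j → y = w 4 ∨ y = w 9 := by
        intro j hj
        by_cases h4 : j = 4
        · exact Or.inl (h4 ▸ hj)
        · by_cases h9 : j = 9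
          · exact Or.inr (h9 ▸ hj)
          · exact absurd (hj ▸ dm j h4 h9) hyM
      rcases mem_of_nb3 hn hy ha with g | g | g
      · exact this a g
      · exact this b g
      · exact this c g
    apply forall_dset
    · exact key 0 _ _ _ n0
    · exact key 1 _ _ _ n1
    · exact key 2 _ _ _ n2
    · exact key 3 _ _ _ n3
    · exact key 5 _ _ _ n5
    · exact key 6 _ _ _ n6
    · exact key 7 _ _ _ n7
    · exact key 8 _ _ _ n8
  · apply exitc 4 0 1 (Or.inl rfl) (by decide) (by decide) (by decide) ?_ (dm 0 (by decide)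
      (by decide)) (dm 1 (by decide) (by decide))
    intro i h4 h9 ha hb
    have hi : i = 2 ∨ i = 3 ∨ i = 5 ∨ i = 6 ∨ i = 7 ∨ i = 8 := by
      revert i; decide
    rcases hi with rfl | rfl | rfl | rfl | rfl | rfl
    · rw [n2]; simp only [mem_insert, mem_singleton, not_or]
      exact ⟨ne (by decide), ne (by decide), ne (by decide)⟩
    · rw [n3]; simp only [mem_insert, mem_singleton, not_or]
      exact ⟨ne (by decide), ne (by decide), ne (by decide)⟩
    · rw [n5]; simp only [mem_insert, mem_singleton, not_or]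
      exact ⟨ne (by decide), ne (by decide), ne (by decide)⟩
    · rw [n6]; simp only [mem_insert, mem_singleton, not_or]
      exact ⟨ne (by decide), ne (by decide), ne (by decide)⟩
    · rw [n7]; simp only [mem_insert, mem_singleton, not_or]
      exact ⟨ne (by decide), ne (by decide), ne (by decide)⟩
    · rw [n8]; simp only [mem_insert, mem_singleton, not_or]
      exact ⟨ne (by decide), ne (by decide), ne (by decide)⟩
  · apply exitc 9 5 6 (Or.inr rfl) (by decide) (by decide) (by decide) ?_ (dm 5 (by decide)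
      (by decide)) (dm 6 (by decide) (by decide))
    intro i h4 h9 ha hb
    have hi : i = 0 ∨ i = 1 ∨ i = 2 ∨ i = 3 ∨ i = 7 ∨ i = 8 := by
      revert i; decide
    rcases hi with rfl | rfl | rfl | rfl | rfl | rfl
    · rw [n0]; simp only [mem_insert, mem_singleton, not_or]
      exact ⟨ne (by decide), ne (by decide), ne (by decide)⟩
    · rw [n1]; simp only [mem_insert, mem_singleton, not_or]
      exact ⟨ne (by decide), ne (by decide), ne (by decide)⟩
    · rw [n2]; simp only [mem_insert, mem_singleton, not_or]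
      exact ⟨ne (by decide), ne (by decide), ne (by decide)⟩
    · rw [n3]; simp only [mem_insert, mem_singleton, not_or]
      exact ⟨ne (by decide), ne (by decide), ne (by decide)⟩
    · rw [n7]; simp only [mem_insert, mem_singleton, not_or]
      exact ⟨ne (by decide), ne (by decide), ne (by decide)⟩
    · rw [n8]; simp only [mem_insert, mem_singleton, not_or]
      exact ⟨ne (by decide), ne (by decide), ne (by decide)⟩
  · refine ⟨{w 2, w 8}, pair_sub (dm 2 (by decide) (by decide)) (dm 8 (by decide) (by decide)),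
      card_pair (ne (by decide)), ?_⟩
    apply forall_dset
    · exact Or.inr ⟨w 2, by simp, hG.adj (by decide)⟩
    · exact Or.inr ⟨w 2, by simp, hG.adj (by decide)⟩
    · left; simp
    · exact Or.inr ⟨w 8, by simp, hG.adj (by decide)⟩
    · exact Or.inr ⟨w 8, by simp, hG.adj (by decide)⟩
    · exact Or.inr ⟨w 8, by simp, hG.adj (by decide)⟩
    · exact Or.inr ⟨w 2, by simp, hG.adj (by decide)⟩
    · left; simp
  · refine ⟨{w 7, w 8}, pair_sub (dm 7 (by decide) (by decide)) (dm 8 (by decide) (by decide)),
      card_pair (ne (by decide)), ?_⟩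
    apply forall_dset
    · exact Or.inr ⟨w 4, by simp, hG.adj (by decide)⟩
    · exact Or.inr ⟨w 4, by simp, hG.adj (by decide)⟩
    · exact Or.inr ⟨w 7, by simp, hG.adj (by decide)⟩
    · exact Or.inr ⟨w 8, by simp, hG.adj (by decide)⟩
    · exact Or.inr ⟨w 7, by simp, hG.adj (by decide)⟩
    · exact Or.inr ⟨w 7, by simp, hG.adj (by decide)⟩
    · left; simp
    · left; simp
  · refine ⟨{w 2, w 3}, pair_sub (dm 2 (by decide) (by decide)) (dm 3 (by decide) (by decide)),
      card_pair (ne (by decide)), ?_⟩
    apply forall_dset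
    · exact Or.inr ⟨w 2, by simp, hG.adj (by decide)⟩
    · exact Or.inr ⟨w 2, by simp, hG.adj (by decide)⟩
    · left; simp
    · left; simp
    · exact Or.inr ⟨w 9, by simp, hG.adj (by decide)⟩
    · exact Or.inr ⟨w 9, by simp, hG.adj (by decide)⟩
    · exact Or.inr ⟨w 2, by simp, hG.adj (by decide)⟩
    · exact Or.inr ⟨w 3, by simp, hG.adj (by decide)⟩

end

end Pool.Agent.H94.Dom
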