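import Pool.Agent.Dom94.RedI

/-! Level 2: every decorated graph satisfying the invariant is good. -/

set_option linter.unusedSectionVars false
set_option linter.unusedVariables false

namespace Pool.Agent.H94.Dom

open Finset

section
variable {V : Type} [DecidableEq V]

theorem level2 (hL : DecLeaf V) (hC : DecCubic V) : ∀ (n : ℕ) (H : SimpleGraph V)
    (Q A : Finset V), A.card = n → Inv H Q A → Goal H Q A := by
  intro n
  induction n using Nat.strong_induction_on with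
  | _ n ih =>
    intro H Q A hn hI
    have ih' : ∀ H' : SimpleGraph V, ∀ Q' A', A'.card < A.card → Inv H' Q' A' → Goal H' Q' A' :=
      fun H' Q' A' hlt hI' => ih A'.card (hn ▸ hlt) H' Q' A' rfl hI'
    by_cases hG : ∃ w : Fin 7 → V, (∀ i, w i ∈ A \ Q) ∧ IsG7 H w
    · obtain ⟨w, hw, hG⟩ := hG
      exact hI.copy hw hG ih'
    by_cases hD : ∃ w : Fin 10 → V, (∀ i, w i ∈ A \ Q) ∧ IsD10 H w
    · obtain ⟨w, hw, hD⟩ := hD
      exact (hI.dm hw hD).reduce hI ih'
    have hdec : Dec H Q A :=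
      { deg := by
          intro v hv
          by_cases hvQ : v ∈ Q
          · rw [hI.degQ v hv hvQ]; norm_num
          · rcases hI.degO v hv hvQ with h | h | h <;> omega
        q2 := fun v hv hvQ => hI.degQ v hv hvQ
        g7 := fun w hw h => hG ⟨w, hw, h⟩
        d10 := fun w hw h => hD ⟨w, hw, h⟩ }
    by_cases hleaf : ∃ v ∈ A, v ∉ Q ∧ dg H A v = 1
    · apply Goal.of2
      apply hL H Q A hdec hI.conn _ hleaf
      · intro v hv hvQ hd
        rcases hI.degO v hv hvQ with h | h | ⟨_, h⟩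
        · omega
        · omega
        · exact h
      · obtain ⟨v, hv, _, hd⟩ := hleaf
        obtain ⟨u, hu⟩ := card_eq_one.1 hd
        have hu' : u ∈ nb H A v := by rw [hu]; simp
        rw [mem_nb] at hu'
        have hne : v ≠ u := fun hh => H.loopless.irrefl _ (hh ▸ hu'.2 : H.Adj v v)
        have := card_le_card (pair_sub hv hu'.1)
        rwa [card_pair hne] at this
    · refine ⟨hC H Q A hdec hI.conn hI.ne ?_, fun h => absurd h hleaf⟩
      intro v hv hvQ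
      rcases hI.degO v hv hvQ with h | h | ⟨_, u, hu, h⟩
      · exact h
      · exact absurd ⟨v, hv, hvQ, h⟩ hleaf
      · exfalso
        rw [mem_nb] at hu
        by_cases huQ : u ∈ Q
        · have := hI.degQ u hu.1 huQ
          omega
        · exact hleaf ⟨u, hu.1, huQ, h⟩

/-- Contraction data: `M` is contracted onto `c`. -/
structure CM (H : SimpleGraph V) (A M : Finset V) (c x0 x1 a0 a1 a2 : V) : Prop where
  MA : M ⊆ A
  cA : c ∈ A
  cM : c ∉ M
  x0M : x0 ∈ M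
  x1M : x1 ∈ M
  x01 : x0 ≠ x1
  a0A : a0 ∈ A
  a0M : a0 ∉ M
  a0c : a0 ≠ c
  a1A : a1 ∈ A
  a1M : a1 ∉ M
  a1c : a1 ≠ c
  a2A : a2 ∈ A
  a2M : a2 ∉ M
  a01 : a0 ≠ a1
  a02 : a0 ≠ a2
  a12 : a1 ≠ a2
  e0 : H.Adj x0 a0
  e1 : H.Adj x1 a1
  e2 : H.Adj c a2
  out : ∀ x ∈ M, ∀ y ∈ A, y ∉ M → H.Adj x y → y = c ∨ (x = x0 ∧ y = a0) ∨ (x = x1 ∧ y = a1)
  outc : ∀ y ∈ A, y ∉ M → H.Adj c y → y = a2
  card : M.card = 6
  t3 : ∀ x ∈ M, x = x0 ∨ x = x1 ∨ H.Adj x0 x ∨ H.Adj x1 x ∨ H.Adj c x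
  t0 : ∃ T ⊆ M, T.card = 2 ∧ (∃ u ∈ T, H.Adj u c) ∧ ∀ x ∈ M, x = x0 ∨ x ∈ T ∨ ∃ u ∈ T, H.Adj u x
  t1 : ∃ T ⊆ M, T.card = 2 ∧ (∃ u ∈ T, H.Adj u c) ∧ ∀ x ∈ M, x = x1 ∨ x ∈ T ∨ ∃ u ∈ T, H.Adj u x
  t2 : ∃ T ⊆ M, T.card = 2 ∧ ∀ x ∈ M, x ∈ T ∨ ∃ u ∈ T, H.Adj u x

variable {H : SimpleGraph V} {A M : Finset V} {c x0 x1 a0 a1 a2 : V}

/-- The new graph. -/
def cgr (H : SimpleGraph V) (c a0 a1 : V) : SimpleGraph V := addE (addE H c a0) c a1

theorem cgr_of {x y : V} (h : H.Adj x y) : (cgr H c a0 a1).Adj x y := Or.inl (Or.inl h)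

theorem cgr_iff {x y : V} (hx : x ≠ c) (hy : y ≠ c) : (cgr H c a0 a1).Adj x y ↔ H.Adj x y := by
  unfold cgr
  rw [addE_iff (fun h => hx h.1) (fun h => hy h.2), addE_iff (fun h => hx h.1) (fun h => hy h.2)]

theorem CM.adjc (h : CM H A M c x0 x1 a0 a1 a2) {y : V} (hy : y ∈ A) (hyM : y ∉ M) :
    (cgr H c a0 a1).Adj c y ↔ y = a0 ∨ y = a1 ∨ y = a2 := by
  unfold cgr
  rw [addE_adj, addE_adj]
  constructor
  · rintro ((g | ⟨_, g | g⟩) | ⟨_, g | g⟩)
    · exact Or.inr (Or.inr (h.outc y hy hyM g))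
    · exact Or.inl g.2
    · exact absurd g.1.symm h.a0c
    · exact Or.inr (Or.inl g.2)
    · exact absurd g.1.symm h.a1c
  · rintro (rfl | rfl | rfl)
    · exact Or.inl (Or.inr ⟨h.a0c.symm, Or.inl ⟨rfl, rfl⟩⟩)
    · exact Or.inr ⟨h.a1c.symm, Or.inl ⟨rfl, rfl⟩⟩
    · exact Or.inl (Or.inl h.e2)

theorem CM.conn (h : CM H A M c x0 x1 a0 a1 a2) (hc : Conn H A) :
    Conn (cgr H c a0 a1) (A \ M) := by
  intro X hX hne hne'
  have key : ∀ Y, Y ⊆ A \ M → ((A \ M) \ Y).Nonempty → c ∈ Y →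
      ∃ x ∈ Y, ∃ y ∈ (A \ M) \ Y, (cgr H c a0 a1).Adj x y := by
    intro Y hY hYn hp
    obtain ⟨z, hz⟩ := hYn
    rw [mem_sdiff, mem_sdiff] at hz
    obtain ⟨x, hx, y, hy, ha⟩ := hc (Y ∪ M) (union_subset (hY.trans sdiff_subset) h.MA)
      ⟨c, mem_union_left _ hp⟩ ⟨z, by
        rw [mem_sdiff, mem_union]
        exact ⟨hz.1.1, fun hh => hh.elim hz.2 hz.1.2⟩⟩
    rw [mem_sdiff, mem_union, not_or] at hy
    obtain ⟨hyA, hyY, hyM⟩ := hy
    have hyR : y ∈ (A \ M) \ Y := mem_sdiff.2 ⟨mem_sdiff.2 ⟨hyA, hyM⟩, hyY⟩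
    rcases mem_union.1 hx with hx | hx
    · exact ⟨x, hx, y, hyR, cgr_of ha⟩
    · rcases h.out x hx y hyA hyM ha with h1 | ⟨_, h1⟩ | ⟨_, h1⟩
      · exact absurd (h1 ▸ hp) hyY
      · exact ⟨c, hp, y, hyR, (h.adjc hyA hyM).2 (Or.inl h1)⟩
      · exact ⟨c, hp, y, hyR, (h.adjc hyA hyM).2 (Or.inr (Or.inl h1))⟩
  by_cases hp : c ∈ X
  · exact key X hX hne' hp
  · have h1 : (A \ M) \ ((A \ M) \ X) = X := by
      exact Finset.sdiff_sdiff_eq_self hX
    obtain ⟨x, hx, y, hy, ha⟩ := key ((A \ M) \ X) sdiff_subset (by rw [h1]; exact hne)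
      (mem_sdiff.2 ⟨mem_sdiff.2 ⟨h.cA, h.cM⟩, hp⟩)
    rw [h1] at hy
    exact ⟨y, hy, x, hx, ha.symm⟩

/-- Degrees after the contraction. -/
theorem CM.deg (h : CM H A M c x0 x1 a0 a1 a2) (h3 : ∀ v ∈ A, dg H A v = 3) :
    ∀ v ∈ A \ M, dg (cgr H c a0 a1) (A \ M) v = 3 := by
  intro x hx
  rw [mem_sdiff] at hx
  by_cases hxc : x = c
  · subst hxc
    have : nb (cgr H x a0 a1) (A \ M) x = {a0, a1, a2} := by
      ext y
      rw [mem_nb, mem_sdiff]
      simp only [mem_insert, mem_singleton]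
      constructor
      · rintro ⟨⟨g1, g2⟩, g3⟩
        exact (h.adjc g1 g2).1 g3
      · rintro (rfl | rfl | rfl)
        · exact ⟨⟨h.a0A, h.a0M⟩, (h.adjc h.a0A h.a0M).2 (Or.inl rfl)⟩
        · exact ⟨⟨h.a1A, h.a1M⟩, (h.adjc h.a1A h.a1M).2 (Or.inr (Or.inl rfl))⟩
        · exact ⟨⟨h.a2A, h.a2M⟩, (h.adjc h.a2A h.a2M).2 (Or.inr (Or.inr rfl))⟩
    unfold dg
    rw [this, card_insert_of_notMem (by simp [h.a01, h.a02]),
      card_insert_of_notMem (by simp [h.a12]), card_singleton]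
  · have hno : ¬ H.Adj x c ∨ x = a2 := by
      by_cases g : H.Adj x c
      · exact Or.inr (h.outc x hx.1 hx.2 g.symm)
      · exact Or.inl g
    have key : ∀ e, e ∈ M → (∀ y ∈ M, H.Adj x y ↔ y = e) → ¬ H.Adj x c →
        (cgr H c a0 a1).Adj x c → dg (cgr H c a0 a1) (A \ M) x = 3 := by
      intro e he hM hnc hc
      have h1 := dg_sdiff_card (H := H) h.MA x
      have h2 : dg H M x = 1 := by
        unfold dg
        rw [card_eq_one]
        refine ⟨e, ?_⟩
        ext y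
        rw [mem_nb, mem_singleton]
        constructor
        · rintro ⟨g1, g2⟩
          exact (hM y g1).1 g2
        · rintro rfl
          exact ⟨he, (hM y he).2 rfl⟩
      rw [h2, h3 x hx.1] at h1
      have h4 : nb (cgr H c a0 a1) (A \ M) x = insert c (nb H (A \ M) x) := by
        ext y
        rw [mem_insert, mem_nb, mem_nb]
        by_cases hyc : y = c
        · subst hyc
          exact ⟨fun _ => Or.inl rfl, fun _ => ⟨mem_sdiff.2 ⟨h.cA, h.cM⟩, hc⟩⟩
        · rw [cgr_iff hxc hyc]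
          exact ⟨fun g => Or.inr g, fun g => g.resolve_left hyc⟩
      unfold dg at h1 ⊢
      rw [h4, card_insert_of_notMem (by
        rw [mem_nb]
        rintro ⟨_, g⟩
        exact hnc g)]
      omega
    by_cases hx0 : x = a0
    · subst hx0
      apply key x0 h.x0M _ _ ((h.adjc hx.1 hx.2).2 (Or.inl rfl)).symm
      · intro y hy
        constructor
        · intro g
          rcases h.out y hy x hx.1 hx.2 g.symm with g1 | ⟨g1, _⟩ | ⟨_, g1⟩
          · exact absurd g1 hxc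
          · exact g1
          · exact absurd g1 h.a01
        · rintro rfl
          exact h.e0.symm
      · intro g
        exact h.a02 (h.outc x hx.1 hx.2 g.symm)
    by_cases hx1 : x = a1
    · subst hx1
      apply key x1 h.x1M _ _ ((h.adjc hx.1 hx.2).2 (Or.inr (Or.inl rfl))).symm
      · intro y hy
        constructor
        · intro g
          rcases h.out y hy x hx.1 hx.2 g.symm with g1 | ⟨_, g1⟩ | ⟨g1, _⟩
          · exact absurd g1 hxc
          · exact absurd g1.symm h.a01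
          · exact g1
        · rintro rfl
          exact h.e1.symm
      · intro g
        exact h.a12 (h.outc x hx.1 hx.2 g.symm)
    · rw [← h3 x hx.1]
      have h1 : ∀ y ∈ M, ¬ H.Adj x y := by
        intro y hy g
        rcases h.out y hy x hx.1 hx.2 g.symm with g1 | ⟨_, g1⟩ | ⟨_, g1⟩
        · exact hxc g1
        · exact hx0 g1
        · exact hx1 g1
      rw [← dg_sdiff h1]
      unfold dg
      congr 1
      ext y
      rw [mem_nb, mem_nb]
      by_cases hyc : y = c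
      · subst hyc
        constructor
        · rintro ⟨g1, g2⟩
          rcases (h.adjc hx.1 hx.2).1 g2.symm with g | g | g
          · exact absurd g hx0
          · exact absurd g hx1
          · exact ⟨g1, by rw [g]; exact h.e2.symm⟩
        · rintro ⟨g1, g2⟩
          exact ⟨g1, cgr_of g2⟩
      · rw [cgr_iff hxc hyc]

/-- Transfer of dominating sets. -/
theorem CM.dom (h : CM H A M c x0 x1 a0 a1 a2) {D : Finset V}
    (hD : DomQ (cgr H c a0 a1) ∅ (A \ M) ∅ D) : ∃ D', DomQ H ∅ A ∅ D' ∧ D'.card ≤ D.card + 2 := by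
  obtain ⟨hD, hdom⟩ := hD
  have hDA : D ⊆ A := hD.trans sdiff_subset
  have outside : ∀ T ⊆ M, T.card = 2 → (∀ x ∈ M, x ∈ T ∨ ∃ u ∈ D ∪ T, H.Adj u x) →
      (c ∈ D → x0 ∈ T ∧ x1 ∈ T) → (c ∉ D → ∃ u ∈ D ∪ T, H.Adj u c) →
      ∃ D', DomQ H ∅ A ∅ D' ∧ D'.card ≤ D.card + 2 := by
    intro T hT hc hM hcD hcn
    refine ⟨D ∪ T, ⟨union_subset hDA (hT.trans h.MA), ?_⟩,
      (card_union_le _ _).trans (by rw [hc])⟩
    intro x hx
    by_cases hxM : x ∈ M
    · rcases hM x hxM with g | g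
      · exact Or.inl (mem_union_right _ g)
      · exact Or.inr (Or.inr (Or.inl ⟨by simp, g⟩))
    · by_cases hxc : x = c
      · subst hxc
        by_cases hxD : x ∈ D
        · exact Or.inl (mem_union_left _ hxD)
        · exact Or.inr (Or.inr (Or.inl ⟨by simp, hcn hxD⟩))
      · rcases hdom x (mem_sdiff.2 ⟨hx, hxM⟩) with g1 | g1 | ⟨g1, ⟨u, hu, ha⟩⟩ | ⟨g1, _⟩
        · exact Or.inl (mem_union_left _ g1)
        · simp at g1
        · refine Or.inr (Or.inr (Or.inl ⟨by simp, ?_⟩))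
          by_cases huc : u = c
          · subst huc
            rcases (h.adjc hx hxM).1 ha with g | g | g
            · rw [g]; exact ⟨x0, mem_union_right _ (hcD hu).1, h.e0⟩
            · rw [g]; exact ⟨x1, mem_union_right _ (hcD hu).2, h.e1⟩
            · rw [g]; exact ⟨u, mem_union_left _ hu, h.e2⟩
          · rw [cgr_iff huc hxc] at ha
            exact ⟨u, mem_union_left _ hu, ha⟩
        · simp at g1
  by_cases hcD : c ∈ D
  · refine outside {x0, x1} (pair_sub h.x0M h.x1M) (card_pair h.x01) ?_ (fun _ => by simp)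
      (fun hh => absurd hcD hh)
    intro x hx
    rcases h.t3 x hx with g | g | g | g | g
    · left; simp [g]
    · left; simp [g]
    · exact Or.inr ⟨x0, mem_union_right _ (by simp), g⟩
    · exact Or.inr ⟨x1, mem_union_right _ (by simp), g⟩
    · exact Or.inr ⟨c, mem_union_left _ hcD, g⟩
  · have : ∃ u ∈ D, (cgr H c a0 a1).Adj u c := by
      rcases hdom c (mem_sdiff.2 ⟨h.cA, h.cM⟩) with g1 | g1 | ⟨_, g⟩ | ⟨g1, _⟩
      · exact absurd g1 hcD
      · simp at g1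
      · exact g
      · simp at g1
    obtain ⟨u, hu, ha⟩ := this
    have huR := mem_sdiff.1 (hD hu)
    rcases (h.adjc huR.1 huR.2).1 ha.symm with g | g | g
    · subst g
      obtain ⟨T, hT, hc, ⟨z, hz, hzc⟩, hTd⟩ := h.t0
      refine outside T hT hc ?_ (fun hh => absurd hh hcD)
        (fun _ => ⟨z, mem_union_right _ hz, hzc⟩)
      intro x hx
      rcases hTd x hx with g | g | ⟨z, hz, ha⟩
      · rw [g]; exact Or.inr ⟨u, mem_union_left _ hu, h.e0.symm⟩
      · exact Or.inl g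
      · exact Or.inr ⟨z, mem_union_right _ hz, ha⟩
    · subst g
      obtain ⟨T, hT, hc, ⟨z, hz, hzc⟩, hTd⟩ := h.t1
      refine outside T hT hc ?_ (fun hh => absurd hh hcD)
        (fun _ => ⟨z, mem_union_right _ hz, hzc⟩)
      intro x hx
      rcases hTd x hx with g | g | ⟨z, hz, ha⟩
      · rw [g]; exact Or.inr ⟨u, mem_union_left _ hu, h.e1.symm⟩
      · exact Or.inl g
      · exact Or.inr ⟨z, mem_union_right _ hz, ha⟩
    · subst g
      obtain ⟨T, hT, hc, hTd⟩ := h.t2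
      refine outside T hT hc ?_ (fun hh => absurd hh hcD)
        (fun _ => ⟨u, mem_union_left _ hu, h.e2.symm⟩)
      intro x hx
      rcases hTd x hx with g | ⟨z, hz, ha⟩
      · exact Or.inl g
      · exact Or.inr ⟨z, mem_union_right _ hz, ha⟩

end

end Pool.Agent.H94.Dom
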