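import Pool.Agent.Dom94.RedJ

/-! Level 1: the contraction of a copy of `G7` with three distinct outer neighbours, and the
bound for cubic graphs. -/

set_option linter.unusedSectionVars false
set_option linter.unusedVariables false

namespace Pool.Agent.H94.Dom

open Finset

section
variable {V : Type} [DecidableEq V] {H : SimpleGraph V} {A : Finset V} {w : Fin 7 → V}
  {a0 a1 a2 : V}

/-- Removed vertices of a copy. -/
def mset (w : Fin 7 → V) : Finset V := ({0, 1, 3, 4, 5, 6} : Finset (Fin 7)).image w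

theorem mem_mset {x : V} : x ∈ mset w ↔
    w 0 = x ∨ w 1 = x ∨ w 3 = x ∨ w 4 = x ∨ w 5 = x ∨ w 6 = x := by
  simp only [mset, image_insert, image_singleton, mem_insert, mem_singleton]
  simp only [eq_comm]

theorem forall_mset {P : V → Prop} (h0 : P (w 0)) (h1 : P (w 1)) (h3 : P (w 3))
    (h4 : P (w 4)) (h5 : P (w 5)) (h6 : P (w 6)) : ∀ x ∈ mset w, P x := by
  intro x hx
  rcases mem_mset.1 hx with h | h | h | h | h | h <;> rw [← h] <;> assumption

theorem mset_mem (i : Fin 7) (hi : i ≠ 2) : w i ∈ mset w := by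
  unfold mset
  apply mem_image_of_mem
  revert i
  decide

theorem mset_sub : mset w ⊆ wset w := by
  intro x hx
  rw [mem_mset] at hx
  rw [mem_wset]
  rcases hx with h | h | h | h | h | h
  · exact ⟨0, h⟩
  · exact ⟨1, h⟩
  · exact ⟨3, h⟩
  · exact ⟨4, h⟩
  · exact ⟨5, h⟩
  · exact ⟨6, h⟩

theorem GD.cm (h : GD H A w a0 a1 a2) (h01 : a0 ≠ a1) (h02 : a0 ≠ a2) (h12 : a1 ≠ a2) :
    CM H A (mset w) (w 2) (w 0) (w 1) a0 a1 a2 := by
  obtain ⟨A01, A03, A14, A25, A26, A35, A36, A45, A46⟩ := h.adjs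
  have na : ∀ a, (∀ i, w i ≠ a) → a ∉ mset w := by
    intro a ha hh
    obtain ⟨i, hi⟩ := mem_wset.1 (mset_sub hh)
    exact ha i hi
  have nwset : ∀ a, (∀ i, w i ≠ a) → a ∉ wset w := by
    intro a ha hh
    obtain ⟨i, hi⟩ := mem_wset.1 hh
    exact ha i hi
  have in_out : ∀ y, y ∉ mset w → y ∉ wset w ∨ y = w 2 := by
    intro y hy
    by_cases g : y ∈ wset w
    · obtain ⟨i, hi⟩ := mem_wset.1 g
      by_cases hi2 : i = 2
      · right; rw [← hi, hi2]
      · exact absurd (hi ▸ mset_mem i hi2) hy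
    · exact Or.inl g
  refine
    { MA := mset_sub.trans h.wsub
      cA := h.wA 2
      cM := ?_
      x0M := mset_mem 0 (by decide)
      x1M := mset_mem 1 (by decide)
      x01 := h.inj' (by decide)
      a0A := h.m0.1
      a0M := na _ h.m0.2.2
      a0c := (h.m0.2.2 2).symm
      a1A := h.m1.1
      a1M := na _ h.m1.2.2
      a1c := (h.m1.2.2 2).symm
      a2A := h.m2.1
      a2M := na _ h.m2.2.2
      a01 := h01
      a02 := h02
      a12 := h12
      e0 := h.m0.2.1
      e1 := h.m1.2.1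
      e2 := h.m2.2.1
      out := ?_
      outc := ?_
      card := ?_
      t3 := ?_
      t0 := ?_
      t1 := ?_
      t2 := ?_ }
  · intro hh
    rw [mem_mset] at hh
    rcases hh with g | g | g | g | g | g <;> exact absurd g (h.inj' (by decide))
  · intro x hx y hy hyM ha
    rcases in_out y hyM with g | g
    · obtain ⟨i, rfl⟩ := mem_wset.1 (mset_sub hx)
      rcases h.out hy g i ha with ⟨g1, g2⟩ | ⟨g1, g2⟩ | ⟨g1, g2⟩
      · exact Or.inr (Or.inl ⟨by rw [g1], g2⟩)
      · exact Or.inr (Or.inr ⟨by rw [g1], g2⟩)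
      · exfalso
        rw [g1] at hx
        rw [mem_mset] at hx
        rcases hx with g | g | g | g | g | g <;> exact absurd g (h.inj' (by decide))
    · exact Or.inl g
  · intro y hy hyM ha
    rcases in_out y hyM with g | g
    · rcases h.out hy g 2 ha with ⟨g1, _⟩ | ⟨g1, _⟩ | ⟨_, g2⟩
      · exact absurd g1 (by decide)
      · exact absurd g1 (by decide)
      · exact g2
    · exact absurd (g ▸ ha) (H.loopless.irrefl _)
  · unfold mset
    rw [card_image_of_injective _ h.inj]
    rfl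
  · apply forall_mset
    · exact Or.inl rfl
    · exact Or.inr (Or.inl rfl)
    · exact Or.inr (Or.inr (Or.inl A03))
    · exact Or.inr (Or.inr (Or.inr (Or.inl A14)))
    · exact Or.inr (Or.inr (Or.inr (Or.inr A25)))
    · exact Or.inr (Or.inr (Or.inr (Or.inr A26)))
  · refine ⟨{w 4, w 5}, pair_sub (mset_mem 4 (by decide)) (mset_mem 5 (by decide)),
      card_pair (h.inj' (by decide)), ⟨w 5, by simp, A25.symm⟩, ?_⟩
    apply forall_mset
    · exact Or.inl rfl
    · exact Or.inr (Or.inr ⟨w 4, by simp, A14.symm⟩)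
    · exact Or.inr (Or.inr ⟨w 5, by simp, A35.symm⟩)
    · right; left; simp
    · right; left; simp
    · exact Or.inr (Or.inr ⟨w 4, by simp, A46⟩)
  · refine ⟨{w 3, w 5}, pair_sub (mset_mem 3 (by decide)) (mset_mem 5 (by decide)),
      card_pair (h.inj' (by decide)), ⟨w 5, by simp, A25.symm⟩, ?_⟩
    apply forall_mset
    · exact Or.inr (Or.inr ⟨w 3, by simp, A03.symm⟩)
    · exact Or.inl rfl
    · right; left; simp
    · exact Or.inr (Or.inr ⟨w 5, by simp, A45.symm⟩)
    · right; left; simp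
    · exact Or.inr (Or.inr ⟨w 3, by simp, A36⟩)
  · refine ⟨{w 3, w 4}, pair_sub (mset_mem 3 (by decide)) (mset_mem 4 (by decide)),
      card_pair (h.inj' (by decide)), ?_⟩
    apply forall_mset
    · exact Or.inr ⟨w 3, by simp, A03.symm⟩
    · exact Or.inr ⟨w 4, by simp, A14.symm⟩
    · left; simp
    · left; simp
    · exact Or.inr ⟨w 3, by simp, A35⟩
    · exact Or.inr ⟨w 3, by simp, A36⟩

/-- The bound for connected cubic graphs. -/
theorem cubic16 (hL : DecLeaf V) (hC : DecCubic V) : ∀ (n : ℕ) (H : SimpleGraph V)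
    (A : Finset V), A.card = n → A.Nonempty → Conn H A → (∀ v ∈ A, dg H A v = 3) →
    ∃ D, DomQ H ∅ A ∅ D ∧ 20 * D.card ≤ 7 * A.card + 16 := by
  intro n
  induction n using Nat.strong_induction_on with
  | _ n ih =>
    intro H A hn hne hc h3
    by_cases hG : ∃ w : Fin 7 → V, (∀ i, w i ∈ A) ∧ IsG7 H w ∧ ∃ a0 a1 a2, GD H A w a0 a1 a2 ∧
        a0 ≠ a1 ∧ a0 ≠ a2 ∧ a1 ≠ a2
    · obtain ⟨w, hw, hG, a0, a1, a2, hD, h01, h02, h12⟩ := hG
      have hM := hD.cm h01 h02 h12
      have hcard : (A \ mset w).card + 6 = A.card := by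
        have := card_sdiff_add_card_eq_card hM.MA
        rw [hM.card] at this
        exact this
      obtain ⟨D, hD1, hD2⟩ := ih (A \ mset w).card (by omega) (cgr H (w 2) a0 a1) (A \ mset w) rfl
        ⟨w 2, mem_sdiff.2 ⟨hM.cA, hM.cM⟩⟩ (hM.conn hc) (hM.deg h3)
      obtain ⟨D', g1, g2⟩ := hM.dom hD1
      refine ⟨D', g1, ?_⟩
      omega
    · have hI : Inv H ∅ A := by
        refine ⟨hne, hc, fun v _ hv => absurd hv (by simp), fun v hv _ => Or.inl (h3 v hv), ?_⟩
        intro w hw hG7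
        have hwA : ∀ i, w i ∈ A := fun i => (mem_sdiff.1 (hw i)).1
        obtain ⟨a0, a1, a2, hD⟩ := hG7.data hwA (fun i => h3 _ (hwA i))
        by_cases h01 : a0 = a1
        · subst h01
          exact ⟨a0, by simp [hD.m0.1], hD.m0.2.2, 0, 1, by decide, by decide, by decide,
            hD.m0.2.1.symm, hD.m1.2.1.symm⟩
        by_cases h02 : a0 = a2
        · subst h02
          exact ⟨a0, by simp [hD.m0.1], hD.m0.2.2, 0, 2, by decide, by decide, by decide,
            hD.m0.2.1.symm, hD.m2.2.1.symm⟩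
        by_cases h12 : a1 = a2
        · subst h12
          exact ⟨a1, by simp [hD.m1.1], hD.m1.2.2, 1, 2, by decide, by decide, by decide,
            hD.m1.2.1.symm, hD.m2.2.1.symm⟩
        · exact absurd ⟨w, hwA, hG7, a0, a1, a2, hD, h01, h02, h12⟩ hG
      obtain ⟨D, hD1, hD2⟩ := (level2 hL hC n H ∅ A hn hI).1
      refine ⟨D, hD1, ?_⟩
      have hphi : PhiQ H ∅ A = 7 * A.card := by
        unfold PhiQ
        rw [sum_congr rfl (g := fun _ => (7 : ℤ))]
        · rw [sum_const]; simp; ring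
        · intro x hx
          rw [if_neg (by simp), h3 x hx]; rfl
      rw [hphi] at hD2
      exact_mod_cast hD2

end

end Pool.Agent.H94.Dom
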