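import Pool.Agent.Dom94.RedK
import Pool.Agent.Dom94.Assembly

/-! The sharp upper bound from the two statements about decorated graphs. -/

set_option linter.unusedSectionVars false
set_option linter.unusedVariables false

namespace Pool.Agent.H94.Dom

open Finset

theorem conn_univ {n : ℕ} {G : SimpleGraph (Fin n)} (hG : G.Connected) :
    Conn G (univ : Finset (Fin n)) := by
  intro X _ hX hX'
  obtain ⟨a, ha⟩ := hX
  obtain ⟨b, hb⟩ := hX'
  obtain ⟨p⟩ := hG.preconnected a b
  by_contra hcon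
  push Not at hcon
  have : ∀ {x y : Fin n}, G.Walk x y → x ∈ X → y ∈ X := by
    intro x y p
    induction p with
    | nil => exact fun h => h
    | cons h _ ih =>
      intro hx
      apply ih
      by_contra hy
      exact hcon _ hx _ (mem_sdiff.2 ⟨mem_univ _, hy⟩) h
  exact (mem_sdiff.1 hb).2 (this p ha)

theorem dg_univ {n : ℕ} {G : SimpleGraph (Fin n)} (h : IsCubic G) (v : Fin n) :
    dg G (univ : Finset (Fin n)) v = 3 := by
  have h1 := h v
  unfold dg
  rw [← h1, ← Set.ncard_coe_finset]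
  congr 1
  ext u
  simp [nb]

/-- Upper bound. -/
theorem upper16 (hL : ∀ n, DecLeaf (Fin n)) (hC : ∀ n, DecCubic (Fin n)) (n : ℕ)
    (G : SimpleGraph (Fin n)) (hG : G.Connected) (hc : IsCubic G) :
    ∃ D : Finset (Fin n), IsDominating G D ∧ 20 * D.card ≤ 7 * n + 16 := by
  have hne : (univ : Finset (Fin n)).Nonempty := by
    obtain ⟨v⟩ := hG.nonempty
    exact ⟨v, mem_univ v⟩
  obtain ⟨D, ⟨_, h1⟩, h2⟩ := cubic16 (hL n) (hC n) n G univ (by simp) hne (conn_univ hG)
    (fun v _ => dg_univ hc v)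
  refine ⟨D, ?_, by simpa using h2⟩
  intro v
  rcases h1 v (mem_univ v) with g | g | ⟨_, u, hu, ha⟩ | ⟨g, _⟩
  · exact Or.inl g
  · simp at g
  · exact Or.inr ⟨u, hu, ha.symm⟩
  · simp at g

/-- The sharp bound from the two statements about decorated graphs. -/
theorem final (hL : ∀ n, DecLeaf (Fin n)) (hC : ∀ n, DecCubic (Fin n)) :
    (∀ n : ℕ, f n ≤ (7 * n + 16) / 20) ∧
    (∀ k : ℕ, 1 ≤ k → f (20 * k) = (7 * (20 * k) + 16) / 20 ∧ f (20 * k) = 7 * k) :=
  sharp 16 (by norm_num) (upper16 hL hC)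

end Pool.Agent.H94.Dom
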