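import Pool.Agent.Dom94.Block

/-! The rings are cubic and connected; transfer to `Fin n`. -/

namespace Pool.Agent.H94.Dom

theorem ring_nb_gen (k : ℕ) (i : Fin (k + 1)) (a : Fin 20) (ha : 2 ≤ a.val) :
    (ring k).neighborSet (i, a) = (fun b => (i, b)) '' {b | blk a b = true} := by
  ext ⟨j, b⟩
  constructor
  · rintro (⟨h1, h2⟩ | ⟨-, h2, -⟩ | ⟨-, h2, -⟩)
    · exact ⟨b, h2, Prod.ext h1 rfl⟩
    · exact absurd (show 2 ≤ (0 : Fin 20).val from h2 ▸ ha) (by decide)
    · exact absurd (show 2 ≤ (1 : Fin 20).val from h2 ▸ ha) (by decide)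
  · rintro ⟨c, hc, hcb⟩
    have h1 : i = j := congrArg Prod.fst hcb
    have h2 : c = b := congrArg Prod.snd hcb
    exact Or.inl ⟨h1, by rw [← h2]; exact hc⟩

theorem ring_nb_zero (k : ℕ) (i : Fin (k + 1)) :
    (ring k).neighborSet (i, 0) =
      insert (i + 1, 1) ((fun b => (i, b)) '' {b | blk 0 b = true}) := by
  ext ⟨j, b⟩
  constructor
  · rintro (⟨h1, h2⟩ | ⟨h1, -, h3⟩ | ⟨-, h2, -⟩)
    · exact Or.inr ⟨b, h2, Prod.ext h1 rfl⟩
    · exact Or.inl (Prod.ext h1 h3)
    · exact absurd (show (0 : Fin 20) = 1 from h2) (by decide)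
  · rintro (h | ⟨c, hc, hcb⟩)
    · exact Or.inr (Or.inl ⟨congrArg Prod.fst h, rfl, congrArg Prod.snd h⟩)
    · have h1 : i = j := congrArg Prod.fst hcb
      have h2 : c = b := congrArg Prod.snd hcb
      exact Or.inl ⟨h1, by rw [← h2]; exact hc⟩

theorem ring_nb_one (k : ℕ) (i : Fin (k + 1)) :
    (ring k).neighborSet (i, 1) =
      insert (i - 1, 0) ((fun b => (i, b)) '' {b | blk 1 b = true}) := by
  ext ⟨j, b⟩
  constructor
  · rintro (⟨h1, h2⟩ | ⟨-, h2, -⟩ | ⟨h1, -, h3⟩)
    · exact Or.inr ⟨b, h2, Prod.ext h1 rfl⟩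
    · exact absurd (show (1 : Fin 20) = 0 from h2) (by decide)
    · refine Or.inl (Prod.ext ?_ h3)
      show j = i - 1
      have h1' : i = j + 1 := h1
      rw [h1', add_sub_cancel_right]
  · rintro (h | ⟨c, hc, hcb⟩)
    · refine Or.inr (Or.inr ⟨?_, rfl, congrArg Prod.snd h⟩)
      have h1 : j = i - 1 := congrArg Prod.fst h
      show i = j + 1
      rw [h1, sub_add_cancel]
    · have h1 : i = j := congrArg Prod.fst hcb
      have h2 : c = b := congrArg Prod.snd hcb
      exact Or.inl ⟨h1, by rw [← h2]; exact hc⟩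

theorem image_ncard (k : ℕ) (i : Fin (k + 1)) (a : Fin 20) :
    ((fun b => (i, b)) '' {b | blk a b = true}).ncard =
      (Finset.univ.filter (fun b => blk a b = true)).card := by
  rw [Set.ncard_image_of_injective _ (fun x y h => congrArg Prod.snd h)]
  rw [← Set.ncard_coe_finset]
  congr 1
  ext b
  simp

theorem blk_deg : ∀ a : Fin 20, (Finset.univ.filter (fun b => blk a b = true)).card =
    if a.val < 2 then 2 else 3 := by decide

theorem ring_cubic (k : ℕ) : IsCubic (ring k) := by
  rintro ⟨i, a⟩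
  by_cases ha : 2 ≤ a.val
  · rw [ring_nb_gen k i a ha, image_ncard, blk_deg, if_neg (by omega)]
  · have ha' : a = 0 ∨ a = 1 := by
      rcases a with ⟨a, h20⟩
      have : a = 0 ∨ a = 1 := by
        have : ¬ 2 ≤ a := ha
        omega
      rcases this with rfl | rfl
      · exact Or.inl rfl
      · exact Or.inr rfl
    rcases ha' with rfl | rfl
    · rw [ring_nb_zero, Set.ncard_insert_of_notMem, image_ncard, blk_deg]
      · rfl
      · rintro ⟨c, hc, hcb⟩
        have h2 : c = 1 := congrArg Prod.snd hcb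
        rw [h2] at hc
        exact absurd hc (by decide)
    · rw [ring_nb_one, Set.ncard_insert_of_notMem, image_ncard, blk_deg]
      · rfl
      · rintro ⟨c, hc, hcb⟩
        have h2 : c = 0 := congrArg Prod.snd hcb
        rw [h2] at hc
        exact absurd hc (by decide)

/-- A parent function for a spanning tree of the block rooted at `3`. -/
def par : Fin 20 → Fin 20 :=
  ![3, 3, 3, 3, 0, 4, 2, 5, 5, 4, 9, 6, 1, 12, 2, 13, 13, 12, 17, 14]

theorem par_blk : ∀ a : Fin 20, a = 3 ∨ blk a (par a) = true := by decide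

theorem par_iter : ∀ a : Fin 20, par (par (par (par a))) = 3 := by decide

theorem reach_par (k : ℕ) (i : Fin (k + 1)) (a : Fin 20) :
    (ring k).Reachable (i, a) (i, par a) := by
  rcases par_blk a with h | h
  · have : par a = a := by rw [h]; rfl
    rw [this]
  · exact SimpleGraph.Adj.reachable (Or.inl ⟨rfl, h⟩)

theorem reach_three (k : ℕ) (i : Fin (k + 1)) (a : Fin 20) :
    (ring k).Reachable (i, a) (i, 3) := by
  have h := (((reach_par k i a).trans (reach_par k i (par a))).trans
    (reach_par k i (par (par a)))).trans (reach_par k i (par (par (par a))))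
  rw [par_iter] at h
  exact h

theorem reach_succ (k : ℕ) (i : Fin (k + 1)) : (ring k).Reachable (i, 3) (i + 1, 3) := by
  refine ((reach_three k i 0).symm.trans ?_).trans (reach_three k (i + 1) 1)
  exact SimpleGraph.Adj.reachable (Or.inr (Or.inl ⟨rfl, rfl, rfl⟩))

theorem reach_all (k : ℕ) (n : ℕ) : ∀ i : Fin (k + 1), i.val = n →
    (ring k).Reachable (0, 3) (i, 3) := by
  induction n with
  | zero =>
    intro i hi
    have : i = 0 := Fin.ext hi
    rw [this]
  | succ n ih =>
    intro i hi
    have hlt : n < k + 1 := by have := i.isLt; omega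
    have h := (ih ⟨n, hlt⟩ rfl).trans (reach_succ k ⟨n, hlt⟩)
    have he : (⟨n, hlt⟩ : Fin (k + 1)) + 1 = i := by
      apply Fin.ext
      rw [Fin.val_add, Fin.val_one', hi]
      have h1 := i.isLt
      rw [Nat.add_mod_mod]
      exact Nat.mod_eq_of_lt (show n + 1 < k + 1 by omega)
    rw [he] at h
    exact h

theorem ring_connected (k : ℕ) : (ring k).Connected := by
  have : Nonempty (Fin (k + 1) × Fin 20) := ⟨(0, 0)⟩
  refine ⟨?_⟩
  rintro ⟨i, a⟩ ⟨j, b⟩
  exact ((reach_three k i a).trans (reach_all k i.val i rfl).symm).trans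
    ((reach_all k j.val j rfl).trans (reach_three k j b).symm)

/-! ### Transfer along a bijection -/

theorem iso_cubic {V W : Type*} {G : SimpleGraph V} {H : SimpleGraph W} (e : G ≃g H)
    (h : IsCubic G) : IsCubic H := by
  intro w
  have : H.neighborSet w = e '' G.neighborSet (e.symm w) := by
    ext u
    constructor
    · intro hu
      refine ⟨e.symm u, ?_, e.apply_symm_apply u⟩
      exact e.symm.map_adj_iff.mpr hu
    · rintro ⟨v, hv, rfl⟩
      have h1 : G.Adj (e.symm w) v := hv
      have h2 := e.map_adj_iff.mpr h1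
      rw [e.apply_symm_apply] at h2
      exact h2
  rw [this, Set.ncard_image_of_injective _ e.injective]
  exact h _

theorem iso_dominating {V W : Type*} [DecidableEq V] {G : SimpleGraph V} {H : SimpleGraph W}
    (e : G ≃g H) (D : Finset W) (h : IsDominating H D) :
    IsDominating G (D.map e.symm.toEquiv.toEmbedding) := by
  intro v
  rcases h (e v) with h1 | ⟨u, hu, hadj⟩
  · left
    rw [Finset.mem_map]
    exact ⟨e v, h1, e.symm_apply_apply v⟩
  · right
    refine ⟨e.symm u, ?_, ?_⟩
    · rw [Finset.mem_map]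
      exact ⟨u, hu, rfl⟩
    · have := e.symm.map_adj_iff.mpr hadj
      rw [e.symm_apply_apply] at this
      exact this

/-- For every `k` there is a connected cubic graph on `(k+1) * 20` vertices all of whose
dominating sets have at least `7 (k+1)` vertices. -/
theorem exists_ring (k : ℕ) : ∃ G : SimpleGraph (Fin ((k + 1) * 20)),
    G.Connected ∧ IsCubic G ∧ ∀ D, IsDominating G D → 7 * (k + 1) ≤ D.card := by
  classical
  let e : Fin (k + 1) × Fin 20 ≃ Fin ((k + 1) * 20) := finProdFinEquiv
  let φ : ring k ≃g (ring k).map e.toEmbedding := SimpleGraph.Iso.map e (ring k)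
  refine ⟨(ring k).map e.toEmbedding, ?_, iso_cubic φ (ring_cubic k), ?_⟩
  · exact φ.connected_iff.mp (ring_connected k)
  · intro D hD
    have h := ring_lower k _ (iso_dominating φ D hD)
    rwa [Finset.card_map] at h

end Pool.Agent.H94.Dom
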